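import Pool.Agent.H.MP_8be301_an.CX.Gr

/-!
# Abelian groups have subexponential growth  (module Ab)
-/

set_option autoImplicit false

namespace Pool.Agent.H.MP_8be301_an.CX

open scoped Pointwise in
open Classical in
theorem card_pow_le {Γ : Type*} [CommGroup Γ] (S : Finset Γ) (n : ℕ) :
    (S ^ n).card ≤ (n + 1) ^ S.card := by
  have h : S ^ n ⊆ (Finset.univ : Finset (S → Fin (n + 1))).image
      (fun f => ∏ s : S, (s : Γ) ^ (f s : ℕ)) := by
    intro x hx
    obtain ⟨f, hf⟩ := Finset.mem_pow.1 hx
    rw [Finset.mem_image]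
    have hc : ∀ s : S, (Finset.univ.filter fun i => f i = s).card < n + 1 := fun s =>
      Nat.lt_succ_of_le ((Finset.card_filter_le _ _).trans (by simp))
    refine ⟨fun s => ⟨(Finset.univ.filter fun i => f i = s).card, hc s⟩, Finset.mem_univ _, ?_⟩
    rw [← hf, List.prod_ofFn, ← Finset.prod_fiberwise' Finset.univ f (fun s : S => (s : Γ))]
    refine Finset.prod_congr rfl fun s _ => ?_
    rw [Finset.prod_const]
  refine (Finset.card_le_card h).trans (Finset.card_image_le.trans ?_)
  simp

/-- abelian groups have subexponential growth -/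
theorem subExp_comm (Γ : Type*) [CommGroup Γ] : SubExp Γ := by
  intro S c hc
  have h1 := tendsto_pow_const_div_const_pow_of_one_lt S.card hc
  have h2 := (h1.comp (Filter.tendsto_add_atTop_nat 1)).eventually
    (gt_mem_nhds (show (0 : ℝ) < 1 / c by positivity))
  obtain ⟨N, hN⟩ := Filter.eventually_atTop.1 h2
  refine ⟨N, fun n hn => ?_⟩
  have h3 := hN n hn
  simp only [Function.comp_apply] at h3
  have hc0 : 0 < c := by linarith
  rw [div_lt_div_iff₀ (pow_pos hc0 _) hc0, pow_succ, one_mul] at h3
  have h4 : (((n + 1 : ℕ) : ℝ)) ^ S.card ≤ c ^ n :=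
    le_of_lt (lt_of_mul_lt_mul_right h3 hc0.le)
  refine le_trans ?_ h4
  have h5 := card_pow_le S n
  exact_mod_cast h5

end Pool.Agent.H.MP_8be301_an.CX
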