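import Pool.Agent.H.MP_8be301_an.CX.Kl

/-!
# The preorder of the type monoid  (module Lm)

`LeM ρ x y`: `x = ∑ z i` and `∑ ρ (g i) (z i) ≤ y`. `trans`: `x = ∑ z i`, `∑ ρ (g i) (z i) + w = y = ∑ z' k`, `∑ ρ (h k) (z' k) ≤ z`; `refi_fin`
(add one more index with the element `w`; all index types `Fin (n + 1)` after adding a zero element) gives `ρ (g i) (z i) = ∑ k, c i k`,
`z' k = ∑ i, c i k + c' k`; the pieces `ρ (g i)⁻¹ (c i k)`, moved by `h k * g i`.
-/

set_option autoImplicit false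

namespace Pool.Agent.H.MP_8be301_an.CX

open Pool.Agent.H.MP_8be301_an.DP

/-- actions of a group on a commutative monoid by homomorphisms -/
structure Ac (Γ V : Type*) [Group Γ] [AddCommMonoid V] where
  /-- the maps -/
  f : Γ → V →+ V
  one : ∀ x, f 1 x = x
  mul : ∀ g h x, f (g * h) x = f g (f h x)

instance {Γ V : Type*} [Group Γ] [AddCommMonoid V] : CoeFun (Ac Γ V) (fun _ => Γ → V →+ V) :=
  ⟨Ac.f⟩

variable {V : Type*} [AddCommMonoid V] {Γ : Type*} [Group Γ] {ρ : Ac Γ V}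

/-- `x` can be cut into finitely many pieces that are moved by the group into `y` -/
def LeM (ρ : Ac Γ V) (x y : V) : Prop := ∃ (n : ℕ) (z : Fin n → V) (g : Fin n → Γ),
  x = ∑ i, z i ∧ Le (∑ i, ρ (g i) (z i)) y

private theorem Lm_fin {ι : Type*} [Fintype ι] {x y : V} (z : ι → V) (g : ι → Γ)
    (h : x = ∑ i, z i) (h' : Le (∑ i, ρ (g i) (z i)) y) : LeM ρ x y := by
  refine ⟨Fintype.card ι, z ∘ (Fintype.equivFin ι).symm, g ∘ (Fintype.equivFin ι).symm, ?_, ?_⟩
  · rw [h]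
    exact (Equiv.sum_comp (Fintype.equivFin ι).symm z).symm
  · have e : ∑ i, ρ ((g ∘ (Fintype.equivFin ι).symm) i) ((z ∘ (Fintype.equivFin ι).symm) i) =
        ∑ i, ρ (g i) (z i) :=
      Equiv.sum_comp (Fintype.equivFin ι).symm (fun i => ρ (g i) (z i))
    rw [e]
    exact h'

private theorem Lm_inv (g : Γ) (x : V) : ρ g⁻¹ (ρ g x) = x := by
  rw [← ρ.mul, inv_mul_cancel, ρ.one]

private theorem Lm_inv' (g : Γ) (x : V) : ρ g (ρ g⁻¹ x) = x := by
  rw [← ρ.mul, mul_inv_cancel, ρ.one]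

private theorem Lm_sum {ι : Type*} (s : Finset ι) {x y : ι → V} (h : ∀ i ∈ s, Le (x i) (y i)) :
    Le (∑ i ∈ s, x i) (∑ i ∈ s, y i) := by
  classical
  induction s using Finset.induction_on with
  | empty => exact Le.refl _
  | insert a s ha ih =>
    rw [Finset.sum_insert ha, Finset.sum_insert ha]
    exact Le.add (h a (Finset.mem_insert_self a s)) (ih fun i hi => h i (Finset.mem_insert_of_mem hi))

private theorem Lm_map (f : V →+ V) {x y : V} (h : Le x y) : Le (f x) (f y) := by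
  obtain ⟨z, rfl⟩ := h
  exact ⟨f z, (map_add f x z).symm⟩

theorem LeM.of_le {x y : V} (h : Le x y) : LeM ρ x y := by
  refine Lm_fin (ι := Unit) (fun _ => x) (fun _ => 1) (by simp) ?_
  have e : ∑ _i : Unit, ρ (1 : Γ) x = x := by
    simp [ρ.one]
  rw [e]
  exact h

theorem LeM.act (g : Γ) (x : V) : LeM ρ (ρ g x) x := by
  refine Lm_fin (ι := Unit) (fun _ => ρ g x) (fun _ => g⁻¹) (by simp) ?_
  have e : ∑ _i : Unit, ρ g⁻¹ (ρ g x) = x := by
    simp [Lm_inv]
  rw [e]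
  exact Le.refl x

theorem LeM.act' (g : Γ) (x : V) : LeM ρ x (ρ g x) := by
  refine Lm_fin (ι := Unit) (fun _ => x) (fun _ => g) (by simp) ?_
  have e : ∑ _i : Unit, ρ g x = ρ g x := by
    simp
  rw [e]
  exact Le.refl _

theorem LeM.trans (hV : Refi V) {x y z : V} (h : LeM ρ x y) (h' : LeM ρ y z) : LeM ρ x z := by
  obtain ⟨n, u, g, hx, w, hw⟩ := h
  obtain ⟨m, u', k, hy, hz⟩ := h'
  obtain ⟨a, ha⟩ : ∃ a : Option (Fin n) → V, a = fun o => o.elim w (fun i => ρ (g i) (u i)) :=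
    ⟨_, rfl⟩
  obtain ⟨b, hb⟩ : ∃ b : Option (Fin m) → V, b = fun o => o.elim 0 u' := ⟨_, rfl⟩
  obtain ⟨q, hq⟩ : ∃ q : Option (Fin m) → Γ, q = fun o => o.elim 1 k := ⟨_, rfl⟩
  have hab : ∑ i, a i = ∑ j, b j := by
    rw [Fintype.sum_option, Fintype.sum_option, ha, hb]
    simp only [Option.elim_none, Option.elim_some]
    rw [zero_add, ← hy, ← hw, add_comm]
  obtain ⟨c, hc, hc'⟩ := refi_fin hV hab
  refine Lm_fin (ι := Fin n × Option (Fin m)) (fun e => ρ (g e.1)⁻¹ (c (some e.1) e.2))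
    (fun e => q e.2 * g e.1) ?_ ?_
  · rw [Fintype.sum_prod_type, hx]
    refine Finset.sum_congr rfl fun i _ => ?_
    have h1 := hc (some i)
    rw [ha] at h1
    simp only [Option.elim_some] at h1
    simp only
    rw [← map_sum, ← h1, Lm_inv]
  · have e1 : ∑ e : Fin n × Option (Fin m), ρ (q e.2 * g e.1) (ρ (g e.1)⁻¹ (c (some e.1) e.2)) =
        ∑ j, ρ (q j) (∑ i, c (some i) j) := by
      rw [Fintype.sum_prod_type, Finset.sum_comm]
      refine Finset.sum_congr rfl fun j _ => ?_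
      rw [map_sum]
      refine Finset.sum_congr rfl fun i _ => ?_
      rw [ρ.mul, Lm_inv']
    rw [e1]
    have e2 : Le (∑ j, ρ (q j) (∑ i, c (some i) j)) (∑ j, ρ (q j) (b j)) := by
      refine Lm_sum _ fun j _ => Lm_map _ ⟨c none j, ?_⟩
      rw [hc' j, Fintype.sum_option, add_comm]
    refine e2.trans ?_
    have e3 : ∑ j, ρ (q j) (b j) = ∑ i, ρ (k i) (u' i) := by
      rw [Fintype.sum_option, hb, hq]
      simp
    rw [e3]
    exact hz

theorem LeM.add {x y x' y' : V} (h : LeM ρ x y) (h' : LeM ρ x' y') :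
    LeM ρ (x + x') (y + y') := by
  obtain ⟨n, u, g, hx, hu⟩ := h
  obtain ⟨m, u', k, hx', hu'⟩ := h'
  refine Lm_fin (ι := Fin n ⊕ Fin m) (Sum.elim u u') (Sum.elim g k) ?_ ?_
  · rw [Fintype.sum_sum_type]
    simp only [Sum.elim_inl, Sum.elim_inr]
    rw [hx, hx']
  · rw [Fintype.sum_sum_type]
    simp only [Sum.elim_inl, Sum.elim_inr]
    exact Le.add hu hu'

theorem LeM.nsmul {x y : V} (n : ℕ) (h : LeM ρ x y) : LeM ρ (n • x) (n • y) := by
  induction n with
  | zero =>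
    rw [zero_nsmul, zero_nsmul]
    exact LeM.of_le (Le.refl 0)
  | succ n ih =>
    rw [succ_nsmul, succ_nsmul]
    exact ih.add h

theorem LeM.sum {ι : Type*} (s : Finset ι) {x y : ι → V} (h : ∀ i ∈ s, LeM ρ (x i) (y i)) :
    LeM ρ (∑ i ∈ s, x i) (∑ i ∈ s, y i) := by
  classical
  induction s using Finset.induction_on with
  | empty => exact LeM.of_le (Le.refl 0)
  | insert a s ha ih =>
    rw [Finset.sum_insert ha, Finset.sum_insert ha]
    exact (h a (Finset.mem_insert_self a s)).add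
      (ih fun i hi => h i (Finset.mem_insert_of_mem hi))

end Pool.Agent.H.MP_8be301_an.CX
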