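import Pool.Agent.H.MP_8be301_an.DP.RefL
import Pool.Agent.H.MP_8be301_an.CX.Lm

/-!
# The action on the classes of projections  (module Act)

`exists_push`: a star homomorphism `f` maps the class of `P` to the class of `P.map f` (`Quotient.map` on `PM`; `cl_eq`, `cl_add`:
`fromBlocks` and `map` commute, `conjTranspose` and `map` commute); `c1`: `Matrix.of` constant. `exists_rho`: the push maps
of `α g` preserve `W D` (closure induction), compose correctly on the generators `c1 q`, hence on `W D`.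
-/

set_option autoImplicit false

namespace Pool.Agent.H.MP_8be301_an.CX

open Pool.Agent.H.MP_8be301_an.RD Pool.Agent.H.MP_8be301_an.DP

variable {D B : Type*} [CStarAlgebra D] [CStarAlgebra B]

theorem pj_map (f : D →⋆ₐ[ℂ] B) {q : D} (hq : Pj q) : Pj (f q) :=
  ⟨by rw [← map_mul, hq.1], by rw [← map_star, hq.2]⟩

theorem pj_aut (f : D ≃⋆ₐ[ℂ] D) {q : D} (hq : Pj q) : Pj (f q) :=
  ⟨by rw [← map_mul, hq.1], by rw [← map_star, hq.2]⟩

/-- the class of a projection as an element of `W D` -/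
noncomputable def cW (q : D) (hq : Pj q) : W D := ⟨c1 q, c1_mem hq⟩

theorem Act_conj (f : D →⋆ₐ[ℂ] B) {ι κ : Type*} (M : Matrix ι κ D) :
    (M.conjTranspose).map f = (M.map f).conjTranspose :=
  Matrix.conjTranspose_map (f := f) (fun x => map_star f x)

theorem Act_mul (f : D →⋆ₐ[ℂ] B) {ι κ μ : Type*} [Fintype κ] (M : Matrix ι κ D) (N : Matrix κ μ D) :
    (M * N).map f = M.map f * N.map f := by
  ext i j
  simp [Matrix.mul_apply, Matrix.map_apply]

theorem Act_isP (f : D →⋆ₐ[ℂ] B) {ι : Type*} [Fintype ι] {P : Matrix ι ι D} (h : IsP P) :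
    IsP (P.map f) :=
  ⟨by rw [← Act_mul, h.1], by rw [← Act_conj, h.2]⟩

theorem Act_meq (f : D →⋆ₐ[ℂ] B) {ι κ : Type*} [Fintype ι] [Fintype κ] {P : Matrix ι ι D}
    {Q : Matrix κ κ D} (h : MEq P Q) : MEq (P.map f) (Q.map f) := by
  obtain ⟨v, h1, h2⟩ := h
  exact ⟨v.map f, by rw [← Act_conj, ← Act_mul, h1], by rw [← Act_conj, ← Act_mul, h2]⟩

/-- the map on classes -/
noncomputable def Act_F (f : D →⋆ₐ[ℂ] B) : VA D → VA B :=
  Quotient.lift (fun x : PM D => cl (x.P.map f) (Act_isP f x.h))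
    (fun _ _ h => (cl_eq _ _).2 (Act_meq f h))

theorem Act_cl (f : D →⋆ₐ[ℂ] B) {ι : Type*} [Fintype ι] {P : Matrix ι ι D} (h : IsP P) :
    Act_F f (cl P h) = cl (P.map f) (Act_isP f h) := by
  have h1 : Act_F f (cl P h) = cl ((P.submatrix (Fintype.equivFin ι).symm
      (Fintype.equivFin ι).symm).map f) (Act_isP f (h.sub _)) := rfl
  rw [h1]
  exact ((cl_eq _ _).2 (MEq.sub (Act_isP f h) (Fintype.equivFin ι).symm)).symm

theorem exists_push (f : D →⋆ₐ[ℂ] B) : ∃ F : VA D →+ VA B, ∀ q : D, Pj q →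
    F (c1 q) = c1 (f q) := by
  refine ⟨⟨⟨Act_F f, ?_⟩, ?_⟩, ?_⟩
  · have h0 : (0 : VA D) = cl (0 : Matrix Empty Empty D) (IsP_zero _) := (cl_zero Empty).symm
    rw [h0, Act_cl, ← cl_zero Empty]
    exact Ref1_cong _ _ (by ext i; exact i.elim)
  · intro x y
    obtain ⟨n, P, hP, rfl⟩ := cl_surj x
    obtain ⟨m, Q, hQ, rfl⟩ := cl_surj y
    show Act_F f (cl P hP + cl Q hQ) = Act_F f (cl P hP) + Act_F f (cl Q hQ)
    rw [cl_add, Act_cl, Act_cl, Act_cl, cl_add]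
    refine Ref1_cong _ _ ?_
    rw [Matrix.fromBlocks_map, Matrix.map_zero f (map_zero f), Matrix.map_zero f (map_zero f)]
  · intro q hq
    show Act_F f (c1 q) = c1 (f q)
    rw [c1_eq hq, Act_cl, c1_eq (pj_map f hq)]
    exact Ref1_cong _ _ (by ext i j; rfl)

theorem exists_rho {Γ : Type*} [Group Γ] (α : Γ →* (D ≃⋆ₐ[ℂ] D)) : ∃ ρ : Ac Γ (W D),
    ∀ (g : Γ) (q : D) (hq : Pj q), ρ g (cW q hq) = cW (α g q) (pj_aut _ hq) := by
  have h1 : ∀ g : Γ, ∃ F : VA D →+ VA D, ∀ q : D, Pj q → F (c1 q) = c1 (α g q) := fun g =>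
    exists_push (D := D) (B := D) ((α g : D ≃⋆ₐ[ℂ] D) : D →⋆ₐ[ℂ] D)
  choose F hF using h1
  have hW : ∀ (g : Γ) (x : W D), F g (x : VA D) ∈ W D := by
    rintro g ⟨x, hx⟩
    obtain ⟨k, p, hp, rfl⟩ := W_fin hx
    show F g (∑ i, c1 (p i)) ∈ W D
    rw [map_sum]
    refine AddSubmonoid.sum_mem _ fun i _ => ?_
    rw [hF g _ (hp i)]
    exact c1_mem (pj_aut _ (hp i))
  refine ⟨⟨fun g => ((F g).comp (W D).subtype).codRestrict (W D) (hW g), ?_, ?_⟩, ?_⟩
  · rintro ⟨x, hx⟩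
    obtain ⟨k, p, hp, rfl⟩ := W_fin hx
    refine Subtype.ext ?_
    show F 1 (∑ i, c1 (p i)) = ∑ i, c1 (p i)
    rw [map_sum]
    refine Finset.sum_congr rfl fun i _ => ?_
    rw [hF 1 _ (hp i), map_one]
    rfl
  · rintro g h ⟨x, hx⟩
    obtain ⟨k, p, hp, rfl⟩ := W_fin hx
    refine Subtype.ext ?_
    show F (g * h) (∑ i, c1 (p i)) = F g (F h (∑ i, c1 (p i)))
    rw [map_sum, map_sum, map_sum]
    refine Finset.sum_congr rfl fun i _ => ?_
    rw [hF (g * h) _ (hp i), hF h _ (hp i), hF g _ (pj_aut _ (hp i)), map_mul]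
    rfl
  · intro g q hq
    refine Subtype.ext ?_
    show F g (c1 q) = c1 (α g q)
    exact hF g q hq

/-- the action on `W D` -/
noncomputable def rho {Γ : Type*} [Group Γ] (α : Γ →* (D ≃⋆ₐ[ℂ] D)) : Ac Γ (W D) :=
  (exists_rho α).choose

theorem rho_c {Γ : Type*} [Group Γ] (α : Γ →* (D ≃⋆ₐ[ℂ] D)) (g : Γ) (q : D) (hq : Pj q) :
    rho α g (cW q hq) = cW (α g q) (pj_aut _ hq) := (exists_rho α).choose_spec g q hq

end Pool.Agent.H.MP_8be301_an.CX
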