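import Pool.Agent.H.MP_8be301_an.CX.Rk
import Pool.Agent.H.MP_8be301_an.RD.Conn
import Pool.Agent.H.MP_8be301_an.RD.Hp

/-!
# AF algebras: approximation of projections and elements  (module AfD)

`AF D`: finite sets are approximated by finite dimensional subalgebras (`= AF` for separable algebras).
`fin_spec`: `FD n` is finite dimensional, so `x` is a root of a nonzero polynomial and the spectrum of `φ x` is finite.
`rr0_af`: approximate `x = star x` by `φ y`, replace `y` by `(y + star y) / 2`.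
`near_proj`: `x ∈ FD n` self-adjoint, `‖φ x - q‖ ≤ η < 1/4`, `q` a projection of `D`: there is a projection `Q` of `FD n` with
`‖φ Q - q‖ ≤ 4 η` or so, and `P * Q = Q` if `P * x = x`: `Q` = spectral projection: `φ x` has finite spectrum contained in
`[-η, η] ∪ [1 - η, 1 + η]`; take a real polynomial `f` with `f = 0` resp. `1` on the points of the spectrum near 0 resp. 1 and `f 0 = 0`
(Lagrange interpolation), `Q = f (x)` (polynomial in `x`; `φ Q = f (φ x) = cfc f (φ x)`; `Q` is a projection because `φ` is injective);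
`‖φ Q - φ x‖ ≤ η`.
`near_unitary`: projections `p, q` of `D` with `‖p - q‖ ≤ η ≤ 1/4`: `z = q * p + (1 - q) * (1 - p)`, `‖z - 1‖ ≤ 2 η`, `z` is a unit,
`c = z * (star z * z) ^ (-1/2)` (`invSqrt`) is unitary, `c * p * star c = q`, `‖c - 1‖ ≤ 8 η` or so (`K η` with a universal constant).
`af_proj`: approximate `p`, `q i` by `φ x₀`, `φ x_i` (self-adjoint parts); `P` from `near_proj` for `p`; `c` with `c * φ P * star c = p` close to 1;
`star c * q i * c ≤ φ P` is close to `φ (P * x_i * P)`, `near_proj` gives `Q i` with `P * Q i = Q i`.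
`af_elt`: the same with two projections `P, P₂`, unitaries `c, c₂`, `w = c * φ (P * Y * P₂) * star c₂`; `star w * w = c₂ * φ (..) * star c₂` has finite
spectrum.
-/

set_option autoImplicit false

namespace Pool.Agent.H.MP_8be301_an.CX

open Pool.Agent.H.MP_8be301_an.RD Pool.Agent.H.MP_8be301_an.DP

/-- AF algebras: every finite subset is approximated by a finite dimensional subalgebra -/
def AF (D : Type*) [CStarAlgebra D] : Prop := ∀ (F : Finset D) (ε : ℝ), 0 < ε →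
  ∃ (k : ℕ) (n : Fin k → ℕ) (φ : FD n →⋆ₐ[ℂ] D), Function.Injective φ ∧
    ∀ a ∈ F, ∃ x : FD n, ‖a - φ x‖ < ε

variable {D : Type*} [CStarAlgebra D]

/-- algebraic elements have finite spectrum -/
theorem AfD_fin {B : Type*} [Ring B] [Algebra ℂ B] {a : B} {p : Polynomial ℂ} (hp : p ≠ 0)
    (h : Polynomial.aeval a p = 0) : (spectrum ℂ a).Finite := by
  rcases subsingleton_or_nontrivial B with hB | hB
  · rw [spectrum.of_subsingleton]
    exact Set.finite_empty
  · have h1 := spectrum.subset_polynomial_aeval a p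
    rw [h, spectrum.zero_eq] at h1
    refine (p.roots.toFinset.finite_toSet).subset fun z hz => ?_
    have h2 := h1 (Set.mem_image_of_mem _ hz)
    rw [Set.mem_singleton_iff] at h2
    rw [Finset.mem_coe, Multiset.mem_toFinset, Polynomial.mem_roots hp]
    exact h2

theorem fin_spec {k : ℕ} {n : Fin k → ℕ} (φ : FD n →⋆ₐ[ℂ] D) (x : FD n) :
    (quasispectrum ℂ (φ x)).Finite := by
  have hint : IsIntegral ℂ x := Algebra.IsIntegral.isIntegral x
  have h1 : minpoly ℂ x ≠ 0 := minpoly.ne_zero hint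
  have h2 : Polynomial.aeval (φ x) (minpoly ℂ x) = 0 := by
    rw [Polynomial.aeval_algHom_apply φ x, minpoly.aeval, map_zero]
  rw [quasispectrum_eq_spectrum_union_zero]
  exact (AfD_fin h1 h2).union (Set.finite_singleton 0)

/-- self-adjoint elements are approximated by self-adjoint elements -/
theorem AfD_sa {k : ℕ} {n : Fin k → ℕ} (φ : FD n →⋆ₐ[ℂ] D) {a : D} (ha : star a = a) {x : FD n}
    {ε : ℝ} (h : ‖a - φ x‖ < ε) : ∃ y : FD n, star y = y ∧ ‖φ y - a‖ < ε := by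
  refine ⟨(1 / 2 : ℂ) • (x + star x), ?_, ?_⟩
  · rw [star_smul, star_add, star_star, add_comm]
    congr 1
    simp
  · have e : φ ((1 / 2 : ℂ) • (x + star x)) - a = (1 / 2 : ℂ) • ((φ x - a) + star (φ x - a)) := by
      rw [map_smul, map_add, map_star, star_sub, ha, smul_add, smul_add, smul_sub, smul_sub]
      have e2 : a = (1 / 2 : ℂ) • a + (1 / 2 : ℂ) • a := by
        rw [← add_smul]
        norm_num
      nth_rewrite 1 [e2]
      abel
    rw [e, norm_smul]
    have h1 : ‖(φ x - a) + star (φ x - a)‖ ≤ ‖φ x - a‖ + ‖φ x - a‖ := by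
      refine (norm_add_le _ _).trans ?_
      rw [norm_star]
    rw [norm_sub_rev] at h
    have h2 : ‖(1 / 2 : ℂ)‖ = 1 / 2 := by norm_num
    rw [h2]
    linarith

theorem rr0_af (hD : AF D) : RR0 D := by
  intro x hx ε hε
  obtain ⟨k, n, φ, hφ, h⟩ := hD {x} ε hε
  obtain ⟨y, hy⟩ := h x (Finset.mem_singleton_self x)
  obtain ⟨z, hz, hzx⟩ := AfD_sa φ hx.star_eq hy
  refine ⟨φ z, ?_, fin_spec φ z, ?_⟩
  · show star (φ z) = φ z
    rw [← map_star, hz]
  · rwa [norm_sub_rev]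

theorem AfD_norm {q : D} (hq : Pj q) : ‖q‖ ≤ 1 := by
  have h1 : ‖star q * q‖ = ‖q‖ * ‖q‖ := CStarRing.norm_star_mul_self
  rw [hq.2, hq.1] at h1
  nlinarith [norm_nonneg q]

/-- inverse square roots close to one -/
theorem AfD_sqr {c : D} (hc : star c = c) (h : ‖c - 1‖ ≤ 1 / 2) : ∃ t : D, star t = t ∧
    t * c * t = 1 ∧ (∀ x : D, x * c = c * x → x * t = t * x) ∧ ‖t - 1‖ ≤ ‖c - 1‖ := by
  have hcs : IsSelfAdjoint c := hc
  have hs : ∀ x ∈ spectrum ℝ c, |x - 1| ≤ ‖c - 1‖ := by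
    intro x hx
    have h1 := norm_apply_le_norm_cfc (fun y : ℝ => y - 1) c hx
    rwa [cfc_sub (fun y : ℝ => y) (fun _ : ℝ => (1 : ℝ)) c, cfc_id' ℝ c, cfc_const_one ℝ c,
      Real.norm_eq_abs] at h1
  have hs2 : ∀ x ∈ spectrum ℝ c, 1 / 2 ≤ x := by
    intro x hx
    have h1 := (abs_le.1 ((hs x hx).trans h)).1
    linarith
  have hcont : ContinuousOn (fun x : ℝ => (Real.sqrt x)⁻¹) (spectrum ℝ c) := by
    refine ContinuousOn.inv₀ Real.continuous_sqrt.continuousOn fun x hx => ?_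
    have h1 := hs2 x hx
    exact (Real.sqrt_pos.2 (by linarith)).ne'
  obtain ⟨f, hf⟩ : ∃ f : ℝ → ℝ, f = fun x : ℝ => (Real.sqrt x)⁻¹ := ⟨_, rfl⟩
  rw [← hf] at hcont
  refine ⟨cfc f c, cfc_predicate f c, ?_, ?_, ?_⟩
  · have e : cfc f c * c * cfc f c = cfc (fun x : ℝ => f x * x * f x) c := by
      rw [cfc_mul (fun x : ℝ => f x * x) f c (hcont.mul continuousOn_id) hcont,
        cfc_mul f (fun x : ℝ => x) c hcont continuousOn_id, cfc_id' ℝ c]
    rw [e, cfc_congr (g := fun _ : ℝ => (1 : ℝ)), cfc_const_one ℝ c]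
    intro x hx
    have hx0 : 0 < x := by
      have h1 := hs2 x hx
      linarith
    have hx1 : Real.sqrt x ≠ 0 := (Real.sqrt_pos.2 hx0).ne'
    have hx2 : Real.sqrt x * Real.sqrt x = x := Real.mul_self_sqrt hx0.le
    rw [hf]
    show (Real.sqrt x)⁻¹ * x * (Real.sqrt x)⁻¹ = 1
    field_simp
    rw [sq, hx2]
  · intro x hx
    have h1 : Commute c x := hx.symm
    exact (h1.cfc_real f).symm
  · have e : cfc f c - 1 = cfc (fun x : ℝ => f x - 1) c := by
      rw [cfc_sub f (fun _ : ℝ => (1 : ℝ)) c hcont continuousOn_const, cfc_const_one ℝ c]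
    rw [e]
    refine norm_cfc_le (norm_nonneg _) fun x hx => ?_
    refine le_trans ?_ (hs x hx)
    have hx0 := hs2 x hx
    have hx2 : Real.sqrt x * Real.sqrt x = x := Real.mul_self_sqrt (by linarith)
    have hr : 0 < Real.sqrt x := Real.sqrt_pos.2 (by linarith)
    have hr2 : 1 / 2 ≤ Real.sqrt x := by
      by_contra hlt
      push Not at hlt
      nlinarith
    have hr3 : 1 ≤ Real.sqrt x * (1 + Real.sqrt x) := by
      rw [mul_add, mul_one, hx2]
      linarith
    rw [hf, Real.norm_eq_abs]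
    show |(Real.sqrt x)⁻¹ - 1| ≤ |x - 1|
    have e3 : x - 1 = -(((Real.sqrt x)⁻¹ - 1) * (Real.sqrt x * (1 + Real.sqrt x))) := by
      have e4 : (Real.sqrt x)⁻¹ * Real.sqrt x = 1 := inv_mul_cancel₀ hr.ne'
      linear_combination (-1 : ℝ) * hx2 + (1 + Real.sqrt x) * e4
    rw [e3, abs_neg, abs_mul, abs_of_nonneg (by positivity : 0 ≤ Real.sqrt x * (1 + Real.sqrt x))]
    nlinarith [abs_nonneg ((Real.sqrt x)⁻¹ - 1)]

theorem near_unitary {η : ℝ} (hη : 0 < η) : ∃ δ : ℝ, 0 < δ ∧ ∀ p q : D, Pj p → Pj q →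
    ‖p - q‖ < δ → ∃ c : D, star c * c = 1 ∧ c * star c = 1 ∧ c * p * star c = q ∧
      ‖c - 1‖ < η := by
  refine ⟨min (1 / 2) (η / 5), lt_min (by norm_num) (by positivity), ?_⟩
  intro p q hp hq hpq
  have hd1 : ‖p - q‖ ≤ 1 / 2 := hpq.le.trans (min_le_left _ _)
  have hd2 : ‖p - q‖ < η / 5 := hpq.trans_le (min_le_right _ _)
  have hp1 : p * p = p := hp.1
  have hq1 : q * q = q := hq.1
  have hp2 : ∀ x : D, p * (p * x) = p * x := fun x => by rw [← mul_assoc, hp1]
  have hq2 : ∀ x : D, q * (q * x) = q * x := fun x => by rw [← mul_assoc, hq1]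
  have hps : star p = p := hp.2
  have hqs : star q = q := hq.2
  set z : D := q * p + (1 - q) * (1 - p) with hz
  set c : D := 1 - (p - q) * (p - q) with hc
  have hzs : star z = p * q + (1 - p) * (1 - q) := by
    rw [hz]
    simp only [star_add, star_mul, star_sub, star_one, hps, hqs]
  have h1 : star z * z = c := by
    rw [hzs, hz, hc]
    simp only [mul_add, add_mul, mul_sub, sub_mul, mul_one, one_mul, mul_assoc, hp1, hq1, hp2, hq2]
    abel
  have h2 : z * star z = c := by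
    rw [hzs, hz, hc]
    simp only [mul_add, add_mul, mul_sub, sub_mul, mul_one, one_mul, mul_assoc, hp1, hq1, hp2, hq2]
    abel
  have h3 : z * p = q * z := by
    rw [hz]
    simp only [mul_add, add_mul, mul_sub, sub_mul, mul_one, one_mul, mul_assoc, hp1, hq1, hp2, hq2]
    abel
  have hzc : z * c = c * z := by
    nth_rewrite 1 [← h1]
    rw [← mul_assoc, h2]
  have hz1 : z - 1 = q * (p - q) + q * (p - q) - (p - q) := by
    rw [hz]
    simp only [mul_add, add_mul, mul_sub, sub_mul, mul_one, one_mul, mul_assoc, hp1, hq1, hp2, hq2]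
    abel
  have hqn := AfD_norm hq
  have hnz : ‖z - 1‖ ≤ 3 * ‖p - q‖ := by
    rw [hz1]
    have e1 : ‖q * (p - q)‖ ≤ ‖p - q‖ := by
      refine (norm_mul_le _ _).trans ?_
      nlinarith [norm_nonneg (p - q)]
    have e2 := norm_sub_le (q * (p - q) + q * (p - q)) (p - q)
    have e3 := norm_add_le (q * (p - q)) (q * (p - q))
    linarith
  have hd : ‖c - 1‖ ≤ ‖p - q‖ * ‖p - q‖ := by
    have e : c - 1 = -((p - q) * (p - q)) := by rw [hc]; abel
    rw [e, norm_neg]
    exact norm_mul_le _ _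
  have hd3 : ‖c - 1‖ ≤ ‖p - q‖ / 2 := by nlinarith [norm_nonneg (p - q)]
  have hcs : star c = c := by
    rw [← h1, star_mul, star_star]
  obtain ⟨t, hts, htc, hcomm, htn⟩ := AfD_sqr hcs (by linarith)
  have htz : z * t = t * z := hcomm z hzc
  have htcc : c * t = t * c := hcomm c rfl
  have htt : t * t * c = 1 := by
    rw [mul_assoc, ← htcc, ← mul_assoc, htc]
  have hcp : p * c = c * p := by
    rw [hc]
    simp only [mul_add, add_mul, mul_sub, sub_mul, mul_one, one_mul, mul_assoc, hp1, hq1, hp2, hq2]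
    abel
  have htp : p * t = t * p := hcomm p hcp
  have hzt2 : z * (t * t) = t * t * z := by
    rw [← mul_assoc, htz, mul_assoc, htz, ← mul_assoc]
  refine ⟨z * t, ?_, ?_, ?_, ?_⟩
  · calc star (z * t) * (z * t) = t * (star z * z) * t := by
          rw [star_mul, hts]; noncomm_ring
      _ = 1 := by rw [h1, htc]
  · calc z * t * star (z * t) = z * (t * t) * star z := by
          rw [star_mul, hts]; noncomm_ring
      _ = t * t * (z * star z) := by rw [hzt2, mul_assoc]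
      _ = 1 := by rw [h2, htt]
  · calc z * t * p * star (z * t) = z * (t * p * t) * star z := by
          rw [star_mul, hts]; noncomm_ring
      _ = z * (p * (t * t)) * star z := by rw [← htp]; simp only [mul_assoc]
      _ = (z * p) * (t * t) * star z := by simp only [mul_assoc]
      _ = q * (z * (t * t)) * star z := by rw [h3]; simp only [mul_assoc]
      _ = q * (t * t * (z * star z)) := by rw [hzt2]; simp only [mul_assoc]
      _ = q := by rw [h2, htt, mul_one]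
  · have e : z * t - 1 = (z - 1) * (t - 1) + (z - 1) + (t - 1) := by noncomm_ring
    rw [e]
    have e1 := norm_add_le ((z - 1) * (t - 1) + (z - 1)) (t - 1)
    have e2 := norm_add_le ((z - 1) * (t - 1)) (z - 1)
    have e3 := norm_mul_le (z - 1) (t - 1)
    have e4 : ‖t - 1‖ ≤ ‖p - q‖ / 2 := htn.trans hd3
    have e5 : ‖z - 1‖ * ‖t - 1‖ ≤ 3 * ‖p - q‖ * (1 / 4) := by
      refine mul_le_mul hnz (by linarith) (norm_nonneg _) (by positivity)
    linarith

theorem near_proj {η : ℝ} (hη : 0 < η) : ∃ δ : ℝ, 0 < δ ∧ ∀ (k : ℕ) (n : Fin k → ℕ)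
    (φ : FD n →⋆ₐ[ℂ] D), Function.Injective φ → ∀ (x P : FD n) (q : D), star x = x → Pj q →
      P * x = x → ‖φ x - q‖ < δ → ∃ Q : FD n, PrF Q ∧ P * Q = Q ∧ ‖φ Q - q‖ < η := by
  refine ⟨min 1 (η / 10), lt_min one_pos (by positivity), ?_⟩
  intro k n φ hφ x P q hx hq hPx hd
  obtain ⟨d, hdd⟩ : ∃ d, d = ‖φ x - q‖ := ⟨_, rfl⟩
  rw [← hdd] at hd
  have hd0 : 0 ≤ d := by rw [hdd]; exact norm_nonneg _
  have hd1 : d ≤ 1 := hd.le.trans (min_le_left _ _)
  have hd2 : d < η / 10 := hd.trans_le (min_le_right _ _)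
  obtain ⟨a, ha⟩ : ∃ a, a = φ x := ⟨_, rfl⟩
  have has : IsSelfAdjoint a := by
    show star a = a
    rw [ha, ← map_star, hx]
  have hqn := AfD_norm hq
  have hda : ‖a - q‖ = d := by rw [ha, hdd]
  have han : ‖a‖ ≤ 2 := by
    have e : a = (a - q) + q := by abel
    have e1 := norm_add_le (a - q) q
    rw [← e, hda] at e1
    linarith
  have h4 : ‖a * a - a‖ ≤ 4 * d := by
    have e : a * a - a = (a - q) * a + q * (a - q) - (a - q) := by
      rw [sub_mul, mul_sub, hq.1]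
      abel
    rw [e]
    have e1 := norm_sub_le ((a - q) * a + q * (a - q)) (a - q)
    have e2 := norm_add_le ((a - q) * a) (q * (a - q))
    have e3 : ‖(a - q) * a‖ ≤ d * 2 := by
      refine (norm_mul_le _ _).trans ?_
      rw [hda]
      exact mul_le_mul_of_nonneg_left han hd0
    have e4 : ‖q * (a - q)‖ ≤ 1 * d := by
      refine (norm_mul_le _ _).trans ?_
      rw [hda]
      exact mul_le_mul_of_nonneg_right hqn hd0
    rw [hda] at e1
    linarith
  have hspec : ∀ y ∈ spectrum ℝ a, |y * y - y| ≤ 4 * d := by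
    intro y hy
    have h1 := norm_apply_le_norm_cfc (fun z : ℝ => z * z - z) a hy
    rw [cfc_sub (fun z : ℝ => z * z) (fun z : ℝ => z) a,
      cfc_mul (fun z : ℝ => z) (fun z : ℝ => z) a, cfc_id' ℝ a, Real.norm_eq_abs] at h1
    exact h1.trans h4
  have hfin : (spectrum ℝ a).Finite := by
    rw [ha]
    exact Spec_fin (fin_spec φ x)
  obtain ⟨h, hh⟩ : ∃ h : Polynomial ℝ, ∀ y ∈ spectrum ℝ a,
      Polynomial.eval y h = if 1 / 2 < y then y⁻¹ else 0 := by
    refine ⟨Lagrange.interpolate hfin.toFinset id (fun y => if 1 / 2 < y then y⁻¹ else 0), ?_⟩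
    intro y hy
    have h1 := Lagrange.eval_interpolate_at_node (s := hfin.toFinset) (v := (id : ℝ → ℝ))
      (fun y => if 1 / 2 < y then y⁻¹ else 0) Function.injective_id.injOn
      (hfin.mem_toFinset.2 hy)
    exact h1
  obtain ⟨g, hg⟩ : ∃ g : Polynomial ℝ, g = Polynomial.X * h := ⟨_, rfl⟩
  have hge : ∀ y ∈ spectrum ℝ a, Polynomial.eval y g = if 1 / 2 < y then 1 else 0 := by
    intro y hy
    rw [hg, Polynomial.eval_mul, Polynomial.eval_X, hh y hy]
    by_cases hy2 : 1 / 2 < y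
    · rw [if_pos hy2, if_pos hy2, mul_inv_cancel₀ (by linarith)]
    · rw [if_neg hy2, if_neg hy2, mul_zero]
  obtain ⟨Q, hQ⟩ : ∃ Q : FD n, Q = Polynomial.aeval x (g.map (algebraMap ℝ ℂ)) := ⟨_, rfl⟩
  have hφQ : φ Q = cfc (fun y => Polynomial.eval y g) a := by
    have e1 : φ Q = Polynomial.aeval (φ x) (g.map (algebraMap ℝ ℂ)) := by
      rw [hQ, Polynomial.aeval_algHom_apply φ x]
    rw [e1, Polynomial.aeval_map_algebraMap, ← ha]
    exact (cfc_polynomial g a has).symm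
  have hcg : ContinuousOn (fun y => Polynomial.eval y g) (spectrum ℝ a) := hfin.continuousOn _
  refine ⟨Q, ⟨?_, ?_⟩, ?_, ?_⟩
  · apply hφ
    rw [map_mul, hφQ, ← cfc_mul _ _ a hcg hcg]
    refine cfc_congr fun y hy => ?_
    show Polynomial.eval y g * Polynomial.eval y g = Polynomial.eval y g
    rw [hge y hy]
    split_ifs <;> norm_num
  · apply hφ
    rw [map_star, hφQ]
    exact (cfc_predicate _ a : IsSelfAdjoint (cfc (fun y => Polynomial.eval y g) a)).star_eq
  · rw [hQ, hg, Polynomial.map_mul, Polynomial.map_X, map_mul, Polynomial.aeval_X, ← mul_assoc,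
      hPx]
  · have e : ‖φ Q - a‖ ≤ 8 * d := by
      have e1 : φ Q - a = cfc (fun y => Polynomial.eval y g - y) a := by
        rw [hφQ, cfc_sub _ (fun y : ℝ => y) a hcg continuousOn_id, cfc_id' ℝ a]
      rw [e1]
      refine norm_cfc_le (by positivity) fun y hy => ?_
      rw [Real.norm_eq_abs]
      show |Polynomial.eval y g - y| ≤ 8 * d
      rw [hge y hy]
      have h5 := abs_le.1 (hspec y hy)
      by_cases hy2 : 1 / 2 < y
      · rw [if_pos hy2, abs_le]
        constructor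
        · by_contra hlt
          push Not at hlt
          nlinarith
        · by_contra hlt
          push Not at hlt
          nlinarith
      · rw [if_neg hy2, abs_le]
        push Not at hy2
        constructor
        · by_contra hlt
          push Not at hlt
          nlinarith
        · by_contra hlt
          push Not at hlt
          nlinarith
    have e2 : φ Q - q = (φ Q - a) + (a - q) := by abel
    rw [e2]
    have e3 := norm_add_le (φ Q - a) (a - q)
    rw [hda] at e3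
    linarith

theorem AfD_conj {k : ℕ} {n : Fin k → ℕ} (φ : FD n →⋆ₐ[ℂ] D) {c : D} (h1 : star c * c = 1)
    (h2 : c * star c = 1) : ∃ ψ : FD n →⋆ₐ[ℂ] D, ∀ x, ψ x = c * φ x * star c :=
  ⟨((Unitary.conjStarAlgAut ℂ D ⟨c, Unitary.mem_iff.2 ⟨h1, h2⟩⟩ : D ≃⋆ₐ[ℂ] D) :
    D →⋆ₐ[ℂ] D).comp φ, fun _ => rfl⟩

theorem AfD_conj_inj {k : ℕ} {n : Fin k → ℕ} {φ ψ : FD n →⋆ₐ[ℂ] D} (hφ : Function.Injective φ)
    {c : D} (h1 : star c * c = 1) (h : ∀ x, ψ x = c * φ x * star c) : Function.Injective ψ := by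
  intro x y hxy
  rw [h, h] at hxy
  apply hφ
  calc φ x = (star c * c) * φ x * (star c * c) := by rw [h1, one_mul, mul_one]
    _ = star c * (c * φ x * star c) * c := by simp only [mul_assoc]
    _ = star c * (c * φ y * star c) * c := by rw [hxy]
    _ = (star c * c) * φ y * (star c * c) := by simp only [mul_assoc]
    _ = φ y := by rw [h1, one_mul, mul_one]

theorem AfD_nU {U : D} (hU' : U * star U = 1) (x : D) : ‖x * U‖ = ‖x‖ := by
  have h1 : ‖x * U‖ * ‖x * U‖ = ‖x‖ * ‖x‖ := by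
    rw [← CStarRing.norm_self_mul_star, star_mul, mul_assoc, ← mul_assoc U, hU', one_mul,
      CStarRing.norm_self_mul_star]
  nlinarith [norm_nonneg (x * U), norm_nonneg x]

theorem AfD_Un {U : D} (hU : star U * U = 1) (x : D) : ‖U * x‖ = ‖x‖ := by
  have h1 : ‖U * x‖ * ‖U * x‖ = ‖x‖ * ‖x‖ := by
    rw [← CStarRing.norm_star_mul_self, star_mul, mul_assoc, ← mul_assoc (star U), hU, one_mul,
      CStarRing.norm_star_mul_self]
  nlinarith [norm_nonneg (U * x), norm_nonneg x]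

/-- conjugation by unitaries close to one -/
theorem AfD_close {c c₂ y z : D} (h1 : star c * c = 1) (h2 : star c₂ * c₂ = 1)
    {ε κ : ℝ} (hc : ‖c - 1‖ ≤ κ) (hc₂ : ‖c₂ - 1‖ ≤ κ)
    (hyz : ‖z - y‖ ≤ ε) : ‖c * z * star c₂ - y‖ ≤ ε + 2 * κ * ‖y‖ := by
  have e : c * z * star c₂ - y = c * ((z - y) * star c₂) + (c * (y * star (c₂ - 1)) + (c - 1) * y) := by
    rw [star_sub, star_one]
    noncomm_ring
  have hs : star c₂ * star (star c₂) = 1 := by rw [star_star]; exact h2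
  have n1 : ‖c * ((z - y) * star c₂)‖ = ‖z - y‖ := by rw [AfD_Un h1, AfD_nU hs]
  have n2 : ‖c * (y * star (c₂ - 1))‖ ≤ ‖y‖ * κ := by
    rw [AfD_Un h1]
    refine (norm_mul_le _ _).trans ?_
    rw [norm_star]
    exact mul_le_mul_of_nonneg_left hc₂ (norm_nonneg _)
  have n3 : ‖(c - 1) * y‖ ≤ κ * ‖y‖ := (norm_mul_le _ _).trans
    (mul_le_mul_of_nonneg_right hc (norm_nonneg _))
  have n4 := norm_add_le (c * ((z - y) * star c₂)) (c * (y * star (c₂ - 1)) + (c - 1) * y)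
  have n5 := norm_add_le (c * (y * star (c₂ - 1))) ((c - 1) * y)
  rw [e]
  linarith

/-- compression by projections decreases the norm -/
theorem AfD_comp {p q : D} (hp : Pj p) (hq : Pj q) (x : D) : ‖p * x * q‖ ≤ ‖x‖ := by
  have h1 := norm_mul_le (p * x) q
  have h2 := norm_mul_le p x
  have h3 := AfD_norm hp
  have h4 := AfD_norm hq
  nlinarith [norm_nonneg x, norm_nonneg (p * x), norm_nonneg p, norm_nonneg q]

theorem AfD_pj {k : ℕ} {n : Fin k → ℕ} (φ : FD n →⋆ₐ[ℂ] D) {Q : FD n} (hQ : PrF Q) :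
    Pj (φ Q) :=
  ⟨by rw [← map_mul, hQ.1], by rw [← map_star, hQ.2]⟩

theorem af_proj (hD : AF D) {ι : Type*} [Fintype ι] {p : D} (hp : Pj p) {q : ι → D}
    (hq : ∀ i, Pj (q i)) (hpq : ∀ i, p * q i = q i) {η : ℝ} (hη : 0 < η) :
    ∃ (k : ℕ) (n : Fin k → ℕ) (φ : FD n →⋆ₐ[ℂ] D) (P : FD n) (Q : ι → FD n) (c : D),
      Function.Injective φ ∧ PrF P ∧ (∀ i, PrF (Q i)) ∧ (∀ i, P * Q i = Q i) ∧
      star c * c = 1 ∧ c * star c = 1 ∧ c * φ P * star c = p ∧
      ∀ i, ‖c * φ (Q i) * star c - q i‖ < η := by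
  classical
  obtain ⟨δ₁, hδ₁, H1⟩ := near_proj (D := D) hη
  obtain ⟨δ₂, hδ₂, H2⟩ := near_unitary (D := D) (η := δ₁ / 8) (by positivity)
  obtain ⟨δ₃, hδ₃, H3⟩ := near_proj (D := D) hδ₂
  obtain ⟨k, n, φ, hφ, h⟩ := hD (insert p (Finset.univ.image q)) (min δ₃ (δ₁ / 4))
    (lt_min hδ₃ (by positivity))
  obtain ⟨x₀, hx₀⟩ := h p (Finset.mem_insert_self _ _)
  obtain ⟨y₀, hy₀, hy₀p⟩ := AfD_sa φ hp.2 hx₀
  obtain ⟨P, hP, -, hPp⟩ := H3 k n φ hφ y₀ 1 p hy₀ hp (one_mul _)
    (hy₀p.trans_le (min_le_left _ _))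
  obtain ⟨c, hc1, hc2, hcP, hcn⟩ := H2 (φ P) p (AfD_pj φ hP) hp hPp
  obtain ⟨ψ, hψ⟩ := AfD_conj φ hc1 hc2
  have hψi := AfD_conj_inj hφ hc1 hψ
  have hψP : ψ P = p := by rw [hψ, hcP]
  have key : ∀ i, ∃ Q : FD n, PrF Q ∧ P * Q = Q ∧ ‖ψ Q - q i‖ < η := by
    intro i
    obtain ⟨x, hx⟩ := h (q i) (Finset.mem_insert_of_mem
      (Finset.mem_image_of_mem q (Finset.mem_univ i)))
    obtain ⟨y, hy, hyq⟩ := AfD_sa φ (hq i).2 hx
    have hqp : q i * p = q i := by
      have h1 := congrArg star (hpq i)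
      rwa [star_mul, (hq i).2, hp.2] at h1
    refine H1 k n ψ hψi (P * y * P) P (q i) ?_ (hq i) ?_ ?_
    · rw [star_mul, star_mul, hy, hP.2, mul_assoc]
    · rw [← mul_assoc, ← mul_assoc, hP.1]
    · have e : ψ (P * y * P) - q i = p * (ψ y - q i) * p := by
        rw [map_mul, map_mul, hψP, mul_sub, sub_mul, hpq i, hqp]
      rw [e]
      refine (AfD_comp hp hp _).trans_lt ?_
      rw [hψ]
      refine (AfD_close hc1 hc1 hcn.le hcn.le
        (hyq.le.trans (min_le_right _ _))).trans_lt ?_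
      have h1 := AfD_norm (hq i)
      nlinarith [norm_nonneg (q i)]
  choose Q hQ1 hQ2 hQ3 using key
  refine ⟨k, n, φ, P, Q, c, hφ, hP, hQ1, hQ2, hc1, hc2, hcP, fun i => ?_⟩
  rw [← hψ]
  exact hQ3 i

theorem af_elt (hD : AF D) {p p₂ y : D} (hp : Pj p) (hp₂ : Pj p₂) (h1 : p * y = y)
    (h2 : y * p₂ = y) {ε : ℝ} (hε : 0 < ε) : ∃ w : D, p * w = w ∧ w * p₂ = w ∧ ‖w - y‖ < ε ∧
      (quasispectrum ℂ (star w * w)).Finite := by
  classical
  have hκ : 0 < ε / (8 * (‖y‖ + 1)) := by positivity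
  obtain ⟨δ₂, hδ₂, H2⟩ := near_unitary (D := D) hκ
  obtain ⟨δ₃, hδ₃, H3⟩ := near_proj (D := D) hδ₂
  obtain ⟨k, n, φ, hφ, h⟩ := hD {p, p₂, y} (min δ₃ (ε / 2)) (lt_min hδ₃ (by positivity))
  obtain ⟨x₀, hx₀⟩ := h p (by simp)
  obtain ⟨y₀, hy₀, hy₀p⟩ := AfD_sa φ hp.2 hx₀
  obtain ⟨P, hP, -, hPp⟩ := H3 k n φ hφ y₀ 1 p hy₀ hp (one_mul _)
    (hy₀p.trans_le (min_le_left _ _))
  obtain ⟨c, hc1, hc2, hcP, hcn⟩ := H2 (φ P) p (AfD_pj φ hP) hp hPp
  obtain ⟨x₁, hx₁⟩ := h p₂ (by simp)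
  obtain ⟨y₁, hy₁, hy₁p⟩ := AfD_sa φ hp₂.2 hx₁
  obtain ⟨P₂, hP₂, -, hPp₂⟩ := H3 k n φ hφ y₁ 1 p₂ hy₁ hp₂ (one_mul _)
    (hy₁p.trans_le (min_le_left _ _))
  obtain ⟨c₂, hd1, hd2, hdP, hdn⟩ := H2 (φ P₂) p₂ (AfD_pj φ hP₂) hp₂ hPp₂
  obtain ⟨Y, hY⟩ := h y (by simp)
  obtain ⟨ψ, hψ⟩ := AfD_conj φ hd1 hd2
  obtain ⟨w, hw⟩ : ∃ w, w = c * φ (P * Y * P₂) * star c₂ := ⟨_, rfl⟩
  have hw2 : w = p * (c * φ Y * star c₂) * p₂ := by
    rw [← hcP, ← hdP, hw, map_mul, map_mul]
    calc c * (φ P * φ Y * φ P₂) * star c₂ =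
        c * φ P * 1 * φ Y * 1 * φ P₂ * star c₂ := by simp only [mul_assoc, one_mul, mul_one]
      _ = c * φ P * (star c * c) * φ Y * (star c₂ * c₂) * φ P₂ * star c₂ := by rw [hc1, hd1]
      _ = c * φ P * star c * (c * φ Y * star c₂) * (c₂ * φ P₂ * star c₂) := by
          simp only [mul_assoc]
  refine ⟨w, ?_, ?_, ?_, ?_⟩
  · rw [hw2, ← mul_assoc, ← mul_assoc, hp.1]
  · rw [hw2, mul_assoc, hp₂.1]
  · have e : w - y = p * (c * φ Y * star c₂ - y) * p₂ := by
      rw [hw2, mul_sub, sub_mul, h1, h2]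
    rw [e]
    refine (AfD_comp hp hp₂ _).trans_lt ?_
    rw [norm_sub_rev] at hY
    refine (AfD_close hc1 hd1 hcn.le hdn.le (hY.le.trans (min_le_right _ _))).trans_lt ?_
    have e1 : ε / (8 * (‖y‖ + 1)) * (8 * (‖y‖ + 1)) = ε := div_mul_cancel₀ _ (by positivity)
    nlinarith [norm_nonneg y]
  · have e : star w * w = ψ (star (P * Y * P₂) * (P * Y * P₂)) := by
      rw [hψ, map_mul, map_star, hw, star_mul, star_mul, star_star]
      calc c₂ * (star (φ (P * Y * P₂)) * star c) * (c * φ (P * Y * P₂) * star c₂) =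
          c₂ * star (φ (P * Y * P₂)) * (star c * c) * φ (P * Y * P₂) * star c₂ := by
            simp only [mul_assoc]
        _ = c₂ * (star (φ (P * Y * P₂)) * φ (P * Y * P₂)) * star c₂ := by
            rw [hc1, mul_one]
            simp only [mul_assoc]
    rw [e]
    exact fin_spec ψ _

end Pool.Agent.H.MP_8be301_an.CX
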