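import Pool.Agent.H.MP_8be301_an.CX.Lm

/-!
# Groups of subexponential growth  (module Gr)

`thmM`: iterate: `(k + j) • x ≤_M k • x` for all `j` (`LeM.trans`, `LeM.add`). With `j = k + 2` (so `2 (k + 1)` copies): `(2 (k + 1)) • x = ∑ z i`,
`∑ ρ (g i) (z i) ≤ k • x`. `S` = the finite set of `1` and all `(g i)⁻¹`. `T F = ∑ h ∈ F, ρ h x` for finite `F`. `(2 (k + 1)) • T F =
∑ i, ∑ h ∈ F, ρ h (z i) = ∑ i, ∑ h ∈ F, ρ (h (g i)⁻¹) (ρ (g i) (z i)) ≤ ∑ i, ∑ h ∈ F * S, ρ h (ρ (g i) (z i)) ≤ k • T (F * S)` (`h ↦ h (g i)⁻¹` is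
injective from `F` to `F * S`), so by `hA` (with `n = k`, the elements `2 • T F` and `T (F * S)`) `2 • T F ≤ T (F * S)`. Hence
`2 ^ m • x ≤ T (S ^ m)`. `hΓ` for `S` and `c = 11/10`: there is `m` with `s (2 s + 1) ≤ 2 ^ m`, `s = card (S ^ m) ≥ 1`. `lemK` with `κ = S ^ m`, `d = 2 s + 1`:
`x = ∑ z g`, `(2 s + 1) • z g ≤ ρ g x`. `Y = ∑ ρ g⁻¹ (2 • z g)`: `(2 s + 1) • Y ≤ ∑_g 2 • x = (2 s) • x`, so `Y ≤ x` by `hA` (`n = 2 s`), and `2 • x ≤_M Y`.
-/

set_option autoImplicit false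

namespace Pool.Agent.H.MP_8be301_an.CX

open Pool.Agent.H.MP_8be301_an.DP

open scoped Pointwise in
open Classical in
/-- subexponential growth: the powers of a finite set grow slower than every exponential
function -/
def SubExp (Γ : Type*) [Group Γ] : Prop := ∀ (S : Finset Γ) (c : ℝ), 1 < c →
  ∃ N : ℕ, ∀ n : ℕ, N ≤ n → ((S ^ n).card : ℝ) ≤ c ^ n

/-- almost unperforated -/
def AlmU (V : Type*) [AddCommMonoid V] : Prop :=
  ∀ (n : ℕ) (x y : V), Le ((n + 1) • x) (n • y) → Le x y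

theorem Gr_map {V W : Type*} [AddCommMonoid V] [AddCommMonoid W] (f : V →+ W) {x y : V}
    (h : Le x y) : Le (f x) (f y) := by
  obtain ⟨z, hz⟩ := h
  exact ⟨f z, by rw [← map_add, hz]⟩

theorem Gr_sum {V : Type*} [AddCommMonoid V] {ι : Type*} (s : Finset ι) {x y : ι → V}
    (h : ∀ i ∈ s, Le (x i) (y i)) : Le (∑ i ∈ s, x i) (∑ i ∈ s, y i) := by
  classical
  induction s using Finset.induction_on with
  | empty => exact Le.refl _
  | insert a s ha ih =>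
    rw [Finset.sum_insert ha, Finset.sum_insert ha]
    exact (h a (Finset.mem_insert_self a s)).add
      (ih fun i hi => h i (Finset.mem_insert_of_mem hi))

theorem Gr_sub {V : Type*} [AddCommMonoid V] {ι : Type*} {s t : Finset ι} (hst : s ⊆ t)
    (x : ι → V) : Le (∑ i ∈ s, x i) (∑ i ∈ t, x i) := by
  classical
  refine ⟨∑ i ∈ t \ s, x i, ?_⟩
  rw [add_comm]
  exact Finset.sum_sdiff hst

theorem Gr_smul {V : Type*} [AddCommMonoid V] {a b : ℕ} (h : a ≤ b) (x : V) :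
    Le (a • x) (b • x) := by
  obtain ⟨c, rfl⟩ := Nat.exists_eq_add_of_le h
  exact ⟨c • x, (add_smul a c x).symm⟩

theorem Gr_nsmul {V : Type*} [AddCommMonoid V] (n : ℕ) {x y : V} (h : Le x y) :
    Le (n • x) (n • y) := by
  obtain ⟨z, hz⟩ := h
  exact ⟨n • z, by rw [← nsmul_add, hz]⟩

theorem Gr_iter {V : Type*} [AddCommMonoid V] {Γ : Type*} [Group Γ] {ρ : Ac Γ V}
    (hV : Refi V) {x : V} {k : ℕ} (h : LeM ρ ((k + 1) • x) (k • x)) (j : ℕ) :
    LeM ρ ((k + j) • x) (k • x) := by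
  induction j with
  | zero => exact LeM.of_le (Le.refl _)
  | succ j ih =>
    have h1 : LeM ρ ((k + (j + 1)) • x) ((k + j) • x) := by
      have h2 := h.add (LeM.of_le (ρ := ρ) (Le.refl (j • x)))
      rw [← add_smul, ← add_smul] at h2
      have h3 : k + 1 + j = k + (j + 1) := by ring
      rwa [h3] at h2
    exact LeM.trans hV h1 ih

open scoped Pointwise in
theorem Gr_step {V : Type*} [AddCommMonoid V] {Γ : Type*} [Group Γ] [DecidableEq Γ]
    {ρ : Ac Γ V} (hA : AlmU V) {x : V} {k n : ℕ} {z : Fin n → V} {g : Fin n → Γ}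
    (hz : (k + (k + 2)) • x = ∑ i, z i) (hle : Le (∑ i, ρ (g i) (z i)) (k • x))
    {S : Finset Γ} (hS : ∀ i, (g i)⁻¹ ∈ S) (F : Finset Γ) :
    Le (2 • ∑ h ∈ F, ρ h x) (∑ h ∈ F * S, ρ h x) := by
  refine hA k _ _ ?_
  have h1 : (k + 1) • (2 • ∑ h ∈ F, ρ h x) = ∑ i, ∑ h ∈ F, ρ h (z i) := by
    rw [Finset.sum_comm, ← mul_nsmul, Finset.smul_sum]
    refine Finset.sum_congr rfl fun h _ => ?_
    rw [← map_sum, ← hz, ← map_nsmul]
    congr 2
    ring
  have h2 : ∀ i, Le (∑ h ∈ F, ρ h (z i)) (∑ h ∈ F * S, ρ h (ρ (g i) (z i))) := by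
    intro i
    have h3 : ∑ h ∈ F, ρ h (z i) =
        ∑ h ∈ F.image fun h => h * (g i)⁻¹, ρ h (ρ (g i) (z i)) := by
      rw [Finset.sum_image fun a _ b _ hab => mul_right_cancel hab]
      refine Finset.sum_congr rfl fun h _ => ?_
      rw [← ρ.mul, inv_mul_cancel_right]
    rw [h3]
    refine Gr_sub ?_ _
    intro a ha
    obtain ⟨h, hh, rfl⟩ := Finset.mem_image.1 ha
    exact Finset.mul_mem_mul hh (hS i)
  have h4 : ∑ i, ∑ h ∈ F * S, ρ h (ρ (g i) (z i)) =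
      ∑ h ∈ F * S, ρ h (∑ i, ρ (g i) (z i)) := by
    rw [Finset.sum_comm]
    refine Finset.sum_congr rfl fun h _ => ?_
    rw [map_sum]
  have h5 : k • ∑ h ∈ F * S, ρ h x = ∑ h ∈ F * S, ρ h (k • x) := by
    rw [Finset.smul_sum]
    refine Finset.sum_congr rfl fun h _ => ?_
    rw [map_nsmul]
  rw [h1, h5]
  refine (Gr_sum Finset.univ fun i _ => h2 i).trans ?_
  rw [h4]
  exact Gr_sum _ fun h _ => Gr_map (ρ h) hle

theorem Gr_num {m s : ℕ} (hm : 3 ≤ m) (h1 : 1 ≤ s) (h : (s : ℝ) ≤ (11 / 10) ^ m) :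
    s * (2 * s + 1) ≤ 2 ^ m := by
  have h2 : (3 : ℝ) * (121 / 100) ^ m ≤ 2 ^ m := by
    induction m, hm using Nat.le_induction with
    | base => norm_num
    | succ m hm ih =>
      have h3 : (3 : ℝ) * (121 / 100) ^ m ≤ 2 ^ m := by
        obtain ⟨c, rfl⟩ := Nat.exists_eq_add_of_le hm
        have h4 : ((121 : ℝ) / 100) ^ c ≤ 2 ^ c := pow_le_pow_left₀ (by norm_num) (by norm_num) c
        rw [pow_add, pow_add]
        have h5 : (0 : ℝ) ≤ (121 / 100) ^ c := by positivity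
        nlinarith
      rw [pow_succ, pow_succ]
      have h6 : (0 : ℝ) ≤ (121 / 100) ^ m := by positivity
      nlinarith
  have h3 : (s : ℝ) ^ 2 ≤ (121 / 100) ^ m := by
    have h4 : ((11 : ℝ) / 10) ^ m * (11 / 10) ^ m = (121 / 100) ^ m := by
      rw [← mul_pow]
      norm_num
    rw [pow_two, ← h4]
    exact mul_le_mul h h (by positivity) (by positivity)
  have h5 : (1 : ℝ) ≤ s := by exact_mod_cast h1
  have h6 : ((s * (2 * s + 1) : ℕ) : ℝ) ≤ ((2 ^ m : ℕ) : ℝ) := by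
    push_cast
    nlinarith
  exact_mod_cast h6

theorem thmM {V : Type*} [AddCommMonoid V] {Γ : Type*} [Group Γ] (ρ : Ac Γ V)
    (hV : Refi V) (hA : AlmU V) (hΓ : SubExp Γ) {x : V} {k : ℕ}
    (h : LeM ρ ((k + 1) • x) (k • x)) : LeM ρ (2 • x) x := by
  classical
  obtain ⟨n, z, g, hz, hle⟩ := Gr_iter hV h (k + 2)
  obtain ⟨S, hSd⟩ : ∃ S : Finset Γ, S = insert 1 (Finset.univ.image fun i => (g i)⁻¹) := ⟨_, rfl⟩
  have hS : ∀ i, (g i)⁻¹ ∈ S := fun i => by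
    rw [hSd]
    exact Finset.mem_insert_of_mem (Finset.mem_image_of_mem _ (Finset.mem_univ i))
  have hne : S.Nonempty := ⟨1, by rw [hSd]; exact Finset.mem_insert_self _ _⟩
  obtain ⟨N, hN⟩ := hΓ S (11 / 10) (by norm_num)
  open scoped Pointwise in
  have hpow : ∀ m : ℕ, Le (2 ^ m • x) (∑ h ∈ S ^ m, ρ h x) := by
    intro m
    induction m with
    | zero =>
      have h1 : S ^ 0 = {1} := pow_zero S
      rw [h1, pow_zero, one_smul, Finset.sum_singleton, ρ.one]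
      exact Le.refl _
    | succ m ih =>
      have h1 : 2 ^ (m + 1) • x = 2 • (2 ^ m • x) := by
        rw [← mul_nsmul]
        congr 1
      rw [h1, pow_succ]
      exact (Gr_nsmul 2 ih).trans (Gr_step hA hz hle hS _)
  open scoped Pointwise in
  obtain ⟨P, s, hPne, hPs, hP, hs⟩ : ∃ (P : Finset Γ) (s : ℕ), P.Nonempty ∧ P.card = s ∧
      Le ((s * (2 * s + 1)) • x) (∑ h ∈ P, ρ h x) ∧ 1 ≤ s := by
    refine ⟨S ^ (max N 3), (S ^ (max N 3)).card, hne.pow, rfl, ?_, ?_⟩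
    · refine (Gr_smul (Gr_num (le_max_right N 3) (Finset.card_pos.2 hne.pow)
        (hN _ (le_max_left N 3))) x).trans (hpow _)
    · exact Finset.card_pos.2 hne.pow
  have : Nonempty P := hPne.coe_sort
  have hcard : Fintype.card P = s := by rw [Fintype.card_coe, hPs]
  have h1 : Le ((Fintype.card P * (2 * s + 1)) • x) (∑ h : P, ρ (h : Γ) x) := by
    rw [hcard, Finset.sum_coe_sort P fun h => ρ h x]
    exact hP
  obtain ⟨w, hw, hwd⟩ := lemK hV h1
  have h2 : Le (∑ h : P, ρ (h : Γ)⁻¹ (2 • w h)) x := by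
    refine hA (2 * s) _ _ ?_
    have h3 : (2 * s) • x = ∑ h : P, ρ (h : Γ)⁻¹ (2 • ρ (h : Γ) x) := by
      have h4 : ∀ h : P, ρ (h : Γ)⁻¹ (2 • ρ (h : Γ) x) = 2 • x := by
        intro h
        rw [map_nsmul, ← ρ.mul, inv_mul_cancel, ρ.one]
      rw [Finset.sum_congr rfl fun h _ => h4 h, Finset.sum_const, Finset.card_univ, hcard,
        mul_comm, mul_nsmul']
    rw [h3, Finset.smul_sum]
    refine Gr_sum _ fun h _ => ?_
    rw [← map_nsmul]
    refine Gr_map _ ?_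
    have h5 : (2 * s + 1) • 2 • w h = 2 • ((2 * s + 1) • w h) := by
      rw [← mul_nsmul, ← mul_nsmul, mul_comm]
    rw [h5]
    exact Gr_nsmul 2 (hwd h)
  refine LeM.trans hV ?_ (LeM.of_le h2)
  rw [hw, Finset.smul_sum]
  exact LeM.sum _ fun h _ => LeM.act' _ _

end Pool.Agent.H.MP_8be301_an.CX
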