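import Pool.Agent.H.MP_8be301_an.CX.AfD
import Pool.Agent.H.MP_8be301_an.CX.Gr
import Pool.Agent.H.MP_8be301_an.CX.Act
import Pool.Agent.H.MP_8be301_an.DP.RefL

/-!
# Rank comparison in AF algebras  (module AfR)

`lemR`: `af_proj` for the family `q i`, `q' k` (index type `ι ⊕ κ`) with `η` small: `η (∑ t + ∑ t') ≤ δ / 2`. `c (∑ t' φ(Q') + (δ/2) φ(P)) c* ≤
c (∑ t φ(Q)) c*`: the difference of both sides to the hypothesis is a self-adjoint element of `p D p` of norm `≤ δ / 2`. Conjugate back: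
`φ (∑ t Q - ∑ t' Q' - (δ/2) P) ≥ 0`; `tr_nonneg` in every block: `∑ t' r_l(Q') + (δ/2) r_l(P) ≤ ∑ t r_l(Q)` for the ranks of `class_rank`;
multiply by `N`: `∑ ⌊N t'⌋ r_l(Q') + ⌊N δ/2⌋ r_l(P) ≤ ∑ ⌈N t⌉ r_l(Q)` in `ℕ`. `c1 (q i) = c1 (φ (Q i))` (`mvn_close`, conjugation by `c`;
`cl_eq` for `1 x 1` matrices), and `class_rank` writes all classes as combinations of `c1 (φ (mp n l))`; `Le` coefficientwise.
`au_af`: `x = ∑ c1 (p i)`, `y = ∑ c1 (q j)`, `z = ∑ c1 (r k)` (`W_fin`), `(n + 1) x + z = n y`. With diagonal projections (`cl_diag`, `cl_add`, `cl_eq`): a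
matrix `v` over `D` with `v* v = diagonal P₁`, `v v* = diagonal P₂`, where `P₁` lists the `p i` `n + 1` times and the `r k`, `P₂` lists the `q j` `n`
times. `AF` for all entries and projections with small `ε`; projections `P'`, `Q'`, `R'` of `FD` near them (`near_proj` with `P = 1`), `V` over
`FD` near `v`. `‖φ (∑_j star (V j i) * V j i) - φ (P₁' i)‖` small etc. Traces in the block `l` (with `V` cut down by the projections on both
sides, `V j i := P₂' j * V j i * P₁' i`): `(1 - e) ∑ r_l(P₁' i) ≤ ∑_{i,j} tr_l (star (V j i) * V j i) = ∑_{i,j} tr_l (V j i * star (V j i)) ≤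
(1 + e) ∑ r_l(P₂' j)` (`tr_nonneg`), `e < 1 / (4 (n + 1))`; so `(n + 1) r_l(x) ≤ (1 + e)/(1 - e) n r_l(y)`, `r_l(x) ≤ r_l(y)` for all `l`, `x ≤ y` in
`VA D`, and `W_sub` gives `Le` in `W D`.
-/

set_option autoImplicit false

namespace Pool.Agent.H.MP_8be301_an.CX

open Pool.Agent.H.MP_8be301_an.RD Pool.Agent.H.MP_8be301_an.DP

variable {D : Type*} [CStarAlgebra D]

theorem AfR_c1 {p q : D} (hp : Pj p) (hq : Pj q) (h : ‖p - q‖ < 1) : c1 p = c1 q := by
  rw [c1_eq hp, c1_eq hq, cl_eq]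
  obtain ⟨v, h1, h2⟩ := mvn_close hp hq h
  refine ⟨Matrix.of fun _ _ => v, ?_, ?_⟩
  · ext i j
    simp [Matrix.mul_apply, Matrix.conjTranspose_apply, h1]
  · ext i j
    simp [Matrix.mul_apply, Matrix.conjTranspose_apply, h2]

/-- the trace of a block -/
noncomputable def AfR_t {k : ℕ} {n : Fin k → ℕ} (l : Fin k) : FD n →+ ℝ where
  toFun x := (Matrix.trace (x l)).re
  map_zero' := by simp
  map_add' x y := by
    rw [Pi.add_apply, Matrix.trace_add, Complex.add_re]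

theorem AfR_t_smul {k : ℕ} {n : Fin k → ℕ} (l : Fin k) (r : ℝ) (x : FD n) :
    AfR_t l ((r : ℂ) • x) = r * AfR_t l x := by
  show (Matrix.trace (((r : ℂ) • x) l)).re = r * (Matrix.trace (x l)).re
  rw [Pi.smul_apply, Matrix.trace_smul, smul_eq_mul, Complex.re_ofReal_mul]

theorem AfR_t_comm {k : ℕ} {n : Fin k → ℕ} (l : Fin k) (x y : FD n) :
    AfR_t l (x * y) = AfR_t l (y * x) := by
  show (Matrix.trace (x l * y l)).re = (Matrix.trace (y l * x l)).re
  rw [Matrix.trace_mul_comm]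

theorem AfR_le [PartialOrder D] [StarOrderedRing D] {a p : D} (hp : Pj p) (ha : star a = a)
    (h : p * a * p = a) {e : ℝ} (he : ‖a‖ ≤ e) : a ≤ e • p := by
  have h1 : a ≤ algebraMap ℝ D ‖a‖ := IsSelfAdjoint.le_algebraMap_norm_self (a := a) ha
  have h2 : algebraMap ℝ D ‖a‖ ≤ algebraMap ℝ D e := algebraMap_mono D he
  have h3 := star_left_conjugate_le_conjugate (h1.trans h2) p
  rw [hp.2, h] at h3
  refine h3.trans_eq ?_
  rw [Algebra.algebraMap_eq_smul_one, mul_smul_comm, mul_one, smul_mul_assoc, hp.1]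

theorem AfR_rsmul {k : ℕ} {n : Fin k → ℕ} (φ : FD n →⋆ₐ[ℂ] D) (r : ℝ) (x : FD n) :
    φ ((r : ℂ) • x) = r • φ x := by
  rw [map_smul, Complex.coe_smul]

theorem AfR_right {p q : D} (hp : star p = p) (hq : star q = q) (h : p * q = q) : q * p = q := by
  have h1 := congrArg star h
  rwa [star_mul, hq, hp] at h1

/-- the classes of projections as combinations of minimal ones -/
theorem AfR_comb {k : ℕ} {M : Fin k → VA D} {ι : Type*} [Fintype ι] (a : ι → ℕ)
    (r : ι → Fin k → ℕ) : ∑ i, a i • ∑ l, r i l • M l = ∑ l, (∑ i, a i * r i l) • M l := by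
  calc ∑ i, a i • ∑ l, r i l • M l = ∑ i, ∑ l, (a i * r i l) • M l := by
        refine Finset.sum_congr rfl fun i _ => ?_
        rw [Finset.smul_sum]
        refine Finset.sum_congr rfl fun l _ => ?_
        rw [mul_comm, mul_nsmul]
    _ = ∑ l, ∑ i, (a i * r i l) • M l := Finset.sum_comm
    _ = _ := by
        refine Finset.sum_congr rfl fun l _ => ?_
        rw [Finset.sum_smul]

theorem lemR [PartialOrder D] [StarOrderedRing D] (hD : AF D) {ι κ : Type*} [Fintype ι]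
    [Fintype κ] {p : D} (hp : Pj p) {q : ι → D} {q' : κ → D} (hq : ∀ i, Pj (q i))
    (hq' : ∀ i, Pj (q' i)) (hpq : ∀ i, p * q i = q i) (hpq' : ∀ i, p * q' i = q' i)
    {t : ι → ℝ} {t' : κ → ℝ} (ht : ∀ i, 0 ≤ t i) (ht' : ∀ i, 0 ≤ t' i) {δ : ℝ} (hδ : 0 < δ)
    (h : ∑ k, t' k • q' k + δ • p ≤ ∑ i, t i • q i) (N : ℕ) :
    Le (∑ k, ⌊(N : ℝ) * t' k⌋₊ • c1 (q' k) + ⌊(N : ℝ) * (δ / 2)⌋₊ • c1 p)
      (∑ i, ⌈(N : ℝ) * t i⌉₊ • c1 (q i)) := by
  have hT : 0 ≤ ∑ i, t i := Finset.sum_nonneg fun i _ => ht i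
  have hT' : 0 ≤ ∑ i, t' i := Finset.sum_nonneg fun i _ => ht' i
  obtain ⟨η, hη⟩ : ∃ η : ℝ, η = min 1 (δ / (2 * (∑ i, t i + ∑ i, t' i + 1))) := ⟨_, rfl⟩
  have hη0 : 0 < η := by
    rw [hη]
    exact lt_min one_pos (by positivity)
  have hη1 : η ≤ 1 := by rw [hη]; exact min_le_left _ _
  have hη2 : η * (∑ i, t i + ∑ i, t' i) ≤ δ / 2 := by
    have h1 : η ≤ δ / (2 * (∑ i, t i + ∑ i, t' i + 1)) := by rw [hη]; exact min_le_right _ _
    rw [le_div_iff₀ (by positivity)] at h1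
    nlinarith
  obtain ⟨k, n, φ, P, Q, c, hφ, hP, hQ, hPQ, hc1, hc2, hcP, hcQ⟩ := af_proj hD hp
    (q := Sum.elim q q') (by rintro (i | i); exacts [hq i, hq' i])
    (by rintro (i | i); exacts [hpq i, hpq' i]) hη0
  obtain ⟨ψ, hψ⟩ := AfD_conj φ hc1 hc2
  have hψi := AfD_conj_inj hφ hc1 hψ
  have hψP : ψ P = p := by rw [hψ, hcP]
  have hψQ : ∀ i, ‖ψ (Q (Sum.inl i)) - q i‖ < η := fun i => by
    rw [hψ]
    exact hcQ (Sum.inl i)
  have hψQ' : ∀ i, ‖ψ (Q (Sum.inr i)) - q' i‖ < η := fun i => by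
    rw [hψ]
    exact hcQ (Sum.inr i)
  obtain ⟨rP, hrP, hcrP⟩ := class_rank ψ hP
  choose r hr hcr using fun i => class_rank ψ (hQ i)
  rw [hψP] at hcrP
  have hcq : ∀ i, c1 (q i) = ∑ l, r (Sum.inl i) l • c1 (ψ (mp n l)) := fun i => by
    rw [← hcr, AfR_c1 (AfD_pj ψ (hQ _)) (hq i) ((hψQ i).trans_le hη1)]
  have hcq' : ∀ i, c1 (q' i) = ∑ l, r (Sum.inr i) l • c1 (ψ (mp n l)) := fun i => by
    rw [← hcr, AfR_c1 (AfD_pj ψ (hQ _)) (hq' i) ((hψQ' i).trans_le hη1)]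
  -- the positive element
  have hpos : 0 ≤ ψ (∑ i, (t i : ℂ) • Q (Sum.inl i) - ∑ i, (t' i : ℂ) • Q (Sum.inr i) -
      ((δ / 2 : ℝ) : ℂ) • P) := by
    obtain ⟨E, hE⟩ : ∃ E, E = ∑ i, t' i • (ψ (Q (Sum.inr i)) - q' i) -
      ∑ i, t i • (ψ (Q (Sum.inl i)) - q i) := ⟨_, rfl⟩
    have hEn : ‖E‖ ≤ δ / 2 := by
      refine le_trans ?_ hη2
      rw [hE]
      refine (norm_sub_le _ _).trans ?_
      have e1 : ‖∑ i, t' i • (ψ (Q (Sum.inr i)) - q' i)‖ ≤ ∑ i, t' i * η := by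
        refine norm_sum_le_of_le _ fun i _ => ?_
        rw [norm_smul, Real.norm_of_nonneg (ht' i)]
        exact mul_le_mul_of_nonneg_left (hψQ' i).le (ht' i)
      have e2 : ‖∑ i, t i • (ψ (Q (Sum.inl i)) - q i)‖ ≤ ∑ i, t i * η := by
        refine norm_sum_le_of_le _ fun i _ => ?_
        rw [norm_smul, Real.norm_of_nonneg (ht i)]
        exact mul_le_mul_of_nonneg_left (hψQ i).le (ht i)
      rw [← Finset.sum_mul] at e1 e2
      linarith
    have hEs : star E = E := by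
      rw [hE]
      simp only [star_sub, star_sum, star_smul, ← map_star, (hQ _).2, (hq _).2, (hq' _).2,
        star_trivial]
    have hc : ∀ i, p * ψ (Q i) = ψ (Q i) := fun i => by
      rw [← hψP, ← map_mul, hPQ]
    have hc' : ∀ i, ψ (Q i) * p = ψ (Q i) := fun i =>
      AfR_right hp.2 (AfD_pj ψ (hQ i)).2 (hc i)
    have hEp : p * E * p = E := by
      rw [hE]
      simp only [mul_sub, sub_mul, Finset.mul_sum, Finset.sum_mul, mul_smul_comm,
        smul_mul_assoc, hc, hc', hpq, hpq', AfR_right hp.2 (hq _).2 (hpq _),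
        AfR_right hp.2 (hq' _).2 (hpq' _)]
    have h1 := AfR_le hp hEs hEp hEn
    have e : ψ (∑ i, (t i : ℂ) • Q (Sum.inl i) - ∑ i, (t' i : ℂ) • Q (Sum.inr i) -
        ((δ / 2 : ℝ) : ℂ) • P) = (∑ i, t i • q i - (∑ i, t' i • q' i + δ • p)) +
        ((δ / 2) • p - E) := by
      rw [map_sub, map_sub, map_sum, map_sum, AfR_rsmul, hψP, hE]
      simp only [AfR_rsmul, smul_sub, Finset.sum_sub_distrib]
      have e2 : δ • p = (δ / 2) • p + (δ / 2) • p := by rw [← add_smul]; congr 1; ring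
      rw [e2]
      abel
    rw [e]
    exact add_nonneg (sub_nonneg.2 h) (sub_nonneg.2 h1)
  have htr : ∀ l, ∑ i, t' i * (r (Sum.inr i) l : ℝ) + δ / 2 * (rP l : ℝ) ≤
      ∑ i, t i * (r (Sum.inl i) l : ℝ) := by
    intro l
    have h1 : 0 ≤ AfR_t l (∑ i, (t i : ℂ) • Q (Sum.inl i) - ∑ i, (t' i : ℂ) • Q (Sum.inr i) -
      ((δ / 2 : ℝ) : ℂ) • P) := tr_nonneg hψi hpos l
    rw [map_sub, map_sub, map_sum, map_sum, AfR_t_smul] at h1
    simp only [AfR_t_smul] at h1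
    have h2 : ∀ i, AfR_t l (Q i) = (r i l : ℝ) := fun i => by
      show (Matrix.trace (Q i l)).re = _
      rw [hr i l, Complex.natCast_re]
    have h3 : AfR_t l P = (rP l : ℝ) := by
      show (Matrix.trace (P l)).re = _
      rw [hrP l, Complex.natCast_re]
    simp only [h2, h3] at h1
    linarith
  simp only [hcq, hcq', hcrP]
  rw [AfR_comb, AfR_comb, Finset.smul_sum, ← Finset.sum_add_distrib]
  refine Gr_sum _ fun l _ => ?_
  rw [smul_smul, ← add_smul]
  refine Gr_smul ?_ _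
  have hN : (0 : ℝ) ≤ N := Nat.cast_nonneg N
  have h1 : ((∑ i, ⌊(N : ℝ) * t' i⌋₊ * r (Sum.inr i) l + ⌊(N : ℝ) * (δ / 2)⌋₊ * rP l : ℕ) : ℝ) ≤
      ((∑ i, ⌈(N : ℝ) * t i⌉₊ * r (Sum.inl i) l : ℕ) : ℝ) := by
    push_cast
    have e1 : ∑ i, (⌊(N : ℝ) * t' i⌋₊ : ℝ) * (r (Sum.inr i) l : ℝ) ≤
        ∑ i, (N : ℝ) * (t' i * (r (Sum.inr i) l : ℝ)) := by
      refine Finset.sum_le_sum fun i _ => ?_
      rw [← mul_assoc]
      exact mul_le_mul_of_nonneg_right (Nat.floor_le (mul_nonneg hN (ht' i)))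
        (Nat.cast_nonneg _)
    have e2 : ∑ i, (N : ℝ) * (t i * (r (Sum.inl i) l : ℝ)) ≤
        ∑ i, (⌈(N : ℝ) * t i⌉₊ : ℝ) * (r (Sum.inl i) l : ℝ) := by
      refine Finset.sum_le_sum fun i _ => ?_
      rw [← mul_assoc]
      exact mul_le_mul_of_nonneg_right (Nat.le_ceil _) (Nat.cast_nonneg _)
    have e3 : (⌊(N : ℝ) * (δ / 2)⌋₊ : ℝ) * (rP l : ℝ) ≤ (N : ℝ) * (δ / 2 * (rP l : ℝ)) := by
      rw [← mul_assoc]
      exact mul_le_mul_of_nonneg_right (Nat.floor_le (by positivity)) (Nat.cast_nonneg _)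
    rw [← Finset.mul_sum] at e1 e2
    have e4 := mul_le_mul_of_nonneg_left (htr l) hN
    rw [mul_add] at e4
    linarith
  exact_mod_cast h1

theorem AfR_bd [PartialOrder D] [StarOrderedRing D] {k : ℕ} {n : Fin k → ℕ}
    {φ : FD n →⋆ₐ[ℂ] D} (hφ : Function.Injective φ) {P x : FD n} (hP : PrF P)
    (hx : star x = x) (hPx : P * x * P = x) {e : ℝ} (h : ‖φ x‖ ≤ e) (l : Fin k) :
    AfR_t l x ≤ e * AfR_t l P := by
  have h1 : φ x ≤ e • φ P := AfR_le (AfD_pj φ hP) (by rw [← map_star, hx])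
    (by rw [← map_mul, ← map_mul, hPx]) h
  have h2 : 0 ≤ φ ((e : ℂ) • P - x) := by
    rw [map_sub, AfR_rsmul]
    exact sub_nonneg.2 h1
  have h3 : 0 ≤ AfR_t l ((e : ℂ) • P - x) := tr_nonneg hφ h2 l
  rw [map_sub, AfR_t_smul] at h3
  linarith

/-- comparison of the ranks of equal sums of classes -/
theorem AfR_cmp (hD : AF D) {ι α β : Type*} [Fintype ι] [Fintype α] [Fintype β]
    [DecidableEq α] [DecidableEq β] {p : ι → D} (hp : ∀ i, Pj (p i)) (a : α → ι) (b : β → ι)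
    (h : ∑ x, c1 (p (a x)) = ∑ y, c1 (p (b y))) {e : ℝ} (he : 0 < e) :
    ∃ (k : ℕ) (M : Fin k → VA D) (r : ι → Fin k → ℕ), (∀ i, c1 (p i) = ∑ l, r i l • M l) ∧
      ∀ l, (1 - e) * ∑ x, (r (a x) l : ℝ) ≤ (1 + e) * ∑ y, (r (b y) l : ℝ) := by
  classical
  letI : PartialOrder D := CStarAlgebra.spectralOrder D
  letI : StarOrderedRing D := CStarAlgebra.spectralOrderedRing D
  obtain ⟨v, hv1, hv2⟩ : ∃ v : Matrix β α D,
      v.conjTranspose * v = Matrix.diagonal (fun x => p (a x)) ∧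
      v * v.conjTranspose = Matrix.diagonal (fun y => p (b y)) := by
    have h1 := cl_diag (p := fun x => p (a x)) (fun x => hp (a x))
    have h2 := cl_diag (p := fun y => p (b y)) (fun y => hp (b y))
    exact (cl_eq _ _).1 (h1.trans (h.trans h2.symm))
  have hP := IsP_diag (p := fun x => p (a x)) (fun x => hp (a x))
  have hR := IsP_diag (p := fun y => p (b y)) (fun y => hp (b y))
  obtain ⟨w, hw⟩ : ∃ w, w = v * Matrix.diagonal (fun x => p (a x)) := ⟨_, rfl⟩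
  have hw1 : w.conjTranspose * w = Matrix.diagonal (fun x => p (a x)) := by
    rw [hw, Matrix.conjTranspose_mul, hP.2, Matrix.mul_assoc, ← Matrix.mul_assoc v.conjTranspose,
      hv1, hP.1, hP.1]
  have hw2 : w * w.conjTranspose = Matrix.diagonal (fun y => p (b y)) := by
    calc w * w.conjTranspose = v * (Matrix.diagonal (fun x => p (a x)) *
          Matrix.diagonal (fun x => p (a x))) * v.conjTranspose := by
          rw [hw, Matrix.conjTranspose_mul, hP.2]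
          simp only [Matrix.mul_assoc]
      _ = (v * v.conjTranspose) * (v * v.conjTranspose) := by
          rw [hP.1, ← hv1]
          simp only [Matrix.mul_assoc]
      _ = _ := by rw [hv2, hR.1]
  have hw3 : w * Matrix.diagonal (fun x => p (a x)) = w := by
    rw [hw, Matrix.mul_assoc, hP.1]
  have hw4 : Matrix.diagonal (fun y => p (b y)) * w = w := by
    rw [← hw2, Matrix.mul_assoc, hw1, hw3]
  have hw1' : ∀ x, ∑ y, star (w y x) * w y x = p (a x) := fun x => by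
    have h1 := congrFun (congrFun hw1 x) x
    rwa [Matrix.mul_apply, Matrix.diagonal_apply_eq] at h1
  have hw2' : ∀ y, ∑ x, w y x * star (w y x) = p (b y) := fun y => by
    have h1 := congrFun (congrFun hw2 y) y
    rwa [Matrix.mul_apply, Matrix.diagonal_apply_eq] at h1
  have hw3' : ∀ y x, w y x * p (a x) = w y x := fun y x => by
    have h1 := congrFun (congrFun hw3 y) x
    rwa [Matrix.mul_diagonal] at h1
  have hw4' : ∀ y x, p (b y) * w y x = w y x := fun y x => by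
    have h1 := congrFun (congrFun hw4 y) x
    rwa [Matrix.diagonal_mul] at h1
  have hF : ∀ᶠ s in nhds ((p, w) : (ι → D) × (β → α → D)), ∀ x,
      ‖s.1 (a x) - ∑ y, star (s.1 (b y) * s.2 y x * s.1 (a x)) *
        (s.1 (b y) * s.2 y x * s.1 (a x))‖ < e := by
    rw [Filter.eventually_all]
    intro x
    have hc : Continuous fun s : (ι → D) × (β → α → D) =>
        ‖s.1 (a x) - ∑ y, star (s.1 (b y) * s.2 y x * s.1 (a x)) *
          (s.1 (b y) * s.2 y x * s.1 (a x))‖ := by fun_prop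
    refine (hc.tendsto (p, w)).eventually_lt_const ?_
    show ‖p (a x) - ∑ y, star (p (b y) * w y x * p (a x)) *
          (p (b y) * w y x * p (a x))‖ < e
    simp only [hw4', hw3', hw1', sub_self, norm_zero]
    exact he
  have hG : ∀ᶠ s in nhds ((p, w) : (ι → D) × (β → α → D)), ∀ y,
      ‖(∑ x, (s.1 (b y) * s.2 y x * s.1 (a x)) * star (s.1 (b y) * s.2 y x * s.1 (a x))) -
        s.1 (b y)‖ < e := by
    rw [Filter.eventually_all]
    intro y
    have hc : Continuous fun s : (ι → D) × (β → α → D) =>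
        ‖(∑ x, (s.1 (b y) * s.2 y x * s.1 (a x)) * star (s.1 (b y) * s.2 y x * s.1 (a x))) -
          s.1 (b y)‖ := by fun_prop
    refine (hc.tendsto (p, w)).eventually_lt_const ?_
    show ‖(∑ x, (p (b y) * w y x * p (a x)) * star (p (b y) * w y x * p (a x))) -
          p (b y)‖ < e
    simp only [hw4', hw3', hw2', sub_self, norm_zero]
    exact he
  obtain ⟨ε, hε, H⟩ := Metric.eventually_nhds_iff.1 (hF.and hG)
  obtain ⟨δ, hδ, Hδ⟩ := near_proj (D := D) (lt_min hε one_pos)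
  obtain ⟨k, n, φ, hφ, hA⟩ := hD (Finset.univ.image p ∪
    Finset.univ.image (fun u : β × α => w u.1 u.2)) (min δ ε) (lt_min hδ hε)
  have hQ : ∀ i, ∃ Q : FD n, PrF Q ∧ ‖φ Q - p i‖ < min ε 1 := by
    intro i
    obtain ⟨x, hx⟩ := hA (p i) (Finset.mem_union_left _
      (Finset.mem_image_of_mem p (Finset.mem_univ i)))
    obtain ⟨y, hy, hyp⟩ := AfD_sa φ (hp i).2 hx
    obtain ⟨Q, hQ1, -, hQ2⟩ := Hδ k n φ hφ y 1 (p i) hy (hp i) (one_mul _)
      (hyp.trans_le (min_le_left _ _))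
    exact ⟨Q, hQ1, hQ2⟩
  choose Q hQ1 hQ2 using hQ
  have hY : ∀ y x, ∃ Y : FD n, ‖φ Y - w y x‖ < ε := by
    intro y x
    obtain ⟨Y, hY⟩ := hA (w y x) (Finset.mem_union_right _
      (Finset.mem_image_of_mem (fun u : β × α => w u.1 u.2) (Finset.mem_univ (y, x))))
    refine ⟨Y, ?_⟩
    rw [norm_sub_rev]
    exact hY.trans_le (min_le_right _ _)
  choose Y hY using hY
  have hdist : dist ((fun i => φ (Q i), fun y x => φ (Y y x)) : (ι → D) × (β → α → D))
      (p, w) < ε := by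
    rw [Prod.dist_eq]
    refine max_lt ?_ ?_
    · rw [dist_pi_lt_iff hε]
      intro i
      rw [dist_eq_norm]
      exact (hQ2 i).trans_le (min_le_left _ _)
    · rw [dist_pi_lt_iff hε]
      intro y
      rw [dist_pi_lt_iff hε]
      intro x
      rw [dist_eq_norm]
      exact hY y x
  obtain ⟨H1, H2⟩ := H hdist
  obtain ⟨V, hV⟩ : ∃ V : β → α → FD n, ∀ y x, V y x = Q (b y) * Y y x * Q (a x) :=
    ⟨_, fun _ _ => rfl⟩
  have hV1 : ∀ y x, Q (b y) * V y x = V y x := fun y x => by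
    rw [hV, ← mul_assoc, ← mul_assoc, (hQ1 _).1]
  have hV2 : ∀ y x, V y x * Q (a x) = V y x := fun y x => by
    rw [hV, mul_assoc, (hQ1 _).1]
  have hV3 : ∀ y x, star (V y x) * Q (b y) = star (V y x) := fun y x => by
    have h1 := congrArg star (hV1 y x)
    rwa [star_mul, (hQ1 _).2] at h1
  have hV4 : ∀ y x, Q (a x) * star (V y x) = star (V y x) := fun y x => by
    have h1 := congrArg star (hV2 y x)
    rwa [star_mul, (hQ1 _).2] at h1
  have K1 : ∀ l x, AfR_t l (Q (a x) - ∑ y, star (V y x) * V y x) ≤ e * AfR_t l (Q (a x)) := by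
    intro l x
    refine AfR_bd hφ (hQ1 _) ?_ ?_ ?_ l
    · simp only [star_sub, star_sum, star_mul, star_star, (hQ1 _).2]
    · rw [mul_sub, sub_mul, (hQ1 _).1, (hQ1 _).1, Finset.mul_sum, Finset.sum_mul]
      congr 1
      refine Finset.sum_congr rfl fun y _ => ?_
      rw [← mul_assoc, hV4, mul_assoc, hV2]
    · refine le_trans (le_of_eq ?_) (H1 x).le
      congr 1
      simp only [map_sub, map_sum, map_mul, map_star, hV]
  have K2 : ∀ l y, AfR_t l ((∑ x, V y x * star (V y x)) - Q (b y)) ≤ e * AfR_t l (Q (b y)) := by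
    intro l y
    refine AfR_bd hφ (hQ1 _) ?_ ?_ ?_ l
    · simp only [star_sub, star_sum, star_mul, star_star, (hQ1 _).2]
    · rw [mul_sub, sub_mul, (hQ1 _).1, (hQ1 _).1, Finset.mul_sum, Finset.sum_mul]
      congr 1
      refine Finset.sum_congr rfl fun x _ => ?_
      rw [← mul_assoc, hV1, mul_assoc, hV3]
    · refine le_trans (le_of_eq ?_) (H2 y).le
      congr 1
      simp only [map_sub, map_sum, map_mul, map_star, hV]
  choose r hr hcr using fun i => class_rank φ (hQ1 i)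
  refine ⟨k, fun l => c1 (φ (mp n l)), r, fun i => ?_, fun l => ?_⟩
  · rw [← hcr, AfR_c1 (AfD_pj φ (hQ1 i)) (hp i) ((hQ2 i).trans_le (min_le_right _ _))]
  · have h2 : ∀ i, AfR_t l (Q i) = (r i l : ℝ) := fun i => by
      show (Matrix.trace (Q i l)).re = _
      rw [hr i l, Complex.natCast_re]
    have e1 : (1 - e) * ∑ x, (r (a x) l : ℝ) ≤ ∑ x, ∑ y, AfR_t l (star (V y x) * V y x) := by
      rw [Finset.mul_sum]
      refine Finset.sum_le_sum fun x _ => ?_
      have h3 := K1 l x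
      rw [map_sub, map_sum, h2] at h3
      linarith
    have e2 : ∑ y, ∑ x, AfR_t l (V y x * star (V y x)) ≤ (1 + e) * ∑ y, (r (b y) l : ℝ) := by
      rw [Finset.mul_sum]
      refine Finset.sum_le_sum fun y _ => ?_
      have h3 := K2 l y
      rw [map_sub, map_sum, h2] at h3
      linarith
    refine e1.trans (le_trans (le_of_eq ?_) e2)
    rw [Finset.sum_comm]
    refine Finset.sum_congr rfl fun y _ => Finset.sum_congr rfl fun x _ => ?_
    exact AfR_t_comm l _ _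

theorem au_af (hD : AF D) : AlmU (W D) := by
  rintro n ⟨x, hx⟩ ⟨y, hy⟩ ⟨⟨z, hz⟩, hxyz⟩
  have h : (n + 1) • x + z = n • y := congrArg Subtype.val hxyz
  have key : Le x y := by
    obtain ⟨kx, p, hp, rfl⟩ := W_fin hx
    obtain ⟨ky, q, hq, rfl⟩ := W_fin hy
    obtain ⟨kz, u, hu, rfl⟩ := W_fin hz
    have he : (0 : ℝ) < 1 / (4 * (n + 1)) := by positivity
    obtain ⟨k, M, r, hr, hl⟩ := AfR_cmp hD (ι := (Fin kx ⊕ Fin ky) ⊕ Fin kz)
      (α := (Fin (n + 1) × Fin kx) ⊕ Fin kz) (β := Fin n × Fin ky)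
      (p := Sum.elim (Sum.elim p q) u) (by rintro ((i | i) | i); exacts [hp i, hq i, hu i])
      (Sum.elim (fun s => Sum.inl (Sum.inl s.2)) Sum.inr) (fun s => Sum.inl (Sum.inr s.2))
      (by
        rw [Fintype.sum_sum_type, Fintype.sum_prod_type, Fintype.sum_prod_type]
        simp only [Sum.elim_inl, Sum.elim_inr, Finset.sum_const, Finset.card_univ,
          Fintype.card_fin]
        exact h) he
    have hcp : ∀ i, c1 (p i) = ∑ l, r (Sum.inl (Sum.inl i)) l • M l := fun i =>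
      hr (Sum.inl (Sum.inl i))
    have hcq : ∀ i, c1 (q i) = ∑ l, r (Sum.inl (Sum.inr i)) l • M l := fun i =>
      hr (Sum.inl (Sum.inr i))
    have c0 : ∀ {κ : Type} [Fintype κ] (s : κ → Fin k → ℕ),
        ∑ i, ∑ l, s i l • M l = ∑ l, (∑ i, s i l) • M l := by
      intro κ _ s
      rw [Finset.sum_comm]
      refine Finset.sum_congr rfl fun l _ => ?_
      rw [Finset.sum_smul]
    simp only [hcp, hcq]
    rw [c0, c0]
    refine Gr_sum _ fun l _ => Gr_smul ?_ _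
    have h1 := hl l
    rw [Fintype.sum_sum_type, Fintype.sum_prod_type, Fintype.sum_prod_type] at h1
    simp only [Sum.elim_inl, Sum.elim_inr, Finset.sum_const, Finset.card_univ,
      Fintype.card_fin, nsmul_eq_mul] at h1
    by_contra hlt
    push Not at hlt
    have h2 : (∑ i, (r (Sum.inl (Sum.inr i)) l : ℝ)) + 1 ≤
        ∑ i, (r (Sum.inl (Sum.inl i)) l : ℝ) := by exact_mod_cast hlt
    have h3 : (0 : ℝ) ≤ ∑ i, (r (Sum.inr i) l : ℝ) :=
      Finset.sum_nonneg fun i _ => Nat.cast_nonneg _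
    have h4 : (0 : ℝ) ≤ ∑ i, (r (Sum.inl (Sum.inr i)) l : ℝ) :=
      Finset.sum_nonneg fun i _ => Nat.cast_nonneg _
    obtain ⟨X, hX⟩ : ∃ X, X = ∑ i, (r (Sum.inl (Sum.inl i)) l : ℝ) := ⟨_, rfl⟩
    obtain ⟨Y, hY⟩ : ∃ Y, Y = ∑ i, (r (Sum.inl (Sum.inr i)) l : ℝ) := ⟨_, rfl⟩
    obtain ⟨Z, hZ⟩ : ∃ Z, Z = ∑ i, (r (Sum.inr i) l : ℝ) := ⟨_, rfl⟩
    obtain ⟨e, hee⟩ : ∃ e : ℝ, e = 1 / (4 * (n + 1)) := ⟨_, rfl⟩
    rw [← hX, ← hY, ← hZ, ← hee] at h1
    rw [← hX, ← hY] at h2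
    rw [← hZ] at h3
    rw [← hY] at h4
    rw [← hee] at he
    have hn : (0 : ℝ) ≤ n := Nat.cast_nonneg n
    have he4 : e * (4 * (n + 1)) = 1 := by
      rw [hee]
      exact one_div_mul_cancel (by positivity)
    have he1 : e ≤ 1 / 4 := by nlinarith
    push_cast at h1
    have h5 : 0 ≤ (1 - e) * Z := mul_nonneg (by linarith) h3
    have h6 : (1 + e) * (n * Y) ≤ (1 + e) * (n * X) :=
      mul_le_mul_of_nonneg_left (mul_le_mul_of_nonneg_left (by linarith) hn) (by linarith)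
    have h7 : X * (1 - e * (2 * n + 1)) ≤ 0 := by nlinarith
    have h8 : 1 / 2 ≤ 1 - e * (2 * n + 1) := by nlinarith
    nlinarith
  obtain ⟨z', hz'⟩ := key
  exact ⟨⟨z', W_sub (rr0_af hD) hx (by rw [hz']; exact hy)⟩, Subtype.ext hz'⟩

end Pool.Agent.H.MP_8be301_an.CX
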