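import Pool.Agent.H.MP_8be301_an.CX.Cx
import Pool.Agent.H.MP_8be301_an.CX.Act
import Pool.Agent.H.MP_8be301_an.DP.Col

/-!
# The type monoid and comparison in the crossed product  (module Cmp)

`F : VA D →+ VA B` from `exists_push X.ι`. `F (ρ g x) = F x` for `x ∈ W D`: on generators, `c1 (ι (α g q)) = c1 (ι q)` by the partial isometry
`u g * ι q` (`c1_eq`, `cl_eq` with `1 x 1` matrices); then closure induction (or `W_fin`). Apply `F` to `2 • c1 q = ∑ z i`, `∑ ρ (g i) (z i) + w = c1 q`: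
`Le (2 • c1 (ι q)) (c1 (ι q))`, and `inf_of_le` of DP/Col.
-/

set_option autoImplicit false

namespace Pool.Agent.H.MP_8be301_an.CX

open Pool.Agent.H.MP_8be301_an.RD Pool.Agent.H.MP_8be301_an.DP

variable {Γ D B : Type*} [Group Γ] [CStarAlgebra D] [CStarAlgebra B] (X : Cp Γ D B)

theorem Cmp_conj (g : Γ) {q : D} (hq : Pj q) : c1 (X.ι (X.α g q)) = c1 (X.ι q) := by
  rw [c1_eq (pj_map X.ι hq), c1_eq (pj_map X.ι (pj_aut (X.α g) hq))]
  symm
  rw [cl_eq]
  have h1 : star (X.u g * X.ι q) * (X.u g * X.ι q) = X.ι q := by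
    rw [star_mul, X.u_star, ← map_star, hq.2, mul_assoc, ← mul_assoc (X.u g⁻¹), (X.u_inv g).2,
      one_mul, ← map_mul, hq.1]
  have h2 : (X.u g * X.ι q) * star (X.u g * X.ι q) = X.ι (X.α g q) := by
    rw [star_mul, X.u_star, ← map_star, hq.2, mul_assoc, ← mul_assoc (X.ι q), ← map_mul, hq.1,
      ← mul_assoc, X.cov, mul_assoc, (X.u_inv g).1, mul_one]
  refine ⟨Matrix.of fun _ _ => X.u g * X.ι q, ?_, ?_⟩
  · ext i j
    simp only [Matrix.mul_apply, Matrix.conjTranspose_apply, Matrix.of_apply, Finset.univ_unique,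
      Finset.sum_singleton]
    exact h1
  · ext i j
    simp only [Matrix.mul_apply, Matrix.conjTranspose_apply, Matrix.of_apply, Finset.univ_unique,
      Finset.sum_singleton]
    exact h2

theorem inf_of_leM {q : D} (hq : Pj q) (hq0 : q ≠ 0)
    (h : LeM (rho X.α) (2 • cW q hq) (cW q hq)) :
    ∃ v : B, star v * v = X.ι q ∧ X.ι q * v = v ∧ v * star v ≠ X.ι q := by
  obtain ⟨F, hF⟩ := exists_push X.ι
  obtain ⟨G, hG⟩ : ∃ G : W D →+ VA B, ∀ x : W D, G x = F (x : VA D) :=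
    ⟨F.comp (W D).subtype, fun _ => rfl⟩
  have hc : ∀ (p : D) (hp : Pj p), G (cW p hp) = c1 (X.ι p) := by
    intro p hp
    rw [hG]
    exact hF p hp
  have hinv : ∀ (g : Γ) (x : W D), G (rho X.α g x) = G x := by
    rintro g ⟨x, hx⟩
    obtain ⟨k, p, hp, hxp⟩ := W_fin hx
    have e : (⟨x, hx⟩ : W D) = ∑ i, cW (p i) (hp i) := by
      refine Subtype.ext ?_
      rw [AddSubmonoid.coe_finsetSum]
      exact hxp
    rw [e, map_sum, map_sum, map_sum]
    refine Finset.sum_congr rfl fun i _ => ?_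
    rw [rho_c, hc, hc, Cmp_conj]
    exact hp i
  obtain ⟨n, z, g, hx, w, hw⟩ := h
  have h1 : 2 • c1 (X.ι q) = ∑ i, G (z i) := by
    rw [← hc q hq, ← map_nsmul, hx, map_sum]
  have h2 : ∑ i, G (z i) + G w = c1 (X.ι q) := by
    rw [← hc q hq, ← hw, map_add, map_sum]
    congr 1
    exact Finset.sum_congr rfl fun i _ => (hinv _ _).symm
  have h0 : X.ι q ≠ 0 := by
    intro h
    apply hq0
    rw [← norm_eq_zero, ← X.norm_ι, h, norm_zero]
  exact inf_of_le (pj_map X.ι hq) h0 ⟨G w, by rw [h1, h2]⟩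

end Pool.Agent.H.MP_8be301_an.CX
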