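import Pool.Agent.H.MP_8be301_an.CX.FinC
import Pool.Agent.H.MP_8be301_an.CX.Ab

/-!
# Special cases of the dichotomy for crossed products  (module CorC)
-/

set_option autoImplicit false

namespace Pool.Agent.H.MP_8be301_an.CX

open Pool.Agent.H.MP_8be301_an.RD Pool.Agent.H.MP_8be301_an.DP

/-- AF algebras and groups of subexponential growth -/
theorem af_subexp {Γ D B A : Type*} [Group Γ] [CStarAlgebra D] [CStarAlgebra B]
    [CStarAlgebra A] (X : Cp Γ D B) (hD : AF D) (hΓ : SubExp Γ) {p : D} (hp : Pj p)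
    (hα : Outer X.α p) (C : Corner X p A) (hs : Simp A) :
    (∀ (n : ℕ) (v : Matrix (Fin n) (Fin n) (Unitization ℂ A)),
        star v * v = 1 → v * star v = 1) ∨
      (∀ a : A, a ≠ 0 → (∃ y : A, a = star y * y) →
        ∃ p ∈ closure {x : A | ∃ z : A, x = a * z * a},
          p * p = p ∧ star p = p ∧
          ∃ v : A, star v * v = p ∧ v * star v * p = v * star v ∧ v * star v ≠ p) := by
  refine dichC X hD (MonoidHom.id Γ) hΓ (fun g hg q hq => ?_) hp hα C hs
  have h : g = 1 := hg
  rw [h, map_one]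
  exact Mvn.refl hq

/-- AF algebras and abelian groups -/
theorem af_abelian {Γ D B A : Type*} [CommGroup Γ] [CStarAlgebra D] [CStarAlgebra B]
    [CStarAlgebra A] (X : Cp Γ D B) (hD : AF D) {p : D} (hp : Pj p)
    (hα : Outer X.α p) (C : Corner X p A) (hs : Simp A) :
    (∀ (n : ℕ) (v : Matrix (Fin n) (Fin n) (Unitization ℂ A)),
        star v * v = 1 → v * star v = 1) ∨
      (∀ a : A, a ≠ 0 → (∃ y : A, a = star y * y) →
        ∃ p ∈ closure {x : A | ∃ z : A, x = a * z * a},
          p * p = p ∧ star p = p ∧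
          ∃ v : A, star v * v = p ∧ v * star v * p = v * star v ∧ v * star v ≠ p) :=
  af_subexp X hD (subExp_comm Γ) hp hα C hs

end Pool.Agent.H.MP_8be301_an.CX
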