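import Pool.Agent.H.MP_8be301_an.RD.Defs
import Pool.Agent.H.MP_8be301_an.RD.Spec

/-!
# Crossed products  (module Cx)

`Cp Γ D B`: the C*-algebra `B` is the reduced crossed product of `D` by the action `α` of `Γ`: generated by a copy `ι D` of `D` and unitaries
`u g` that implement the action, with a faithful conditional expectation `E` that kills `ι d * u g` for `g ≠ 1`.
`E_left`, `E_right`, `E_star`, `E_conj`: both sides are continuous in `x` (`E_norm`), check them on finite sums (`dense`) and there on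
`x = ι d' * u g`. `E_mul_star`, `E_star_mul`: expand the double sums, only the diagonal terms survive:
`ι (d g) * u g * star (u h) * star (ι (d h)) = ι (d g) * ι (α (g h⁻¹) (star (d h))) * u (g h⁻¹)`,
`star (u g) * ι (star (d g) * d h) * u h = ι (α g⁻¹ (star (d g) * d h)) * u (g⁻¹ h)`.
-/

set_option autoImplicit false

namespace Pool.Agent.H.MP_8be301_an.CX

open Pool.Agent.H.MP_8be301_an.RD

/-- the reduced crossed product `B` of `D` by an action of `Γ` -/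
structure Cp (Γ D B : Type*) [Group Γ] [CStarAlgebra D] [CStarAlgebra B] where
  /-- the action -/
  α : Γ →* (D ≃⋆ₐ[ℂ] D)
  /-- the embedding -/
  ι : D →⋆ₐ[ℂ] B
  /-- the unitaries -/
  u : Γ → B
  /-- the conditional expectation -/
  E : B →ₗ[ℂ] D
  u_one : u 1 = 1
  u_mul : ∀ g h, u (g * h) = u g * u h
  u_star : ∀ g, star (u g) = u g⁻¹
  cov : ∀ g d, u g * ι d = ι (α g d) * u g
  dense : ∀ (x : B) (ε : ℝ), 0 < ε → ∃ (S : Finset Γ) (d : Γ → D),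
    ‖x - ∑ g ∈ S, ι (d g) * u g‖ < ε
  E_norm : ∀ x, ‖E x‖ ≤ ‖x‖
  E_pos : ∀ x, ∃ y, E (star x * x) = star y * y
  E_faithful : ∀ x, E (star x * x) = 0 → x = 0
  E_one : ∀ d, E (ι d) = d
  E_u : ∀ g, g ≠ 1 → ∀ d, E (ι d * u g) = 0

variable {Γ D B : Type*} [Group Γ] [CStarAlgebra D] [CStarAlgebra B] (X : Cp Γ D B)

theorem Cp.u_inv (g : Γ) : X.u g * X.u g⁻¹ = 1 ∧ X.u g⁻¹ * X.u g = 1 := by
  rw [← X.u_mul, ← X.u_mul, mul_inv_cancel, inv_mul_cancel, X.u_one]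
  exact ⟨rfl, rfl⟩

theorem Cx_norm_hom {A' B' : Type*} [CStarAlgebra A'] [CStarAlgebra B'] (f : A' →⋆ₐ[ℂ] B') (a : A') :
    ‖f a‖ ≤ ‖a‖ := NonUnitalStarAlgHom.norm_apply_le f a

theorem Cp.norm_ι (d : D) : ‖X.ι d‖ = ‖d‖ := by
  apply le_antisymm (Cx_norm_hom X.ι d)
  have h := X.E_norm (X.ι d)
  rwa [X.E_one] at h

theorem Cx_unitary (g : Γ) : X.u g ∈ unitary B := by
  rw [Unitary.mem_iff, X.u_star]
  exact ⟨(X.u_inv g).2, (X.u_inv g).1⟩

theorem Cp.norm_u (x : B) (g : Γ) : ‖x * X.u g‖ = ‖x‖ ∧ ‖X.u g * x‖ = ‖x‖ :=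
  ⟨CStarRing.norm_mul_mem_unitary x (Cx_unitary X g), CStarRing.norm_mem_unitary_mul x (Cx_unitary X g)⟩

theorem Cx_ext (F G : B → D) (C : ℝ) (hF : ∀ x y, ‖F x - F y‖ ≤ C * ‖x - y‖)
    (hG : ∀ x y, ‖G x - G y‖ ≤ C * ‖x - y‖)
    (h : ∀ (S : Finset Γ) (d : Γ → D), F (∑ g ∈ S, X.ι (d g) * X.u g) =
      G (∑ g ∈ S, X.ι (d g) * X.u g)) (x : B) : F x = G x := by
  rw [← sub_eq_zero, ← norm_le_zero_iff]
  refine le_of_forall_pos_le_add fun ε hε => ?_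
  have hC : 0 < 2 * (|C| + 1) := by positivity
  obtain ⟨S, d, hS⟩ := X.dense x (ε / (2 * (|C| + 1))) (div_pos hε hC)
  have h1 := hF x (∑ g ∈ S, X.ι (d g) * X.u g)
  have h2 := hG x (∑ g ∈ S, X.ι (d g) * X.u g)
  have h3 : F x - G x = (F x - F (∑ g ∈ S, X.ι (d g) * X.u g)) -
      (G x - G (∑ g ∈ S, X.ι (d g) * X.u g)) := by
    rw [h S d]
    abel
  have h4 : ‖F x - G x‖ ≤ C * ‖x - ∑ g ∈ S, X.ι (d g) * X.u g‖ +
      C * ‖x - ∑ g ∈ S, X.ι (d g) * X.u g‖ := by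
    rw [h3]
    exact (norm_sub_le _ _).trans (add_le_add h1 h2)
  have h5 : C * ‖x - ∑ g ∈ S, X.ι (d g) * X.u g‖ ≤
      (|C| + 1) * ‖x - ∑ g ∈ S, X.ι (d g) * X.u g‖ := by
    refine mul_le_mul_of_nonneg_right ?_ (norm_nonneg _)
    linarith [le_abs_self C]
  have h6 : (|C| + 1) * ‖x - ∑ g ∈ S, X.ι (d g) * X.u g‖ ≤
      (|C| + 1) * (ε / (2 * (|C| + 1))) :=
    mul_le_mul_of_nonneg_left hS.le (by positivity)
  have h7 : (|C| + 1) * (ε / (2 * (|C| + 1))) = ε / 2 := by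
    field_simp
  linarith

theorem Cx_one (d : D) : X.α 1 d = d := by
  rw [map_one]
  rfl

theorem Cx_lin (F G : B →ₗ[ℂ] D) (C : ℝ) (hF : ∀ x, ‖F x‖ ≤ C * ‖x‖) (hG : ∀ x, ‖G x‖ ≤ C * ‖x‖)
    (h : ∀ g d, F (X.ι d * X.u g) = G (X.ι d * X.u g)) (x : B) : F x = G x := by
  refine Cx_ext X F G C (fun x y => ?_) (fun x y => ?_) (fun S d => ?_) x
  · rw [← map_sub]
    exact hF _
  · rw [← map_sub]
    exact hG _
  · rw [map_sum, map_sum]
    exact Finset.sum_congr rfl fun g _ => h g (d g)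

theorem Cp.E_left (d : D) (x : B) : X.E (X.ι d * x) = d * X.E x := by
  refine Cx_lin X (X.E ∘ₗ LinearMap.mulLeft ℂ (X.ι d)) (LinearMap.mulLeft ℂ d ∘ₗ X.E) ‖d‖ ?_ ?_ ?_ x
  · intro x
    show ‖X.E (X.ι d * x)‖ ≤ _
    refine (X.E_norm _).trans ((norm_mul_le _ _).trans ?_)
    rw [X.norm_ι]
  · intro x
    show ‖d * X.E x‖ ≤ _
    exact (norm_mul_le _ _).trans (mul_le_mul_of_nonneg_left (X.E_norm x) (norm_nonneg _))
  · intro g d'
    show X.E (X.ι d * (X.ι d' * X.u g)) = d * X.E (X.ι d' * X.u g)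
    rw [← mul_assoc, ← map_mul]
    by_cases hg : g = 1
    · rw [hg, X.u_one, mul_one, mul_one, X.E_one, X.E_one]
    · rw [X.E_u g hg, X.E_u g hg, mul_zero]

theorem Cp.E_right (d : D) (x : B) : X.E (x * X.ι d) = X.E x * d := by
  refine Cx_lin X (X.E ∘ₗ LinearMap.mulRight ℂ (X.ι d)) (LinearMap.mulRight ℂ d ∘ₗ X.E) ‖d‖ ?_ ?_ ?_ x
  · intro x
    show ‖X.E (x * X.ι d)‖ ≤ _
    refine (X.E_norm _).trans ((norm_mul_le _ _).trans ?_)
    rw [X.norm_ι, mul_comm]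
  · intro x
    show ‖X.E x * d‖ ≤ _
    refine (norm_mul_le _ _).trans ?_
    rw [mul_comm]
    exact mul_le_mul_of_nonneg_left (X.E_norm x) (norm_nonneg _)
  · intro g d'
    show X.E (X.ι d' * X.u g * X.ι d) = X.E (X.ι d' * X.u g) * d
    rw [mul_assoc, X.cov, ← mul_assoc, ← map_mul]
    by_cases hg : g = 1
    · rw [hg, X.u_one, mul_one, mul_one, X.E_one, X.E_one, Cx_one]
    · rw [X.E_u g hg, X.E_u g hg, zero_mul]

theorem Cp.E_star (x : B) : X.E (star x) = star (X.E x) := by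
  refine Cx_ext X (fun x => X.E (star x)) (fun x => star (X.E x)) 1 (fun x y => ?_) (fun x y => ?_)
    (fun S d => ?_) x
  · rw [← map_sub, ← star_sub, one_mul]
    exact (X.E_norm _).trans (le_of_eq (norm_star _))
  · rw [← star_sub, ← map_sub, one_mul, norm_star]
    exact X.E_norm _
  · rw [star_sum, map_sum, map_sum, star_sum]
    refine Finset.sum_congr rfl fun g _ => ?_
    rw [star_mul, X.u_star, ← map_star, X.cov]
    by_cases hg : g = 1
    · rw [hg, inv_one, X.u_one, mul_one, mul_one, X.E_one, X.E_one, Cx_one]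
    · rw [X.E_u g hg, X.E_u g⁻¹ (fun h => hg (inv_eq_one.mp h)), star_zero]

theorem Cp.E_conj (g : Γ) (x : B) : X.E (X.u g * x * X.u g⁻¹) = X.α g (X.E x) := by
  refine Cx_ext X (fun x => X.E (X.u g * x * X.u g⁻¹)) (fun x => X.α g (X.E x)) 1 (fun x y => ?_)
    (fun x y => ?_) (fun S d => ?_) x
  · rw [← map_sub, ← sub_mul, ← mul_sub, one_mul]
    refine (X.E_norm _).trans (le_of_eq ?_)
    rw [(X.norm_u _ _).1, (X.norm_u _ _).2]
  · rw [← map_sub, ← map_sub, one_mul]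
    exact (Cx_norm_hom ((X.α g : D ≃⋆ₐ[ℂ] D) : D →⋆ₐ[ℂ] D) _).trans (X.E_norm _)
  · rw [Finset.mul_sum, Finset.sum_mul, map_sum, map_sum, map_sum]
    refine Finset.sum_congr rfl fun h _ => ?_
    have h1 : X.u g * (X.ι (d h) * X.u h) * X.u g⁻¹ = X.ι (X.α g (d h)) * X.u (g * h * g⁻¹) := by
      rw [← mul_assoc, X.cov, X.u_mul, X.u_mul]
      simp only [mul_assoc]
    rw [h1]
    by_cases hh : h = 1
    · rw [hh, mul_one, mul_inv_cancel, X.u_one, mul_one, mul_one, X.E_one, X.E_one]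
    · rw [X.E_u h hh, X.E_u (g * h * g⁻¹) (fun he => hh ?_), map_zero]
      rwa [mul_inv_eq_one, mul_eq_left] at he

theorem Cp.E_mul_star (S : Finset Γ) (d : Γ → D) :
    X.E ((∑ g ∈ S, X.ι (d g) * X.u g) * star (∑ g ∈ S, X.ι (d g) * X.u g)) =
      ∑ g ∈ S, d g * star (d g) := by
  rw [star_sum, Finset.sum_mul_sum, map_sum]
  refine Finset.sum_congr rfl fun g hg => ?_
  rw [map_sum, Finset.sum_eq_single_of_mem g hg]
  · rw [star_mul, X.u_star, ← map_star]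
    have h1 : X.ι (d g) * X.u g * (X.u g⁻¹ * X.ι (star (d g))) = X.ι (d g) * X.ι (star (d g)) := by
      rw [← mul_assoc, mul_assoc (X.ι (d g)) (X.u g), (X.u_inv g).1, mul_one]
    rw [h1, ← map_mul, X.E_one]
  · intro h _ hne
    rw [star_mul, X.u_star, ← map_star]
    have h1 : X.ι (d g) * X.u g * (X.u h⁻¹ * X.ι (star (d h))) =
        X.ι (d g) * X.u (g * h⁻¹) * X.ι (star (d h)) := by
      rw [X.u_mul]
      simp only [mul_assoc]
    rw [h1, X.E_right, X.E_u (g * h⁻¹) (fun he => hne (mul_inv_eq_one.mp he).symm), zero_mul]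

theorem Cp.E_star_mul (S : Finset Γ) (d : Γ → D) :
    X.E (star (∑ g ∈ S, X.ι (d g) * X.u g) * (∑ g ∈ S, X.ι (d g) * X.u g)) =
      ∑ g ∈ S, X.α g⁻¹ (star (d g) * d g) := by
  rw [star_sum, Finset.sum_mul_sum, map_sum]
  have h1 : ∀ g h, star (X.ι (d g) * X.u g) * (X.ι (d h) * X.u h) =
      X.u g⁻¹ * (X.ι (star (d g) * d h) * X.u (h * g⁻¹)) * X.u g⁻¹⁻¹ := by
    intro g h
    rw [star_mul, X.u_star, ← map_star, X.u_mul, inv_inv, map_mul]
    have h2 : X.u g⁻¹ * (X.ι (star (d g)) * X.ι (d h) * (X.u h * X.u g⁻¹)) * X.u g =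
        X.u g⁻¹ * X.ι (star (d g)) * (X.ι (d h) * X.u h) * (X.u g⁻¹ * X.u g) := by
      simp only [mul_assoc]
    rw [h2, (X.u_inv g).2, mul_one]
  refine Finset.sum_congr rfl fun g hg => ?_
  rw [map_sum, Finset.sum_eq_single_of_mem g hg]
  · rw [h1, X.E_conj, mul_inv_cancel, X.u_one, mul_one, X.E_one]
  · intro h _ hne
    rw [h1, X.E_conj, X.E_u (h * g⁻¹) (fun he => hne (mul_inv_eq_one.mp he)), map_zero]

/-- `A` is the corner `p B p` -/
structure Corner (p : D) (A : Type*) [CStarAlgebra A] where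
  /-- the embedding -/
  j : A →⋆ₙₐ[ℂ] B
  inj : Function.Injective j
  one : j 1 = X.ι p
  range : ∀ x : B, X.ι p * x * X.ι p = x → ∃ a, j a = x

/-- the action is properly outer on `p D p` -/
def Outer (α : Γ →* (D ≃⋆ₐ[ℂ] D)) (p : D) : Prop := ∀ g, g ≠ 1 → ∀ d q : D, Pj q →
  p * q = q → q ≠ 0 → ∀ ε : ℝ, 0 < ε → ∃ r : D, Pj r ∧ q * r = r ∧ r ≠ 0 ∧
    ‖r * d * α g r‖ < ε

end Pool.Agent.H.MP_8be301_an.CX
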