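import Pool.Agent.H.MP_8be301_an.RD.Defs

/-!
# Traces or sums of commutators  (module Hb)

`L` = real span of the elements `star x * x - x * star x` (every element of `L` is a finite sum of such elements: scaling by `c ≥ 0` is
absorbed in `x`, the negative of `star x * x - x * star x` belongs to `star x`). `U` = the elements `a` of `A` such that `δ ≤ (1/2) (a + star a)` for
some `δ > 0` (multiple of 1): open and convex. `K` = skew-adjoint elements. If `(L + K) ∩ U` is nonempty then an element of `L` is `≥ δ`; scale.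
Otherwise Hahn-Banach (`geometric_hahn_banach_open` or `geometric_hahn_banach_open_point` etc., over `ℝ`): a continuous real linear functional
that is `0` on the subspace `L + K` and `> 0` on `U` (a functional bounded on one side on a subspace is 0 there), so `f 1 > 0` and `f ≥ 0` on
positive elements (`a + δ ∈ U`). If `A` is trivial the second alternative holds.
-/

set_option autoImplicit false

namespace Pool.Agent.H.MP_8be301_an.CX

section

variable {A : Type*} [CStarAlgebra A]

/-- the commutator of `star x` and `x` -/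
private def Hb_c (x : A) : A := star x * x - x * star x

private theorem Hb_sa (x : A) : IsSelfAdjoint (Hb_c x) := by
  unfold Hb_c
  exact (IsSelfAdjoint.star_mul_self x).sub (IsSelfAdjoint.mul_star_self x)

private theorem Hb_list_sa (l : List A) : IsSelfAdjoint (l.map Hb_c).sum := by
  induction l with
  | nil => simp
  | cons x l ih =>
    rw [List.map_cons, List.sum_cons]
    exact (Hb_sa x).add ih

private theorem Hb_smul (c : ℝ) (hc : 0 ≤ c) (l : List A) :
    c • (l.map Hb_c).sum = ((l.map fun x => (Real.sqrt c) • x).map Hb_c).sum := by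
  induction l with
  | nil => simp
  | cons x l ih =>
    rw [List.map_cons, List.sum_cons, smul_add, ih, List.map_cons, List.map_cons, List.sum_cons]
    congr 1
    unfold Hb_c
    rw [star_smul, star_trivial (Real.sqrt c), smul_mul_smul_comm, smul_mul_smul_comm,
      Real.mul_self_sqrt hc, smul_sub]

private theorem Hb_neg (l : List A) :
    -(l.map Hb_c).sum = ((l.map fun x => star x).map Hb_c).sum := by
  induction l with
  | nil => simp
  | cons x l ih =>
    rw [List.map_cons, List.sum_cons, neg_add, ih, List.map_cons, List.map_cons, List.sum_cons]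
    congr 1
    unfold Hb_c
    rw [star_star, neg_sub]

variable (A) in
/-- the span of the commutators and the skew-adjoint elements -/
private noncomputable def Hb_S : Submodule ℝ A :=
  Submodule.span ℝ {a | (∃ x, a = Hb_c x) ∨ star a = -a}

private theorem Hb_form {a : A} (ha : a ∈ Hb_S A) :
    ∃ (l : List A) (k : A), star k = -k ∧ a = (l.map Hb_c).sum + k := by
  unfold Hb_S at ha
  induction ha using Submodule.span_induction with
  | mem a h =>
    rcases h with ⟨x, rfl⟩ | h
    · exact ⟨[x], 0, by simp, by simp⟩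
    · exact ⟨[], a, h, by simp⟩
  | zero => exact ⟨[], 0, by simp, by simp⟩
  | add a b _ _ iha ihb =>
    obtain ⟨l, k, hk, rfl⟩ := iha
    obtain ⟨m, j, hj, rfl⟩ := ihb
    refine ⟨l ++ m, k + j, ?_, ?_⟩
    · rw [star_add, hk, hj, neg_add]
    · rw [List.map_append, List.sum_append]
      abel
  | smul c a _ ih =>
    obtain ⟨l, k, hk, rfl⟩ := ih
    rcases le_total 0 c with hc | hc
    · refine ⟨l.map fun x => (Real.sqrt c) • x, c • k, ?_, ?_⟩
      · rw [star_smul, star_trivial, hk, smul_neg]
      · rw [smul_add, Hb_smul c hc]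
    · refine ⟨(l.map fun x => star x).map fun x => (Real.sqrt (-c)) • x, c • k, ?_, ?_⟩
      · rw [star_smul, star_trivial, hk, smul_neg]
      · rw [smul_add, ← Hb_smul (-c) (neg_nonneg.2 hc), ← Hb_neg, smul_neg, neg_smul, neg_neg]

end

private theorem Hb_scale {A : Type*} [CStarAlgebra A] [PartialOrder A] [StarOrderedRing A]
    {c : A} (hc : IsSelfAdjoint c) (h : ‖c - 1‖ < 1) :
    ∃ r : ℝ, 0 ≤ r ∧ 1 ≤ r • c := by
  have h1 : IsSelfAdjoint (c - 1) := hc.sub (IsSelfAdjoint.one A)
  have h2 := h1.neg_algebraMap_norm_le_self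
  have h3 : algebraMap ℝ A (1 - ‖c - 1‖) ≤ c := by
    rw [map_sub, map_one]
    have h4 := add_le_add_left h2 1
    calc (1 : A) - algebraMap ℝ A ‖c - 1‖ = -(algebraMap ℝ A ‖c - 1‖) + 1 := by abel
      _ ≤ (c - 1) + 1 := by exact h4
      _ = c := by abel
  have hd : 0 < 1 - ‖c - 1‖ := by linarith
  refine ⟨(1 - ‖c - 1‖)⁻¹, (inv_pos.2 hd).le, ?_⟩
  have h5 := smul_le_smul_of_nonneg_left h3 (inv_pos.2 hd).le
  rw [Algebra.algebraMap_eq_smul_one, smul_smul, inv_mul_cancel₀ hd.ne', one_smul] at h5
  exact h5

private theorem Hb_fin {A : Type*} [CStarAlgebra A] [PartialOrder A] [StarOrderedRing A]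
    {l : List A} (h : 1 ≤ (l.map Hb_c).sum) :
    ∃ (n : ℕ) (x : Fin n → A), 1 ≤ ∑ i, (star (x i) * x i - x i * star (x i)) := by
  refine ⟨l.length, fun i => l.get i, ?_⟩
  have h1 : ∑ i : Fin l.length, (star (l.get i) * l.get i - l.get i * star (l.get i)) =
      (l.map Hb_c).sum := by
    rw [← List.sum_ofFn]
    congr 1
    conv_rhs => rw [← List.ofFn_get l, List.map_ofFn]
    rfl
  rw [h1]
  exact h

theorem hb (A : Type*) [CStarAlgebra A] [PartialOrder A] [StarOrderedRing A] :
    (∃ f : A →L[ℝ] ℝ, 0 < f 1 ∧ (∀ x, 0 ≤ f (star x * x)) ∧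
      ∀ x, f (star x * x) = f (x * star x)) ∨
    ∃ (n : ℕ) (x : Fin n → A), 1 ≤ ∑ i, (star (x i) * x i - x i * star (x i)) := by
  by_cases hne : ∃ s ∈ Hb_S A, s ∈ Metric.ball (1 : A) 1
  · right
    obtain ⟨s, hs, hb⟩ := hne
    obtain ⟨l, k, hk, rfl⟩ := Hb_form hs
    have hsa := Hb_list_sa l
    have hn : ‖(l.map Hb_c).sum - 1‖ < 1 := by
      have h1 : ‖(l.map Hb_c).sum + k - 1‖ < 1 := by
        rwa [Metric.mem_ball, dist_eq_norm] at hb
      have h2 : ‖(l.map Hb_c).sum - k - 1‖ < 1 := by
        have h3 : star ((l.map Hb_c).sum + k - 1) = (l.map Hb_c).sum - k - 1 := by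
          rw [star_sub, star_add, hsa.star_eq, hk, star_one]
          abel
        rw [← h3, norm_star]
        exact h1
      have h4 : (l.map Hb_c).sum - 1 = (1 / 2 : ℝ) • ((l.map Hb_c).sum + k - 1) +
          (1 / 2 : ℝ) • ((l.map Hb_c).sum - k - 1) := by
        module
      rw [h4]
      refine (norm_add_le _ _).trans_lt ?_
      rw [norm_smul, norm_smul]
      norm_num
      linarith
    obtain ⟨r, hr, h1⟩ := Hb_scale hsa hn
    rw [Hb_smul r hr] at h1
    exact Hb_fin h1
  · left
    have hdisj : Disjoint (Metric.ball (1 : A) 1) (Hb_S A : Set A) := by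
      rw [Set.disjoint_left]
      intro a ha hs
      exact hne ⟨a, hs, ha⟩
    obtain ⟨f, u, hf, hu⟩ := geometric_hahn_banach_open (convex_ball (1 : A) 1)
      Metric.isOpen_ball (Hb_S A).convex hdisj
    have hu0 : u ≤ 0 := by
      have := hu 0 (Hb_S A).zero_mem
      rwa [map_zero] at this
    have hS : ∀ s ∈ Hb_S A, f s = 0 := by
      intro s hs
      by_contra h0
      have h1 := hu (((u - 1) / f s) • s) ((Hb_S A).smul_mem _ hs)
      rw [map_smul, smul_eq_mul, div_mul_cancel₀ _ h0] at h1
      linarith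
    have hcl : ∀ a ∈ Metric.closedBall (1 : A) 1, f a ≤ 0 := by
      have h1 : closure (Metric.ball (1 : A) 1) ⊆ {a | f a ≤ 0} :=
        closure_minimal (fun a ha => (hf a ha).le.trans hu0)
          (isClosed_le f.continuous continuous_const)
      rw [closure_ball _ one_ne_zero] at h1
      exact fun a ha => h1 ha
    refine ⟨-f, ?_, ?_, ?_⟩
    · have h1 := hf 1 (Metric.mem_ball_self one_pos)
      rw [neg_apply]
      linarith
    · intro x
      rw [neg_apply, neg_nonneg]
      have h0 : 0 ≤ star x * x := star_mul_self_nonneg x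
      have hr : 0 < ‖star x * x‖ + 1 := by positivity
      have h1 : 0 ≤ (‖star x * x‖ + 1)⁻¹ • (star x * x) := smul_nonneg (inv_pos.2 hr).le h0
      have h2 : ‖(‖star x * x‖ + 1)⁻¹ • (star x * x)‖ ≤ 1 := by
        rw [norm_smul, norm_inv, Real.norm_of_nonneg hr.le, inv_mul_le_iff₀ hr]
        linarith
      have h3 : (‖star x * x‖ + 1)⁻¹ • (star x * x) ≤ 1 :=
        (CStarAlgebra.norm_le_one_iff_of_nonneg _ h1).1 h2
      have h4 : ‖1 - (‖star x * x‖ + 1)⁻¹ • (star x * x)‖ ≤ 1 := by
        rw [CStarAlgebra.norm_le_one_iff_of_nonneg _ (sub_nonneg.2 h3)]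
        exact sub_le_self _ h1
      have h5 := hcl ((‖star x * x‖ + 1)⁻¹ • (star x * x)) (by
        rw [Metric.mem_closedBall, dist_comm, dist_eq_norm]
        exact h4)
      rw [map_smul, smul_eq_mul] at h5
      by_contra h6
      push Not at h6
      have := mul_pos (inv_pos.2 hr) h6
      linarith
    · intro x
      have h1 := hS (Hb_c x) (Submodule.subset_span (Or.inl ⟨x, rfl⟩))
      unfold Hb_c at h1
      rw [map_sub] at h1
      rw [neg_apply, neg_apply]
      linarith

end Pool.Agent.H.MP_8be301_an.CX
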