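import Pool.Agent.H.MP_8be301_an.CX.Cx

/-!
# Homogeneous parts of a sum of commutators  (module Hd)

In `B`: `ι p ≤ ∑ (star (j x_i) * j x_i - j x_i * star (j x_i))` (`j` is a star homomorphism; write `1 ≤ s` as `s - 1 = star b * b`). Approximate `j x_i` by
finite sums, cut down by `ι p` on both sides (`j x_i = ι p * j x_i * ι p`): `w_i = ∑_{g ∈ S_i} ι (y i g) * u g`, `y i g = p * d i g * α g p`; the sum
of the commutators of the `w_i` differs from the old one by at most `1/2` in norm and both are in the corner. Apply `E` (positive: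
`E_pos`; norm decreasing): `p - 1/2 p ≤ ∑_i (E (star w_i * w_i) - E (w_i * star w_i)) = ∑_{i,g} (α g⁻¹ (star y * y) - y * star y)` by `E_star_mul`, `E_mul_star`. An
element of `p D p` of norm `≤ 1/2` that is self-adjoint is `≥ -(1/2) p`. Index set: the sigma type of `i` and `S_i`, `Fintype.equivFin`.
-/

set_option autoImplicit false

namespace Pool.Agent.H.MP_8be301_an.CX

open Pool.Agent.H.MP_8be301_an.RD

/-- the norm of a projection is at most one -/
private theorem Hd_pj {B : Type*} [CStarAlgebra B] {q : B} (h1 : q * q = q) (h2 : star q = q) :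
    ‖q‖ ≤ 1 := by
  have h3 : ‖q‖ * ‖q‖ = ‖q‖ := by
    have := CStarRing.norm_star_mul_self (x := q)
    rw [h2, h1] at this
    exact this.symm
  by_contra hcon
  push Not at hcon
  nlinarith

private theorem Hd_cut {B : Type*} [CStarAlgebra B] {q : B} (h1 : q * q = q) (h2 : star q = q)
    (x : B) : ‖q * x * q‖ ≤ ‖x‖ := by
  have hq := Hd_pj h1 h2
  calc ‖q * x * q‖ ≤ ‖q * x‖ * ‖q‖ := norm_mul_le _ _
    _ ≤ ‖q‖ * ‖x‖ * ‖q‖ := mul_le_mul_of_nonneg_right (norm_mul_le _ _) (norm_nonneg _)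
    _ ≤ 1 * ‖x‖ * 1 := by gcongr
    _ = ‖x‖ := by ring

private theorem Hd_sq {B : Type*} [CStarAlgebra B] {x w : B} {δ : ℝ} (h : ‖x - w‖ ≤ δ) :
    ‖(star x * x - x * star x) - (star w * w - w * star w)‖ ≤ 2 * (δ * (2 * ‖x‖ + δ)) := by
  have hδ : 0 ≤ δ := (norm_nonneg _).trans h
  have hw : ‖w‖ ≤ ‖x‖ + δ := by
    have h1 : w = x - (x - w) := by abel
    rw [h1]
    exact (norm_sub_le _ _).trans (by linarith)
  have h1 : (star x * x - x * star x) - (star w * w - w * star w) =
      (star x * (x - w) + star (x - w) * w) - ((x - w) * star x + w * star (x - w)) := by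
    rw [star_sub]
    noncomm_ring
  have e1 : ‖star x * (x - w)‖ ≤ ‖x‖ * δ := by
    refine (norm_mul_le _ _).trans ?_
    rw [norm_star]
    gcongr
  have e2 : ‖star (x - w) * w‖ ≤ δ * (‖x‖ + δ) := by
    refine (norm_mul_le _ _).trans ?_
    rw [norm_star]
    gcongr
  have e3 : ‖(x - w) * star x‖ ≤ δ * ‖x‖ := by
    refine (norm_mul_le _ _).trans ?_
    rw [norm_star]
    gcongr
  have e4 : ‖w * star (x - w)‖ ≤ (‖x‖ + δ) * δ := by
    refine (norm_mul_le _ _).trans ?_
    rw [norm_star]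
    gcongr
  rw [h1]
  refine (norm_sub_le _ _).trans ?_
  refine (add_le_add (norm_add_le _ _) (norm_add_le _ _)).trans ?_
  nlinarith

/-- finite sums in the corner -/
private theorem Hd_app {Γ D B : Type*} [Group Γ] [CStarAlgebra D] [CStarAlgebra B]
    (X : Cp Γ D B) {p : D} (hp : Pj p) {x : B} (hx : X.ι p * x * X.ι p = x) {δ : ℝ} (hδ : 0 < δ) :
    ∃ (S : Finset Γ) (y : Γ → D), (∀ g, p * y g = y g ∧ y g * X.α g p = y g) ∧
      ‖x - ∑ g ∈ S, X.ι (y g) * X.u g‖ ≤ δ := by
  obtain ⟨S, d, hS⟩ := X.dense x δ hδ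
  have hP1 : X.ι p * X.ι p = X.ι p := by rw [← map_mul, hp.1]
  have hP2 : star (X.ι p) = X.ι p := by rw [← map_star, hp.2]
  refine ⟨S, fun g => p * d g * X.α g p, fun g => ⟨?_, ?_⟩, ?_⟩
  · rw [← mul_assoc, ← mul_assoc, hp.1]
  · rw [mul_assoc (p * d g), ← map_mul, hp.1]
  · have h1 : ∑ g ∈ S, X.ι (p * d g * X.α g p) * X.u g =
        X.ι p * (∑ g ∈ S, X.ι (d g) * X.u g) * X.ι p := by
      rw [Finset.mul_sum, Finset.sum_mul]
      refine Finset.sum_congr rfl fun g _ => ?_
      rw [map_mul, map_mul, mul_assoc (X.ι p * X.ι (d g)), ← X.cov]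
      simp only [mul_assoc]
    rw [h1]
    have h2 : x - X.ι p * (∑ g ∈ S, X.ι (d g) * X.u g) * X.ι p =
        X.ι p * (x - ∑ g ∈ S, X.ι (d g) * X.u g) * X.ι p := by
      rw [mul_sub, sub_mul, hx]
    rw [h2]
    exact (Hd_cut hP1 hP2 _).trans hS.le

theorem homog {Γ D B A : Type*} [Group Γ] [CStarAlgebra D] [PartialOrder D]
    [StarOrderedRing D] [CStarAlgebra B] [CStarAlgebra A] [PartialOrder A] [StarOrderedRing A]
    (X : Cp Γ D B) {p : D} (hp : Pj p) (C : Corner X p A) {n : ℕ} {x : Fin n → A}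
    (h : 1 ≤ ∑ i, (star (x i) * x i - x i * star (x i))) :
    ∃ (m : ℕ) (g : Fin m → Γ) (y : Fin m → D),
      (∀ i, p * y i = y i ∧ y i * X.α (g i) p = y i) ∧
      (1 / 2 : ℝ) • p ≤ ∑ i, (X.α (g i)⁻¹ (star (y i) * y i) - y i * star (y i)) := by
  have hP1 : X.ι p * X.ι p = X.ι p := by rw [← map_mul, hp.1]
  have hP2 : star (X.ι p) = X.ι p := by rw [← map_star, hp.2]
  have hcor : ∀ a : A, X.ι p * C.j a * X.ι p = C.j a := by
    intro a
    rw [← C.one, ← map_mul, ← map_mul, one_mul, mul_one]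
  -- the bound
  obtain ⟨M, hM0, hM⟩ : ∃ M : ℝ, 0 ≤ M ∧ ∀ i, ‖C.j (x i)‖ ≤ M := by
    refine ⟨∑ i, ‖C.j (x i)‖, Finset.sum_nonneg fun i _ => norm_nonneg _, fun i => ?_⟩
    exact Finset.single_le_sum (f := fun i => ‖C.j (x i)‖) (fun i _ => norm_nonneg _)
      (Finset.mem_univ i)
  set δ : ℝ := 1 / (4 * (n + 1) * (2 * M + 1)) with hδ
  have hδ0 : 0 < δ := by positivity
  have hδ1 : δ ≤ 1 := by
    rw [hδ, div_le_one (by positivity)]
    have : (0 : ℝ) ≤ n := by positivity
    nlinarith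
  choose S y hy hS using fun i => Hd_app X hp (hcor (x i)) hδ0
  set w : Fin n → B := fun i => ∑ g ∈ S i, X.ι (y i g) * X.u g with hw
  -- the sum of commutators
  set T : D := ∑ i, (X.E (star (w i) * w i) - X.E (w i * star (w i))) with hT
  have hTeq : T = ∑ i, ∑ g ∈ S i, (X.α g⁻¹ (star (y i g) * y i g) - y i g * star (y i g)) := by
    rw [hT]
    refine Finset.sum_congr rfl fun i _ => ?_
    simp only [hw]
    rw [X.E_star_mul, X.E_mul_star, Finset.sum_sub_distrib]
  -- the old sum
  set V : D := ∑ i, (X.E (star (C.j (x i)) * C.j (x i)) - X.E (C.j (x i) * star (C.j (x i))))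
    with hV
  have hVp : p ≤ V := by
    obtain ⟨b, hb⟩ := CStarAlgebra.nonneg_iff_eq_star_mul_self.1 (sub_nonneg.2 h)
    have h1 : C.j (∑ i, (star (x i) * x i - x i * star (x i))) =
        X.ι p + star (C.j b) * C.j b := by
      rw [← map_star, ← map_mul, ← hb, map_sub, C.one]
      abel
    obtain ⟨c, hc⟩ := X.E_pos (C.j b)
    have h2 : V = X.E (C.j (∑ i, (star (x i) * x i - x i * star (x i)))) := by
      rw [map_sum, map_sum, hV]
      refine Finset.sum_congr rfl fun i _ => ?_
      have h3 : C.j (star (x i) * x i - x i * star (x i)) =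
          star (C.j (x i)) * C.j (x i) - C.j (x i) * star (C.j (x i)) := by
        rw [map_sub, map_mul, map_mul, map_star]
      rw [h3]
      exact (map_sub X.E _ _).symm
    rw [h2, h1, map_add, X.E_one, hc]
    exact le_add_of_nonneg_right (star_mul_self_nonneg c)
  -- the difference
  have hdn : ‖V - T‖ ≤ 1 / 2 := by
    have h1 : V - T = ∑ i, X.E ((star (C.j (x i)) * C.j (x i) - C.j (x i) * star (C.j (x i))) -
        (star (w i) * w i - w i * star (w i))) := by
      rw [hV, hT, ← Finset.sum_sub_distrib]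
      refine Finset.sum_congr rfl fun i _ => ?_
      simp only [map_sub]
    rw [h1]
    refine (norm_sum_le _ _).trans ?_
    have h2 : ∀ i ∈ (Finset.univ : Finset (Fin n)),
        ‖X.E ((star (C.j (x i)) * C.j (x i) - C.j (x i) * star (C.j (x i))) -
        (star (w i) * w i - w i * star (w i)))‖ ≤ 2 * (δ * (2 * M + 1)) := by
      intro i _
      refine (X.E_norm _).trans ((Hd_sq (hS i)).trans ?_)
      have := hM i
      gcongr
    refine (Finset.sum_le_sum h2).trans ?_
    rw [Finset.sum_const, Finset.card_univ, Fintype.card_fin, nsmul_eq_mul]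
    have h3 : δ * (2 * M + 1) = 1 / (4 * (n + 1)) := by
      rw [hδ]
      field_simp
    rw [h3]
    have h4 : (n : ℝ) * (2 * (1 / (4 * (n + 1)))) = (1 / 2) * (n / (n + 1)) := by
      field_simp
      ring
    rw [h4]
    have h5 : (n : ℝ) / (n + 1) ≤ 1 := by
      rw [div_le_one (by positivity)]
      linarith
    linarith
  have hcutw : ∀ i, X.ι p * w i * X.ι p = w i := by
    intro i
    simp only [hw]
    rw [Finset.mul_sum, Finset.sum_mul]
    refine Finset.sum_congr rfl fun g _ => ?_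
    rw [mul_assoc, mul_assoc, X.cov, ← mul_assoc, ← mul_assoc, ← map_mul, ← map_mul,
      (hy i g).1, (hy i g).2]
  have hcomm : ∀ a : B, X.ι p * a * X.ι p = a →
      p * (X.E (star a * a) - X.E (a * star a)) * p = X.E (star a * a) - X.E (a * star a) ∧
      star (X.E (star a * a) - X.E (a * star a)) = X.E (star a * a) - X.E (a * star a) := by
    intro a ha
    have a1 : X.ι p * a = a := by
      rw [← ha, ← mul_assoc, ← mul_assoc, hP1]
    have a2 : a * X.ι p = a := by
      rw [← ha, mul_assoc, hP1]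
    have a3 : X.ι p * star a = star a := by
      rw [← hP2, ← star_mul, a2]
    have a4 : star a * X.ι p = star a := by
      rw [← hP2, ← star_mul, a1]
    constructor
    · rw [mul_sub, sub_mul, ← X.E_left, ← X.E_left, ← X.E_right, ← X.E_right, ← mul_assoc,
        ← mul_assoc, a1, a3, mul_assoc, mul_assoc, a2, a4]
    · rw [star_sub, ← X.E_star, ← X.E_star, star_mul, star_mul, star_star]
  have hVc : p * V * p = V ∧ star V = V := by
    constructor
    · rw [hV, Finset.mul_sum, Finset.sum_mul]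
      exact Finset.sum_congr rfl fun i _ => (hcomm _ (hcor (x i))).1
    · rw [hV, star_sum]
      exact Finset.sum_congr rfl fun i _ => (hcomm _ (hcor (x i))).2
  have hTc : p * T * p = T ∧ star T = T := by
    constructor
    · rw [hT, Finset.mul_sum, Finset.sum_mul]
      exact Finset.sum_congr rfl fun i _ => (hcomm _ (hcutw i)).1
    · rw [hT, star_sum]
      exact Finset.sum_congr rfl fun i _ => (hcomm _ (hcutw i)).2
  have hle : V - T ≤ (1 / 2 : ℝ) • p := by
    have hsa : IsSelfAdjoint (V - T) := by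
      rw [IsSelfAdjoint, star_sub, hVc.2, hTc.2]
    have h1 : V - T ≤ algebraMap ℝ D (1 / 2) :=
      (hsa.le_algebraMap_norm_self).trans (algebraMap_mono D hdn)
    have h2 := star_left_conjugate_le_conjugate h1 p
    have h3 : star p * (V - T) * p = V - T := by
      rw [hp.2, mul_sub, sub_mul, hVc.1, hTc.1]
    have h4 : star p * algebraMap ℝ D (1 / 2) * p = (1 / 2 : ℝ) • p := by
      rw [hp.2, Algebra.algebraMap_eq_smul_one, mul_smul_comm, mul_one, smul_mul_assoc, hp.1]
    rwa [h3, h4] at h2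
  have hfin : (1 / 2 : ℝ) • p ≤ T := by
    have h1 : p - (1 / 2 : ℝ) • p = (1 / 2 : ℝ) • p := by
      rw [sub_eq_iff_eq_add, ← add_smul]
      norm_num
    rw [← h1]
    have h2 : p - (1 / 2 : ℝ) • p ≤ V - (V - T) := sub_le_sub hVp hle
    rwa [sub_sub_cancel] at h2
  -- the index set
  let J := Σ i : Fin n, {g // g ∈ S i}
  let q : J ≃ Fin (Fintype.card J) := Fintype.equivFin J
  refine ⟨Fintype.card J, fun k => (q.symm k).2.1, fun k => y (q.symm k).1 (q.symm k).2.1,
    fun k => hy _ _, ?_⟩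
  have h1 : ∑ k, (X.α ((q.symm k).2.1)⁻¹ (star (y (q.symm k).1 (q.symm k).2.1) *
      y (q.symm k).1 (q.symm k).2.1) - y (q.symm k).1 (q.symm k).2.1 *
        star (y (q.symm k).1 (q.symm k).2.1)) = T := by
    rw [hTeq]
    rw [Equiv.sum_comp q.symm fun a : J => X.α (a.2.1)⁻¹ (star (y a.1 a.2.1) * y a.1 a.2.1) -
      y a.1 a.2.1 * star (y a.1 a.2.1)]
    rw [Fintype.sum_sigma]
    refine Finset.sum_congr rfl fun i _ => ?_
    exact Finset.sum_coe_sort (S i)
      fun g => X.α g⁻¹ (star (y i g) * y i g) - y i g * star (y i g)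
  rw [h1]
  exact hfin

end Pool.Agent.H.MP_8be301_an.CX
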