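import Pool.Agent.H.MP_8be301_an.CX.Cx
import Pool.Agent.H.MP_8be301_an.RD.Sqr
import Pool.Agent.H.MP_8be301_an.RD.Hp

/-!
# Projections of `D` in hereditary subalgebras  (module Her)

`cut`: `hp2` of RD/Hp for `c`: `q = c * z * c` is a nonzero projection, `p * q = q`. `q = q * q = (q * c) * (z * c * q)`, so
`q = (q * c) * y * star y * star (q * c) ≤ ‖y‖² q * c * c * q ≤ ‖y‖² ‖c‖ q * c * q` with `y = z * c * q` (`c * c ≤ ‖c‖ • c`).
`shrink`: induction on the finite set `S`: proper outerness for every `g ∈ S`, `g ≠ 1` (a smaller projection `r' ≤ r` keeps the old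
estimates: `r' d (α g r') = r' (r d α g r) α g r'`).
`her`: `c = E (star a * a) ≠ 0` (`E_faithful`), `c ≥ 0` (`E_pos`), `p * c = c` (`E_left`). `q`, `κ` from `cut`. `‖star a * a - ∑_{g ∈ S} ι (d g) u g‖ < η`,
`1 ∈ S`; `r` from `shrink` with `‖r * d g * α g r‖ < η / (card S + 1)`. `‖ι r (star a * a) ι r - ι (r c r)‖ ≤ 3 η ≤ κ / 2`, so
`ι r (star a * a) ι r + (1 - ι r) ≥ κ / 2` (or `min`), `s` from `invSqrt`, `t = ι r * s`.
-/

set_option autoImplicit false

namespace Pool.Agent.H.MP_8be301_an.CX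

open Pool.Agent.H.MP_8be301_an.RD

theorem Her_norm_le {A : Type*} [CStarAlgebra A] {r : A} (hr : Pj r) : ‖r‖ ≤ 1 := by
  have h1 : ‖r‖ = ‖r‖ * ‖r‖ := by
    have h2 := CStarRing.norm_star_mul_self (x := r)
    rwa [hr.2, hr.1] at h2
  by_contra h
  rw [not_le] at h
  nlinarith

theorem Her_img {A B : Type*} [CStarAlgebra A] [CStarAlgebra B] (f : A ≃⋆ₐ[ℂ] B) {r : A}
    (hr : Pj r) : Pj (f r) := by
  refine ⟨?_, ?_⟩
  · rw [← map_mul, hr.1]
  · rw [← map_star, hr.2]

theorem Her_sq {A : Type*} [CStarAlgebra A] [PartialOrder A] [StarOrderedRing A] {c : A}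
    (hc : 0 ≤ c) : c * c ≤ ‖c‖ • c := by
  obtain ⟨b, hb⟩ := CStarAlgebra.nonneg_iff_eq_star_mul_self.1 hc
  have h1 : IsSelfAdjoint (b * star b) := by
    rw [IsSelfAdjoint, star_mul, star_star]
  have h2 := CStarAlgebra.star_left_conjugate_le_norm_smul (a := b) (b := b * star b) h1
  have h3 : ‖b * star b‖ = ‖c‖ := by
    rw [hb, CStarRing.norm_self_mul_star, CStarRing.norm_star_mul_self]
  rw [h3, ← hb] at h2
  have h4 : star b * (b * star b) * b = c * c := by
    rw [hb]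
    simp only [mul_assoc]
  rwa [h4] at h2

theorem cut {D : Type*} [CStarAlgebra D] [PartialOrder D] [StarOrderedRing D] (h0 : RR0 D)
    {p c : D} (hp : Pj p) (hc : 0 ≤ c) (hc0 : c ≠ 0) (hpc : p * c = c) :
    ∃ (q : D) (κ : ℝ), Pj q ∧ q ≠ 0 ∧ p * q = q ∧ 0 < κ ∧ κ • q ≤ q * c * q := by
  have hcs : IsSelfAdjoint c := IsSelfAdjoint.of_nonneg hc
  obtain ⟨z, hP, hne⟩ := hp2 h0 hc0 hcs
  obtain ⟨q, hq⟩ : ∃ q, q = c * z * c := ⟨_, rfl⟩
  rw [← hq] at hP hne
  have hpq : p * q = q := by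
    rw [hq, ← mul_assoc, ← mul_assoc, hpc]
  obtain ⟨y, hy⟩ : ∃ y, y = z * c * q := ⟨_, rfl⟩
  have h1 : q * c * y = q := by
    calc q * c * y = q * (c * z * c) * q := by rw [hy]; simp only [mul_assoc]
      _ = q * q * q := by rw [← hq]
      _ = q := by rw [hP.1, hP.1]
  have h2 : q = (q * c) * (y * star y) * star (q * c) := by
    calc q = q * star q := by rw [hP.2, hP.1]
      _ = (q * c * y) * star (q * c * y) := by rw [h1]
      _ = (q * c) * (y * star y) * star (q * c) := by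
        rw [star_mul (q * c) y]
        simp only [mul_assoc]
  have hys : IsSelfAdjoint (y * star y) := by
    rw [IsSelfAdjoint, star_mul, star_star]
  have h3 := CStarAlgebra.star_right_conjugate_le_norm_smul (a := q * c) (b := y * star y) hys
  rw [← h2] at h3
  have h4 : (q * c) * star (q * c) = q * (c * c) * q := by
    rw [star_mul, hP.2, hcs.star_eq]
    simp only [mul_assoc]
  rw [h4] at h3
  have h5 : q * (c * c) * q ≤ q * (‖c‖ • c) * q := by
    have h6 := star_left_conjugate_le_conjugate (Her_sq hc) q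
    rwa [hP.2] at h6
  obtain ⟨M, hM⟩ : ∃ M, M = ‖y * star y‖ * ‖c‖ := ⟨_, rfl⟩
  have hM0 : 0 ≤ M := by
    rw [hM]
    positivity
  have h6 : q ≤ M • (q * c * q) := by
    refine h3.trans ?_
    have h7 := smul_le_smul_of_nonneg_left h5 (norm_nonneg (y * star y))
    refine h7.trans (le_of_eq ?_)
    rw [hM, mul_smul_comm, smul_mul_assoc, smul_smul]
  have h8 : 0 ≤ q * c * q := Hp_conj_nonneg hP hc
  refine ⟨q, (M + 1)⁻¹, hP, hne, hpq, by positivity, ?_⟩
  have h9 : q ≤ (M + 1) • (q * c * q) := by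
    rw [add_smul, one_smul]
    exact h6.trans (le_add_of_nonneg_right h8)
  have h10 := smul_le_smul_of_nonneg_left h9 (show 0 ≤ (M + 1)⁻¹ by positivity)
  rwa [smul_smul, inv_mul_cancel₀ (by positivity), one_smul] at h10

theorem shrink {D : Type*} [CStarAlgebra D] {Γ : Type*} [Group Γ] {α : Γ →* (D ≃⋆ₐ[ℂ] D)}
    {p q : D} (hα : Outer α p) (hq : Pj q) (hpq : p * q = q) (hq0 : q ≠ 0) (S : Finset Γ)
    (d : Γ → D) {ε : ℝ} (hε : 0 < ε) : ∃ r : D, Pj r ∧ q * r = r ∧ r ≠ 0 ∧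
      ∀ g ∈ S, g ≠ 1 → ‖r * d g * α g r‖ < ε := by
  classical
  induction S using Finset.induction_on with
  | empty => exact ⟨q, hq, hq.1, hq0, by simp⟩
  | insert g S hg ih =>
    obtain ⟨r, hr, hqr, hr0, hS⟩ := ih
    by_cases h1 : g = 1
    · refine ⟨r, hr, hqr, hr0, fun h hh hne => ?_⟩
      rcases Finset.mem_insert.1 hh with h2 | h2
      · exact absurd (h2.trans h1) hne
      · exact hS h h2 hne
    · have hpr : p * r = r := by
        rw [← hqr, ← mul_assoc, hpq]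
      obtain ⟨r', hr', hrr', hr'0, hlt⟩ := hα g h1 (d g) r hr hpr hr0 ε hε
      refine ⟨r', hr', ?_, hr'0, fun h hh hne => ?_⟩
      · rw [← hrr', ← mul_assoc, hqr]
      · rcases Finset.mem_insert.1 hh with h2 | h2
        · rw [h2]
          exact hlt
        · have h3 := hS h h2 hne
          have h4 : r' * r = r' := by
            have h5 := congrArg star hrr'
            rwa [star_mul, hr.2, hr'.2] at h5
          have h5 : r' * d h * α h r' = r' * (r * d h * α h r) * α h r' := by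
            have h6 : α h r' = α h r * α h r' := by rw [← map_mul, hrr']
            calc r' * d h * α h r' = (r' * r) * d h * (α h r * α h r') := by rw [h4, ← h6]
              _ = r' * (r * d h * α h r) * α h r' := by simp only [mul_assoc]
          rw [h5]
          have h6 := Her_norm_le hr'
          have h7 := Her_norm_le (Her_img (α h) hr')
          calc ‖r' * (r * d h * α h r) * α h r'‖ ≤ ‖r' * (r * d h * α h r)‖ * ‖α h r'‖ :=
                norm_mul_le _ _
            _ ≤ ‖r' * (r * d h * α h r)‖ * 1 := mul_le_mul_of_nonneg_left h7 (norm_nonneg _)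
            _ = ‖r' * (r * d h * α h r)‖ := mul_one _
            _ ≤ ‖r'‖ * ‖r * d h * α h r‖ := norm_mul_le _ _
            _ ≤ 1 * ‖r * d h * α h r‖ := mul_le_mul_of_nonneg_right h6 (norm_nonneg _)
            _ < ε := by rwa [one_mul]

theorem Her_sum {Γ D B : Type*} [Group Γ] [CStarAlgebra D] [CStarAlgebra B] (X : Cp Γ D B)
    (S : Finset Γ) (d : Γ → D) {r : D} {ε : ℝ} (hε : 0 ≤ ε)
    (h : ∀ g ∈ S, g ≠ 1 → ‖r * d g * X.α g r‖ < ε) :
    ‖X.ι r * (∑ g ∈ S, X.ι (d g) * X.u g) * X.ι r -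
      X.ι (r * X.E (∑ g ∈ S, X.ι (d g) * X.u g) * r)‖ ≤ S.card * ε := by
  classical
  have h1 : X.ι r * (∑ g ∈ S, X.ι (d g) * X.u g) * X.ι r -
      X.ι (r * X.E (∑ g ∈ S, X.ι (d g) * X.u g) * r) =
      ∑ g ∈ S, (X.ι r * (X.ι (d g) * X.u g) * X.ι r - X.ι (r * X.E (X.ι (d g) * X.u g) * r)) := by
    rw [Finset.sum_sub_distrib, map_sum, Finset.mul_sum, Finset.sum_mul, Finset.mul_sum,
      Finset.sum_mul, map_sum]
  rw [h1]
  refine (norm_sum_le _ _).trans ?_
  have h2 : ∀ g ∈ S, ‖X.ι r * (X.ι (d g) * X.u g) * X.ι r -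
      X.ι (r * X.E (X.ι (d g) * X.u g) * r)‖ ≤ ε := by
    intro g hg
    by_cases h3 : g = 1
    · subst h3
      rw [X.u_one, mul_one, X.E_one, ← map_mul, ← map_mul, sub_self, norm_zero]
      exact hε
    · rw [X.E_u g h3, mul_zero, zero_mul, map_zero, sub_zero]
      have h4 : X.ι r * (X.ι (d g) * X.u g) * X.ι r = X.ι (r * d g * X.α g r) * X.u g := by
        calc X.ι r * (X.ι (d g) * X.u g) * X.ι r = X.ι r * X.ι (d g) * (X.u g * X.ι r) := by
              simp only [mul_assoc]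
          _ = X.ι (r * d g * X.α g r) * X.u g := by
              rw [X.cov, map_mul, map_mul]
              simp only [mul_assoc]
      rw [h4, (X.norm_u _ g).1, X.norm_ι]
      exact (h g hg h3).le
  refine (Finset.sum_le_sum h2).trans ?_
  rw [Finset.sum_const, nsmul_eq_mul]

theorem her {Γ D B : Type*} [Group Γ] [CStarAlgebra D] [CStarAlgebra B] (X : Cp Γ D B)
    (h0 : RR0 D) {p : D} (hp : Pj p) (hα : Outer X.α p) {a : B} (ha : a ≠ 0)
    (hap : a * X.ι p = a) :
    ∃ (r : D) (t : B), Pj r ∧ r ≠ 0 ∧ p * r = r ∧ star (a * t) * (a * t) = X.ι r ∧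
      X.ι p * t = t ∧ t * X.ι r = t := by
  letI : PartialOrder D := CStarAlgebra.spectralOrder D
  letI : StarOrderedRing D := CStarAlgebra.spectralOrderedRing D
  letI : PartialOrder B := CStarAlgebra.spectralOrder B
  letI : StarOrderedRing B := CStarAlgebra.spectralOrderedRing B
  obtain ⟨x, hx⟩ : ∃ x, x = star a * a := ⟨_, rfl⟩
  obtain ⟨c, hc⟩ : ∃ c, c = X.E x := ⟨_, rfl⟩
  have hcn : 0 ≤ c := by
    obtain ⟨y, hy⟩ := X.E_pos a
    rw [hc, hx, hy]
    exact star_mul_self_nonneg y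
  have hc0 : c ≠ 0 := by
    intro h
    rw [hc, hx] at h
    exact ha (X.E_faithful a h)
  have hpc : p * c = c := by
    have h1 : X.ι p * x = x := by
      rw [hx, ← mul_assoc]
      congr 1
      have h2 := congrArg star hap
      rwa [star_mul, ← map_star, hp.2] at h2
    rw [hc, ← X.E_left, h1]
  obtain ⟨q, κ, hq, hq0, hpq, hκ, hle⟩ := cut h0 hp hcn hc0 hpc
  obtain ⟨κ', hκ'⟩ : ∃ κ', κ' = min κ 1 := ⟨_, rfl⟩
  have hκ'0 : 0 < κ' := by
    rw [hκ']
    exact lt_min hκ one_pos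
  obtain ⟨η, hη⟩ : ∃ η, η = κ' / 6 := ⟨_, rfl⟩
  have hη0 : 0 < η := by
    rw [hη]
    positivity
  obtain ⟨S, d, hS⟩ := X.dense x η hη0
  obtain ⟨s, hs⟩ : ∃ s, s = ∑ g ∈ S, X.ι (d g) * X.u g := ⟨_, rfl⟩
  rw [← hs] at hS
  have hcard : (0 : ℝ) < S.card + 1 := by positivity
  obtain ⟨r, hr, hqr, hr0, hrS⟩ := shrink hα hq hpq hq0 S d
    (ε := η / (S.card + 1)) (by positivity)
  have hrq : r * q = r := by
    have h5 := congrArg star hqr
    rwa [star_mul, hq.2, hr.2] at h5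
  have hpr : p * r = r := by
    rw [← hqr, ← mul_assoc, hpq]
  have hιr : Pj (X.ι r) := by
    refine ⟨?_, ?_⟩
    · rw [← map_mul, hr.1]
    · rw [← map_star, hr.2]
  have hιn : ‖X.ι r‖ ≤ 1 := Her_norm_le hιr
  have hcon : ∀ y : B, ‖X.ι r * y * X.ι r‖ ≤ ‖y‖ := by
    intro y
    calc ‖X.ι r * y * X.ι r‖ ≤ ‖X.ι r * y‖ * ‖X.ι r‖ := norm_mul_le _ _
      _ ≤ ‖X.ι r * y‖ * 1 := mul_le_mul_of_nonneg_left hιn (norm_nonneg _)
      _ = ‖X.ι r * y‖ := mul_one _
      _ ≤ ‖X.ι r‖ * ‖y‖ := norm_mul_le _ _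
      _ ≤ 1 * ‖y‖ := mul_le_mul_of_nonneg_right hιn (norm_nonneg _)
      _ = ‖y‖ := one_mul _
  -- the estimate
  have hmain : ‖X.ι r * x * X.ι r - X.ι (r * c * r)‖ ≤ κ' / 2 := by
    have h1 : ‖X.ι r * (x - s) * X.ι r‖ ≤ η := (hcon _).trans hS.le
    have h2 : ‖X.ι r * s * X.ι r - X.ι (r * X.E s * r)‖ ≤ η := by
      rw [hs]
      refine (Her_sum X S d (by positivity) hrS).trans ?_
      rw [mul_div_assoc', div_le_iff₀ hcard]
      nlinarith
    have h3 : ‖X.ι (r * (X.E s - c) * r)‖ ≤ η := by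
      have h4 : X.ι (r * (X.E s - c) * r) = X.ι r * X.ι (X.E s - c) * X.ι r := by
        rw [map_mul, map_mul]
      rw [h4]
      refine (hcon _).trans ?_
      rw [X.norm_ι, hc, ← map_sub]
      refine (X.E_norm _).trans ?_
      rw [norm_sub_rev]
      exact hS.le
    have h5 : X.ι r * x * X.ι r - X.ι (r * c * r) = X.ι r * (x - s) * X.ι r +
        (X.ι r * s * X.ι r - X.ι (r * X.E s * r)) + X.ι (r * (X.E s - c) * r) := by
      simp only [map_mul, map_sub, mul_sub, sub_mul]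
      abel
    rw [h5]
    have h6 := norm_add₃_le (a := X.ι r * (x - s) * X.ι r)
      (b := X.ι r * s * X.ι r - X.ι (r * X.E s * r)) (c := X.ι (r * (X.E s - c) * r))
    linarith
  -- the lower bound
  obtain ⟨C₀, hC₀⟩ : ∃ C₀, C₀ = X.ι (r * c * r) + (1 - X.ι r) := ⟨_, rfl⟩
  obtain ⟨C, hC⟩ : ∃ C, C = X.ι r * x * X.ι r + (1 - X.ι r) := ⟨_, rfl⟩
  have hιr' : Pj (1 - X.ι r) := by
    refine ⟨?_, ?_⟩
    · rw [mul_sub, sub_mul, sub_mul, hιr.1]
      simp
    · rw [star_sub, star_one, hιr.2]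
  have hlow : 0 ≤ X.ι (r * c * r) - κ • X.ι r := by
    have h1 : 0 ≤ r * (q * c * q - κ • q) * r := Hp_conj_nonneg hr (sub_nonneg.2 hle)
    have h2 : r * (q * c * q - κ • q) * r = r * c * r - κ • r := by
      rw [mul_sub, sub_mul, mul_smul_comm, hrq, smul_mul_assoc, hr.1]
      congr 1
      calc r * (q * c * q) * r = (r * q) * c * (q * r) := by simp only [mul_assoc]
        _ = r * c * r := by rw [hrq, hqr]
    rw [h2] at h1
    obtain ⟨b, hb⟩ := CStarAlgebra.nonneg_iff_eq_star_mul_self.1 h1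
    have h3 : X.ι (r * c * r) - κ • X.ι r = star (X.ι b) * X.ι b := by
      rw [← map_star, ← map_mul, ← hb, map_sub]
      congr 1
      rw [← Complex.coe_smul κ (X.ι r), ← Complex.coe_smul κ r, map_smul]
    rw [h3]
    exact star_mul_self_nonneg _
  have hck : algebraMap ℝ B κ' ≤ C₀ := by
    rw [← sub_nonneg]
    have h1 : 0 ≤ (κ - κ') • X.ι r :=
      Hp_smul_nonneg hιr (by rw [hκ']; linarith [min_le_left κ 1])
    have h2 : 0 ≤ (1 - κ') • (1 - X.ι r) :=
      Hp_smul_nonneg hιr' (by rw [hκ']; linarith [min_le_right κ 1])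
    have h3 := add_nonneg (add_nonneg hlow h1) h2
    have h4 : X.ι (r * c * r) - κ • X.ι r + (κ - κ') • X.ι r + (1 - κ') • (1 - X.ι r) =
        C₀ - algebraMap ℝ B κ' := by
      rw [hC₀, Algebra.algebraMap_eq_smul_one, sub_smul, sub_smul, one_smul, smul_sub]
      abel
    rwa [h4] at h3
  have hxs : star x = x := by
    rw [hx, star_mul, star_star]
  have hCs : IsSelfAdjoint C := by
    rw [IsSelfAdjoint, hC, star_add, hιr'.2, star_mul, star_mul, hιr.2, hxs]
    simp only [mul_assoc]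
  have hCC : ‖C - C₀‖ ≤ κ' / 2 := by
    have h1 : C - C₀ = X.ι r * x * X.ι r - X.ι (r * c * r) := by
      rw [hC, hC₀]
      abel
    rw [h1]
    exact hmain
  have hCk := lb_close hck hCs hCC
  obtain ⟨w, hws, hwc, hwx⟩ := invSqrt (κ := κ' - κ' / 2) (by linarith) hCk
  have hCr : C * X.ι r = X.ι r * x * X.ι r := by
    rw [hC, add_mul, sub_mul, one_mul, mul_assoc (X.ι r * x), hιr.1, sub_self, add_zero]
  have hrC : X.ι r * C = X.ι r * x * X.ι r := by
    rw [hC, mul_add, mul_sub, mul_one, ← mul_assoc, ← mul_assoc, hιr.1, sub_self, add_zero]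
  have hrw : X.ι r * w = w * X.ι r := hwx (X.ι r) (by rw [hCr, hrC])
  refine ⟨r, X.ι r * w, hr, hr0, hpr, ?_, ?_, ?_⟩
  · calc star (a * (X.ι r * w)) * (a * (X.ι r * w)) = w * (X.ι r * x * X.ι r) * w := by
          rw [star_mul, star_mul, hιr.2, hws.star_eq, hx]
          simp only [mul_assoc]
      _ = w * (C * X.ι r) * w := by rw [hCr]
      _ = w * C * (X.ι r * w) := by simp only [mul_assoc]
      _ = w * C * w * X.ι r := by rw [hrw]; simp only [mul_assoc]
      _ = X.ι r := by rw [hwc, one_mul]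
  · rw [← mul_assoc, ← map_mul, hpr]
  · rw [mul_assoc, ← hrw, ← mul_assoc, hιr.1]

end Pool.Agent.H.MP_8be301_an.CX
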