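import Pool.Agent.H.MP_8be301_an.CX.Gr
import Pool.Agent.H.MP_8be301_an.CX.Act

/-!
# Actions through a group of subexponential growth  (module Quo)

Theorem M for actions of a group `Γ` that factor through a homomorphism to a group of subexponential growth.
-/

set_option autoImplicit false

namespace Pool.Agent.H.MP_8be301_an.CX

open Pool.Agent.H.MP_8be301_an.RD Pool.Agent.H.MP_8be301_an.DP

open scoped Pointwise in
theorem subExp_inj {Γ Δ : Type*} [Group Γ] [Group Δ] (f : Γ →* Δ) (hf : Function.Injective f)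
    (h : SubExp Δ) : SubExp Γ := by
  classical
  intro S c hc
  obtain ⟨N, hN⟩ := h (S.image f) c hc
  refine ⟨N, fun n hn => ?_⟩
  have h1 := hN n hn
  rw [← Finset.image_pow, Finset.card_image_of_injective _ hf] at h1
  exact h1

section

variable {V Γ Δ : Type*} [AddCommMonoid V] [Group Γ] [Group Δ] (ρ : Ac Γ V) (π : Γ →* Δ)

theorem Quo_eq (hπ : ∀ g, π g = 1 → ∀ x, ρ g x = x) {g h : Γ} (e : π g = π h) (x : V) :
    ρ g x = ρ h x := by
  have h1 : ρ (h⁻¹ * g) x = x := hπ _ (by rw [map_mul, map_inv, e, inv_mul_cancel]) x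
  calc ρ g x = ρ (h * (h⁻¹ * g)) x := by rw [mul_inv_cancel_left]
    _ = ρ h x := by rw [ρ.mul, h1]

theorem exists_quot (hπ : ∀ g, π g = 1 → ∀ x, ρ g x = x) :
    ∃ ρ' : Ac π.range V, ∀ (g : Γ) (x : V), ρ' ⟨π g, g, rfl⟩ x = ρ g x := by
  have hc : ∀ y : π.range, ∃ g : Γ, π g = y := fun y => y.2
  choose s hs using hc
  refine ⟨⟨fun y => ρ.f (s y), fun x => ?_, fun y z x => ?_⟩, fun g x => ?_⟩
  · exact hπ _ (hs 1) x
  · show ρ (s (y * z)) x = ρ (s y) (ρ (s z) x)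
    rw [← ρ.mul]
    refine Quo_eq ρ π hπ ?_ x
    rw [hs, map_mul, hs, hs]
    rfl
  · exact Quo_eq ρ π hπ (hs _) x

theorem thmMq (hπ : ∀ g, π g = 1 → ∀ x, ρ g x = x) (hV : Refi V) (hA : AlmU V)
    (hΔ : SubExp Δ) {x : V} {k : ℕ} (h : LeM ρ ((k + 1) • x) (k • x)) :
    LeM ρ (2 • x) x := by
  obtain ⟨ρ', h'⟩ := exists_quot ρ π hπ
  obtain ⟨n, z, g, h1, h2⟩ := h
  have h3 : LeM ρ' ((k + 1) • x) (k • x) :=
    ⟨n, z, fun i => ⟨π (g i), g i, rfl⟩, h1, by simpa only [h'] using h2⟩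
  obtain ⟨n, z, g, h1, h2⟩ :=
    thmM ρ' hV hA (subExp_inj π.range.subtype Subtype.val_injective hΔ) h3
  have hc : ∀ i, ∃ u : Γ, (⟨π u, u, rfl⟩ : π.range) = g i := fun i => by
    obtain ⟨u, hu⟩ := (g i).2
    exact ⟨u, Subtype.ext hu⟩
  choose u hu using hc
  refine ⟨n, z, u, h1, ?_⟩
  have h4 : ∑ i, ρ (u i) (z i) = ∑ i, ρ' (g i) (z i) :=
    Finset.sum_congr rfl fun i _ => by rw [← hu, h']
  rw [h4]
  exact h2

end

theorem c1_mvn {A : Type*} [CStarAlgebra A] {p q : A} (hp : Pj p) (hq : Pj q)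
    (h : Mvn p q) : c1 p = c1 q := by
  obtain ⟨v, h1, h2⟩ := h
  rw [c1_eq hp, c1_eq hq, cl_eq]
  refine ⟨Matrix.of fun _ _ : Unit => v, ?_, ?_⟩
  · ext i j
    simp [Matrix.mul_apply, Matrix.conjTranspose_apply, h1]
  · ext i j
    simp [Matrix.mul_apply, Matrix.conjTranspose_apply, h2]

theorem rho_triv {D Γ : Type*} [CStarAlgebra D] [Group Γ] (α : Γ →* (D ≃⋆ₐ[ℂ] D)) {g : Γ}
    (h : ∀ q : D, Pj q → Mvn (α g q) q) (x : W D) : rho α g x = x := by
  obtain ⟨k, p, hp, e⟩ := W_fin x.2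
  have e1 : x = ∑ i, cW (p i) (hp i) := by
    apply Subtype.ext
    rw [e, AddSubmonoid.coe_finsetSum]
    rfl
  rw [e1, map_sum]
  refine Finset.sum_congr rfl fun i _ => ?_
  rw [rho_c]
  exact Subtype.ext (c1_mvn (pj_aut _ (hp i)) (hp i) (h _ (hp i)))

end Pool.Agent.H.MP_8be301_an.CX
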