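import Pool.Agent.H.MP_8be301_an.RD.Spec
import Pool.Agent.H.MP_8be301_an.RD.Sqr
import Pool.Agent.H.MP_8be301_an.RD.Hp
import Pool.Agent.H.MP_8be301_an.CX.AfD

/-!
# Real rank zero: elements whose square has finite spectrum are dense  (module RrE)

`almost_pi`: `c = star x * x + (1 - e)`, `‖c - 1‖ < δ ≤ 1/2`, `s` from `invSqrt` (with spectralOrder, `lb_close`) commutes with `e` (`e * c = c * e`
because `x * e = x`), `c * (1 - e) = 1 - e`, so `star (x * s) * (x * s) = s * (c - (1 - e)) * s = 1 - (1 - e) = e`. `‖s - 1‖ ≤ K δ`: see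
`near_unitary` in CX/AfD (same estimate; it may contain a lemma that you can cite, CX/AfD is on main).

`rr_elt`: `a = star y * y`, `M = ‖y‖`. Given `κ > 0` and then `η > 0` much smaller (`η ≤ κ * δ`), RR0 gives `b` with finite spectrum,
`‖a - b‖ < η`; `finSpec`: `b = ∑ t • r t`, `r t` orthogonal projections with sum 1. `e = ∑_{t ≥ κ} r t`, `g = ∑_{t ≥ κ} (√t)⁻¹ • r t`, `b' = ∑_{t ≥ κ} √t • r t`; `g * b' = e`,
`g * b * g = e`, `‖g‖² ≤ 1/κ`. `v' = y * g`: `star v' * v' - e = g * (a - b) * g`, norm `≤ η / κ`; `v' * e = v'`. `almost_pi`: `v = v' * s`, `star v * v = e`,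
`‖v - v'‖` small; `p * v = v`. `x = p₂ * e`: `(1 - p₂) * e = (1 - p₂) * b * g * g`, `(1 - p₂) * a = 0`, so `‖(1 - p₂) * e‖ ≤ η / κ`; `star x * x - e = - e * (1 - p₂) * e`;
`almost_pi`: `v₁ = p₂ * e * s₁`, `star v₁ * v₁ = e`, `p₂ * v₁ = v₁`, `‖v₁ - e‖` small. `w = v * b' * star v₁`. `star w * w = v₁ * (b' * b') * star v₁ =
∑_{t ≥ κ} t • (v₁ * r t * star v₁)`: a combination of orthogonal projections, so the spectrum is finite (contained in `{0} ∪ s`; a root of the
polynomial `∏ (X - t)` times `X`). `‖w - y‖ ≤ ‖v b' v₁* - v' b' e‖ + ‖y * e - y‖`, `v' * b' * e = y * e`, `‖y * (1 - e)‖² = ‖(1 - e) * a * (1 - e)‖ ≤ κ + η`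
(`(1 - e) * b * (1 - e) = ∑_{t < κ} t • r t` and `t ≥ -η`, or just use that its norm is at most `max` of `κ` and `η`: the negative `t` satisfy `|t| ≤ η` because
`b + η ≥ a ≥ 0`).
-/

set_option autoImplicit false

namespace Pool.Agent.H.MP_8be301_an.CX

open Pool.Agent.H.MP_8be301_an.RD

variable {D : Type*} [CStarAlgebra D]

theorem almost_pi {η : ℝ} (hη : 0 < η) : ∃ δ : ℝ, 0 < δ ∧ ∀ e x : D, Pj e → x * e = x →
    ‖star x * x - e‖ < δ → ∃ s : D, star (x * s) * (x * s) = e ∧ ‖x * s - x‖ < η := by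
  refine ⟨min (1 / 2) (η / 2), lt_min (by norm_num) (by positivity), ?_⟩
  intro e x he hx hd
  have hee : e * e = e := he.1
  have hes : star e = e := he.2
  have hx' : e * star x = star x := by
    have h1 := congrArg star hx
    rwa [star_mul, hes] at h1
  obtain ⟨c, hc⟩ : ∃ c, c = star x * x + (1 - e) := ⟨_, rfl⟩
  have hcs : star c = c := by
    rw [hc, star_add, star_sub, star_mul, star_star, star_one, hes]
  have hc1 : c - 1 = star x * x - e := by
    rw [hc]
    abel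
  have hd1 : ‖c - 1‖ < 1 / 2 := by
    rw [hc1]
    exact hd.trans_le (min_le_left _ _)
  have hd2 : ‖c - 1‖ < η / 2 := by
    rw [hc1]
    exact hd.trans_le (min_le_right _ _)
  obtain ⟨t, hts, htc, hcom, htn⟩ := AfD_sqr hcs hd1.le
  have hec : e * c = c * e := by
    have e1 : e * c = star x * x := by
      rw [hc, mul_add, mul_sub, mul_one, hee, sub_self, add_zero, ← mul_assoc, hx']
    have e2 : c * e = star x * x := by
      rw [hc, add_mul, sub_mul, one_mul, hee, sub_self, add_zero, mul_assoc, hx]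
    rw [e1, e2]
  have het : e * t = t * e := hcom e hec
  have h1 : (1 - e) * c = 1 - e := by
    rw [hc, mul_add, ← mul_assoc]
    have e1 : (1 - e) * star x = 0 := by rw [sub_mul, one_mul, hx', sub_self]
    have e2 : (1 - e) * (1 - e) = 1 - e := by
      rw [mul_sub, mul_one, sub_mul, one_mul, hee, sub_self, sub_zero]
    rw [e1, zero_mul, zero_add, e2]
  have h2 : t * (1 - e) * t = 1 - e := by
    have e1 : t * (1 - e) = (1 - e) * t := by
      rw [mul_sub, sub_mul, mul_one, one_mul, het]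
    calc t * (1 - e) * t = t * ((1 - e) * c) * t := by rw [h1]
      _ = t * (1 - e) * c * t := by simp only [mul_assoc]
      _ = (1 - e) * (t * c * t) := by rw [e1]; simp only [mul_assoc]
      _ = 1 - e := by rw [htc, mul_one]
  refine ⟨t, ?_, ?_⟩
  · have e1 : star x * x = c - (1 - e) := by
      rw [hc]
      abel
    have e2 : star (x * t) * (x * t) = t * (star x * x) * t := by
      rw [star_mul, hts]
      simp only [mul_assoc]
    rw [e2, e1, mul_sub, sub_mul, htc, h2]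
    abel
  · have hxn : ‖x‖ ≤ 2 := by
      have e1 : ‖x‖ * ‖x‖ = ‖star x * x‖ := CStarRing.norm_star_mul_self.symm
      have e2 : ‖star x * x‖ ≤ ‖c - 1‖ + ‖e‖ := by
        have : star x * x = (c - 1) + e := by
          rw [hc1]
          abel
        rw [this]
        exact norm_add_le _ _
      have e3 := AfD_norm he
      nlinarith [norm_nonneg x]
    have e1 : x * t - x = x * (t - 1) := by rw [mul_sub, mul_one]
    rw [e1]
    refine (norm_mul_le _ _).trans_lt ?_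
    have e2 : ‖x‖ * ‖t - 1‖ ≤ 2 * ‖c - 1‖ :=
      mul_le_mul hxn htn (norm_nonneg _) (by norm_num)
    linarith

/-! ### functions of an element of finite spectrum -/

/-- `∑ f x • r x` -/
noncomputable def RrE_S (s : Finset ℝ) (r : ℝ → D) (f : ℝ → ℝ) : D := ∑ x ∈ s, f x • r x

/-- orthogonal projections with sum one -/
structure RrE_H (s : Finset ℝ) (r : ℝ → D) : Prop where
  pj : ∀ x ∈ s, Pj (r x)
  ort : ∀ x ∈ s, ∀ x' ∈ s, x ≠ x' → r x * r x' = 0
  one : ∑ x ∈ s, r x = 1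

theorem RrE_mul {s : Finset ℝ} {r : ℝ → D} (h : RrE_H s r) (f g : ℝ → ℝ) :
    RrE_S s r f * RrE_S s r g = RrE_S s r (fun x => f x * g x) := by
  unfold RrE_S
  rw [Finset.sum_mul]
  refine Finset.sum_congr rfl fun x hx => ?_
  rw [Finset.mul_sum, Finset.sum_eq_single x]
  · rw [smul_mul_smul_comm, (h.pj x hx).1]
  · intro x' hx' hne
    rw [smul_mul_smul_comm, h.ort x hx x' hx' (Ne.symm hne), smul_zero]
  · intro h'
    exact absurd hx h'

theorem RrE_star {s : Finset ℝ} {r : ℝ → D} (h : RrE_H s r) (f : ℝ → ℝ) :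
    star (RrE_S s r f) = RrE_S s r f := by
  unfold RrE_S
  rw [star_sum]
  refine Finset.sum_congr rfl fun x hx => ?_
  rw [star_smul, star_trivial, (h.pj x hx).2]

theorem RrE_congr {s : Finset ℝ} {r : ℝ → D} {f g : ℝ → ℝ} (h : ∀ x ∈ s, f x = g x) :
    RrE_S s r f = RrE_S s r g :=
  Finset.sum_congr rfl fun x hx => by rw [h x hx]

theorem RrE_const {s : Finset ℝ} {r : ℝ → D} (h : RrE_H s r) (c : ℝ) :
    RrE_S s r (fun _ => c) = algebraMap ℝ D c := by
  unfold RrE_S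
  rw [← Finset.smul_sum, h.one, Algebra.algebraMap_eq_smul_one]

theorem RrE_sub (s : Finset ℝ) (r : ℝ → D) (f g : ℝ → ℝ) :
    RrE_S s r f - RrE_S s r g = RrE_S s r (fun x => f x - g x) := by
  unfold RrE_S
  rw [← Finset.sum_sub_distrib]
  exact Finset.sum_congr rfl fun x _ => (sub_smul _ _ _).symm

theorem RrE_nonneg [PartialOrder D] [StarOrderedRing D] {s : Finset ℝ} {r : ℝ → D}
    (h : RrE_H s r) {f : ℝ → ℝ} (hf : ∀ x ∈ s, 0 ≤ f x) : 0 ≤ RrE_S s r f := by
  have e : RrE_S s r f = star (RrE_S s r fun x => √(f x)) * (RrE_S s r fun x => √(f x)) := by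
    rw [RrE_star h, RrE_mul h]
    exact RrE_congr fun x hx => (Real.mul_self_sqrt (hf x hx)).symm
  rw [e]
  exact star_mul_self_nonneg _

theorem RrE_norm {s : Finset ℝ} {r : ℝ → D} (h : RrE_H s r) {f : ℝ → ℝ} {C : ℝ} (hC : 0 ≤ C)
    (hf : ∀ x ∈ s, |f x| ≤ C) : ‖RrE_S s r f‖ ≤ C := by
  letI : PartialOrder D := CStarAlgebra.spectralOrder D
  letI : StarOrderedRing D := CStarAlgebra.spectralOrderedRing D
  have h1 : ‖star (RrE_S s r f) * RrE_S s r f‖ ≤ C ^ 2 := by
    rw [CStarAlgebra.norm_le_iff_le_algebraMap _ (by positivity) (star_mul_self_nonneg _),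
      ← sub_nonneg, RrE_star h, RrE_mul h, ← RrE_const h (C ^ 2), RrE_sub]
    refine RrE_nonneg h fun x hx => ?_
    have h2 := hf x hx
    have h3 : f x * f x ≤ C ^ 2 := by
      rw [← abs_mul_abs_self (f x)]
      nlinarith [abs_nonneg (f x)]
    linarith
  rw [CStarRing.norm_star_mul_self] at h1
  nlinarith [norm_nonneg (RrE_S s r f)]

theorem RrE_pj {s : Finset ℝ} {r : ℝ → D} (h : RrE_H s r) {f : ℝ → ℝ}
    (hf : ∀ x ∈ s, f x * f x = f x) : Pj (RrE_S s r f) :=
  ⟨by rw [RrE_mul h]; exact RrE_congr hf, RrE_star h f⟩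

theorem RrE_aeval {s : Finset ℝ} {r : ℝ → D} (h : RrE_H s r) (f : ℝ → ℝ) (q : Polynomial ℂ) :
    Polynomial.aeval (RrE_S s r f) q = ∑ x ∈ s, (q.eval (f x : ℂ)) • r x := by
  have hS : RrE_S s r f = ∑ x ∈ s, (f x : ℂ) • r x := by
    unfold RrE_S
    refine Finset.sum_congr rfl fun x _ => ?_
    rw [Complex.coe_smul]
  induction q using Polynomial.induction_on with
  | C a =>
    rw [Polynomial.aeval_C, Algebra.algebraMap_eq_smul_one, ← h.one, Finset.smul_sum]
    simp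
  | add q₁ q₂ h₁ h₂ =>
    rw [map_add, h₁, h₂, ← Finset.sum_add_distrib]
    refine Finset.sum_congr rfl fun x _ => ?_
    rw [Polynomial.eval_add, add_smul]
  | monomial n a ih =>
    rw [pow_succ, ← mul_assoc, map_mul, ih, Polynomial.aeval_X]
    conv_lhs => rw [hS]
    rw [Finset.sum_mul]
    refine Finset.sum_congr rfl fun x hx => ?_
    rw [Finset.mul_sum, Finset.sum_eq_single x]
    · rw [smul_mul_smul_comm, (h.pj x hx).1]
      congr 1
      simp
    · intro x' hx' hne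
      rw [smul_mul_smul_comm, h.ort x hx x' hx' (Ne.symm hne), smul_zero]
    · intro h'
      exact absurd hx h'

theorem RrE_fin {s : Finset ℝ} {r : ℝ → D} (h : RrE_H s r) (f : ℝ → ℝ) :
    (quasispectrum ℂ (RrE_S s r f)).Finite := by
  classical
  obtain ⟨q, hq⟩ : ∃ q : Polynomial ℂ,
      q = ∏ x ∈ s, (Polynomial.X - Polynomial.C (f x : ℂ)) := ⟨_, rfl⟩
  have h1 : q ≠ 0 := by
    rw [hq, Finset.prod_ne_zero_iff]
    exact fun x _ => Polynomial.X_sub_C_ne_zero _
  have h2 : Polynomial.aeval (RrE_S s r f) q = 0 := by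
    rw [RrE_aeval h]
    refine Finset.sum_eq_zero fun x hx => ?_
    have h3 : q.eval (f x : ℂ) = 0 := by
      rw [hq, Polynomial.eval_prod]
      exact Finset.prod_eq_zero hx (by simp)
    rw [h3, zero_smul]
  rw [quasispectrum_eq_spectrum_union_zero]
  exact (AfD_fin h1 h2).union (Set.finite_singleton 0)

theorem RrE_pjn {e : D} (he : Pj e) : Pj (1 - e) := by
  constructor
  · rw [mul_sub, mul_one, sub_mul, one_mul, he.1, sub_self, sub_zero]
  · rw [star_sub, star_one, he.2]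

/-- the part of `y` where `star y * y` is small -/
theorem RrE_low {s : Finset ℝ} {r : ℝ → D} (h : RrE_H s r) {y e b : D} {κ η : ℝ} (hκ : 0 ≤ κ)
    (hη : 0 ≤ η) (he : e = RrE_S s r (fun x => if κ ≤ x then 1 else 0))
    (hb : b = RrE_S s r (fun x => x)) (hab : ‖star y * y - b‖ ≤ η) :
    ‖y - y * e‖ ^ 2 ≤ κ + η := by
  letI : PartialOrder D := CStarAlgebra.spectralOrder D
  letI : StarOrderedRing D := CStarAlgebra.spectralOrderedRing D
  have hPe : Pj e := by
    rw [he]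
    refine RrE_pj h fun x _ => ?_
    split_ifs <;> simp
  have hf := RrE_pjn hPe
  obtain ⟨f, hfd⟩ : ∃ f, f = 1 - e := ⟨_, rfl⟩
  rw [← hfd] at hf
  have hy : y - y * e = y * f := by rw [hfd, mul_sub, mul_one]
  have h1 : star (y * f) * (y * f) = f * b * f + f * (star y * y - b) * f := by
    rw [star_mul, hf.2]
    noncomm_ring
  have h2 : f * b * f ≤ algebraMap ℝ D κ := by
    have e1 : f = RrE_S s r (fun x => if κ ≤ x then 0 else 1) := by
      rw [hfd, he]
      have : (1 : D) = RrE_S s r (fun _ => 1) := by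
        rw [RrE_const h, map_one]
      conv_lhs => rw [this]
      rw [RrE_sub]
      refine RrE_congr fun x _ => ?_
      split_ifs <;> simp
    rw [e1, hb, RrE_mul h, RrE_mul h, ← sub_nonneg, ← RrE_const h κ, RrE_sub]
    refine RrE_nonneg h fun x _ => ?_
    split_ifs with hx
    · simp [hκ]
    · have := not_le.1 hx
      simp only [one_mul, mul_one]
      linarith
  have h3 : f * (star y * y - b) * f ≤ algebraMap ℝ D η := by
    have e1 : IsSelfAdjoint (f * (star y * y - b) * f) := by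
      show star (f * (star y * y - b) * f) = _
      rw [star_mul, star_mul, hf.2, star_sub, star_mul, star_star, hb, RrE_star h, mul_assoc]
    have e2 := e1.le_algebraMap_norm_self
    refine e2.trans (algebraMap_mono D ?_)
    refine le_trans ?_ hab
    exact AfD_comp hf hf _
  have h4 : star (y * f) * (y * f) ≤ algebraMap ℝ D (κ + η) := by
    rw [h1, map_add]
    exact add_le_add h2 h3
  have h5 := (CStarAlgebra.norm_le_iff_le_algebraMap _ (by positivity)
    (star_mul_self_nonneg (y * f))).2 h4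
  rw [CStarRing.norm_star_mul_self] at h5
  rw [hy, sq]
  exact h5

theorem rr_elt (h0 : RR0 D) {p p₂ y : D} (hp : Pj p) (hp₂ : Pj p₂) (h1 : p * y = y)
    (h2 : y * p₂ = y) {ε : ℝ} (hε : 0 < ε) : ∃ w : D, p * w = w ∧ w * p₂ = w ∧ ‖w - y‖ < ε ∧
      (quasispectrum ℂ (star w * w)).Finite := by
  obtain ⟨M, hM⟩ : ∃ M, M = ‖y‖ := ⟨_, rfl⟩
  have hM0 : 0 ≤ M := by rw [hM]; exact norm_nonneg _
  obtain ⟨η₁, hη₁⟩ : ∃ η₁, η₁ = ε / (20 * (M + 1)) := ⟨_, rfl⟩
  have hη₁0 : 0 < η₁ := by rw [hη₁]; positivity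
  have hη₁M : 5 * η₁ * (M + 1) = ε / 4 := by
    rw [hη₁]
    field_simp
    norm_num
  obtain ⟨δ, hδ, hap⟩ := almost_pi (D := D) hη₁0
  obtain ⟨κ, hκ⟩ : ∃ κ, κ = ε ^ 2 / 16 := ⟨_, rfl⟩
  have hκ0 : 0 < κ := by rw [hκ]; positivity
  obtain ⟨ρ, hρ⟩ : ∃ ρ, ρ = min 1 (min (δ / 2) η₁) := ⟨_, rfl⟩
  have hρ0 : 0 < ρ := by rw [hρ]; positivity
  have hρ1 : ρ ≤ 1 := hρ ▸ min_le_left _ _
  have hρδ : ρ < δ := by
    have : ρ ≤ δ / 2 := hρ ▸ (min_le_right _ _).trans (min_le_left _ _)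
    linarith
  have hρη : ρ ≤ η₁ := hρ ▸ (min_le_right _ _).trans (min_le_right _ _)
  obtain ⟨η, hη⟩ : ∃ η, η = min 1 (κ * ρ) := ⟨_, rfl⟩
  have hη0 : 0 < η := by rw [hη]; positivity
  have hη1 : η ≤ 1 := hη ▸ min_le_left _ _
  have hηκρ : η ≤ κ * ρ := hη ▸ min_le_right _ _
  have hηκ : η ≤ κ := by nlinarith
  obtain ⟨a, ha⟩ : ∃ a, a = star y * y := ⟨_, rfl⟩
  have has : star a = a := by rw [ha, star_mul, star_star]
  obtain ⟨b, hbs, hbf, hab⟩ := h0 a has η hη0
  obtain ⟨s, r, hr, hort, hone, hsum⟩ := finSpec hbs hbf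
  have hH : RrE_H s r := ⟨hr, hort, hone⟩
  have hbS : b = RrE_S s r (fun x => x) := hsum.symm
  obtain ⟨e, he⟩ : ∃ e, e = RrE_S s r (fun x => if κ ≤ x then 1 else 0) := ⟨_, rfl⟩
  obtain ⟨g, hg⟩ : ∃ g, g = RrE_S s r (fun x => if κ ≤ x then (√x)⁻¹ else 0) := ⟨_, rfl⟩
  obtain ⟨b', hb'⟩ : ∃ b', b' = RrE_S s r (fun x => if κ ≤ x then √x else 0) := ⟨_, rfl⟩
  have hpos : ∀ x : ℝ, κ ≤ x → 0 < √x := fun x hx => Real.sqrt_pos.2 (hκ0.trans_le hx)
  have hsq : ∀ x : ℝ, κ ≤ x → √x * √x = x := fun x hx => Real.mul_self_sqrt (hκ0.le.trans hx)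
  have hPe : Pj e := by
    rw [he]
    refine RrE_pj hH fun x _ => ?_
    split_ifs <;> simp
  have hgs : star g = g := by rw [hg, RrE_star hH]
  have hb's : star b' = b' := by rw [hb', RrE_star hH]
  have hgb' : g * b' = e := by
    rw [hg, hb', he, RrE_mul hH]
    refine RrE_congr fun x _ => ?_
    split_ifs with hx
    · exact inv_mul_cancel₀ (hpos x hx).ne'
    · simp
  have hge : g * e = g := by
    rw [hg, he, RrE_mul hH]
    refine RrE_congr fun x _ => ?_
    split_ifs <;> simp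
  have heg : e * g = g := by
    rw [hg, he, RrE_mul hH]
    refine RrE_congr fun x _ => ?_
    split_ifs <;> simp
  have hb'e : b' * e = b' := by
    rw [hb', he, RrE_mul hH]
    refine RrE_congr fun x _ => ?_
    split_ifs <;> simp
  have heb' : e * b' = b' := by
    rw [hb', he, RrE_mul hH]
    refine RrE_congr fun x _ => ?_
    split_ifs <;> simp
  have hgbg : g * b * g = e := by
    rw [hg, hbS, he, RrE_mul hH, RrE_mul hH]
    refine RrE_congr fun x _ => ?_
    split_ifs with hx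
    · have h3 := (hpos x hx).ne'
      have h4 := hsq x hx
      calc (√x)⁻¹ * x * (√x)⁻¹ = (√x)⁻¹ * (√x * √x) * (√x)⁻¹ := by rw [h4]
        _ = 1 := by field_simp
    · simp
  have hbgg : b * g * g = e := by
    rw [hg, hbS, he, RrE_mul hH, RrE_mul hH]
    refine RrE_congr fun x _ => ?_
    split_ifs with hx
    · have h3 := (hpos x hx).ne'
      have h4 := hsq x hx
      calc x * (√x)⁻¹ * (√x)⁻¹ = (√x * √x) * (√x)⁻¹ * (√x)⁻¹ := by rw [h4]
        _ = 1 := by field_simp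
    · simp
  have hgn : ‖g‖ ≤ (√κ)⁻¹ := by
    rw [hg]
    refine RrE_norm hH (by positivity) fun x _ => ?_
    split_ifs with hx
    · rw [abs_of_pos (inv_pos.2 (hpos x hx))]
      exact inv_anti₀ (Real.sqrt_pos.2 hκ0) (Real.sqrt_le_sqrt hx)
    · rw [abs_zero]
      positivity
  have hgn2 : ‖g‖ * ‖g‖ * η ≤ ρ := by
    have e1 : ‖g‖ * ‖g‖ ≤ κ⁻¹ := by
      have e2 : (√κ)⁻¹ * (√κ)⁻¹ = κ⁻¹ := by
        rw [← mul_inv, Real.mul_self_sqrt hκ0.le]
      rw [← e2]
      exact mul_le_mul hgn hgn (norm_nonneg _) (by positivity)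
    calc ‖g‖ * ‖g‖ * η ≤ κ⁻¹ * (κ * ρ) := mul_le_mul e1 hηκρ hη0.le (by positivity)
      _ = ρ := by field_simp
  have hb'n : ‖b'‖ ≤ M + 1 := by
    have e1 : star b' * b' = b * e := by
      rw [hb's, hb', hbS, he, RrE_mul hH, RrE_mul hH]
      refine RrE_congr fun x _ => ?_
      split_ifs with hx
      · rw [hsq x hx, mul_one]
      · simp
    have e2 : ‖b'‖ * ‖b'‖ = ‖b * e‖ := by rw [← e1, CStarRing.norm_star_mul_self]
    have e3 : ‖b * e‖ ≤ ‖b‖ := by
      refine (norm_mul_le _ _).trans ?_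
      have := AfD_norm hPe
      nlinarith [norm_nonneg b]
    have e4 : ‖b‖ ≤ M * M + 1 := by
      have e5 : b = a - (a - b) := by abel
      have e6 : ‖a‖ = M * M := by rw [ha, CStarRing.norm_star_mul_self, hM]
      rw [e5]
      refine (norm_sub_le _ _).trans ?_
      rw [e6]
      linarith
    nlinarith [norm_nonneg b']
  -- first step
  obtain ⟨v', hv'⟩ : ∃ v', v' = y * g := ⟨_, rfl⟩
  have hv'e : v' * e = v' := by rw [hv', mul_assoc, hge]
  have hv's : star v' * v' - e = g * (a - b) * g := by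
    rw [hv', star_mul, hgs, mul_sub, sub_mul, hgbg, ha]
    simp only [mul_assoc]
  have hv'n : ‖star v' * v' - e‖ ≤ ρ := by
    rw [hv's]
    refine le_trans ?_ hgn2
    have e1 := norm_mul_le (g * (a - b)) g
    have e2 := norm_mul_le g (a - b)
    have e3 : ‖g‖ * ‖a - b‖ * ‖g‖ ≤ ‖g‖ * η * ‖g‖ := by gcongr
    nlinarith [norm_nonneg g]
  obtain ⟨s₁, hs₁, hs₁n⟩ := hap e v' hPe hv'e (hv'n.trans_lt hρδ)
  obtain ⟨v, hv⟩ : ∃ v, v = v' * s₁ := ⟨_, rfl⟩
  rw [← hv] at hs₁ hs₁n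
  have hpv : p * v = v := by rw [hv, hv', ← mul_assoc, ← mul_assoc, h1]
  -- second step
  have hq2 : (1 - p₂) * a = 0 := by
    have e1 : p₂ * star y = star y := by
      have := congrArg star h2
      rwa [star_mul, hp₂.2] at this
    rw [ha, ← mul_assoc, sub_mul, one_mul, e1, sub_self, zero_mul]
  have hP1 := RrE_pjn hp₂
  have hqe : ‖(1 - p₂) * e‖ ≤ ρ := by
    have e1 : (1 - p₂) * e = (1 - p₂) * (b - a) * g * g := by
      rw [mul_sub, hq2, sub_zero, ← hbgg]
      simp only [mul_assoc]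
    rw [e1]
    refine le_trans ?_ hgn2
    have e2 := norm_mul_le ((1 - p₂) * (b - a) * g) g
    have e3 := norm_mul_le ((1 - p₂) * (b - a)) g
    have e4 := norm_mul_le (1 - p₂) (b - a)
    have e5 := AfD_norm hP1
    have e6 : ‖b - a‖ ≤ η := by rw [norm_sub_rev]; exact hab.le
    have e7 : ‖(1 - p₂) * (b - a)‖ ≤ η := by nlinarith [norm_nonneg (b - a), norm_nonneg (1 - p₂)]
    have e8 : ‖(1 - p₂) * (b - a) * g‖ ≤ η * ‖g‖ :=
      e3.trans (mul_le_mul_of_nonneg_right e7 (norm_nonneg _))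
    calc ‖(1 - p₂) * (b - a) * g * g‖ ≤ ‖(1 - p₂) * (b - a) * g‖ * ‖g‖ := e2
      _ ≤ η * ‖g‖ * ‖g‖ := mul_le_mul_of_nonneg_right e8 (norm_nonneg _)
      _ = ‖g‖ * ‖g‖ * η := by ring
  have hxe : p₂ * e * e = p₂ * e := by rw [mul_assoc, hPe.1]
  have hxs : star (p₂ * e) * (p₂ * e) - e = -(e * ((1 - p₂) * e)) := by
    have e1 : p₂ * (p₂ * e) = p₂ * e := by rw [← mul_assoc, hp₂.1]
    rw [star_mul, hPe.2, hp₂.2, mul_assoc, e1, sub_mul, one_mul, mul_sub, hPe.1]
    abel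
  have hxn : ‖star (p₂ * e) * (p₂ * e) - e‖ ≤ ρ := by
    rw [hxs, norm_neg]
    refine (norm_mul_le _ _).trans ?_
    have e1 := AfD_norm hPe
    nlinarith [norm_nonneg ((1 - p₂) * e), norm_nonneg e]
  obtain ⟨s₂, hs₂, hs₂n⟩ := hap e (p₂ * e) hPe hxe (hxn.trans_lt hρδ)
  obtain ⟨v₁, hv₁⟩ : ∃ v₁, v₁ = p₂ * e * s₂ := ⟨_, rfl⟩
  rw [← hv₁] at hs₂ hs₂n
  have hpv₁ : p₂ * v₁ = v₁ := by rw [hv₁, ← mul_assoc, ← mul_assoc, hp₂.1]
  have hv₁e : ‖v₁ - e‖ ≤ 2 * η₁ := by
    have e1 : v₁ - e = (v₁ - p₂ * e) - (1 - p₂) * e := by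
      rw [sub_mul, one_mul]
      abel
    rw [e1]
    refine (norm_sub_le _ _).trans ?_
    linarith
  have hv₁n : ‖v₁‖ ≤ 1 := by
    have e1 : ‖v₁‖ * ‖v₁‖ = ‖e‖ := by rw [← hs₂, CStarRing.norm_star_mul_self]
    have e2 := AfD_norm hPe
    nlinarith [norm_nonneg v₁]
  have hv'n2 : ‖v'‖ ≤ 2 := by
    have e1 : ‖v'‖ * ‖v'‖ = ‖star v' * v'‖ := CStarRing.norm_star_mul_self.symm
    have e2 : ‖star v' * v'‖ ≤ ‖star v' * v' - e‖ + ‖e‖ := by
      have : star v' * v' = (star v' * v' - e) + e := by abel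
      conv_lhs => rw [this]
      exact norm_add_le _ _
    have e3 := AfD_norm hPe
    nlinarith [norm_nonneg v']
  refine ⟨v * b' * star v₁, ?_, ?_, ?_, ?_⟩
  · rw [← mul_assoc, ← mul_assoc, hpv]
  · have e1 : star v₁ * p₂ = star v₁ := by
      have := congrArg star hpv₁
      rwa [star_mul, hp₂.2] at this
    rw [mul_assoc, e1]
  · have e1 : v' * b' * e = y * e := by
      rw [hv', mul_assoc y g b', hgb', mul_assoc, hPe.1]
    have e2 : v * b' * star v₁ - y = ((v - v') * b' * star v₁ + v' * b' * star (v₁ - e)) -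
        (y - y * e) := by
      rw [star_sub, hPe.2, ← e1]
      noncomm_ring
    have hvb : ‖(v - v') * b' * star v₁‖ ≤ η₁ * (M + 1) := by
      have e3 := norm_mul_le ((v - v') * b') (star v₁)
      have e4 := norm_mul_le (v - v') b'
      rw [norm_star] at e3
      have e5 : ‖v - v'‖ * ‖b'‖ ≤ η₁ * (M + 1) :=
        mul_le_mul hs₁n.le hb'n (norm_nonneg _) hη₁0.le
      nlinarith [norm_nonneg ((v - v') * b'), norm_nonneg v₁]
    have hvb2 : ‖v' * b' * star (v₁ - e)‖ ≤ 4 * η₁ * (M + 1) := by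
      have e3 := norm_mul_le (v' * b') (star (v₁ - e))
      have e4 := norm_mul_le v' b'
      rw [norm_star] at e3
      have e5 : ‖v'‖ * ‖b'‖ ≤ 2 * (M + 1) :=
        mul_le_mul hv'n2 hb'n (norm_nonneg _) (by norm_num)
      have e6 : ‖v' * b'‖ * ‖v₁ - e‖ ≤ 2 * (M + 1) * (2 * η₁) :=
        mul_le_mul (e4.trans e5) hv₁e (norm_nonneg _) (by positivity)
      linarith
    have hlow := RrE_low hH hκ0.le hη0.le he hbS (by rw [← ha]; exact hab.le)
    have hye : ‖y - y * e‖ < ε / 2 := by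
      by_contra hcon
      push Not at hcon
      have e3 : (ε / 2) ^ 2 ≤ ‖y - y * e‖ ^ 2 := pow_le_pow_left₀ (by positivity) hcon 2
      have e4 : κ + η ≤ ε ^ 2 / 8 := by
        rw [hκ] at hηκ ⊢
        linarith
      nlinarith
    rw [e2]
    refine (norm_sub_le _ _).trans_lt ?_
    have e7 := norm_add_le ((v - v') * b' * star v₁) (v' * b' * star (v₁ - e))
    linarith
  · have e1 : star (v * b' * star v₁) * (v * b' * star v₁) = v₁ * (b' * b' * star v₁) := by
      have e2 : star (v * b' * star v₁) * (v * b' * star v₁) =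
          v₁ * (b' * (star v * v) * b' * star v₁) := by
        rw [star_mul, star_mul, star_star, hb's]
        simp only [mul_assoc]
      rw [e2, hs₁, hb'e]
    rw [e1, quasispectrum.mul_comm, mul_assoc, hs₂]
    have e3 : b' * b' * e = RrE_S s r (fun x => if κ ≤ x then x else 0) := by
      rw [mul_assoc, hb'e, hb', RrE_mul hH]
      refine RrE_congr fun x _ => ?_
      split_ifs with hx
      · exact hsq x hx
      · simp
    rw [e3]
    exact RrE_fin hH _

end Pool.Agent.H.MP_8be301_an.CX
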