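import Pool.Agent.H.MP_8be301_an.RD.Spec
import Pool.Agent.H.MP_8be301_an.RD.Hp

/-!
# Finite spectrum decomposition of an element  (module Sv)

`finSpec` for `star w * w` (self-adjoint, positive): `star w * w = ∑ x • r x`; `s` = the `x` with `x ≠ 0` and `r x ≠ 0`; then `x > 0` (positivity of
`r x * (star w * w) * r x = x • r x`). `e x = r x`, `e' x = x⁻¹ • w * r x * star w`; the partial isometry is `x ^ (-1/2) • w * r x`. `w = w * ∑_{x ∈ s} r x`
because `w * r 0 = 0` (`star (w * r 0) * (w * r 0) = 0`). `p₂ * e x = e x` because `e x = x⁻¹ • (star w * w) * r x` and `p₂ * star w = star w`.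
-/

set_option autoImplicit false

namespace Pool.Agent.H.MP_8be301_an.CX

open Pool.Agent.H.MP_8be301_an.RD

theorem svd {D : Type*} [CStarAlgebra D] [PartialOrder D] [StarOrderedRing D] {w p p₂ : D}
    (hp : Pj p) (hp₂ : Pj p₂) (h1 : p * w = w) (h2 : w * p₂ = w)
    (hf : (quasispectrum ℂ (star w * w)).Finite) :
    ∃ (s : Finset ℝ) (e e' : ℝ → D), (∀ t ∈ s, 0 < t ∧ Pj (e t) ∧ Pj (e' t) ∧
        p₂ * e t = e t ∧ p * e' t = e' t ∧ Mvn (e t) (e' t)) ∧
      star w * w = ∑ t ∈ s, t • e t ∧ w * star w = ∑ t ∈ s, t • e' t := by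
  classical
  obtain ⟨y, hy⟩ : ∃ y, y = star w * w := ⟨_, rfl⟩
  have hys : IsSelfAdjoint y := by
    rw [hy]
    exact IsSelfAdjoint.star_mul_self w
  have hy0 : 0 ≤ y := by
    rw [hy]
    exact star_mul_self_nonneg w
  rw [← hy] at hf
  obtain ⟨s0, r, hr, ho, hone, hsum⟩ := finSpec hys hf
  have hyr : ∀ x ∈ s0, y * r x = x • r x := by
    intro x hx
    rw [← hsum, Finset.sum_mul, Finset.sum_eq_single x]
    · rw [smul_mul_assoc, (hr x hx).1]
    · intro z hz hne
      rw [smul_mul_assoc, ho z hz x hx hne, smul_zero]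
    · intro h
      exact absurd hx h
  have hryr : ∀ x ∈ s0, r x * y * r x = x • r x := by
    intro x hx
    rw [mul_assoc, hyr x hx, mul_smul_comm, (hr x hx).1]
  have hpos : ∀ x ∈ s0, r x ≠ 0 → 0 ≤ x := by
    intro x hx hne
    by_contra hlt
    have h3 : 0 ≤ x • r x := by
      rw [← hryr x hx]
      exact Hp_conj_nonneg (hr x hx) hy0
    have h4 : 0 ≤ (-x) • r x := Hp_smul_nonneg (hr x hx) (by linarith [not_le.1 hlt])
    have h5 : x • r x ≤ 0 := by
      rw [neg_smul] at h4
      exact neg_nonneg.1 h4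
    have h6 : x • r x = 0 := le_antisymm h5 h3
    rcases smul_eq_zero.1 h6 with h7 | h7
    · exact hlt h7.ge
    · exact hne h7
  have hwr : ∀ x ∈ s0, ¬ (x ≠ 0 ∧ r x ≠ 0) → w * r x = 0 := by
    intro x hx h
    by_cases hx0 : x = 0
    · have h3 : star (w * r x) * (w * r x) = 0 := by
        have e : star (w * r x) * (w * r x) = r x * y * r x := by
          rw [star_mul, (hr x hx).2, hy]
          simp only [mul_assoc]
        rw [e, hryr x hx, hx0, zero_smul]
      exact (CStarRing.star_mul_self_eq_zero_iff _).1 h3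
    · have h3 : r x = 0 := by
        by_contra h4
        exact h ⟨hx0, h4⟩
      rw [h3, mul_zero]
  have hps : p₂ * star w = star w := by
    have h3 := congrArg star h2
    rwa [star_mul, hp₂.2] at h3
  have hpy : p₂ * y = y := by
    rw [hy, ← mul_assoc, hps]
  obtain ⟨v, hv⟩ : ∃ v : ℝ → D, v = fun x => (√x)⁻¹ • (w * r x) := ⟨_, rfl⟩
  have hv1 : ∀ x ∈ s0, 0 < x → star (v x) * v x = r x := by
    intro x hx hx0
    have e : star (v x) * v x = ((√x)⁻¹ * (√x)⁻¹) • (r x * y * r x) := by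
      rw [hv]
      simp only [star_smul, star_trivial, smul_mul_smul_comm, star_mul, (hr x hx).2]
      rw [hy]
      simp only [mul_assoc]
    rw [e, hryr x hx, smul_smul, ← mul_inv, Real.mul_self_sqrt hx0.le, inv_mul_cancel₀ hx0.ne',
      one_smul]
  have hv2 : ∀ x ∈ s0, 0 < x → v x * star (v x) = x⁻¹ • (w * r x * star w) := by
    intro x hx hx0
    have e : v x * star (v x) = ((√x)⁻¹ * (√x)⁻¹) • (w * (r x * r x) * star w) := by
      rw [hv]
      simp only [star_smul, star_trivial, smul_mul_smul_comm, star_mul, (hr x hx).2]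
      simp only [mul_assoc]
    rw [e, (hr x hx).1, ← mul_inv, Real.mul_self_sqrt hx0.le]
  refine ⟨s0.filter (fun x => x ≠ 0 ∧ r x ≠ 0), r, fun x => x⁻¹ • (w * r x * star w), ?_, ?_, ?_⟩
  · intro t ht
    obtain ⟨ht0, htn, htr⟩ := Finset.mem_filter.1 ht
    have htp : 0 < t := lt_of_le_of_ne (hpos t ht0 htr) (Ne.symm htn)
    have e1 := hv1 t ht0 htp
    have e2 := hv2 t ht0 htp
    refine ⟨htp, hr t ht0, ?_, ?_, ?_, ⟨v t, e1, e2⟩⟩
    · have h3 := pi_right (hr t ht0) e1
      show Pj (t⁻¹ • (w * r t * star w))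
      rw [← e2]
      constructor
      · rw [mul_assoc, ← mul_assoc (star (v t)), e1, ← mul_assoc, h3]
      · rw [star_mul, star_star]
    · have h3 : r t = t⁻¹ • (y * r t) := by
        rw [hyr t ht0, smul_smul, inv_mul_cancel₀ htn, one_smul]
      conv_lhs => rw [h3]
      rw [mul_smul_comm, ← mul_assoc, hpy, ← h3]
    · show p * (t⁻¹ • (w * r t * star w)) = t⁻¹ • (w * r t * star w)
      rw [mul_smul_comm, ← mul_assoc, ← mul_assoc, h1]
  · rw [← hy]
    conv_lhs => rw [← hsum]
    refine (Finset.sum_subset (Finset.filter_subset _ _) ?_).symm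
    intro x hx hxn
    have h3 : ¬ (x ≠ 0 ∧ r x ≠ 0) := fun h4 => hxn (Finset.mem_filter.2 ⟨hx, h4⟩)
    by_cases hx0 : x = 0
    · rw [hx0, zero_smul]
    · have h4 : r x = 0 := by
        by_contra h5
        exact h3 ⟨hx0, h5⟩
      rw [h4, smul_zero]
  · have h3 : w = ∑ x ∈ s0.filter (fun x => x ≠ 0 ∧ r x ≠ 0), w * r x := by
      calc w = w * ∑ x ∈ s0, r x := by rw [hone, mul_one]
        _ = ∑ x ∈ s0, w * r x := Finset.mul_sum _ _ _
        _ = _ := by
          refine (Finset.sum_subset (Finset.filter_subset _ _) ?_).symm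
          intro x hx hxn
          exact hwr x hx fun h4 => hxn (Finset.mem_filter.2 ⟨hx, h4⟩)
    calc w * star w = (∑ x ∈ s0.filter (fun x => x ≠ 0 ∧ r x ≠ 0), w * r x) * star w := by
          rw [← h3]
      _ = ∑ x ∈ s0.filter (fun x => x ≠ 0 ∧ r x ≠ 0), w * r x * star w := Finset.sum_mul _ _ _
      _ = _ := by
        refine Finset.sum_congr rfl fun x hx => ?_
        have hx0 := (Finset.mem_filter.1 hx).2.1
        rw [smul_smul, mul_inv_cancel₀ hx0, one_smul]

end Pool.Agent.H.MP_8be301_an.CX
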