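import Pool.Agent.H.MP_8be301_an.CX.Reg
import Pool.Agent.H.MP_8be301_an.CX.RrE
import Pool.Agent.H.MP_8be301_an.CX.Sv
import Pool.Agent.H.MP_8be301_an.CX.Quo

/-!
# An infinite class in the type monoid  (module Ifg)

`rr_elt` replaces `y i` by `w i` in `p D (α (g i) p)`, close to `y i`, with `star (w i) * w i` of finite spectrum; then
`(1/4) p ≤ ∑ (α (g i)⁻¹ (star w * w) - w * star w)`. `svd`: `star w * w = ∑ t • e i t`, `w * star w = ∑ t • e' i t`, `e ~ e'`; `lemRg` for the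
projections `α (g i)⁻¹ (e i t)` and `e' i t`.
-/

set_option autoImplicit false

namespace Pool.Agent.H.MP_8be301_an.CX

open Pool.Agent.H.MP_8be301_an.RD Pool.Agent.H.MP_8be301_an.DP

/-- absorption -/
theorem Ifg_abs {V Γ : Type*} [AddCommMonoid V] [Group Γ] {ρ : Ac Γ V} (hV : Refi V)
    {z P : V} (h : LeM ρ (z + P) z) (K : ℕ) : LeM ρ (z + K • P) z := by
  induction K with
  | zero =>
    rw [zero_nsmul, add_zero]
    exact LeM.of_le (Le.refl _)
  | succ K ih =>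
    have e : z + (K + 1) • P = (z + P) + K • P := by
      rw [succ_nsmul]
      abel
    rw [e]
    exact LeM.trans hV (LeM.add h (LeM.of_le (Le.refl _))) ih

section

variable {D : Type*} [CStarAlgebra D]

/-- approximation of one element -/
theorem Ifg_app (h0 : RR0 D) {p p₂ y : D} (hp : Pj p) (hp₂ : Pj p₂) (h1 : p * y = y)
    (h2 : y * p₂ = y) {ε : ℝ} (hε : 0 < ε) : ∃ w : D, p * w = w ∧ w * p₂ = w ∧
      (quasispectrum ℂ (star w * w)).Finite ∧ ‖star w * w - star y * y‖ ≤ ε ∧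
      ‖w * star w - y * star y‖ ≤ ε := by
  obtain ⟨η, hη⟩ : ∃ η : ℝ, η = min 1 (ε / (2 * ‖y‖ + 1)) := ⟨_, rfl⟩
  have hc : 0 < 2 * ‖y‖ + 1 := by positivity
  have hη0 : 0 < η := by
    rw [hη]
    exact lt_min one_pos (div_pos hε hc)
  have hη1 : η ≤ 1 := by
    rw [hη]
    exact min_le_left _ _
  have hη2 : η * (2 * ‖y‖ + 1) ≤ ε := by
    rw [← le_div_iff₀ hc, hη]
    exact min_le_right _ _
  obtain ⟨w, hw1, hw2, hw3, hw4⟩ := rr_elt h0 hp hp₂ h1 h2 hη0
  have hw5 : ‖w‖ ≤ ‖y‖ + 1 := by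
    have := norm_le_norm_add_norm_sub' w y
    linarith [hw3, hη1]
  refine ⟨w, hw1, hw2, hw4, ?_, ?_⟩
  · have e : star w * w - star y * y = star (w - y) * w + star y * (w - y) := by
      rw [star_sub]
      noncomm_ring
    rw [e]
    calc ‖star (w - y) * w + star y * (w - y)‖ ≤ ‖star (w - y) * w‖ + ‖star y * (w - y)‖ :=
          norm_add_le _ _
      _ ≤ ‖w - y‖ * ‖w‖ + ‖y‖ * ‖w - y‖ := by
          refine add_le_add ?_ ?_
          · exact (norm_mul_le _ _).trans (by rw [norm_star])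
          · exact (norm_mul_le _ _).trans (by rw [norm_star])
      _ ≤ η * (‖y‖ + 1) + ‖y‖ * η := by
          refine add_le_add ?_ ?_
          · exact mul_le_mul hw3.le hw5 (norm_nonneg _) hη0.le
          · exact mul_le_mul_of_nonneg_left hw3.le (norm_nonneg _)
      _ = η * (2 * ‖y‖ + 1) := by ring
      _ ≤ ε := hη2
  · have e : w * star w - y * star y = (w - y) * star w + y * star (w - y) := by
      rw [star_sub]
      noncomm_ring
    rw [e]
    calc ‖(w - y) * star w + y * star (w - y)‖ ≤ ‖(w - y) * star w‖ + ‖y * star (w - y)‖ :=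
          norm_add_le _ _
      _ ≤ ‖w - y‖ * ‖w‖ + ‖y‖ * ‖w - y‖ := by
          refine add_le_add ?_ ?_
          · exact (norm_mul_le _ _).trans (by rw [norm_star])
          · exact (norm_mul_le _ _).trans (by rw [norm_star])
      _ ≤ η * (‖y‖ + 1) + ‖y‖ * η := by
          refine add_le_add ?_ ?_
          · exact mul_le_mul hw3.le hw5 (norm_nonneg _) hη0.le
          · exact mul_le_mul_of_nonneg_left hw3.le (norm_nonneg _)
      _ = η * (2 * ‖y‖ + 1) := by ring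
      _ ≤ ε := hη2

/-- a small self-adjoint element of the corner -/
theorem Ifg_small [PartialOrder D] [StarOrderedRing D] {p z : D} (hp : Pj p)
    (hz : IsSelfAdjoint z) (hpz : p * z = z) {c : ℝ} (hc : ‖z‖ ≤ c) : -(c • p) ≤ z := by
  have hzp : z * p = z := by
    have h1 := congrArg star hpz
    rwa [star_mul, hp.2, hz.star_eq] at h1
  have h2 := hz.neg_algebraMap_norm_le_self
  have h3 : algebraMap ℝ D ‖z‖ ≤ algebraMap ℝ D c := algebraMap_mono D hc
  have h4 : 0 ≤ z + algebraMap ℝ D c := by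
    have h5 := (neg_le_neg h3).trans h2
    rwa [← sub_nonneg, sub_neg_eq_add] at h5
  have h6 := star_left_conjugate_nonneg h4 p
  rw [hp.2, mul_add, hpz, add_mul, hzp, Algebra.algebraMap_eq_smul_one, mul_smul_comm, mul_one,
    smul_mul_assoc, hp.1] at h6
  rwa [← sub_nonneg, sub_neg_eq_add]

end

theorem infClassG {D : Type*} [CStarAlgebra D] [PartialOrder D] [StarOrderedRing D]
    (hD : Reg D) {Γ : Type*} [Group Γ] (α : Γ →* (D ≃⋆ₐ[ℂ] D)) {p : D} (hp : Pj p) {m : ℕ}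
    {g : Fin m → Γ} {y : Fin m → D} (h1 : ∀ i, p * y i = y i ∧ y i * α (g i) p = y i)
    (h2 : (1 / 2 : ℝ) • p ≤ ∑ i, (α (g i)⁻¹ (star (y i) * y i) - y i * star (y i))) :
    ∃ n : ℕ, ∀ K : ℕ, LeM (rho α) (K • cW p hp) (n • cW p hp) := by
  have hR : Refi (W D) := refi_W hD.rr
  have hinv : ∀ (g : Γ) (x : D), α g⁻¹ (α g x) = x := fun g x => by
    have : (α g⁻¹ * α g) x = x := by
      rw [← map_mul, inv_mul_cancel, map_one]
      rfl
    exact this
  obtain ⟨ε, hε⟩ : ∃ ε : ℝ, ε = 1 / (8 * ((m : ℝ) + 1)) := ⟨_, rfl⟩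
  have hε0 : 0 < ε := by
    rw [hε]
    positivity
  have hex := fun i => Ifg_app hD.rr hp (pj_aut (α (g i)) hp) (h1 i).1 (h1 i).2 hε0
  choose w hw1 hw2 hw3 hw4 hw5 using hex
  have hsv := fun i => svd hp (pj_aut (α (g i)) hp) (hw1 i) (hw2 i) (hw3 i)
  choose s e e' he hsum hsum' using hsv
  -- the operator inequality
  have hwp : ∀ i, p * α (g i)⁻¹ (star (w i) * w i) = α (g i)⁻¹ (star (w i) * w i) := fun i => by
    have h3 := congrArg star (hw2 i)
    rw [star_mul, (pj_aut (α (g i)) hp).2] at h3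
    calc p * α (g i)⁻¹ (star (w i) * w i) =
          α (g i)⁻¹ (α (g i) p) * α (g i)⁻¹ (star (w i) * w i) := by rw [hinv]
      _ = α (g i)⁻¹ (α (g i) p * star (w i) * w i) := by
          rw [← map_mul, mul_assoc]
      _ = _ := by rw [h3]
  have hyp : ∀ i, p * α (g i)⁻¹ (star (y i) * y i) = α (g i)⁻¹ (star (y i) * y i) := fun i => by
    have h3 := congrArg star (h1 i).2
    rw [star_mul, (pj_aut (α (g i)) hp).2] at h3
    calc p * α (g i)⁻¹ (star (y i) * y i) =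
          α (g i)⁻¹ (α (g i) p) * α (g i)⁻¹ (star (y i) * y i) := by rw [hinv]
      _ = α (g i)⁻¹ (α (g i) p * star (y i) * y i) := by
          rw [← map_mul, mul_assoc]
      _ = _ := by rw [h3]
  have h3 : (1 / 4 : ℝ) • p ≤ ∑ i, (α (g i)⁻¹ (star (w i) * w i) - w i * star (w i)) := by
    obtain ⟨z, hz⟩ : ∃ z, z = ∑ i, (α (g i)⁻¹ (star (w i) * w i) - w i * star (w i)) -
      ∑ i, (α (g i)⁻¹ (star (y i) * y i) - y i * star (y i)) := ⟨_, rfl⟩
    have hz1 : IsSelfAdjoint z := by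
      rw [hz, ← Finset.sum_sub_distrib]
      have : ∀ i, IsSelfAdjoint (α (g i)⁻¹ (star (w i) * w i) - w i * star (w i) -
          (α (g i)⁻¹ (star (y i) * y i) - y i * star (y i))) := fun i => by
        refine IsSelfAdjoint.sub (IsSelfAdjoint.sub ?_ ?_) (IsSelfAdjoint.sub ?_ ?_)
        · exact (IsSelfAdjoint.star_mul_self (w i)).map (α (g i)⁻¹)
        · exact IsSelfAdjoint.mul_star_self (w i)
        · exact (IsSelfAdjoint.star_mul_self (y i)).map (α (g i)⁻¹)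
        · exact IsSelfAdjoint.mul_star_self (y i)
      show star _ = _
      rw [star_sum]
      exact Finset.sum_congr rfl fun i _ => this i
    have hz2 : p * z = z := by
      rw [hz, mul_sub, Finset.mul_sum, Finset.mul_sum]
      congr 1
      · refine Finset.sum_congr rfl fun i _ => ?_
        rw [mul_sub, hwp, ← mul_assoc, hw1]
      · refine Finset.sum_congr rfl fun i _ => ?_
        rw [mul_sub, hyp, ← mul_assoc, (h1 i).1]
    have hz3 : ‖z‖ ≤ 1 / 4 := by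
      rw [hz, ← Finset.sum_sub_distrib]
      refine (norm_sum_le _ _).trans ?_
      have h4 : ∀ i ∈ (Finset.univ : Finset (Fin m)),
          ‖α (g i)⁻¹ (star (w i) * w i) - w i * star (w i) -
          (α (g i)⁻¹ (star (y i) * y i) - y i * star (y i))‖ ≤ 2 * ε := fun i _ => by
        have e1 : α (g i)⁻¹ (star (w i) * w i) - w i * star (w i) -
            (α (g i)⁻¹ (star (y i) * y i) - y i * star (y i)) =
            α (g i)⁻¹ (star (w i) * w i - star (y i) * y i) -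
              (w i * star (w i) - y i * star (y i)) := by
          rw [map_sub]
          abel
        rw [e1]
        refine (norm_sub_le _ _).trans ?_
        have e2 : ‖α (g i)⁻¹ (star (w i) * w i - star (y i) * y i)‖ =
            ‖star (w i) * w i - star (y i) * y i‖ := StarAlgEquiv.norm_map _ _
        rw [e2]
        linarith [hw4 i, hw5 i]
      refine (Finset.sum_le_sum h4).trans ?_
      rw [Finset.sum_const, Finset.card_univ, Fintype.card_fin, nsmul_eq_mul, hε]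
      have hm : (0 : ℝ) < (m : ℝ) + 1 := by positivity
      rw [show (m : ℝ) * (2 * (1 / (8 * ((m : ℝ) + 1)))) = m / (4 * ((m : ℝ) + 1)) by
        field_simp
        ring]
      rw [div_le_div_iff₀ (by positivity) (by norm_num)]
      linarith
    have h5 := Ifg_small hp hz1 hz2 hz3
    have h6 := add_le_add h2 h5
    rw [hz] at h6
    have e1 : (1 / 2 : ℝ) • p + -((1 / 4 : ℝ) • p) = (1 / 4 : ℝ) • p := by
      rw [← sub_eq_add_neg, ← sub_smul]
      norm_num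
    rwa [e1, add_sub_cancel] at h6
  -- the projections
  have hpe : ∀ i, ∀ t ∈ s i, p * α (g i)⁻¹ (e i t) = α (g i)⁻¹ (e i t) := fun i t ht => by
    calc p * α (g i)⁻¹ (e i t) = α (g i)⁻¹ (α (g i) p) * α (g i)⁻¹ (e i t) := by rw [hinv]
      _ = α (g i)⁻¹ (α (g i) p * e i t) := by rw [← map_mul]
      _ = _ := by rw [(he i t ht).2.2.2.1]
  let ι := Σ i : Fin m, s i
  have h7 : ∑ k : ι, ((k.2 : ℝ)) • e' k.1 k.2 + (1 / 4 : ℝ) • p ≤
      ∑ k : ι, ((k.2 : ℝ)) • α (g k.1)⁻¹ (e k.1 k.2) := by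
    have e1 : ∑ k : ι, ((k.2 : ℝ)) • e' k.1 k.2 = ∑ i, w i * star (w i) := by
      rw [Fintype.sum_sigma]
      refine Finset.sum_congr rfl fun i _ => ?_
      rw [hsum' i]
      exact Finset.sum_coe_sort (s i) (fun t => t • e' i t)
    have e2 : ∑ k : ι, ((k.2 : ℝ)) • α (g k.1)⁻¹ (e k.1 k.2) =
        ∑ i, α (g i)⁻¹ (star (w i) * w i) := by
      rw [Fintype.sum_sigma]
      refine Finset.sum_congr rfl fun i _ => ?_
      rw [hsum i, map_sum]
      rw [Finset.sum_coe_sort (s i) (fun t => t • α (g i)⁻¹ (e i t))]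
      refine Finset.sum_congr rfl fun t _ => ?_
      exact (Spec_real (α (g i)⁻¹) t (e i t)).symm
    rw [e1, e2]
    rw [Finset.sum_sub_distrib] at h3
    have h8 := add_le_add (le_refl (∑ i, w i * star (w i))) h3
    have e3 : ∑ i, w i * star (w i) + (∑ i, α (g i)⁻¹ (star (w i) * w i) -
      ∑ i, w i * star (w i)) = ∑ i, α (g i)⁻¹ (star (w i) * w i) := by abel
    rwa [e3] at h8
  obtain ⟨M, hM⟩ : ∃ M, M = Fintype.card ι := ⟨_, rfl⟩
  have hPe : ∀ k : ι, Pj (α (g k.1)⁻¹ (e k.1 k.2)) := fun k =>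
    pj_aut _ (he k.1 k.2 k.2.2).2.1
  have hPe' : ∀ k : ι, Pj (e' k.1 k.2) := fun k => (he k.1 k.2 k.2.2).2.2.1
  have hpe' : ∀ k : ι, p * e' k.1 k.2 = e' k.1 k.2 := fun k => (he k.1 k.2 k.2.2).2.2.2.2.1
  have h9 := lemRg hD.oc hp hPe hPe' (fun k => hpe k.1 k.2 k.2.2) hpe'
    (t := fun k : ι => (k.2 : ℝ)) (t' := fun k : ι => (k.2 : ℝ))
    (fun k => (he k.1 k.2 k.2.2).1.le) (fun k => (he k.1 k.2 k.2.2).1.le)
    (show (0 : ℝ) < 1 / 4 by norm_num) h7 (8 * (M + 1))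
  have hfl : ⌊((8 * (M + 1) : ℕ) : ℝ) * (1 / 4 / 2)⌋₊ = M + 1 := by
    have : ((8 * (M + 1) : ℕ) : ℝ) * (1 / 4 / 2) = ((M + 1 : ℕ) : ℝ) := by
      push_cast
      ring
    rw [this, Nat.floor_natCast]
  rw [hfl] at h9
  obtain ⟨N, hN⟩ : ∃ N, N = 8 * (M + 1) := ⟨_, rfl⟩
  rw [← hN] at h9
  obtain ⟨P, hP⟩ : ∃ P, P = cW p hp := ⟨_, rfl⟩
  obtain ⟨z, hz⟩ : ∃ z : W D, z = ∑ k : ι, ⌊(N : ℝ) * (k.2 : ℝ)⌋₊ • cW (e' k.1 k.2) (hPe' k) :=
    ⟨_, rfl⟩
  obtain ⟨zq, hzq⟩ : ∃ zq : W D, zq = ∑ k : ι, ⌈(N : ℝ) * (k.2 : ℝ)⌉₊ •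
      cW (α (g k.1)⁻¹ (e k.1 k.2)) (hPe k) := ⟨_, rfl⟩
  have h10 : Le (z + (M + 1) • P) zq := by
    apply Reg_W hD.rr
    have e1 : ((z + (M + 1) • P : W D) : VA D) =
        ∑ k : ι, ⌊(N : ℝ) * (k.2 : ℝ)⌋₊ • c1 (e' k.1 k.2) + (M + 1) • c1 p := by
      rw [hz, hP, AddSubmonoid.coe_add, AddSubmonoid.coe_finsetSum]
      rfl
    have e2 : (zq : VA D) = ∑ k : ι, ⌈(N : ℝ) * (k.2 : ℝ)⌉₊ •
        c1 (α (g k.1)⁻¹ (e k.1 k.2)) := by
      rw [hzq, AddSubmonoid.coe_finsetSum]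
      rfl
    rw [e1, e2]
    exact h9
  have h11 : LeM (rho α) zq (z + M • P) := by
    have h12 : LeM (rho α) zq (∑ k : ι, ⌈(N : ℝ) * (k.2 : ℝ)⌉₊ • cW (e' k.1 k.2) (hPe' k)) := by
      rw [hzq]
      refine LeM.sum _ fun k _ => LeM.nsmul _ ?_
      have e1 : cW (e' k.1 k.2) (hPe' k) = cW (e k.1 k.2) (he k.1 k.2 k.2.2).2.1 :=
        Subtype.ext (c1_mvn (hPe' k) (he k.1 k.2 k.2.2).2.1 (he k.1 k.2 k.2.2).2.2.2.2.2.symm)
      rw [e1, ← rho_c α (g k.1)⁻¹ (e k.1 k.2) (he k.1 k.2 k.2.2).2.1]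
      exact LeM.act _ _
    refine LeM.trans hR h12 (LeM.of_le ?_)
    have h13 : Le (∑ k : ι, ⌈(N : ℝ) * (k.2 : ℝ)⌉₊ • cW (e' k.1 k.2) (hPe' k))
        (∑ k : ι, (⌊(N : ℝ) * (k.2 : ℝ)⌋₊ • cW (e' k.1 k.2) (hPe' k) + P)) := by
      refine Gr_sum _ fun k _ => ?_
      have h14 := Gr_smul (Nat.ceil_le_floor_add_one ((N : ℝ) * (k.2 : ℝ)))
        (cW (e' k.1 k.2) (hPe' k))
      rw [add_smul, one_smul] at h14
      refine Le.trans h14 (Le.add (Le.refl _) ?_)
      rw [hP]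
      exact Reg_sub hp (hPe' k) (hpe' k)
    rw [Finset.sum_add_distrib, ← hz, Finset.sum_const, Finset.card_univ, ← hM] at h13
    exact h13
  have h15 : LeM (rho α) ((z + M • P) + P) (z + M • P) := by
    have e1 : (z + M • P) + P = z + (M + 1) • P := by
      rw [succ_nsmul, add_assoc]
    rw [e1]
    exact LeM.trans hR (LeM.of_le h10) h11
  refine ⟨(∑ k : ι, ⌊(N : ℝ) * (k.2 : ℝ)⌋₊) + M, fun K => ?_⟩
  have h16 := Ifg_abs hR h15 K
  have h17 : Le (z + M • P) (((∑ k : ι, ⌊(N : ℝ) * (k.2 : ℝ)⌋₊) + M) • P) := by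
    rw [add_smul, Finset.sum_smul, hz]
    refine Le.add (Gr_sum _ fun k _ => Gr_nsmul _ ?_) (Le.refl _)
    rw [hP]
    exact Reg_sub hp (hPe' k) (hpe' k)
  rw [← hP]
  refine LeM.trans hR (LeM.trans hR (LeM.of_le ?_) h16) (LeM.of_le h17)
  exact ⟨z + M • P, add_comm _ _⟩

end Pool.Agent.H.MP_8be301_an.CX
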