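import Pool.Agent.H.MP_8be301_an.CX.Cx
import Pool.Agent.H.MP_8be301_an.CX.Act
import Pool.Agent.H.MP_8be301_an.RD.Full
import Pool.Agent.H.MP_8be301_an.RD.Sqr
import Pool.Agent.H.MP_8be301_an.DP.Col

/-!
# Simplicity gives order units in the type monoid  (module Si)

`a₀ : A` with `j a₀ = ι q`, a nonzero projection; `full`: `∑ s, star (y s) * (star a₀ * a₀) * y s = 1` in `A`. In `B`, `x s = ι q * j (y s)`:
`∑ star (x s) * x s = ι p`. Approximate `x s` by finite sums `∑_g ι (b s g) u g` and cut down: `ι q * (..) * ι p`, coefficients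
`q * b s g * α g p`. By `E_star_mul` and continuity of `E`: `‖p - ∑_{s,g} α g⁻¹ (star (b' s g) * b' s g)‖ ≤ 1/2`, `b' s g = q * b s g * α g p`. `w s g =
α g⁻¹ (b' s g)` satisfies `α g⁻¹ q * w = w`, `w * p = w`; `c = ∑ star w * w + (1 - p) ≥ 1/2`, `t` from `invSqrt` commutes with `p`, `z = w * t`:
`∑ star z * z = p` (after multiplying by `p`). `le_of_col`: `c1 p ≤ ∑_{s,g} c1 (α g⁻¹ q)`. In `W D` (`W_sub`, RR0) this is `Le (cW p) (∑ rho α g⁻¹ (cW q))`
and `LeM.act`, `LeM.sum`, `LeM.trans` (`refi_W`) give `LeM (cW p) (n • cW q)`.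
-/

set_option autoImplicit false

namespace Pool.Agent.H.MP_8be301_an.CX

open Pool.Agent.H.MP_8be301_an.RD Pool.Agent.H.MP_8be301_an.DP

theorem Si_norm {A : Type*} [CStarAlgebra A] {q : A} (hq : Pj q) : ‖q‖ ≤ 1 := by
  have h1 : ‖q‖ * ‖q‖ = ‖q‖ := by
    rw [← CStarRing.norm_star_mul_self, hq.2, hq.1]
  rcases eq_or_ne ‖q‖ 0 with h | h
  · rw [h]
    exact zero_le_one
  · exact (mul_left_cancel₀ h (by rw [h1, mul_one])).le

theorem Si_cut {A : Type*} [CStarAlgebra A] {a b x y : A} (ha : ‖a‖ ≤ 1) (hb : ‖b‖ ≤ 1)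
    (hx : a * x * b = x) : ‖x - a * y * b‖ ≤ ‖x - y‖ := by
  have h1 : x - a * y * b = a * (x - y) * b := by
    rw [mul_sub, sub_mul, hx]
  rw [h1]
  calc ‖a * (x - y) * b‖ ≤ ‖a‖ * ‖x - y‖ * ‖b‖ :=
        (norm_mul_le _ _).trans (mul_le_mul_of_nonneg_right (norm_mul_le _ _) (norm_nonneg _))
    _ ≤ 1 * ‖x - y‖ * 1 := by
        refine mul_le_mul (mul_le_mul_of_nonneg_right ha (norm_nonneg _)) hb (norm_nonneg _) ?_
        positivity
    _ = ‖x - y‖ := by ring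

theorem Si_approx {Γ D B : Type*} [Group Γ] [CStarAlgebra D] [CStarAlgebra B]
    (X : Cp Γ D B) {p q : D} (hp : Pj p) (hq : Pj q) {x : B}
    (h1 : X.ι q * x = x) (h2 : x * X.ι p = x) {ε : ℝ} (hε : 0 < ε) :
    ∃ (S : Finset Γ) (b : Γ → D), (∀ g, q * b g = b g ∧ b g * X.α g p = b g) ∧
      ‖X.E (star x * x) - ∑ g ∈ S, X.α g⁻¹ (star (b g) * b g)‖ < ε := by
  have hc : Continuous fun y : B => star y * y := continuous_star.mul continuous_id
  obtain ⟨δ, hδ, hδ'⟩ := Metric.continuous_iff.1 hc x ε hε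
  obtain ⟨S, d, hd⟩ := X.dense x δ hδ
  refine ⟨S, fun g => q * d g * X.α g p, fun g => ⟨?_, ?_⟩, ?_⟩
  · rw [← mul_assoc, ← mul_assoc, hq.1]
  · rw [mul_assoc, ← map_mul, hp.1]
  · have h3 : X.ι q * (∑ g ∈ S, X.ι (d g) * X.u g) * X.ι p =
        ∑ g ∈ S, X.ι (q * d g * X.α g p) * X.u g := by
      rw [Finset.mul_sum, Finset.sum_mul]
      refine Finset.sum_congr rfl fun g _ => ?_
      rw [map_mul, map_mul]
      have h4 := X.cov g p
      calc X.ι q * (X.ι (d g) * X.u g) * X.ι p = X.ι q * X.ι (d g) * (X.u g * X.ι p) := by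
            simp only [mul_assoc]
        _ = X.ι q * X.ι (d g) * X.ι (X.α g p) * X.u g := by
            rw [h4]
            simp only [mul_assoc]
    have hqn : ‖X.ι q‖ ≤ 1 := Si_norm (pj_map X.ι hq)
    have hpn : ‖X.ι p‖ ≤ 1 := Si_norm (pj_map X.ι hp)
    have h5 : ‖x - ∑ g ∈ S, X.ι (q * d g * X.α g p) * X.u g‖ < δ := by
      rw [← h3]
      exact (Si_cut hqn hpn (by rw [h1, h2])).trans_lt hd
    have h6 := hδ' (∑ g ∈ S, X.ι (q * d g * X.α g p) * X.u g)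
      (by rw [dist_comm, dist_eq_norm]; exact h5)
    rw [dist_comm, dist_eq_norm] at h6
    have h7 := X.E_star_mul S fun g => q * d g * X.α g p
    rw [← h7, ← map_sub]
    exact (X.E_norm _).trans_lt h6

theorem Si_col {D ι : Type*} [CStarAlgebra D] [Fintype ι] {p : D} (hp : Pj p) {y w : ι → D}
    (hy : ∀ i, Pj (y i)) (h1 : ∀ i, y i * w i = w i) (h2 : ∀ i, w i * p = w i)
    (h3 : ‖p - ∑ i, star (w i) * w i‖ ≤ 1 / 2) : Le (c1 p) (∑ i, c1 (y i)) := by
  let _ := CStarAlgebra.spectralOrder D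
  have := CStarAlgebra.spectralOrderedRing D
  obtain ⟨c, hc⟩ : ∃ c, c = ∑ i, star (w i) * w i + (1 - p) := ⟨_, rfl⟩
  have h2' : ∀ i, p * star (w i) = star (w i) := by
    intro i
    have := congrArg star (h2 i)
    rwa [star_mul, hp.2] at this
  have hpc : p * c = ∑ i, star (w i) * w i := by
    rw [hc, mul_add, mul_sub, mul_one, hp.1, sub_self, add_zero, Finset.mul_sum]
    refine Finset.sum_congr rfl fun i _ => ?_
    rw [← mul_assoc, h2']
  have hcp : c * p = ∑ i, star (w i) * w i := by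
    rw [hc, add_mul, sub_mul, one_mul, hp.1, sub_self, add_zero, Finset.sum_mul]
    refine Finset.sum_congr rfl fun i _ => ?_
    rw [mul_assoc, h2]
  have hsa : IsSelfAdjoint c := by
    rw [hc]
    refine IsSelfAdjoint.add ?_ ((IsSelfAdjoint.one D).sub hp.2)
    exact isSelfAdjoint_sum _ fun i _ => IsSelfAdjoint.star_mul_self (w i)
  have hcn : ‖c - 1‖ ≤ 1 / 2 := by
    have e1 : c - 1 = -(p - ∑ i, star (w i) * w i) := by
      rw [hc]
      abel
    rw [e1, norm_neg]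
    exact h3
  have h4 : algebraMap ℝ D (1 - 1 / 2) ≤ c :=
    lb_close (c := 1) (by rw [map_one]) hsa hcn
  obtain ⟨t, ht, ht1, ht2⟩ := invSqrt (by norm_num : (0 : ℝ) < 1 - 1 / 2) h4
  have htp : p * t = t * p := ht2 p (by rw [hpc, hcp])
  refine le_of_col hp hy (z := fun i => w i * t) (fun i => by rw [← mul_assoc, h1]) ?_
  have e2 : ∑ i, star (w i * t) * (w i * t) = t * (∑ i, star (w i) * w i) * t := by
    rw [Finset.mul_sum, Finset.sum_mul]
    refine Finset.sum_congr rfl fun i _ => ?_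
    rw [star_mul, ht.star_eq]
    simp only [mul_assoc]
  rw [e2, ← hpc, ← mul_assoc, ← htp, mul_assoc, mul_assoc, ← mul_assoc t c t, ht1, mul_one]

theorem ordUnit {Γ D B A : Type*} [Group Γ] [CStarAlgebra D] [CStarAlgebra B] [CStarAlgebra A]
    (X : Cp Γ D B) (h0 : RR0 D) {p : D} (hp : Pj p) (C : Corner X p A) (hs : Simp A) {q : D}
    (hq : Pj q) (hpq : p * q = q) (hq0 : q ≠ 0) :
    ∃ n : ℕ, LeM (rho X.α) (cW p hp) (n • cW q hq) := by
  let _ := CStarAlgebra.spectralOrder A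
  have := CStarAlgebra.spectralOrderedRing A
  have hqp : q * p = q := by
    have := congrArg star hpq
    rwa [star_mul, hp.2, hq.2] at this
  obtain ⟨a₀, ha⟩ := C.range (X.ι q) (by rw [← map_mul, ← map_mul, hpq, hqp])
  have ha0 : a₀ ≠ 0 := by
    rintro rfl
    rw [map_zero] at ha
    apply hq0
    rw [← norm_eq_zero, ← X.norm_ι q, ← ha, norm_zero]
  obtain ⟨K, y, hy⟩ := full hs ha0
  obtain ⟨x, hx⟩ : ∃ x : Fin K → B, x = fun s => X.ι q * C.j (y s) := ⟨_, rfl⟩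
  have hx1 : ∀ s, X.ι q * x s = x s := by
    intro s
    rw [hx]
    show X.ι q * (X.ι q * C.j (y s)) = X.ι q * C.j (y s)
    rw [← mul_assoc, ← map_mul, hq.1]
  have hx2 : ∀ s, x s * X.ι p = x s := by
    intro s
    rw [hx]
    show X.ι q * C.j (y s) * X.ι p = X.ι q * C.j (y s)
    rw [mul_assoc, ← C.one, ← map_mul, mul_one]
  have hx3 : ∑ s, star (x s) * x s = X.ι p := by
    rw [← C.one, ← hy, map_sum]
    refine Finset.sum_congr rfl fun s _ => ?_
    rw [map_mul, map_mul, map_mul, map_star, map_star, ha, hx]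
    simp only [star_mul, mul_assoc]
  have hε : (0 : ℝ) < 1 / (2 * (K + 1)) := by positivity
  choose S b hb hS using fun s => Si_approx X hp hq (hx1 s) (hx2 s) hε
  obtain ⟨w, hw⟩ : ∃ w : ((s : Fin K) × (S s)) → D,
      w = fun i => X.α (i.2 : Γ)⁻¹ (b i.1 (i.2 : Γ)) := ⟨_, rfl⟩
  have hinv : ∀ (g : Γ) (d : D), X.α g⁻¹ (X.α g d) = d := by
    intro g d
    have h1 : X.α g⁻¹ (X.α g d) = (X.α g⁻¹ * X.α g) d := rfl
    rw [h1, ← map_mul, inv_mul_cancel, map_one]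
    rfl
  have hw1 : ∀ i, X.α (i.2 : Γ)⁻¹ q * w i = w i := by
    intro i
    rw [hw]
    show X.α (i.2 : Γ)⁻¹ q * X.α (i.2 : Γ)⁻¹ (b i.1 (i.2 : Γ)) = _
    rw [← map_mul, (hb i.1 _).1]
  have hw2 : ∀ i, w i * p = w i := by
    intro i
    rw [hw]
    show X.α (i.2 : Γ)⁻¹ (b i.1 (i.2 : Γ)) * p = _
    have h1 := congrArg (X.α (i.2 : Γ)⁻¹) (hb i.1 (i.2 : Γ)).2
    rw [map_mul, hinv] at h1
    exact h1
  have hw3 : ∑ i, star (w i) * w i =
      ∑ s, ∑ g ∈ S s, X.α g⁻¹ (star (b s g) * b s g) := by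
    rw [Fintype.sum_sigma]
    refine Finset.sum_congr rfl fun s _ => ?_
    rw [← Finset.sum_coe_sort (S s)]
    refine Finset.sum_congr rfl fun g _ => ?_
    rw [hw, map_mul, map_star]
  have hw4 : ‖p - ∑ i, star (w i) * w i‖ ≤ 1 / 2 := by
    have e1 : p = ∑ s, X.E (star (x s) * x s) := by
      rw [← map_sum, hx3, X.E_one]
    have e2 : p - ∑ i, star (w i) * w i =
        ∑ s, (X.E (star (x s) * x s) - ∑ g ∈ S s, X.α g⁻¹ (star (b s g) * b s g)) := by
      rw [Finset.sum_sub_distrib, ← e1, hw3]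
    rw [e2]
    refine (norm_sum_le _ _).trans ?_
    refine (Finset.sum_le_sum fun s _ => (hS s).le).trans ?_
    rw [Finset.sum_const, Finset.card_univ, Fintype.card_fin, nsmul_eq_mul]
    have hK : (0 : ℝ) ≤ K := Nat.cast_nonneg K
    rw [mul_one_div, div_le_div_iff₀ (by positivity) (by norm_num)]
    linarith
  have hy' : ∀ i : (s : Fin K) × (S s), Pj (X.α (i.2 : Γ)⁻¹ q) := fun i => pj_aut _ hq
  obtain ⟨Y, hY⟩ := Si_col hp hy' hw1 hw2 hw4
  have hsum : ∑ i : (s : Fin K) × (S s), c1 (X.α (i.2 : Γ)⁻¹ q) ∈ W D :=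
    sum_mem fun i _ => c1_mem (hy' i)
  have hYW : Y ∈ W D := W_sub h0 (c1_mem hp) (by rw [hY]; exact hsum)
  refine ⟨Fintype.card ((s : Fin K) × (S s)), ?_⟩
  have hle : Le (cW p hp) (∑ i : (s : Fin K) × (S s), cW (X.α (i.2 : Γ)⁻¹ q) (hy' i)) := by
    refine ⟨⟨Y, hYW⟩, Subtype.ext ?_⟩
    rw [AddSubmonoid.coe_add, AddSubmonoid.coe_finset_sum]
    exact hY
  have hM : LeM (rho X.α) (∑ i : (s : Fin K) × (S s), cW (X.α (i.2 : Γ)⁻¹ q) (hy' i))
      (∑ _i : (s : Fin K) × (S s), cW q hq) := by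
    refine LeM.sum _ fun i _ => ?_
    rw [← rho_c]
    exact LeM.act _ _
  rw [Finset.sum_const, Finset.card_univ] at hM
  exact LeM.trans (refi_W h0) (LeM.of_le hle) hM

end Pool.Agent.H.MP_8be301_an.CX
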