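import Pool.Agent.H.MP_8be301_an.RD.Defs

/-!
# A trace on a simple algebra excludes infinite matrix algebras  (module Tr)

`N = {a | f (star a * a) = 0}` is a closed two-sided ideal: sums by `star (a + b) * (a + b) ≤ 2 (star a * a) + 2 (star b * b)`, left multiples by
`star (x a) * (x a) ≤ ‖x‖² star a * a`, right multiples and closedness under `star` by `f (star a * a) = f (a * star a)`, closed by continuity (`f` is
monotone on self-adjoint elements: positive elements are of the form `star x * x`). `f 1 > 0`, so `N ≠ ⊤` and `N = ⊥`. An isometry `v` of the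
matrices: `e = 1 - v * star v` is a projection, `∑_i f (e i i) = ∑_i f (1 - ..)= 0` since `∑_i (v * star v) i i = ∑_{i,k} v i k * star (v i k)` has the same
value under `f` as `∑_{i,k} star (v i k) * v i k = ∑_k 1`. `e i i = ∑_k star (e k i) * e k i`, so all `e k i ∈ N`, `e = 0`.
-/

set_option autoImplicit false

namespace Pool.Agent.H.MP_8be301_an.CX

open Pool.Agent.H.MP_8be301_an.RD

section

variable {A : Type*} [CStarAlgebra A] [PartialOrder A] [StarOrderedRing A] {f : A →L[ℝ] ℝ}

/-- A positive functional is monotone. -/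
private theorem Tr_mono (h2 : ∀ x, 0 ≤ f (star x * x)) {a b : A} (h : a ≤ b) : f a ≤ f b := by
  obtain ⟨c, hc⟩ := CStarAlgebra.nonneg_iff_eq_star_mul_self.1 (sub_nonneg.2 h)
  have h3 := h2 c
  rw [← hc, map_sub] at h3
  linarith

private theorem Tr_left (h2 : ∀ x, 0 ≤ f (star x * x)) (x y : A) :
    f (star (x * y) * (x * y)) ≤ ‖star x * x‖ * f (star y * y) := by
  have h3 : star (x * y) * (x * y) = star y * (star x * x) * y := by
    rw [star_mul]
    simp only [mul_assoc]
  have h4 : star y * (star x * x) * y ≤ ‖star x * x‖ • (star y * y) :=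
    CStarAlgebra.star_left_conjugate_le_norm_smul (IsSelfAdjoint.star_mul_self x)
  rw [h3]
  refine (Tr_mono h2 h4).trans ?_
  rw [map_smul, smul_eq_mul]

private theorem Tr_right (h2 : ∀ x, 0 ≤ f (star x * x))
    (h3 : ∀ x, f (star x * x) = f (x * star x)) (x y : A) :
    f (star (x * y) * (x * y)) ≤ ‖y * star y‖ * f (star x * x) := by
  rw [h3, h3 x]
  have h4 : x * y * star (x * y) = x * (y * star y) * star x := by
    rw [star_mul]
    simp only [mul_assoc]
  have h5 : x * (y * star y) * star x ≤ ‖y * star y‖ • (x * star x) :=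
    CStarAlgebra.star_right_conjugate_le_norm_smul (IsSelfAdjoint.mul_star_self y)
  rw [h4]
  refine (Tr_mono h2 h5).trans ?_
  rw [map_smul, smul_eq_mul]

private theorem Tr_add (h2 : ∀ x, 0 ≤ f (star x * x)) (x y : A) :
    f (star (x + y) * (x + y)) ≤ 2 * f (star x * x) + 2 * f (star y * y) := by
  have h4 := h2 (x - y)
  have h5 : star (x + y) * (x + y) + star (x - y) * (x - y) =
      (star x * x + star x * x) + (star y * y + star y * y) := by
    rw [star_add, star_sub]
    noncomm_ring
  have h6 := congrArg f h5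
  rw [map_add, map_add, map_add, map_add] at h6
  linarith

private theorem Tr_faithful (hs : Simp A) (h1 : 0 < f 1) (h2 : ∀ x, 0 ≤ f (star x * x))
    (h3 : ∀ x, f (star x * x) = f (x * star x)) {a : A} (ha : f (star a * a) = 0) : a = 0 := by
  let N : TwoSidedIdeal A := TwoSidedIdeal.mk' {a | f (star a * a) = 0}
    (by
      show f (star (0 : A) * 0) = 0
      rw [mul_zero, map_zero])
    (by
      intro x y hx hy
      have hx' : f (star x * x) = 0 := hx
      have hy' : f (star y * y) = 0 := hy
      have h4 := Tr_add h2 x y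
      rw [hx', hy'] at h4
      exact le_antisymm (by linarith) (h2 _))
    (by
      intro x hx
      have hx' : f (star x * x) = 0 := hx
      show f (star (-x) * -x) = 0
      rw [star_neg, neg_mul_neg]
      exact hx')
    (by
      intro x y hy
      have hy' : f (star y * y) = 0 := hy
      have h4 := Tr_left h2 x y
      rw [hy', mul_zero] at h4
      exact le_antisymm h4 (h2 _))
    (by
      intro x y hx
      have hx' : f (star x * x) = 0 := hx
      have h4 := Tr_right h2 h3 x y
      rw [hx', mul_zero] at h4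
      exact le_antisymm h4 (h2 _))
  have hmem : ∀ x, x ∈ N ↔ f (star x * x) = 0 := fun x => TwoSidedIdeal.mem_mk' _ _ _ _ _ _ x
  have hcl : IsClosed (N : Set A) := by
    have h4 : (N : Set A) = (fun x => f (star x * x)) ⁻¹' {0} := by
      ext x
      exact hmem x
    rw [h4]
    exact isClosed_singleton.preimage (f.continuous.comp (continuous_star.mul continuous_id))
  have ha' : a ∈ N := (hmem a).2 ha
  rcases hs N hcl with h4 | h4
  · rw [h4] at ha'
    exact (TwoSidedIdeal.mem_bot A).1 ha'
  · exfalso
    have h5 : (1 : A) ∈ N := by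
      rw [h4]
      trivial
    have h6 := (hmem 1).1 h5
    rw [star_one, mul_one] at h6
    exact h1.ne' h6

/-- The trace of a matrix. -/
private noncomputable def Tr_m (f : A →L[ℝ] ℝ) {n : ℕ} (M : Matrix (Fin n) (Fin n) A) : ℝ :=
  ∑ i, f (M i i)

private theorem Tr_m_star (f : A →L[ℝ] ℝ) {n : ℕ} (M : Matrix (Fin n) (Fin n) A) :
    Tr_m f (star M * M) = ∑ i, ∑ k, f (star (M k i) * M k i) := by
  unfold Tr_m
  refine Finset.sum_congr rfl fun i _ => ?_
  rw [Matrix.mul_apply, map_sum]
  rfl

private theorem Tr_m_comm (h3 : ∀ x, f (star x * x) = f (x * star x)) {n : ℕ}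
    (M : Matrix (Fin n) (Fin n) A) : Tr_m f (star M * M) = Tr_m f (M * star M) := by
  rw [Tr_m_star, Finset.sum_comm]
  unfold Tr_m
  refine Finset.sum_congr rfl fun k _ => ?_
  rw [Matrix.mul_apply, map_sum]
  refine Finset.sum_congr rfl fun i _ => ?_
  exact h3 _

private theorem Tr_m_sub (f : A →L[ℝ] ℝ) {n : ℕ} (M M' : Matrix (Fin n) (Fin n) A) :
    Tr_m f (M - M') = Tr_m f M - Tr_m f M' := by
  unfold Tr_m
  rw [← Finset.sum_sub_distrib]
  refine Finset.sum_congr rfl fun i _ => ?_
  rw [Matrix.sub_apply, map_sub]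

end

theorem not_inf_of_trace {A : Type*} [CStarAlgebra A] [PartialOrder A] [StarOrderedRing A]
    (hs : Simp A) (f : A →L[ℝ] ℝ) (h1 : 0 < f 1) (h2 : ∀ x, 0 ≤ f (star x * x))
    (h3 : ∀ x, f (star x * x) = f (x * star x)) : ¬ Inf A := by
  rintro ⟨n, v, hv, hv'⟩
  set e : Matrix (Fin n) (Fin n) A := 1 - v * star v with he
  have h4 : star e * e = e := by
    have h5 : star e = e := by
      rw [he, star_sub, star_one, star_mul, star_star]
    have h6 : v * star v * (v * star v) = v * star v := by
      rw [mul_assoc, ← mul_assoc (star v), hv, one_mul]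
    rw [h5, he, sub_mul, one_mul, mul_sub, mul_one, h6, sub_self, sub_zero]
  have h5 : Tr_m f e = 0 := by
    rw [he, Tr_m_sub, ← Tr_m_comm h3 v, hv, sub_self]
  rw [← h4, Tr_m_star] at h5
  have h6 : ∀ i k, e k i = 0 := by
    intro i k
    apply Tr_faithful hs h1 h2 h3
    have h7 := (Finset.sum_eq_zero_iff_of_nonneg
      (fun i _ => Finset.sum_nonneg fun k _ => h2 (e k i))).1 h5 i (Finset.mem_univ i)
    exact (Finset.sum_eq_zero_iff_of_nonneg (fun k _ => h2 (e k i))).1 h7 k (Finset.mem_univ k)
  apply hv'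
  have h7 : e = 0 := by
    ext k i
    exact h6 i k
  rw [he, sub_eq_zero] at h7
  exact h7.symm

end Pool.Agent.H.MP_8be301_an.CX
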