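import Pool.Agent.H.MP_8be301_an.CX.Cmp
import Pool.Agent.H.MP_8be301_an.CX.Her
import Pool.Agent.H.MP_8be301_an.CX.Si
import Pool.Agent.H.MP_8be301_an.CX.Hb
import Pool.Agent.H.MP_8be301_an.CX.Tr
import Pool.Agent.H.MP_8be301_an.CX.Hd
import Pool.Agent.H.MP_8be301_an.CX.Ifg
import Pool.Agent.H.MP_8be301_an.CX.Quo
import Pool.Agent.H.MP_8be301_an.RD.Uni

/-!
# The dichotomy for corners of crossed products  (module FinC)
-/

set_option autoImplicit false

namespace Pool.Agent.H.MP_8be301_an.CX

open Pool.Agent.H.MP_8be301_an.RD Pool.Agent.H.MP_8be301_an.DP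

theorem cW_le {D : Type*} [CStarAlgebra D] {p q : D} (hp : Pj p) (hq : Pj q)
    (h : p * q = q) : Le (cW q hq) (cW p hp) := by
  have h' : q * p = q := by
    have h1 := congrArg star h
    rwa [star_mul, hp.2, hq.2] at h1
  have hd : Pj (p - q) := by
    refine ⟨?_, by rw [star_sub, hp.2, hq.2]⟩
    rw [sub_mul, mul_sub, mul_sub, hp.1, hq.1, h, h', sub_self, sub_zero]
  refine ⟨cW (p - q) hd, Subtype.ext ?_⟩
  show c1 q + c1 (p - q) = c1 p
  rw [← c1_add hq hd (by rw [mul_sub, h', hq.1, sub_self])]
  congr 1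
  abel

/-- all nonzero projections of the diagonal in the corner are infinite -/
theorem infC {Γ Δ D B A : Type*} [Group Γ] [Group Δ] [CStarAlgebra D] [CStarAlgebra B]
    [CStarAlgebra A] (X : Cp Γ D B) (hD : Reg D) (π : Γ →* Δ) (hΔ : SubExp Δ)
    (hπ : ∀ g, π g = 1 → ∀ q : D, Pj q → Mvn (X.α g q) q) {p : D} (hp : Pj p)
    (C : Corner X p A) (hs : Simp A) {n : ℕ} (hn : ∀ K : ℕ, LeM (rho X.α) (K • cW p hp) (n • cW p hp)) {q : D}
    (hq : Pj q) (hpq : p * q = q) (hq0 : q ≠ 0) :
    ∃ v : B, star v * v = X.ι q ∧ X.ι q * v = v ∧ v * star v ≠ X.ι q := by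
  have h0 := hD.rr
  have hR : Refi (W D) := refi_W h0
  obtain ⟨m, hm⟩ := ordUnit X h0 hp C hs hq hpq hq0
  have h1 : LeM (rho X.α) ((n * m + 1) • cW q hq) ((n * m) • cW q hq) := by
    have e1 : LeM (rho X.α) ((n * m + 1) • cW q hq) ((n * m + 1) • cW p hp) :=
      LeM.nsmul _ (LeM.of_le (cW_le hp hq hpq))
    have e2 : LeM (rho X.α) (n • cW p hp) (n • (m • cW q hq)) := LeM.nsmul _ hm
    have e3 := LeM.trans hR (LeM.trans hR e1 (hn (n * m + 1))) e2
    rwa [← mul_smul] at e3
  exact inf_of_leM X hq hq0 (thmMq (rho X.α) π (fun g hg x => rho_triv X.α (hπ g hg) x) hR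
    hD.au hΔ h1)

/-- **The dichotomy.** -/
theorem dichG {Γ Δ D B A : Type*} [Group Γ] [Group Δ] [CStarAlgebra D] [CStarAlgebra B]
    [CStarAlgebra A] (X : Cp Γ D B) (hD : Reg D) (π : Γ →* Δ) (hΔ : SubExp Δ)
    (hπ : ∀ g, π g = 1 → ∀ q : D, Pj q → Mvn (X.α g q) q) {p : D} (hp : Pj p)
    (hα : Outer X.α p) (C : Corner X p A) (hs : Simp A) :
    (∀ (n : ℕ) (v : Matrix (Fin n) (Fin n) (Unitization ℂ A)),
        star v * v = 1 → v * star v = 1) ∨
      (∀ a : A, a ≠ 0 → (∃ y : A, a = star y * y) →
        ∃ p ∈ closure {x : A | ∃ z : A, x = a * z * a},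
          p * p = p ∧ star p = p ∧
          ∃ v : A, star v * v = p ∧ v * star v * p = v * star v ∧ v * star v ≠ p) := by
  let _ := CStarAlgebra.spectralOrder A
  have := CStarAlgebra.spectralOrderedRing A
  let _ := CStarAlgebra.spectralOrder D
  have := CStarAlgebra.spectralOrderedRing D
  rcases hb A with ⟨f, h1, h2, h3⟩ | ⟨n, x, hx⟩
  · left
    intro n v h
    by_contra h'
    exact not_inf_of_trace hs f h1 h2 h3 (inf_of_unitization h h')
  right
  obtain ⟨m, g, y, hy1, hy2⟩ := homog X hp C hx
  obtain ⟨k, hk⟩ := infClassG hD X.α hp hy1 hy2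
  have h0 := hD.rr
  rintro a ha ⟨c, hc⟩
  have hsa : star a = a := by
    rw [hc, star_mul, star_star]
  have ha' : C.j a ≠ 0 := fun h => ha (C.inj (h.trans (map_zero C.j).symm))
  have hpa : X.ι p * C.j a = C.j a := by rw [← C.one, ← map_mul, one_mul]
  have hap : C.j a * X.ι p = C.j a := by rw [← C.one, ← map_mul, mul_one]
  have hsj : star (C.j a) = C.j a := by rw [← map_star, hsa]
  obtain ⟨r, t, hr, hr0, hpr, ht1, ht2, ht3⟩ := her X h0 hp hα ha' hap
  obtain ⟨w, hw1, hw2, hw3⟩ := infC X hD π hΔ hπ hp C hs hk hr hpr hr0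
  have hιr : X.ι r * X.ι r = X.ι r := by rw [← map_mul, hr.1]
  have hιs : star (X.ι r) = X.ι r := by rw [← map_star, hr.2]
  have hιp : star (X.ι p) = X.ι p := by rw [← map_star, hp.2]
  have hw4 : w * X.ι r = w := by
    have e : star (w - w * X.ι r) * (w - w * X.ι r) = 0 := by
      rw [star_sub, star_mul, hιs]
      have e1 : (star w - X.ι r * star w) * (w - w * X.ι r) =
          star w * w - (star w * w) * X.ι r - (X.ι r * (star w * w) -
            X.ι r * (star w * w) * X.ι r) := by noncomm_ring
      rw [e1, hw1, hιr, hιr]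
      abel
    exact (sub_eq_zero.1 ((CStarRing.star_mul_self_eq_zero_iff _).1 e)).symm
  have hw5 : X.ι r * star w = star w := by
    have := congrArg star hw4
    rwa [star_mul, hιs] at this
  obtain ⟨b, hb⟩ : ∃ b, b = C.j a * t := ⟨_, rfl⟩
  rw [← hb] at ht1
  have hb1 : b * X.ι r = b := by rw [hb, mul_assoc, ht3]
  have hb2 : X.ι r * star b = star b := by
    have := congrArg star hb1
    rwa [star_mul, hιs] at this
  have hb3 : X.ι p * b = b := by rw [hb, ← mul_assoc, hpa]
  have hb4 : star b * X.ι p = star b := by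
    have := congrArg star hb3
    rwa [star_mul, hιp] at this
  obtain ⟨z, hz⟩ := C.range (t * star t) (by
    have e := congrArg star ht2
    rw [star_mul, hιp] at e
    rw [← mul_assoc, ht2, mul_assoc, e])
  obtain ⟨V, hV⟩ := C.range (b * w * star b) (by
    calc X.ι p * (b * w * star b) * X.ι p = (X.ι p * b) * w * (star b * X.ι p) := by
          noncomm_ring
      _ = b * w * star b := by rw [hb3, hb4])
  have hP : C.j (a * z * a) = b * star b := by
    rw [map_mul, map_mul, hz, hb, star_mul, hsj]
    noncomm_ring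
  have hPP : b * star b * (b * star b) = b * star b := by
    calc b * star b * (b * star b) = b * (star b * b) * star b := by noncomm_ring
      _ = b * star b := by rw [ht1, hb1]
  refine ⟨a * z * a, subset_closure ⟨z, rfl⟩, ?_, ?_, V, ?_, ?_, ?_⟩
  · apply C.inj
    rw [map_mul, hP, hPP]
  · apply C.inj
    rw [map_star, hP, star_mul, star_star]
  · apply C.inj
    rw [map_mul, map_star, hV, hP]
    calc star (b * w * star b) * (b * w * star b)
        = b * star w * (star b * b) * w * star b := by
          simp only [star_mul, star_star, mul_assoc]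
      _ = b * (star w * (X.ι r * w)) * star b := by
          rw [ht1]
          simp only [mul_assoc]
      _ = b * star b := by rw [hw2, hw1, hb1]
  · apply C.inj
    rw [map_mul, map_mul, map_star, hV, hP]
    calc b * w * star b * star (b * w * star b) * (b * star b)
        = b * w * star b * b * star w * (star b * b) * star b := by
          simp only [star_mul, star_star, mul_assoc]
      _ = b * w * (star b * b) * (star w * X.ι r) * star b := by
          rw [ht1]
          simp only [mul_assoc]
          rw [← mul_assoc (star b) b, ht1]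
      _ = b * w * star b * star (b * w * star b) := by
          have e : star w * X.ι r = star w := by
            have := congrArg star hw2
            rwa [star_mul, hιs] at this
          rw [e]
          simp only [star_mul, star_star, mul_assoc]
  · intro h
    have h4 := congrArg C.j h
    rw [map_mul, map_star, hV, hP] at h4
    have h5 : star b * (b * w * star b * star (b * w * star b)) * b = star b * (b * star b) * b := by
      rw [h4]
    have h6 : star b * (b * w * star b * star (b * w * star b)) * b =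
        (star b * b) * w * (star b * b) * star w * (star b * b) := by
      simp only [star_mul, star_star, mul_assoc]
    have h7 : star b * (b * star b) * b = (star b * b) * (star b * b) := by
      noncomm_ring
    rw [h6, h7, ht1, hιr, hw2, hw4, mul_assoc] at h5
    have e : star w * X.ι r = star w := by
      have := congrArg star hw2
      rwa [star_mul, hιs] at this
    rw [e] at h5
    exact hw3 h5

/-- AF algebras. -/
theorem dichC {Γ Δ D B A : Type*} [Group Γ] [Group Δ] [CStarAlgebra D] [CStarAlgebra B]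
    [CStarAlgebra A] (X : Cp Γ D B) (hD : AF D) (π : Γ →* Δ) (hΔ : SubExp Δ)
    (hπ : ∀ g, π g = 1 → ∀ q : D, Pj q → Mvn (X.α g q) q) {p : D} (hp : Pj p)
    (hα : Outer X.α p) (C : Corner X p A) (hs : Simp A) :
    (∀ (n : ℕ) (v : Matrix (Fin n) (Fin n) (Unitization ℂ A)),
        star v * v = 1 → v * star v = 1) ∨
      (∀ a : A, a ≠ 0 → (∃ y : A, a = star y * y) →
        ∃ p ∈ closure {x : A | ∃ z : A, x = a * z * a},
          p * p = p ∧ star p = p ∧
          ∃ v : A, star v * v = p ∧ v * star v * p = v * star v ∧ v * star v ≠ p) :=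
  dichG X (reg_af hD) π hΔ hπ hp hα C hs

end Pool.Agent.H.MP_8be301_an.CX
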