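import Pool.Agent.H.MP_8be301_an.CX.FinX
import Pool.Agent.H.MP_8be301_an.CX.Quo
import Pool.Agent.H.MP_8be301_an.CX.Ab

/-!
# The dichotomy for groups of subexponential growth, with a tracial state  (module FinG)
-/

set_option autoImplicit false

namespace Pool.Agent.H.MP_8be301_an.CX

open Pool.Agent.H.MP_8be301_an.RD Pool.Agent.H.MP_8be301_an.DP

theorem tyM_growth {D Γ Δ : Type*} [CStarAlgebra D] [Group Γ] [Group Δ] (hD : Reg D)
    (α : Γ →* (D ≃⋆ₐ[ℂ] D)) (π : Γ →* Δ) (hΔ : SubExp Δ)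
    (hπ : ∀ g, π g = 1 → ∀ q : D, Pj q → Mvn (α g q) q) (p : D) : TyM α p :=
  fun _ _ _ _ h => thmMq (rho α) π (fun g hg x => rho_triv α (hπ g hg) x) (refi_W hD.rr)
    hD.au hΔ h

/-- **The dichotomy.** -/
theorem dichGT {Γ Δ D B A : Type*} [Group Γ] [Group Δ] [CStarAlgebra D] [CStarAlgebra B]
    [CStarAlgebra A] (X : Cp Γ D B) (hD : Reg D) (π : Γ →* Δ) (hΔ : SubExp Δ)
    (hπ : ∀ g, π g = 1 → ∀ q : D, Pj q → Mvn (X.α g q) q) {p : D} (hp : Pj p)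
    (hα : Outer X.α p) (C : Corner X p A) (hs : Simp A) :
    ((∃ τ : A →ₗ[ℂ] ℂ, τ 1 = 1 ∧ (∀ x, ∃ t : ℝ, 0 ≤ t ∧ τ (star x * x) = t) ∧
        ∀ x y, τ (x * y) = τ (y * x)) ∧
      ∀ (n : ℕ) (v : Matrix (Fin n) (Fin n) (Unitization ℂ A)),
        star v * v = 1 → v * star v = 1) ∨
      (∀ a : A, a ≠ 0 → (∃ y : A, a = star y * y) →
        ∃ p ∈ closure {x : A | ∃ z : A, x = a * z * a},
          p * p = p ∧ star p = p ∧
          ∃ v : A, star v * v = p ∧ v * star v * p = v * star v ∧ v * star v ≠ p) :=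
  dichM X hD hp (tyM_growth hD X.α π hΔ hπ p) hα C hs

/-- AF algebras and abelian groups. -/
theorem af_comm {Γ D B A : Type*} [CommGroup Γ] [CStarAlgebra D] [CStarAlgebra B]
    [CStarAlgebra A] (X : Cp Γ D B) (hD : AF D) {p : D} (hp : Pj p)
    (hα : Outer X.α p) (C : Corner X p A) (hs : Simp A) :
    ((∃ τ : A →ₗ[ℂ] ℂ, τ 1 = 1 ∧ (∀ x, ∃ t : ℝ, 0 ≤ t ∧ τ (star x * x) = t) ∧
        ∀ x y, τ (x * y) = τ (y * x)) ∧
      ∀ (n : ℕ) (v : Matrix (Fin n) (Fin n) (Unitization ℂ A)),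
        star v * v = 1 → v * star v = 1) ∨
      (∀ a : A, a ≠ 0 → (∃ y : A, a = star y * y) →
        ∃ p ∈ closure {x : A | ∃ z : A, x = a * z * a},
          p * p = p ∧ star p = p ∧
          ∃ v : A, star v * v = p ∧ v * star v * p = v * star v ∧ v * star v ≠ p) := by
  refine dichGT X (reg_af hD) (MonoidHom.id Γ) (subExp_comm Γ) (fun g hg q hq => ?_) hp hα C hs
  have h : g = 1 := hg
  rw [h, map_one]
  exact Mvn.refl hq

end Pool.Agent.H.MP_8be301_an.CX
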