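import Pool.Agent.H.MP_8be301_an.CX.Wd

/-!
# Normal subgroups with an almost unperforated type monoid  (module Wn)

`Wn_main`: let `N` be a normal subgroup of `Γ`. If the preorder of the type monoid of `N` is almost unperforated and the elements below `x` are
divisible for it then `(k + 1) x ≤_Γ k y` implies `x ≤_Γ y`.
-/

set_option autoImplicit false

namespace Pool.Agent.H.MP_8be301_an.CX

open Pool.Agent.H.MP_8be301_an.DP

variable {V : Type*} [AddCommMonoid V] {Γ : Type*} [Group Γ]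

/-- restriction of an action to a subgroup -/
def Ac.res (ρ : Ac Γ V) (N : Subgroup Γ) : Ac N V :=
  ⟨fun n => ρ (n : Γ), fun x => ρ.one x, fun g h x => ρ.mul g h x⟩

theorem LeM.up {ρ : Ac Γ V} {N : Subgroup Γ} {x y : V} (h : LeM (ρ.res N) x y) : LeM ρ x y := by
  obtain ⟨n, z, g, h1, h2⟩ := h
  exact ⟨n, z, fun i => (g i : Γ), h1, h2⟩

theorem LeM.conj {ρ : Ac Γ V} {N : Subgroup Γ} (hN : N.Normal) {x y : V}
    (h : LeM (ρ.res N) x y) (g : Γ) : LeM (ρ.res N) (ρ g x) (ρ g y) := by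
  obtain ⟨n, z, u, h1, h2⟩ := h
  refine ⟨n, fun i => ρ g (z i), fun i => ⟨g * u i * g⁻¹, hN.conj_mem _ (u i).2 g⟩, ?_, ?_⟩
  · rw [h1, map_sum]
  · have e : ∑ i, (ρ.res N) ⟨g * u i * g⁻¹, hN.conj_mem _ (u i).2 g⟩ (ρ g (z i)) =
        ρ g (∑ i, (ρ.res N) (u i) (z i)) := by
      rw [map_sum]
      refine Finset.sum_congr rfl fun i _ => ?_
      show ρ (g * u i * g⁻¹) (ρ g (z i)) = ρ g (ρ (u i : Γ) (z i))
      rw [← ρ.mul, inv_mul_cancel_right, ρ.mul]
    rw [e]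
    exact Gr_map _ h2

/-- a copy below -/
theorem LeM.copy {σ : Ac Γ V} {x y : V} (h : LeM σ x y) :
    ∃ x', Le x' y ∧ LeM σ x x' ∧ LeM σ x' x := by
  obtain ⟨n, z, g, h1, h2⟩ := h
  refine ⟨∑ i, σ (g i) (z i), h2, ?_, ?_⟩
  · exact ⟨n, z, g, h1, Le.refl _⟩
  · rw [h1]
    exact LeM.sum _ fun i _ => LeM.act _ _

/-- every element below `x` for the preorder of `σ` is equivalent to `n a + (n + 1) b` -/
def DvbN (σ : Ac Γ V) (x : V) : Prop := ∀ y : V, LeM σ y x → ∀ n : ℕ, ∃ a b : V,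
  LeM σ y (n • a + (n + 1) • b) ∧ LeM σ (n • a + (n + 1) • b) y

theorem DvbN.le (hV : Refi V) {σ : Ac Γ V} {x y : V} (hx : DvbN σ x) (h : LeM σ y x) :
    DvbN σ y := fun z hz => hx z (LeM.trans hV hz h)

/-- divisible elements in the sense of `LeM` -/
def DivN (σ : Ac Γ V) (n : ℕ) (y : V) : Prop := ∃ a b : V,
  LeM σ y (n • a + (n + 1) • b) ∧ LeM σ (n • a + (n + 1) • b) y

theorem DivN.sum {σ : Ac Γ V} {ι : Type*} [Fintype ι] {z : ι → V} {n : ℕ}
    (h : ∀ i, DivN σ n (z i)) : DivN σ n (∑ i, z i) := by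
  choose a b h1 h2 using h
  refine ⟨∑ i, a i, ∑ i, b i, ?_, ?_⟩
  · have e : n • ∑ i, a i + (n + 1) • ∑ i, b i = ∑ i, (n • a i + (n + 1) • b i) := by
      rw [Finset.smul_sum, Finset.smul_sum, ← Finset.sum_add_distrib]
    rw [e]
    exact LeM.sum _ fun i _ => h1 i
  · have e : n • ∑ i, a i + (n + 1) • ∑ i, b i = ∑ i, (n • a i + (n + 1) • b i) := by
      rw [Finset.smul_sum, Finset.smul_sum, ← Finset.sum_add_distrib]
    rw [e]
    exact LeM.sum _ fun i _ => h2 i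

theorem DivN.congr (hV : Refi V) {σ : Ac Γ V} {n : ℕ} {y y' : V} (h : DivN σ n y)
    (h1 : LeM σ y y') (h2 : LeM σ y' y) : DivN σ n y' := by
  obtain ⟨a, b, h3, h4⟩ := h
  exact ⟨a, b, LeM.trans hV h2 h3, LeM.trans hV h4 h1⟩

theorem DvbN.sum (hV : Refi V) {σ : Ac Γ V} {ι : Type*} [Fintype ι] [Nonempty ι] {x : ι → V}
    (hx : ∀ i, DvbN σ (x i)) : DvbN σ (∑ i, x i) := by
  intro y hy n
  obtain ⟨y', ⟨w, hw⟩, h1, h2⟩ := hy.copy
  obtain ⟨c, h3, h4⟩ := refi_fin hV (ι := Fin 2) (κ := ι) (a := ![y', w]) (b := x) (by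
    rw [Fin.sum_univ_two]
    simpa using hw)
  have h5 : y' = ∑ k, c 0 k := h3 0
  have h6 : DivN σ n y' := by
    rw [h5]
    refine DivN.sum fun k => ?_
    have h7 : Le (c 0 k) (x k) := by
      rw [h4 k]
      exact Wd_one (fun i => c i k) 0
    exact hx k _ (LeM.of_le h7) n
  exact h6.congr hV h2 h1

theorem DvbN.nsmul (hV : Refi V) {σ : Ac Γ V} {x : V} (hx : DvbN σ x) (t : ℕ) :
    DvbN σ (t • x) := by
  rcases t with _ | t
  · exact hx.le hV (by rw [zero_nsmul]; exact LeM.of_le (Mon_zero x))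
  · have h := DvbN.sum hV (ι := Fin (t + 1)) (x := fun _ => x) fun _ => hx
    rwa [Finset.sum_const, Finset.card_univ, Fintype.card_fin] at h

theorem DvbN.act {ρ : Ac Γ V} {N : Subgroup Γ} (hN : N.Normal) {x : V}
    (hx : DvbN (ρ.res N) x) (g : Γ) : DvbN (ρ.res N) (ρ g x) := by
  intro y hy n
  have hinv : ∀ z, ρ g⁻¹ (ρ g z) = z := fun z => by rw [← ρ.mul, inv_mul_cancel, ρ.one]
  have hinv' : ∀ z, ρ g (ρ g⁻¹ z) = z := fun z => by rw [← ρ.mul, mul_inv_cancel, ρ.one]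
  have h1 := hy.conj hN g⁻¹
  rw [hinv] at h1
  obtain ⟨a, b, h2, h3⟩ := hx _ h1 n
  refine ⟨ρ g a, ρ g b, ?_, ?_⟩
  · have h4 := h2.conj hN g
    rwa [hinv', map_add, map_nsmul, map_nsmul] at h4
  · have h4 := h3.conj hN g
    rwa [hinv', map_add, map_nsmul, map_nsmul] at h4

/-- divisibility passes to elements that can be cut and moved below a divisible element -/
theorem DvbN.leM (hV : Refi V) {ρ : Ac Γ V} {N : Subgroup Γ} (hN : N.Normal) {x y : V}
    (hy : DvbN (ρ.res N) y) (h : LeM ρ x y) : DvbN (ρ.res N) x := by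
  obtain ⟨n, z, g, hx, hz⟩ := h
  rcases isEmpty_or_nonempty (Fin n) with h | h
  · refine hy.le hV ?_
    have h0 : x = 0 := by
      rw [hx]
      exact Finset.sum_of_isEmpty _
    rw [h0]
    exact LeM.of_le (Mon_zero y)
  rw [hx]
  refine DvbN.sum hV fun i => ?_
  have h1 : DvbN (ρ.res N) (ρ (g i) (z i)) :=
    hy.le hV (LeM.of_le ((Wd_one (fun i => ρ (g i) (z i)) i).trans hz))
  have h2 := h1.act hN (g i)⁻¹
  rwa [← ρ.mul, inv_mul_cancel, ρ.one] at h2

/-- the preorder of an action is almost unperforated -/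
def AlmN (σ : Ac Γ V) : Prop := ∀ (n : ℕ) (x y : V), LeM σ ((n + 1) • x) (n • y) → LeM σ x y

/-- **Almost unperforation passes from a normal subgroup to the group.** -/
theorem Wn_main {ρ : Ac Γ V} {N : Subgroup Γ} (hN : N.Normal) (hV : Refi V)
    (hA : AlmN (ρ.res N)) {x y : V} {k : ℕ} (hx : DvbN (ρ.res N) x)
    (h : LeM ρ ((k + 1) • x) (k • y)) : LeM ρ x y := by
  obtain ⟨l, z, g, hz, hle⟩ := h.nsmul 3
  have hd : ∀ i, DivN (ρ.res N) (3 * k + 1) (z i) := fun i => by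
    refine ((hx.nsmul hV (k + 1)).nsmul hV 3) _ (LeM.of_le ?_) _
    rw [hz]
    exact Wd_one z i
  choose v w h1 h2 using hd
  obtain ⟨q, hq⟩ : ∃ q, q = ∑ i, (v i + w i) := ⟨_, rfl⟩
  have h3 : LeM (ρ.res N) x q := by
    refine hA (3 * k + 1 + 1) _ _ ?_
    have e : (3 * k + 1 + 1 + 1) • x = ∑ i, z i := by
      rw [← hz, ← mul_nsmul]
      congr 1
      ring
    rw [e]
    refine LeM.trans hV (LeM.sum _ fun i _ => h1 i) (LeM.of_le ?_)
    rw [hq, Finset.smul_sum]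
    refine Gr_sum _ fun i _ => ?_
    rw [nsmul_add]
    exact (Gr_smul (Nat.le_succ _) _).add (Le.refl _)
  have h4 : LeM (ρ.res N) (∑ i, ρ (g i) (v i + w i)) y := by
    refine hA (3 * k) _ _ ?_
    have h5 : LeM (ρ.res N) ((3 * k + 1) • ∑ i, ρ (g i) (v i + w i)) (∑ i, ρ (g i) (z i)) := by
      rw [Finset.smul_sum]
      refine LeM.sum _ fun i _ => ?_
      refine LeM.trans hV (LeM.of_le ?_) ((h2 i).conj hN (g i))
      rw [← map_nsmul, nsmul_add]
      exact Gr_map _ ((Le.refl _).add (Gr_smul (Nat.le_succ _) _))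
    have e : (3 * k) • y = 3 • k • y := by
      rw [← mul_nsmul]
      congr 1
      ring
    rw [e]
    exact LeM.trans hV h5 (LeM.of_le hle)
  refine LeM.trans hV h3.up (LeM.trans hV ?_ h4.up)
  exact ⟨l, fun i => v i + w i, g, hq, Le.refl _⟩

theorem Wn_two {ρ : Ac Γ V} {N : Subgroup Γ} (hN : N.Normal) (hV : Refi V)
    (hA : AlmN (ρ.res N)) {x : V} {k : ℕ} (hx : DvbN (ρ.res N) x)
    (h : LeM ρ ((k + 1) • x) (k • x)) : LeM ρ (2 • x) x := by
  refine Wn_main hN hV hA (k := k) (hx.nsmul hV 2) ?_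
  have h1 := Gr_iter hV h (k + 2)
  have e : (k + 1) • 2 • x = (k + (k + 2)) • x := by
    rw [← mul_nsmul]
    congr 1
    ring
  rw [e]
  exact h1

/-- the halving condition below `x` -/
def HlvN (σ : Ac Γ V) (x : V) : Prop := ∀ y : V, Le y x → ∃ (t : V) (m : ℕ),
  LeM σ (2 • t) y ∧ LeM σ y (m • t)

theorem HlvN.pow (hV : Refi V) {σ : Ac Γ V} {x : V} (h : HlvN σ x) {y : V} (hy : LeM σ y x)
    (k : ℕ) : ∃ (t : V) (m : ℕ), LeM σ t x ∧ LeM σ (2 ^ k • t) y ∧ LeM σ y (m • t) := by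
  induction k with
  | zero =>
    refine ⟨y, 1, hy, ?_, ?_⟩
    · rw [pow_zero, one_smul]
      exact LeM.of_le (Le.refl y)
    · rw [one_smul]
      exact LeM.of_le (Le.refl y)
  | succ k ih =>
    obtain ⟨t, m, h1, h2, h3⟩ := ih
    obtain ⟨u, hu1, hu2, hu3⟩ := h1.copy
    obtain ⟨t', m', h4, h5⟩ := h u hu1
    have h4' : LeM σ (2 • t') t := LeM.trans hV h4 hu3
    have h6 : LeM σ t' t := by
      have h7 := Gr_smul one_le_two t'
      rw [one_smul] at h7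
      exact LeM.trans hV (LeM.of_le h7) h4'
    refine ⟨t', m * m', LeM.trans hV h6 h1, ?_, ?_⟩
    · have e : 2 ^ (k + 1) • t' = 2 ^ k • 2 • t' := by
        rw [pow_succ, mul_comm, mul_nsmul]
      rw [e]
      exact LeM.trans hV (LeM.nsmul _ h4') h2
    · have e : (m * m') • t' = m • m' • t' := by
        rw [mul_comm, mul_nsmul]
      rw [e]
      exact LeM.trans hV h3 (LeM.nsmul _ (LeM.trans hV hu2 h5))

/-- halving gives divisibility -/
theorem HlvN.dvb (hV : Refi V) {σ : Ac Γ V} {x : V} (h : HlvN σ x) : DvbN σ x := by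
  classical
  intro y hy n
  obtain ⟨t, m, hty, ht, hm⟩ := h.pow hV hy (n * n)
  have ht' : LeM σ ((n * n) • t) y :=
    LeM.trans hV (LeM.of_le (Gr_smul (Nat.lt_two_pow_self (n := n * n)).le t)) ht
  obtain ⟨y1, ⟨y2, hy12⟩, h1, h2⟩ := ht'.copy
  have hy2 : LeM σ y2 (m • t) :=
    LeM.trans hV (LeM.of_le ⟨y1, by rw [add_comm]; exact hy12⟩) hm
  obtain ⟨y3, hy3, h3, h4⟩ := hy2.copy
  obtain ⟨κ, _, s, d, h5, h6⟩ := Wd_mul hV hy3
  have h7 : (n * n) • t + y3 = ∑ i, (n * n + d i) • s i := by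
    rw [h6]
    conv_lhs => rw [h5]
    rw [Finset.smul_sum, ← Finset.sum_add_distrib]
    exact Finset.sum_congr rfl fun i _ => (add_smul _ _ _).symm
  have h8 : DivN σ n ((n * n) • t + y3) := by
    rw [h7]
    refine DivN.sum fun i => ?_
    obtain ⟨a, b, hab⟩ := Wd_num n (n * n + d i) (Nat.le_add_right _ _)
    have e : (n * n + d i) • s i = n • (a • s i) + (n + 1) • (b • s i) := by
      rw [hab, add_smul, mul_comm n a, mul_comm (n + 1) b, mul_nsmul, mul_nsmul]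
    exact ⟨a • s i, b • s i, by rw [e]; exact LeM.of_le (Le.refl _),
      by rw [e]; exact LeM.of_le (Le.refl _)⟩
  refine h8.congr hV ?_ ?_
  · rw [← hy12]
    exact LeM.add h1 h4
  · rw [← hy12]
    exact LeM.add h2 h3

end Pool.Agent.H.MP_8be301_an.CX
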