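import Pool.Agent.H.MP_8be301_an.CX.FinX
import Pool.Agent.H.MP_8be301_an.CX.Wn

/-!
# The dichotomy for crossed products: normal subgroups  (module FinN)

`dichN`: `N` is a normal subgroup of `Γ` such that the preorder of the type monoid of `N` is almost unperforated and satisfies the halving condition below
one nonzero projection `r` of `D` below `p`; `Γ` is arbitrary. `N = 1`: `dichX`. `tyN`: then the type monoid of `Γ` is almost unperforated.
-/

set_option autoImplicit false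

namespace Pool.Agent.H.MP_8be301_an.CX

open Pool.Agent.H.MP_8be301_an.RD Pool.Agent.H.MP_8be301_an.DP

/-- the trivial subgroup -/
theorem le_of_bot {V Γ : Type*} [AddCommMonoid V] [Group Γ] {ρ : Ac Γ V} {x y : V}
    (h : LeM (ρ.res ⊥) x y) : Le x y := by
  obtain ⟨n, z, g, h1, h2⟩ := h
  have e : ∑ i, (ρ.res ⊥) (g i) (z i) = x := by
    rw [h1]
    refine Finset.sum_congr rfl fun i _ => ?_
    have h3 : (g i : Γ) = 1 := Subgroup.mem_bot.1 (g i).2
    show ρ (g i : Γ) (z i) = z i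
    rw [h3, ρ.one]
  rwa [e] at h2

/-- the case `N = ⊥`: the hypotheses of `dichN` are those of `dichX` -/
theorem bot_iff {V Γ : Type*} [AddCommMonoid V] [Group Γ] (ρ : Ac Γ V) (x : V) :
    (AlmN (ρ.res ⊥) ↔ AlmU V) ∧ (HlvN (ρ.res ⊥) x ↔ Hlv x) := by
  refine ⟨⟨fun h n x y hxy => le_of_bot (h n x y (LeM.of_le hxy)),
    fun h n x y hxy => LeM.of_le (h n x y (le_of_bot hxy))⟩, ⟨fun h y hy => ?_, fun h y hy => ?_⟩⟩
  · obtain ⟨t, m, h1, h2⟩ := h y hy
    exact ⟨t, m, le_of_bot h1, le_of_bot h2⟩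
  · obtain ⟨t, m, h1, h2⟩ := h y hy
    exact ⟨t, m, LeM.of_le h1, LeM.of_le h2⟩

section

variable {Γ D B A : Type*} [Group Γ] [CStarAlgebra D] [CStarAlgebra B] [CStarAlgebra A]

/-- halving for projections, for the preorder of an action on the classes -/
def HalvN {Δ : Type*} [Group Δ] (σ : Ac Δ (W D)) (r : D) : Prop :=
  ∀ (q : D) (hq : Pj q), r * q = q → ∃ (t : D) (ht : Pj t) (m : ℕ),
    LeM σ (2 • cW t ht) (cW q hq) ∧ LeM σ (cW q hq) (m • cW t ht)

theorem hlvN_of_halvN {Δ : Type*} [Group Δ] {σ : Ac Δ (W D)} {r : D} (hr : Pj r)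
    (h : HalvN σ r) : HlvN σ (cW r hr) := by
  rintro ⟨y, hy⟩ ⟨z, hz⟩
  have h1 : y + (z : VA D) = c1 r := congrArg Subtype.val hz
  obtain ⟨q, hq, hrq, rfl⟩ := WdD_sub hr h1
  obtain ⟨t, ht, m, h2, h3⟩ := h q hq hrq
  exact ⟨cW t ht, m, h2, h3⟩

/-- the classes of the projections of the corner are divisible -/
theorem dvbN_corner (X : Cp Γ D B) (h0 : RR0 D) {N : Subgroup Γ} (hN : N.Normal) {p : D}
    (hp : Pj p) (C : Corner X p A) (hs : Simp A) {r : D} (hr : Pj r) (hpr : p * r = r)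
    (hr0 : r ≠ 0) (h : HlvN ((rho X.α).res N) (cW r hr)) :
    DvbN ((rho X.α).res N) (cW p hp) := by
  have hR : Refi (W D) := refi_W h0
  obtain ⟨m, hm⟩ := ordUnit X h0 hp C hs hr hpr hr0
  exact ((h.dvb hR).nsmul hR m).leM hR hN hm

/-- the type monoid is almost unperforated below the multiples of the class of `p` -/
theorem tyN (X : Cp Γ D B) (h0 : RR0 D) {N : Subgroup Γ} (hN : N.Normal)
    (hA : AlmN ((rho X.α).res N)) {p : D} (hp : Pj p) (C : Corner X p A) (hs : Simp A)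
    {r : D} (hr : Pj r) (hpr : p * r = r) (hr0 : r ≠ 0)
    (h : HlvN ((rho X.α).res N) (cW r hr)) (k m : ℕ) (x y : W D) (hx : Le x (m • cW p hp))
    (hk : LeM (rho X.α) ((k + 1) • x) (k • y)) : LeM (rho X.α) x y := by
  have hR : Refi (W D) := refi_W h0
  have h1 : DvbN ((rho X.α).res N) x :=
    ((dvbN_corner X h0 hN hp C hs hr hpr hr0 h).nsmul hR m).le hR (LeM.of_le hx)
  exact Wn_main hN hR hA h1 hk

/-- **The dichotomy**, normal subgroups with an almost unperforated type monoid. -/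
theorem dichN (X : Cp Γ D B) (hD : Reg D) {N : Subgroup Γ} (hN : N.Normal)
    (hA : AlmN ((rho X.α).res N)) {p : D} (hp : Pj p)
    (hα : Outer X.α p) (C : Corner X p A) (hs : Simp A) {r : D} (hr : Pj r)
    (hpr : p * r = r) (hr0 : r ≠ 0) (h : HlvN ((rho X.α).res N) (cW r hr)) :
    ((∃ τ : A →ₗ[ℂ] ℂ, τ 1 = 1 ∧ (∀ x, ∃ t : ℝ, 0 ≤ t ∧ τ (star x * x) = t) ∧
        ∀ x y, τ (x * y) = τ (y * x)) ∧
      ∀ (n : ℕ) (v : Matrix (Fin n) (Fin n) (Unitization ℂ A)),
        star v * v = 1 → v * star v = 1) ∨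
      (∀ a : A, a ≠ 0 → (∃ y : A, a = star y * y) →
        ∃ p ∈ closure {x : A | ∃ z : A, x = a * z * a},
          p * p = p ∧ star p = p ∧
          ∃ v : A, star v * v = p ∧ v * star v * p = v * star v ∧ v * star v ≠ p) := by
  have hR : Refi (W D) := refi_W hD.rr
  have h1 := dvbN_corner X hD.rr hN hp C hs hr hpr hr0 h
  exact dichM X hD hp (fun q hq hpq k hk =>
    Wn_two hN hR hA (h1.le hR (LeM.of_le (Reg_sub hp hq hpq))) hk) hα C hs

end

end Pool.Agent.H.MP_8be301_an.CX
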