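import Mathlib

/-!
# Tracial states from real functionals  (module TrC)
-/

set_option autoImplicit false

namespace Pool.Agent.H.MP_8be301_an.CX

open Complex ComplexStarModule

/-- polarization -/
theorem TrC_pol {A : Type*} [CStarAlgebra A] (g : A →ₗ[ℂ] ℂ)
    (h : ∀ x, g (star x * x) = g (x * star x)) (x y : A) : g (x * y) = g (y * x) := by
  have key : ∀ x y : A, g (star y * x) = g (x * star y) := by
    intro x y
    have h1 := h (x + y)
    have h2 := h (x + I • y)
    have hx := h x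
    have hy := h y
    rw [star_add, add_mul, add_mul, mul_add, mul_add, mul_add, mul_add, map_add, map_add, map_add,
      map_add, map_add, map_add] at h1
    rw [star_add, star_smul, add_mul, add_mul, mul_add, mul_add, mul_add, mul_add] at h2
    simp only [map_add, smul_mul_assoc, mul_smul_comm, map_smul, smul_eq_mul, Complex.star_def,
      Complex.conj_I] at h2
    have h3 : g (star x * y) + g (star y * x) = g (x * star y) + g (y * star x) := by
      linear_combination h1 - hx - hy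
    have h4 : I * (g (star x * y) - g (star y * x)) = I * (g (y * star x) - g (x * star y)) := by
      linear_combination h2 - hx + (I * I) * hy
    have h5 := mul_left_cancel₀ I_ne_zero h4
    linear_combination (1 / 2 : ℂ) * h3 - (1 / 2 : ℂ) * h5
  have h6 := key x (star y)
  rw [star_star] at h6
  exact h6.symm

theorem trC {A : Type*} [CStarAlgebra A] (f : A →L[ℝ] ℝ) (h1 : 0 < f 1)
    (h2 : ∀ x, 0 ≤ f (star x * x)) (h3 : ∀ x, f (star x * x) = f (x * star x)) :
    ∃ τ : A →ₗ[ℂ] ℂ, τ 1 = 1 ∧ (∀ x, ∃ t : ℝ, 0 ≤ t ∧ τ (star x * x) = t) ∧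
      ∀ x y, τ (x * y) = τ (y * x) := by
  obtain ⟨g, hg⟩ : ∃ g : A →ₗ[ℂ] ℂ, ∀ x : A, g x = (f (ℜ x : A) : ℂ) + I * (f (ℑ x : A) : ℂ) := by
    refine ⟨IsLinearMap.mk' (fun x => (f (ℜ x : A) : ℂ) + I * (f (ℑ x : A) : ℂ)) ⟨?_, ?_⟩,
      fun x => rfl⟩
    · intro x y
      simp only [map_add, AddSubgroup.coe_add, ofReal_add]
      ring
    · intro z x
      have e1 : f ((ℜ (z • x) : selfAdjoint A) : A) = z.re * f (ℜ x : A) - z.im * f (ℑ x : A) := by
        rw [realPart_smul]
        simp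
      have e2 : f ((ℑ (z • x) : selfAdjoint A) : A) = z.re * f (ℑ x : A) + z.im * f (ℜ x : A) := by
        rw [imaginaryPart_smul]
        simp
      simp only [e1, e2, smul_eq_mul]
      conv_rhs => rw [← Complex.re_add_im z]
      push_cast
      linear_combination (-(z.im : ℂ) * (f (ℑ x : A) : ℂ)) * I_mul_I
  have hsa : ∀ x : A, IsSelfAdjoint x → g x = (f x : ℂ) := by
    intro x hx
    rw [hg, hx.coe_realPart, hx.imaginaryPart]
    simp
  have hf : (f 1 : ℂ) ≠ 0 := ofReal_ne_zero.2 h1.ne'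
  refine ⟨(f 1 : ℂ)⁻¹ • g, ?_, fun x => ⟨(f 1)⁻¹ * f (star x * x), ?_, ?_⟩, ?_⟩
  · rw [LinearMap.smul_apply, hsa 1 (IsSelfAdjoint.one A), smul_eq_mul, inv_mul_cancel₀ hf]
  · exact mul_nonneg (inv_nonneg.2 h1.le) (h2 x)
  · rw [LinearMap.smul_apply, hsa _ (IsSelfAdjoint.star_mul_self x), smul_eq_mul]
    push_cast
    rfl
  · intro x y
    rw [LinearMap.smul_apply, LinearMap.smul_apply]
    congr 1
    refine TrC_pol g (fun x => ?_) x y
    rw [hsa _ (IsSelfAdjoint.star_mul_self x), hsa _ (IsSelfAdjoint.mul_star_self x), h3]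

end Pool.Agent.H.MP_8be301_an.CX
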