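import Pool.Agent.H.MP_8be301_an.CX.AfR

/-!
# Regular algebras of real rank zero  (module Reg)

`OCw D`: if projections `q i`, `q' k` below a projection `p` of `D` satisfy `∑ q' k + δ p ≤ ∑ q i` for some `δ > 0` then
`n ∑ [q' k] ≤ n ∑ [q i]` for the Murray-von Neumann classes and some `n > 0` (the states on the monoid of classes are monotone
for the order of the algebra; true if quasitraces are traces). `OC D`: the same with `n = 1`. `Reg D`: real rank zero, almost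
unperforated, `OCw`. `Reg.oc`: then `OC D` holds. `reg_af`: AF algebras are regular.
-/

set_option autoImplicit false

namespace Pool.Agent.H.MP_8be301_an.CX

open Pool.Agent.H.MP_8be301_an.RD Pool.Agent.H.MP_8be301_an.DP

/-- sums of projections of a corner compare like multiples of the sums of their classes -/
def OCw (D : Type*) [CStarAlgebra D] : Prop := ∀ (p : D) (m n : ℕ) (q' : Fin m → D)
  (q : Fin n → D), Pj p → (∀ k, Pj (q' k) ∧ p * q' k = q' k) → (∀ i, Pj (q i) ∧ p * q i = q i) →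
  ∀ δ : ℝ, 0 < δ → (∃ z : D, ∑ i, q i - (∑ k, q' k + δ • p) = star z * z) →
    ∃ N : ℕ, 0 < N ∧ Le (N • ∑ k, c1 (q' k)) (N • ∑ i, c1 (q i))

/-- sums of projections of a corner compare like the sums of their classes -/
def OC (D : Type*) [CStarAlgebra D] : Prop := ∀ (p : D) (m n : ℕ) (q' : Fin m → D)
  (q : Fin n → D), Pj p → (∀ k, Pj (q' k) ∧ p * q' k = q' k) → (∀ i, Pj (q i) ∧ p * q i = q i) →
  ∀ δ : ℝ, 0 < δ → (∃ z : D, ∑ i, q i - (∑ k, q' k + δ • p) = star z * z) →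
    Le (∑ k, c1 (q' k)) (∑ i, c1 (q i))

/-- regular algebras of real rank zero -/
structure Reg (D : Type*) [CStarAlgebra D] : Prop where
  rr : RR0 D
  au : AlmU (W D)
  oc' : OCw D

variable {D : Type*} [CStarAlgebra D]

theorem OC.fin (hD : OC D) {ι κ : Type*} [Fintype ι] [Fintype κ] {p : D} (hp : Pj p)
    {q : ι → D} {q' : κ → D} (hq : ∀ i, Pj (q i) ∧ p * q i = q i)
    (hq' : ∀ i, Pj (q' i) ∧ p * q' i = q' i) {δ : ℝ} (hδ : 0 < δ)
    (h : ∃ z : D, ∑ i, q i - (∑ k, q' k + δ • p) = star z * z) :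
    Le (∑ k, c1 (q' k)) (∑ i, c1 (q i)) := by
  have h2 := hD p (Fintype.card κ) (Fintype.card ι) (q' ∘ (Fintype.equivFin κ).symm)
    (q ∘ (Fintype.equivFin ι).symm) hp (fun k => hq' _) (fun i => hq _) δ hδ (by
      simp only [Function.comp_apply]
      rw [Equiv.sum_comp (Fintype.equivFin ι).symm q, Equiv.sum_comp (Fintype.equivFin κ).symm q']
      exact h)
  simp only [Function.comp_apply] at h2
  rwa [Equiv.sum_comp (Fintype.equivFin ι).symm (fun i => c1 (q i)),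
    Equiv.sum_comp (Fintype.equivFin κ).symm (fun i => c1 (q' i))] at h2

theorem OCw.fin (hD : OCw D) {ι κ : Type*} [Fintype ι] [Fintype κ] {p : D} (hp : Pj p)
    {q : ι → D} {q' : κ → D} (hq : ∀ i, Pj (q i) ∧ p * q i = q i)
    (hq' : ∀ i, Pj (q' i) ∧ p * q' i = q' i) {δ : ℝ} (hδ : 0 < δ)
    (h : ∃ z : D, ∑ i, q i - (∑ k, q' k + δ • p) = star z * z) :
    ∃ N : ℕ, 0 < N ∧ Le (N • ∑ k, c1 (q' k)) (N • ∑ i, c1 (q i)) := by
  obtain ⟨N, hN, h2⟩ := hD p (Fintype.card κ) (Fintype.card ι) (q' ∘ (Fintype.equivFin κ).symm)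
    (q ∘ (Fintype.equivFin ι).symm) hp (fun k => hq' _) (fun i => hq _) δ hδ (by
      simp only [Function.comp_apply]
      rw [Equiv.sum_comp (Fintype.equivFin ι).symm q, Equiv.sum_comp (Fintype.equivFin κ).symm q']
      exact h)
  simp only [Function.comp_apply] at h2
  rw [Equiv.sum_comp (Fintype.equivFin ι).symm (fun i => c1 (q i)),
    Equiv.sum_comp (Fintype.equivFin κ).symm (fun i => c1 (q' i))] at h2
  exact ⟨N, hN, h2⟩

theorem Reg_sub {p q : D} (hp : Pj p) (hq : Pj q) (h : p * q = q) : Le (cW q hq) (cW p hp) := by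
  have h' : q * p = q := by
    have h1 := congrArg star h
    rwa [star_mul, hp.2, hq.2] at h1
  have hd : Pj (p - q) := by
    refine ⟨?_, by rw [star_sub, hp.2, hq.2]⟩
    rw [sub_mul, mul_sub, mul_sub, hp.1, hq.1, h, h', sub_self, sub_zero]
  refine ⟨cW (p - q) hd, Subtype.ext ?_⟩
  show c1 q + c1 (p - q) = c1 p
  rw [← c1_add hq hd (by rw [mul_sub, h', hq.1, sub_self])]
  congr 1
  abel

theorem Reg_W (h0 : RR0 D) {x y : W D} (h : Le (x : VA D) (y : VA D)) : Le x y := by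
  obtain ⟨z, hz⟩ := h
  have hz' : z ∈ W D := W_sub h0 x.2 (by rw [hz]; exact y.2)
  exact ⟨⟨z, hz'⟩, Subtype.ext hz⟩

theorem Reg.oc (hD : Reg D) : OC D := by
  intro p m n q' q hp hq' hq δ hδ h
  rcases Nat.eq_zero_or_pos m with rfl | hm
  · exact ⟨_, by rw [Fin.sum_univ_zero, zero_add]⟩
  obtain ⟨z, hz⟩ := h
  obtain ⟨N, hN⟩ := exists_nat_gt (1 / δ)
  have hN0 : (0 : ℝ) < N := lt_trans (by positivity) hN
  have hNδ : 0 < (N : ℝ) * δ - 1 := by
    rw [div_lt_iff₀ hδ] at hN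
    linarith
  obtain ⟨M, hM, hle⟩ := hD.oc'.fin (ι := Fin n × Fin N) (κ := (Fin m × Fin N) ⊕ Unit) hp
    (q := fun i => q i.1) (q' := Sum.elim (fun k => q' k.1) fun _ => p)
    (fun i => hq _) (by
      rintro (k | k)
      · exact hq' _
      · exact ⟨hp, hp.1⟩) hNδ (by
      refine ⟨Real.sqrt N • z, ?_⟩
      rw [star_smul, star_trivial (Real.sqrt (N : ℝ)), smul_mul_smul_comm,
        Real.mul_self_sqrt hN0.le, ← hz, Fintype.sum_sum_type, Fintype.sum_prod_type,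
        Fintype.sum_prod_type]
      simp only [Sum.elim_inl, Sum.elim_inr, Finset.sum_const, Finset.card_univ,
        Fintype.card_fin, Fintype.card_unit, ← Nat.cast_smul_eq_nsmul ℝ, Nat.cast_one]
      rw [← Finset.smul_sum, ← Finset.smul_sum, smul_sub, smul_add, sub_smul, one_smul, smul_smul]
      abel)
  obtain ⟨x, hx⟩ : ∃ x : W D, x = ∑ k, cW (q' k) (hq' k).1 := ⟨_, rfl⟩
  obtain ⟨y, hy⟩ : ∃ y : W D, y = ∑ i, cW (q i) (hq i).1 := ⟨_, rfl⟩
  have hx' : ((x : W D) : VA D) = ∑ k, c1 (q' k) := by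
    rw [hx, AddSubmonoid.coe_finsetSum]
    rfl
  have hy' : ((y : W D) : VA D) = ∑ i, c1 (q i) := by
    rw [hy, AddSubmonoid.coe_finsetSum]
    rfl
  rw [Fintype.sum_sum_type, Fintype.sum_prod_type, Fintype.sum_prod_type] at hle
  simp only [Sum.elim_inl, Sum.elim_inr, Finset.sum_const, Finset.card_univ,
    Fintype.card_fin, Fintype.card_unit, one_smul] at hle
  rw [← Finset.smul_sum, ← Finset.smul_sum, ← hx', ← hy'] at hle
  have h1 : Le (M • (N • x + cW p hp)) (M • (N • y)) := Reg_W hD.rr hle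
  have h2 : Le x (m • cW p hp) := by
    rw [hx]
    have h3 := Gr_sum (Finset.univ : Finset (Fin m)) (x := fun k => cW (q' k) (hq' k).1)
      (y := fun _ => cW p hp) (fun k _ => Reg_sub hp (hq' k).1 (hq' k).2)
    rwa [Finset.sum_const, Finset.card_univ, Fintype.card_fin] at h3
  have h4 : Le ((M * N * m + 1) • x) ((M * N * m) • y) := by
    have h5 := Gr_nsmul m h1
    have e1 : m • M • N • y = (M * N * m) • y := by
      rw [smul_smul, smul_smul]
      congr 1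
      ring
    have e2 : m • M • (N • x + cW p hp) = (M * N * m) • x + M • m • cW p hp := by
      rw [smul_add, smul_add, smul_smul, smul_smul, smul_smul, smul_smul]
      congr 2
      · ring
      · ring
    rw [e1, e2] at h5
    refine Le.trans ?_ h5
    rw [add_smul, one_smul]
    refine Le.add (Le.refl _) ?_
    refine Le.trans h2 ?_
    have h6 := Gr_smul (show 1 ≤ M from hM) (m • cW p hp)
    rwa [one_smul] at h6
  have h7 := hD.au _ x y h4
  obtain ⟨w, hw⟩ := h7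
  exact ⟨w, by rw [← hx', ← hy', ← hw]; rfl⟩

theorem Reg_pos [PartialOrder D] [StarOrderedRing D] {p : D} (hp : Pj p) {c : ℝ}
    (hc : 0 ≤ c) : 0 ≤ c • p := Hp_smul_nonneg hp hc

theorem lemRg [PartialOrder D] [StarOrderedRing D] (hD : OC D) {ι κ : Type*} [Fintype ι]
    [Fintype κ] {p : D} (hp : Pj p) {q : ι → D} {q' : κ → D} (hq : ∀ i, Pj (q i))
    (hq' : ∀ i, Pj (q' i)) (hpq : ∀ i, p * q i = q i) (hpq' : ∀ i, p * q' i = q' i)
    {t : ι → ℝ} {t' : κ → ℝ} (_ht : ∀ i, 0 ≤ t i) (ht' : ∀ i, 0 ≤ t' i) {δ : ℝ} (hδ : 0 < δ)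
    (h : ∑ k, t' k • q' k + δ • p ≤ ∑ i, t i • q i) (N : ℕ) :
    Le (∑ k, ⌊(N : ℝ) * t' k⌋₊ • c1 (q' k) + ⌊(N : ℝ) * (δ / 2)⌋₊ • c1 p)
      (∑ i, ⌈(N : ℝ) * t i⌉₊ • c1 (q i)) := by
  rcases Nat.eq_zero_or_pos N with rfl | hN
  · simp only [Nat.cast_zero, zero_mul, Nat.floor_zero, zero_smul, Finset.sum_const_zero,
      Nat.ceil_zero, add_zero]
    exact Le.refl _
  have hN' : (0 : ℝ) < N := by exact_mod_cast hN
  have key := hD.fin (ι := Σ i, Fin ⌈(N : ℝ) * t i⌉₊)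
    (κ := (Σ k, Fin ⌊(N : ℝ) * t' k⌋₊) ⊕ Fin ⌊(N : ℝ) * (δ / 2)⌋₊) hp
    (q := fun i => q i.1) (q' := Sum.elim (fun k => q' k.1) fun _ => p)
    (fun i => ⟨hq _, hpq _⟩) (by
      rintro (k | k)
      · exact ⟨hq' _, hpq' _⟩
      · exact ⟨hp, hp.1⟩) (δ := N * (δ / 2)) (by positivity) (by
      have hs1 : ∑ i : Σ i, Fin ⌈(N : ℝ) * t i⌉₊, q i.1 = ∑ i, (⌈(N : ℝ) * t i⌉₊ : ℝ) • q i := by
        rw [Fintype.sum_sigma]
        refine Finset.sum_congr rfl fun i _ => ?_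
        simp only [Finset.sum_const, Finset.card_univ, Fintype.card_fin]
        rw [Nat.cast_smul_eq_nsmul]
      have hs2 : ∑ k : Σ k, Fin ⌊(N : ℝ) * t' k⌋₊, q' k.1 =
          ∑ k, (⌊(N : ℝ) * t' k⌋₊ : ℝ) • q' k := by
        rw [Fintype.sum_sigma]
        refine Finset.sum_congr rfl fun i _ => ?_
        simp only [Finset.sum_const, Finset.card_univ, Fintype.card_fin]
        rw [Nat.cast_smul_eq_nsmul]
      rw [Fintype.sum_sum_type]
      simp only [Sum.elim_inl, Sum.elim_inr, Finset.sum_const, Finset.card_univ,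
        Fintype.card_fin]
      rw [hs1, hs2, ← Nat.cast_smul_eq_nsmul ℝ]
      have e : ∑ i, (⌈(N : ℝ) * t i⌉₊ : ℝ) • q i - (∑ k, (⌊(N : ℝ) * t' k⌋₊ : ℝ) • q' k +
          (⌊(N : ℝ) * (δ / 2)⌋₊ : ℝ) • p + ((N : ℝ) * (δ / 2)) • p) =
          (N : ℝ) • (∑ i, t i • q i - (∑ k, t' k • q' k + δ • p)) +
          ∑ i, ((⌈(N : ℝ) * t i⌉₊ : ℝ) - N * t i) • q i +
          ∑ k, ((N : ℝ) * t' k - ⌊(N : ℝ) * t' k⌋₊) • q' k +
          ((N : ℝ) * (δ / 2) - ⌊(N : ℝ) * (δ / 2)⌋₊) • p := by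
        simp only [sub_smul, Finset.sum_sub_distrib, smul_sub, smul_add, Finset.smul_sum,
          smul_smul]
        have e2 : ((N : ℝ) * δ) • p = ((N : ℝ) * (δ / 2)) • p + ((N : ℝ) * (δ / 2)) • p := by
          rw [← add_smul]
          congr 1
          ring
        rw [e2]
        abel
      rw [e]
      have h0 : 0 ≤ (N : ℝ) • (∑ i, t i • q i - (∑ k, t' k • q' k + δ • p)) +
          ∑ i, ((⌈(N : ℝ) * t i⌉₊ : ℝ) - N * t i) • q i +
          ∑ k, ((N : ℝ) * t' k - ⌊(N : ℝ) * t' k⌋₊) • q' k +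
          ((N : ℝ) * (δ / 2) - ⌊(N : ℝ) * (δ / 2)⌋₊) • p := by
        refine add_nonneg (add_nonneg (add_nonneg ?_ ?_) ?_) ?_
        · obtain ⟨z, hz⟩ := (CStarAlgebra.nonneg_iff_eq_star_mul_self).1 (sub_nonneg.2 h)
          rw [hz]
          have h3 : (N : ℝ) • (star z * z) = star (Real.sqrt N • z) * (Real.sqrt N • z) := by
            rw [star_smul, star_trivial (Real.sqrt (N : ℝ)), smul_mul_smul_comm,
              Real.mul_self_sqrt hN'.le]
          rw [h3]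
          exact star_mul_self_nonneg _
        · refine Finset.sum_nonneg fun i _ => Reg_pos (hq i) ?_
          exact sub_nonneg.2 (Nat.le_ceil _)
        · refine Finset.sum_nonneg fun i _ => Reg_pos (hq' i) ?_
          exact sub_nonneg.2 (Nat.floor_le (mul_nonneg hN'.le (ht' i)))
        · exact Reg_pos hp (sub_nonneg.2 (Nat.floor_le (by positivity)))
      obtain ⟨z, hz⟩ := (CStarAlgebra.nonneg_iff_eq_star_mul_self).1 h0
      exact ⟨z, hz⟩)
  rw [Fintype.sum_sum_type, Fintype.sum_sigma, Fintype.sum_sigma] at key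
  simpa only [Sum.elim_inl, Sum.elim_inr, Finset.sum_const, Finset.card_univ,
    Fintype.card_fin] using key

theorem oc_af (hD : AF D) : OC D := by
  intro p m n q' q hp hq' hq δ hδ h
  let _ := CStarAlgebra.spectralOrder D
  have := CStarAlgebra.spectralOrderedRing D
  obtain ⟨z, hz⟩ := h
  have h1 : ∑ k, (1 : ℝ) • q' k + δ • p ≤ ∑ i, (1 : ℝ) • q i := by
    simp only [one_smul]
    rw [← sub_nonneg, hz]
    exact star_mul_self_nonneg _
  have h2 := lemR hD hp (fun i => (hq i).1) (fun i => (hq' i).1) (fun i => (hq i).2)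
    (fun i => (hq' i).2) (t := fun _ => 1) (t' := fun _ => 1) (fun _ => zero_le_one)
    (fun _ => zero_le_one) hδ h1 1
  simp only [Nat.cast_one, mul_one, Nat.floor_one, Nat.ceil_one, one_smul] at h2
  obtain ⟨w, hw⟩ := h2
  exact ⟨⌊(1 : ℝ) * (δ / 2)⌋₊ • c1 p + w, by rw [← hw, add_assoc]⟩

theorem OC.weak (hD : OC D) : OCw D := fun p m n q' q hp hq' hq δ hδ h =>
  ⟨1, one_pos, by
    rw [one_smul, one_smul]
    exact hD p m n q' q hp hq' hq δ hδ h⟩

theorem reg_af (hD : AF D) : Reg D := ⟨rr0_af hD, au_af hD, (oc_af hD).weak⟩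

end Pool.Agent.H.MP_8be301_an.CX
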