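import Pool.Agent.H.MP_8be301_an.CX.Wd
import Pool.Agent.H.MP_8be301_an.CX.Act
import Pool.Agent.H.MP_8be301_an.CX.Reg
import Pool.Agent.H.MP_8be301_an.DP.Col

/-!
# Divisible projections  (module WdD)

`Halv r` gives `Hlv [r]` and `Dvb [r]`; `SNM r` (the corner of `r` is simple and has no minimal projections) gives `Hlv [r]`.
-/

set_option autoImplicit false

namespace Pool.Agent.H.MP_8be301_an.CX

open Matrix Pool.Agent.H.MP_8be301_an.RD Pool.Agent.H.MP_8be301_an.DP

variable {D : Type*} [CStarAlgebra D]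

/-- elements below the class of a projection -/
theorem WdD_sub {p : D} (hp : Pj p) {x y : VA D} (h : x + y = c1 p) :
    ∃ r : D, Pj r ∧ p * r = r ∧ x = c1 r := by
  obtain ⟨n, X, hX, rfl⟩ := cl_surj x
  obtain ⟨m, Y, hY, rfl⟩ := cl_surj y
  rw [c1_eq hp, cl_add] at h
  obtain ⟨v, hv1, hv2⟩ := (cl_eq _ _).1 h
  have hvP := Col_mul (hX.blocks hY) hv1
  have hRv : (Matrix.of fun _ _ : Unit => p) * v = v := by
    rw [← hv2, Matrix.mul_assoc, hv1, hvP]
  obtain ⟨u, hu⟩ : ∃ u : Matrix Unit (Fin n) D, u = v.submatrix id Sum.inl := ⟨_, rfl⟩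
  have h1 : uᴴ * u = X := by
    ext i j
    have h2 := congrFun (congrFun hv1 (Sum.inl i)) (Sum.inl j)
    rw [Matrix.mul_apply] at h2
    rw [hu, Matrix.mul_apply]
    simpa [Matrix.conjTranspose_apply] using h2
  have h2 : ∀ i, p * u () i = u () i := by
    intro i
    have h3 := congrFun (congrFun hRv ()) (Sum.inl i)
    rw [Matrix.mul_apply] at h3
    rw [hu]
    simpa using h3
  have hI := Col_isP hX h1
  obtain ⟨r, hr⟩ : ∃ r, r = ∑ i, u () i * star (u () i) := ⟨_, rfl⟩
  have e1 : u * uᴴ = Matrix.of fun _ _ : Unit => r := by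
    ext i j
    rw [Matrix.mul_apply, hr]
    rfl
  have hI' : IsP (Matrix.of fun _ _ : Unit => r) := by
    rw [← e1]
    exact hI
  have hr1 : Pj r := by
    refine ⟨?_, ?_⟩
    · have h3 := congrFun (congrFun hI'.1 ()) ()
      rw [Matrix.mul_apply] at h3
      simpa using h3
    · have h3 := congrFun (congrFun hI'.2 ()) ()
      simpa [Matrix.conjTranspose_apply] using h3
  refine ⟨r, hr1, ?_, ?_⟩
  · rw [hr, Finset.mul_sum]
    exact Finset.sum_congr rfl fun i _ => by rw [← mul_assoc, h2]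
  · rw [c1_eq hr1]
    exact (cl_eq _ _).2 ⟨u, h1, e1⟩

theorem WdD_zero : c1 (0 : D) = 0 := by
  rw [c1_eq VB_zero]
  exact cl_zero Unit

theorem WdD_eq0 {q : D} (hq : Pj q) (h : c1 q = 0) : q = 0 := by
  rw [← WdD_zero, c1_eq hq, c1_eq VB_zero] at h
  obtain ⟨v, h1, h2⟩ := (cl_eq _ _).1 h
  have h3 : v () () * star (v () ()) = 0 := by
    have h4 := congrFun (congrFun h2 ()) ()
    rw [Matrix.mul_apply] at h4
    simpa [Matrix.conjTranspose_apply] using h4
  have h4 : star (v () ()) * v () () = q := by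
    have h4 := congrFun (congrFun h1 ()) ()
    rw [Matrix.mul_apply] at h4
    simpa [Matrix.conjTranspose_apply] using h4
  have h5 : v () () = 0 := by
    have h6 : star (star (v () ())) * star (v () ()) = 0 := by
      rw [star_star]
      exact h3
    have h7 := (CStarRing.star_mul_self_eq_zero_iff _).1 h6
    exact star_eq_zero.1 h7
  rw [← h4, h5, mul_zero]

/-- every projection below `r` contains two equivalent orthogonal projections and is below a
multiple of one of them -/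
def Halv (r : D) : Prop := ∀ q : D, Pj q → r * q = q → ∃ (t : D) (m : ℕ), Pj t ∧
  Le (2 • c1 t) (c1 q) ∧ Le (c1 q) (m • c1 t)

theorem hlv_of_halv (h0 : RR0 D) {r : D} (hr : Pj r) (h : Halv r) : Hlv (cW r hr) := by
  rintro ⟨y, hy⟩ ⟨z, hz⟩
  have h1 : y + (z : VA D) = c1 r := congrArg Subtype.val hz
  obtain ⟨q, hq, hrq, rfl⟩ := WdD_sub hr h1
  obtain ⟨t, m, ht, h2, h3⟩ := h q hq hrq
  exact ⟨cW t ht, m, Reg_W h0 h2, Reg_W h0 h3⟩

/-- the corner of `r` is simple and has no minimal projections -/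
def SNM (r : D) : Prop :=
  (∀ q q' : D, Pj q → r * q = q → Pj q' → r * q' = q' → q' ≠ 0 → ∃ (m : ℕ) (x : Fin m → D),
    q = ∑ i, star (x i) * q' * x i) ∧
  (∀ q : D, Pj q → r * q = q → q ≠ 0 → ∃ q' : D, Pj q' ∧ q * q' = q' ∧ q' ≠ 0 ∧ q' ≠ q)

theorem hlv_of_snm (h0 : RR0 D) {r : D} (hr : Pj r) (h : SNM r) : Hlv (cW r hr) := by
  refine Hlv.simple (refi_W h0) ?_ ?_
  · rintro ⟨y, hy⟩ ⟨z, hz⟩ ⟨y', hy'⟩ ⟨z', hz'⟩ hz0
    have h1 : y + (y' : VA D) = c1 r := congrArg Subtype.val hy'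
    have h2 : z + (z' : VA D) = c1 r := congrArg Subtype.val hz'
    obtain ⟨q, hq, hrq, rfl⟩ := WdD_sub hr h1
    obtain ⟨q', hq', hrq', rfl⟩ := WdD_sub hr h2
    have h3 : q' ≠ 0 := by
      rintro rfl
      exact hz0 (Subtype.ext WdD_zero)
    obtain ⟨m, x, hx⟩ := h.1 q q' hq hrq hq' hrq' h3
    refine ⟨m, Reg_W h0 ?_⟩
    have h4 := le_of_col hq (y := fun _ : Fin m => q') (fun _ => hq')
      (z := fun i => q' * x i * q) (fun i => by
        rw [← mul_assoc, ← mul_assoc, hq'.1]) (by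
        have h5 : ∀ i, star (q' * x i * q) * (q' * x i * q) =
            q * (star (x i) * q' * x i) * q := by
          intro i
          rw [star_mul, star_mul, hq'.2, hq.2]
          calc q * (star (x i) * q') * (q' * x i * q) =
              q * (star (x i) * (q' * q') * x i) * q := by noncomm_ring
            _ = _ := by rw [hq'.1]
        rw [Finset.sum_congr rfl fun i _ => h5 i, ← Finset.sum_mul, ← Finset.mul_sum, ← hx,
          hq.1, hq.1])
    rw [Finset.sum_const, Finset.card_univ, Fintype.card_fin] at h4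
    exact h4
  · rintro ⟨y, hy⟩ ⟨y', hy'⟩ hy0
    have h1 : y + (y' : VA D) = c1 r := congrArg Subtype.val hy'
    obtain ⟨q, hq, hrq, rfl⟩ := WdD_sub hr h1
    have h3 : q ≠ 0 := by
      rintro rfl
      exact hy0 (Subtype.ext WdD_zero)
    obtain ⟨q', hq', hqq', h4, h5⟩ := h.2 q hq hrq h3
    have h' : q' * q = q' := by
      have h1 := congrArg star hqq'
      rwa [star_mul, hq.2, hq'.2] at h1
    have hd : Pj (q - q') := by
      refine ⟨?_, by rw [star_sub, hq.2, hq'.2]⟩
      rw [sub_mul, mul_sub, mul_sub, hq.1, hq'.1, hqq', h', sub_self, sub_zero]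
    refine ⟨cW q' hq', cW (q - q') hd, ?_, ?_, Subtype.ext ?_⟩
    · intro h6
      exact h4 (WdD_eq0 hq' (congrArg Subtype.val h6))
    · intro h6
      have h7 := WdD_eq0 hd (congrArg Subtype.val h6)
      exact h5 (sub_eq_zero.1 h7).symm
    · show c1 q = c1 q' + c1 (q - q')
      rw [← c1_add hq' hd (by rw [mul_sub, h', hq'.1, sub_self])]
      congr 1
      abel

end Pool.Agent.H.MP_8be301_an.CX
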