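import Pool.Agent.H.MP_8be301_an.CX.Cmp
import Pool.Agent.H.MP_8be301_an.CX.Her
import Pool.Agent.H.MP_8be301_an.CX.Si
import Pool.Agent.H.MP_8be301_an.CX.Hb
import Pool.Agent.H.MP_8be301_an.CX.Tr
import Pool.Agent.H.MP_8be301_an.CX.TrC
import Pool.Agent.H.MP_8be301_an.CX.Hd
import Pool.Agent.H.MP_8be301_an.CX.Ifg
import Pool.Agent.H.MP_8be301_an.CX.WdD
import Pool.Agent.H.MP_8be301_an.RD.Uni

/-!
# The dichotomy for crossed products: arbitrary groups  (module FinX)

`dichM`: the dichotomy, if `(k + 1) x ≤_M k x` implies `2 x ≤_M x` for the classes `x` of the projections of `D` below `p` (`LeM` is the preorder of the type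
monoid). `tyU`, `dichX`: the type monoid is almost unperforated and the dichotomy holds for every group `Γ` if the halving condition holds below
some nonzero projection `r` of `D` below `p`. `dichS`: the case that `r D r` is simple and has no minimal projections.
-/

set_option autoImplicit false

namespace Pool.Agent.H.MP_8be301_an.CX

open Pool.Agent.H.MP_8be301_an.RD Pool.Agent.H.MP_8be301_an.DP

/-- the condition on the type monoid -/
def TyM {Γ D : Type*} [Group Γ] [CStarAlgebra D] (α : Γ →* (D ≃⋆ₐ[ℂ] D)) (p : D) : Prop :=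
  ∀ (q : D) (hq : Pj q), p * q = q → ∀ k : ℕ,
    LeM (rho α) ((k + 1) • cW q hq) (k • cW q hq) → LeM (rho α) (2 • cW q hq) (cW q hq)

/-- all nonzero projections of the diagonal in the corner are infinite -/
theorem infM {Γ D B A : Type*} [Group Γ] [CStarAlgebra D] [CStarAlgebra B]
    [CStarAlgebra A] (X : Cp Γ D B) (h0 : RR0 D) {p : D} (hp : Pj p) (hM : TyM X.α p)
    (C : Corner X p A) (hs : Simp A) {n : ℕ}
    (hn : ∀ K : ℕ, LeM (rho X.α) (K • cW p hp) (n • cW p hp)) {q : D}
    (hq : Pj q) (hpq : p * q = q) (hq0 : q ≠ 0) :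
    ∃ v : B, star v * v = X.ι q ∧ X.ι q * v = v ∧ v * star v ≠ X.ι q := by
  have hR : Refi (W D) := refi_W h0
  obtain ⟨m, hm⟩ := ordUnit X h0 hp C hs hq hpq hq0
  have h1 : LeM (rho X.α) ((n * m + 1) • cW q hq) ((n * m) • cW q hq) := by
    have e1 : LeM (rho X.α) ((n * m + 1) • cW q hq) ((n * m + 1) • cW p hp) :=
      LeM.nsmul _ (LeM.of_le (Reg_sub hp hq hpq))
    have e2 : LeM (rho X.α) (n • cW p hp) (n • (m • cW q hq)) := LeM.nsmul _ hm
    have e3 := LeM.trans hR (LeM.trans hR e1 (hn (n * m + 1))) e2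
    rwa [← mul_smul] at e3
  exact inf_of_leM X hq hq0 (hM q hq hpq _ h1)

/-- **The dichotomy**, with the condition on the type monoid. -/
theorem dichM {Γ D B A : Type*} [Group Γ] [CStarAlgebra D] [CStarAlgebra B]
    [CStarAlgebra A] (X : Cp Γ D B) (hD : Reg D) {p : D} (hp : Pj p) (hM : TyM X.α p)
    (hα : Outer X.α p) (C : Corner X p A) (hs : Simp A) :
    ((∃ τ : A →ₗ[ℂ] ℂ, τ 1 = 1 ∧ (∀ x, ∃ t : ℝ, 0 ≤ t ∧ τ (star x * x) = t) ∧
        ∀ x y, τ (x * y) = τ (y * x)) ∧
      ∀ (n : ℕ) (v : Matrix (Fin n) (Fin n) (Unitization ℂ A)),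
        star v * v = 1 → v * star v = 1) ∨
      (∀ a : A, a ≠ 0 → (∃ y : A, a = star y * y) →
        ∃ p ∈ closure {x : A | ∃ z : A, x = a * z * a},
          p * p = p ∧ star p = p ∧
          ∃ v : A, star v * v = p ∧ v * star v * p = v * star v ∧ v * star v ≠ p) := by
  let _ := CStarAlgebra.spectralOrder A
  have := CStarAlgebra.spectralOrderedRing A
  let _ := CStarAlgebra.spectralOrder D
  have := CStarAlgebra.spectralOrderedRing D
  rcases hb A with ⟨f, h1, h2, h3⟩ | ⟨n, x, hx⟩
  · left
    refine ⟨trC f h1 h2 h3, ?_⟩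
    intro n v h
    by_contra h'
    exact not_inf_of_trace hs f h1 h2 h3 (inf_of_unitization h h')
  right
  obtain ⟨m, g, y, hy1, hy2⟩ := homog X hp C hx
  obtain ⟨k, hk⟩ := infClassG hD X.α hp hy1 hy2
  have h0 := hD.rr
  rintro a ha ⟨c, hc⟩
  have hsa : star a = a := by
    rw [hc, star_mul, star_star]
  have ha' : C.j a ≠ 0 := fun h => ha (C.inj (h.trans (map_zero C.j).symm))
  have hpa : X.ι p * C.j a = C.j a := by rw [← C.one, ← map_mul, one_mul]
  have hap : C.j a * X.ι p = C.j a := by rw [← C.one, ← map_mul, mul_one]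
  have hsj : star (C.j a) = C.j a := by rw [← map_star, hsa]
  obtain ⟨r, t, hr, hr0, hpr, ht1, ht2, ht3⟩ := her X h0 hp hα ha' hap
  obtain ⟨w, hw1, hw2, hw3⟩ := infM X h0 hp hM C hs hk hr hpr hr0
  have hιr : X.ι r * X.ι r = X.ι r := by rw [← map_mul, hr.1]
  have hιs : star (X.ι r) = X.ι r := by rw [← map_star, hr.2]
  have hιp : star (X.ι p) = X.ι p := by rw [← map_star, hp.2]
  have hw4 : w * X.ι r = w := by
    have e : star (w - w * X.ι r) * (w - w * X.ι r) = 0 := by
      rw [star_sub, star_mul, hιs]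
      have e1 : (star w - X.ι r * star w) * (w - w * X.ι r) =
          star w * w - (star w * w) * X.ι r - (X.ι r * (star w * w) -
            X.ι r * (star w * w) * X.ι r) := by noncomm_ring
      rw [e1, hw1, hιr, hιr]
      abel
    exact (sub_eq_zero.1 ((CStarRing.star_mul_self_eq_zero_iff _).1 e)).symm
  have hw5 : X.ι r * star w = star w := by
    have := congrArg star hw4
    rwa [star_mul, hιs] at this
  obtain ⟨b, hb⟩ : ∃ b, b = C.j a * t := ⟨_, rfl⟩
  rw [← hb] at ht1
  have hb1 : b * X.ι r = b := by rw [hb, mul_assoc, ht3]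
  have hb2 : X.ι r * star b = star b := by
    have := congrArg star hb1
    rwa [star_mul, hιs] at this
  have hb3 : X.ι p * b = b := by rw [hb, ← mul_assoc, hpa]
  have hb4 : star b * X.ι p = star b := by
    have := congrArg star hb3
    rwa [star_mul, hιp] at this
  obtain ⟨z, hz⟩ := C.range (t * star t) (by
    have e := congrArg star ht2
    rw [star_mul, hιp] at e
    rw [← mul_assoc, ht2, mul_assoc, e])
  obtain ⟨V, hV⟩ := C.range (b * w * star b) (by
    calc X.ι p * (b * w * star b) * X.ι p = (X.ι p * b) * w * (star b * X.ι p) := by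
          noncomm_ring
      _ = b * w * star b := by rw [hb3, hb4])
  have hP : C.j (a * z * a) = b * star b := by
    rw [map_mul, map_mul, hz, hb, star_mul, hsj]
    noncomm_ring
  have hPP : b * star b * (b * star b) = b * star b := by
    calc b * star b * (b * star b) = b * (star b * b) * star b := by noncomm_ring
      _ = b * star b := by rw [ht1, hb1]
  refine ⟨a * z * a, subset_closure ⟨z, rfl⟩, ?_, ?_, V, ?_, ?_, ?_⟩
  · apply C.inj
    rw [map_mul, hP, hPP]
  · apply C.inj
    rw [map_star, hP, star_mul, star_star]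
  · apply C.inj
    rw [map_mul, map_star, hV, hP]
    calc star (b * w * star b) * (b * w * star b)
        = b * star w * (star b * b) * w * star b := by
          simp only [star_mul, star_star, mul_assoc]
      _ = b * (star w * (X.ι r * w)) * star b := by
          rw [ht1]
          simp only [mul_assoc]
      _ = b * star b := by rw [hw2, hw1, hb1]
  · apply C.inj
    rw [map_mul, map_mul, map_star, hV, hP]
    calc b * w * star b * star (b * w * star b) * (b * star b)
        = b * w * star b * b * star w * (star b * b) * star b := by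
          simp only [star_mul, star_star, mul_assoc]
      _ = b * w * (star b * b) * (star w * X.ι r) * star b := by
          rw [ht1]
          simp only [mul_assoc]
          rw [← mul_assoc (star b) b, ht1]
      _ = b * w * star b * star (b * w * star b) := by
          have e : star w * X.ι r = star w := by
            have := congrArg star hw2
            rwa [star_mul, hιs] at this
          rw [e]
          simp only [star_mul, star_star, mul_assoc]
  · intro h
    have h4 := congrArg C.j h
    rw [map_mul, map_star, hV, hP] at h4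
    have h5 : star b * (b * w * star b * star (b * w * star b)) * b = star b * (b * star b) * b := by
      rw [h4]
    have h6 : star b * (b * w * star b * star (b * w * star b)) * b =
        (star b * b) * w * (star b * b) * star w * (star b * b) := by
      simp only [star_mul, star_star, mul_assoc]
    have h7 : star b * (b * star b) * b = (star b * b) * (star b * b) := by
      noncomm_ring
    rw [h6, h7, ht1, hιr, hw2, hw4, mul_assoc] at h5
    have e : star w * X.ι r = star w := by
      have := congrArg star hw2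
      rwa [star_mul, hιs] at this
    rw [e] at h5
    exact hw3 h5

/-- the classes of the projections of the corner are divisible -/
theorem dvb_corner {Γ D B A : Type*} [Group Γ] [CStarAlgebra D] [CStarAlgebra B]
    [CStarAlgebra A] (X : Cp Γ D B) (h0 : RR0 D) {p : D} (hp : Pj p) (C : Corner X p A)
    (hs : Simp A) {r : D} (hr : Pj r) (hpr : p * r = r) (hr0 : r ≠ 0)
    (h : Hlv (cW r hr)) : Dvb (cW p hp) := by
  have hR : Refi (W D) := refi_W h0
  obtain ⟨m, hm⟩ := ordUnit X h0 hp C hs hr hpr hr0
  have h1 : Dvb (cW r hr) := h.dvb hR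
  exact (h1.nsmul hR m).leM hR hm

/-- the type monoid is almost unperforated below the multiples of the class of `p` -/
theorem tyU {Γ D B A : Type*} [Group Γ] [CStarAlgebra D] [CStarAlgebra B]
    [CStarAlgebra A] (X : Cp Γ D B) (hD : Reg D) {p : D} (hp : Pj p)
    (C : Corner X p A) (hs : Simp A) {r : D} (hr : Pj r)
    (hpr : p * r = r) (hr0 : r ≠ 0) (h : Hlv (cW r hr))
    (k m : ℕ) (x y : W D) (hx : Le x (m • cW p hp))
    (hk : LeM (rho X.α) ((k + 1) • x) (k • y)) : LeM (rho X.α) x y := by
  have hR : Refi (W D) := refi_W hD.rr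
  have h1 : Dvb x := ((dvb_corner X hD.rr hp C hs hr hpr hr0 h).nsmul hR m).le hx
  exact Wd_main hR hD.au h1 hk

/-- **The dichotomy**, arbitrary groups. -/
theorem dichX {Γ D B A : Type*} [Group Γ] [CStarAlgebra D] [CStarAlgebra B]
    [CStarAlgebra A] (X : Cp Γ D B) (hD : Reg D) {p : D} (hp : Pj p)
    (hα : Outer X.α p) (C : Corner X p A) (hs : Simp A) {r : D} (hr : Pj r)
    (hpr : p * r = r) (hr0 : r ≠ 0) (h : Hlv (cW r hr)) :
    ((∃ τ : A →ₗ[ℂ] ℂ, τ 1 = 1 ∧ (∀ x, ∃ t : ℝ, 0 ≤ t ∧ τ (star x * x) = t) ∧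
        ∀ x y, τ (x * y) = τ (y * x)) ∧
      ∀ (n : ℕ) (v : Matrix (Fin n) (Fin n) (Unitization ℂ A)),
        star v * v = 1 → v * star v = 1) ∨
      (∀ a : A, a ≠ 0 → (∃ y : A, a = star y * y) →
        ∃ p ∈ closure {x : A | ∃ z : A, x = a * z * a},
          p * p = p ∧ star p = p ∧
          ∃ v : A, star v * v = p ∧ v * star v * p = v * star v ∧ v * star v ≠ p) := by
  have hR : Refi (W D) := refi_W hD.rr
  have h1 := dvb_corner X hD.rr hp C hs hr hpr hr0 h
  exact dichM X hD hp (fun q hq hpq k hk => Wd_two hR hD.au (h1.le (Reg_sub hp hq hpq)) hk) hα C hs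

/-- The case of a projection `r` such that `r D r` is simple and has no minimal projections (for
example `r = p`, `D` simple, not elementary). -/
theorem dichS {Γ D B A : Type*} [Group Γ] [CStarAlgebra D] [CStarAlgebra B]
    [CStarAlgebra A] (X : Cp Γ D B) (hD : Reg D) {p : D} (hp : Pj p)
    (hα : Outer X.α p) (C : Corner X p A) (hs : Simp A) {r : D} (hr : Pj r)
    (hpr : p * r = r) (hr0 : r ≠ 0) (h : SNM r) :
    ((∃ τ : A →ₗ[ℂ] ℂ, τ 1 = 1 ∧ (∀ x, ∃ t : ℝ, 0 ≤ t ∧ τ (star x * x) = t) ∧
        ∀ x y, τ (x * y) = τ (y * x)) ∧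
      ∀ (n : ℕ) (v : Matrix (Fin n) (Fin n) (Unitization ℂ A)),
        star v * v = 1 → v * star v = 1) ∨
      (∀ a : A, a ≠ 0 → (∃ y : A, a = star y * y) →
        ∃ p ∈ closure {x : A | ∃ z : A, x = a * z * a},
          p * p = p ∧ star p = p ∧
          ∃ v : A, star v * v = p ∧ v * star v * p = v * star v ∧ v * star v ≠ p) :=
  dichX X hD hp hα C hs hr hpr hr0 (hlv_of_snm hD.rr hr h)

end Pool.Agent.H.MP_8be301_an.CX
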