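import Pool.Agent.H.MP_8be301_an.CX.AfR
import Pool.Agent.H.MP_8be301_an.CX.Sv

/-!
# An infinite class in the type monoid  (module Ifc)

`af_elt` replaces `y i` by `w i` in `p D (α (g i) p)`, close to `y i`, with `star (w i) * w i` of finite spectrum; then
`(1/4) p ≤ ∑ (α (g i)⁻¹ (star w * w) - w * star w)`. `svd` with `p₂ = α (g i) p`: `star w * w = ∑ t • e i t`, `w * star w = ∑ t • e' i t`, `e ~ e'`.
`q (i, t) = α (g i)⁻¹ (e i t) ≤ p`, `q' (i, t) = e' i t ≤ p`, index type the sigma type of `i` and the finite sets. `lemR` with `δ = 1/4` and `N` with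
`⌊N / 8⌋ ≥ m + 1`, `m` = number of pairs: `z + c • [p] ≤ z'`, `z = ∑ ⌊N t⌋ • [e' i t]`, `z' = ∑ ⌈N t⌉ • [α (g i)⁻¹ (e i t)]`, `c ≥ m + 1`. All in `W D`
(`W_sub`). `z' ≤_M ∑ ⌈N t⌉ • [e i t] = ∑ ⌈N t⌉ • [e' i t] ≤ z + ∑ [e' i t] ≤ z + m • [p]` (`rho_c`, `LeM.act`). With `z₁ = z + m • [p]`:
`z₁ + [p] ≤_M z₁`, so `z₁ + K • [p] ≤_M z₁ ≤ n • [p]` for all `K`.
-/

set_option autoImplicit false

namespace Pool.Agent.H.MP_8be301_an.CX

open Pool.Agent.H.MP_8be301_an.RD Pool.Agent.H.MP_8be301_an.DP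

theorem Ifc_mvn {D : Type*} [CStarAlgebra D] {e e' : D} (he : Pj e) (he' : Pj e') (h : Mvn e e') :
    cW e he = cW e' he' := by
  refine Subtype.ext ?_
  show c1 e = c1 e'
  rw [c1_eq he, c1_eq he', cl_eq]
  obtain ⟨v, h1, h2⟩ := h
  refine ⟨Matrix.of fun _ _ => v, ?_, ?_⟩
  · ext i j
    simp [Matrix.mul_apply, h1]
  · ext i j
    simp [Matrix.mul_apply, h2]

theorem Ifc_sub {D : Type*} [CStarAlgebra D] {p q : D} (hp : Pj p) (hq : Pj q) (h : p * q = q) :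
    Le (cW q hq) (cW p hp) := by
  have h' : q * p = q := by
    have h1 := congrArg star h
    rwa [star_mul, hp.2, hq.2] at h1
  have hr : Pj (p - q) := by
    constructor
    · rw [sub_mul, mul_sub, mul_sub, hp.1, hq.1, h, h']
      abel
    · rw [star_sub, hp.2, hq.2]
  refine ⟨cW (p - q) hr, Subtype.ext ?_⟩
  show c1 q + c1 (p - q) = c1 p
  rw [← c1_add hq hr (by rw [mul_sub, h', hq.1, sub_self]), add_sub_cancel]

theorem Ifc_cut {D : Type*} [CStarAlgebra D] [PartialOrder D] [StarOrderedRing D] {p d : D}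
    (hp : Pj p) (hd : star d = d) (hpd : p * d * p = d) {c : ℝ} (h : ‖d‖ ≤ c) :
    0 ≤ c • p + d := by
  have h1 : IsSelfAdjoint (-d) := by
    show star (-d) = -d
    rw [star_neg, hd]
  have h2 := h1.le_algebraMap_norm_self
  rw [norm_neg] at h2
  have h3 : 0 ≤ algebraMap ℝ D ‖d‖ + d := by
    have h4 := sub_nonneg.2 h2
    rwa [sub_neg_eq_add] at h4
  have h4 : 0 ≤ (c - ‖d‖) • p := Hp_smul_nonneg hp (by linarith)
  have h5 := Hp_conj_nonneg hp h3
  have h6 : p * (algebraMap ℝ D ‖d‖ + d) * p = ‖d‖ • p + d := by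
    rw [mul_add, add_mul, hpd, Algebra.algebraMap_eq_smul_one, mul_smul_comm, mul_one,
      smul_mul_assoc, hp.1]
  rw [h6] at h5
  have h7 := add_nonneg h4 h5
  have h8 : (c - ‖d‖) • p + (‖d‖ • p + d) = c • p + d := by
    rw [sub_smul]
    abel
  rwa [h8] at h7

theorem Ifc_norm {D : Type*} [CStarAlgebra D] (β : D ≃⋆ₐ[ℂ] D) {y w : D} {ε : ℝ} (hε : ε ≤ 1)
    (h : ‖w - y‖ ≤ ε) :
    ‖(β (star w * w) - w * star w) - (β (star y * y) - y * star y)‖ ≤
      ε * (2 * (2 * ‖y‖ + 1)) := by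
  have hε0 : 0 ≤ ε := (norm_nonneg _).trans h
  have hw : ‖w‖ ≤ ‖y‖ + 1 := by
    have h1 := norm_add_le (w - y) y
    rw [sub_add_cancel] at h1
    linarith
  have e1 : ‖star w * w - star y * y‖ ≤ ε * (2 * ‖y‖ + 1) := by
    have e : star w * w - star y * y = star (w - y) * w + star y * (w - y) := by
      rw [star_sub, sub_mul, mul_sub]
      abel
    rw [e]
    refine (norm_add_le _ _).trans ?_
    have e2 := norm_mul_le (star (w - y)) w
    have e3 := norm_mul_le (star y) (w - y)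
    rw [norm_star] at e2 e3
    have e4 : ‖w - y‖ * ‖w‖ ≤ ε * (‖y‖ + 1) := mul_le_mul h hw (norm_nonneg _) hε0
    have e5 : ‖y‖ * ‖w - y‖ ≤ ‖y‖ * ε := mul_le_mul_of_nonneg_left h (norm_nonneg _)
    linarith
  have e2 : ‖w * star w - y * star y‖ ≤ ε * (2 * ‖y‖ + 1) := by
    have e : w * star w - y * star y = w * star (w - y) + (w - y) * star y := by
      rw [star_sub, sub_mul, mul_sub]
      abel
    rw [e]
    refine (norm_add_le _ _).trans ?_
    have e2 := norm_mul_le w (star (w - y))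
    have e3 := norm_mul_le (w - y) (star y)
    rw [norm_star] at e2 e3
    have e4 : ‖w‖ * ‖w - y‖ ≤ (‖y‖ + 1) * ε := mul_le_mul hw h (norm_nonneg _) (by positivity)
    have e5 : ‖w - y‖ * ‖y‖ ≤ ε * ‖y‖ := mul_le_mul_of_nonneg_right h (norm_nonneg _)
    linarith
  have e3 : (β (star w * w) - w * star w) - (β (star y * y) - y * star y) =
      β (star w * w - star y * y) - (w * star w - y * star y) := by
    rw [map_sub]
    abel
  rw [e3]
  refine (norm_sub_le _ _).trans ?_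
  rw [StarAlgEquiv.norm_map]
  linarith

/-- the order of `W D` is that of all classes -/
theorem Ifc_W {D : Type*} [CStarAlgebra D] (h0 : RR0 D) {x y : W D}
    (h : Le (x : VA D) (y : VA D)) : Le x y := by
  obtain ⟨z, hz⟩ := h
  have h1 : z ∈ W D := W_sub h0 x.2 (by rw [hz]; exact y.2)
  exact ⟨⟨z, h1⟩, Subtype.ext hz⟩

theorem Ifc_sum {V : Type*} [AddCommMonoid V] {ι : Type*} (s : Finset ι) {x y : ι → V}
    (h : ∀ i ∈ s, Le (x i) (y i)) : Le (∑ i ∈ s, x i) (∑ i ∈ s, y i) := Gr_sum s h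

/-- the first step: elements with finite spectrum -/
theorem Ifc_fin {D : Type*} [CStarAlgebra D] [PartialOrder D] [StarOrderedRing D] (hD : AF D)
    {Γ : Type*} [Group Γ] (α : Γ →* (D ≃⋆ₐ[ℂ] D)) {p : D} (hp : Pj p) {m : ℕ} {g : Fin m → Γ}
    {y : Fin m → D} (h1 : ∀ i, p * y i = y i ∧ y i * α (g i) p = y i)
    (h2 : (1 / 2 : ℝ) • p ≤ ∑ i, (α (g i)⁻¹ (star (y i) * y i) - y i * star (y i))) :
    ∃ w : Fin m → D, (∀ i, p * w i = w i ∧ w i * α (g i) p = w i ∧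
        (quasispectrum ℂ (star (w i) * w i)).Finite) ∧
      (1 / 4 : ℝ) • p ≤ ∑ i, (α (g i)⁻¹ (star (w i) * w i) - w i * star (w i)) := by
  have hε : ∀ i, 0 < min 1 (1 / (8 * ((m : ℝ) + 1) * (2 * ‖y i‖ + 1))) := fun i =>
    lt_min one_pos (by positivity)
  have h3 : ∀ i, ∃ w : D, p * w = w ∧ w * α (g i) p = w ∧
      ‖w - y i‖ < min 1 (1 / (8 * ((m : ℝ) + 1) * (2 * ‖y i‖ + 1))) ∧
      (quasispectrum ℂ (star w * w)).Finite := fun i =>
    af_elt hD hp (pj_aut _ hp) (h1 i).1 (h1 i).2 (hε i)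
  choose w hw1 hw2 hw3 hw4 using h3
  refine ⟨w, fun i => ⟨hw1 i, hw2 i, hw4 i⟩, ?_⟩
  -- everything is in the corner
  have hcor : ∀ (i : Fin m) (x : D), p * x = x → x * α (g i) p = x →
      p * (α (g i)⁻¹ (star x * x) - x * star x) * p =
        α (g i)⁻¹ (star x * x) - x * star x := by
    intro i x hx1 hx2
    have hx3 : star x * p = star x := by
      have h4 := congrArg star hx1
      rwa [star_mul, hp.2] at h4
    have hx4 : α (g i) p * star x = star x := by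
      have h4 := congrArg star hx2
      rwa [star_mul, ← map_star, hp.2] at h4
    have e1 : α (g i)⁻¹ (α (g i) p) = p := by
      have h5 : (α (g i)⁻¹ * α (g i)) p = p := by
        rw [← map_mul, inv_mul_cancel, map_one]
        rfl
      exact h5
    have e2 : p * α (g i)⁻¹ (star x * x) * p = α (g i)⁻¹ (star x * x) := by
      calc p * α (g i)⁻¹ (star x * x) * p
          = α (g i)⁻¹ (α (g i) p) * α (g i)⁻¹ (star x * x) * α (g i)⁻¹ (α (g i) p) := by
            rw [e1]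
        _ = α (g i)⁻¹ (α (g i) p * (star x * x) * α (g i) p) := by
            rw [← map_mul, ← map_mul]
        _ = α (g i)⁻¹ (star x * x) := by
            rw [← mul_assoc, hx4, mul_assoc, hx2]
    rw [mul_sub, sub_mul, e2]
    congr 1
    rw [mul_assoc, mul_assoc, hx3, ← mul_assoc, hx1]
  obtain ⟨d, hd⟩ : ∃ d, d = ∑ i, ((α (g i)⁻¹ (star (w i) * w i) - w i * star (w i)) -
      (α (g i)⁻¹ (star (y i) * y i) - y i * star (y i))) := ⟨_, rfl⟩
  have hsa : ∀ (i : Fin m) (x : D), star (α (g i)⁻¹ (star x * x) - x * star x) =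
      α (g i)⁻¹ (star x * x) - x * star x := by
    intro i x
    rw [star_sub, ← map_star, star_mul, star_star, star_mul, star_star]
  have hds : star d = d := by
    rw [hd, star_sum]
    refine Finset.sum_congr rfl fun i _ => ?_
    rw [star_sub, hsa, hsa]
  have hpd : p * d * p = d := by
    rw [hd, Finset.mul_sum, Finset.sum_mul]
    refine Finset.sum_congr rfl fun i _ => ?_
    rw [mul_sub, sub_mul, hcor i _ (hw1 i) (hw2 i), hcor i _ (h1 i).1 (h1 i).2]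
  have hdn : ‖d‖ ≤ 1 / 4 := by
    rw [hd]
    refine (norm_sum_le _ _).trans ?_
    have h5 : ∀ i : Fin m, ‖(α (g i)⁻¹ (star (w i) * w i) - w i * star (w i)) -
        (α (g i)⁻¹ (star (y i) * y i) - y i * star (y i))‖ ≤ 1 / (4 * ((m : ℝ) + 1)) := by
      intro i
      refine (Ifc_norm _ (min_le_left _ _) (hw3 i).le).trans ?_
      have h6 : min 1 (1 / (8 * ((m : ℝ) + 1) * (2 * ‖y i‖ + 1))) * (2 * (2 * ‖y i‖ + 1)) ≤
          1 / (8 * ((m : ℝ) + 1) * (2 * ‖y i‖ + 1)) * (2 * (2 * ‖y i‖ + 1)) :=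
        mul_le_mul_of_nonneg_right (min_le_right _ _) (by positivity)
      refine h6.trans (le_of_eq ?_)
      field_simp
      norm_num
    refine (Finset.sum_le_sum fun i _ => h5 i).trans ?_
    rw [Finset.sum_const, Finset.card_univ, Fintype.card_fin, nsmul_eq_mul, mul_one_div,
      div_le_div_iff₀ (by positivity) (by norm_num)]
    linarith
  have h6 := Ifc_cut hp hds hpd hdn
  have h7 : ∑ i, (α (g i)⁻¹ (star (w i) * w i) - w i * star (w i)) =
      ∑ i, (α (g i)⁻¹ (star (y i) * y i) - y i * star (y i)) + d := by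
    rw [hd, ← Finset.sum_add_distrib]
    refine Finset.sum_congr rfl fun i _ => ?_
    abel
  rw [h7]
  have h8 := add_le_add h2 h6
  have h9 : (1 / 2 : ℝ) • p = (1 / 4 : ℝ) • p + (1 / 4 : ℝ) • p := by
    rw [← add_smul]
    norm_num
  rw [h9, add_zero] at h8
  have h10 : (1 / 4 : ℝ) • p + ((1 / 4 : ℝ) • p) ≤ (1 / 4 : ℝ) • p +
      (∑ i, (α (g i)⁻¹ (star (y i) * y i) - y i * star (y i)) + d) := by
    refine h8.trans (le_of_eq ?_)
    abel
  exact le_of_add_le_add_left h10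

theorem infClass {D : Type*} [CStarAlgebra D] [PartialOrder D] [StarOrderedRing D] (hD : AF D)
    {Γ : Type*} [Group Γ] (α : Γ →* (D ≃⋆ₐ[ℂ] D)) {p : D} (hp : Pj p) {m : ℕ} {g : Fin m → Γ}
    {y : Fin m → D} (h1 : ∀ i, p * y i = y i ∧ y i * α (g i) p = y i)
    (h2 : (1 / 2 : ℝ) • p ≤ ∑ i, (α (g i)⁻¹ (star (y i) * y i) - y i * star (y i))) :
    ∃ n : ℕ, ∀ K : ℕ, LeM (rho α) (K • cW p hp) (n • cW p hp) := by
  classical
  have h0 : RR0 D := rr0_af hD
  obtain ⟨w, hw, hle⟩ := Ifc_fin hD α hp h1 h2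
  have hsv : ∀ i : Fin m, ∃ (s : Finset ℝ) (e e' : ℝ → D), (∀ t ∈ s, 0 < t ∧ Pj (e t) ∧
      Pj (e' t) ∧ α (g i) p * e t = e t ∧ p * e' t = e' t ∧ Mvn (e t) (e' t)) ∧
      star (w i) * w i = ∑ t ∈ s, t • e t ∧ w i * star (w i) = ∑ t ∈ s, t • e' t := fun i =>
    svd hp (pj_aut _ hp) (hw i).1 (hw i).2.1 (hw i).2.2
  choose s e e' hs hs1 hs2 using hsv
  -- index type
  let I : Type := Σ i : Fin m, {t : ℝ // t ∈ s i}
  let T : I → ℝ := fun a => a.2.1
  let Q : I → D := fun a => α (g a.1)⁻¹ (e a.1 a.2.1)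
  let Q' : I → D := fun a => e' a.1 a.2.1
  let E : I → D := fun a => e a.1 a.2.1
  have hT : ∀ a, 0 ≤ T a := fun a => (hs a.1 a.2.1 a.2.2).1.le
  have hE : ∀ a, Pj (E a) := fun a => (hs a.1 a.2.1 a.2.2).2.1
  have hQ : ∀ a, Pj (Q a) := fun a => pj_aut _ (hE a)
  have hQ' : ∀ a, Pj (Q' a) := fun a => (hs a.1 a.2.1 a.2.2).2.2.1
  have hpQ' : ∀ a, p * Q' a = Q' a := fun a => (hs a.1 a.2.1 a.2.2).2.2.2.2.1
  have hM : ∀ a, Mvn (E a) (Q' a) := fun a => (hs a.1 a.2.1 a.2.2).2.2.2.2.2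
  have hpQ : ∀ a, p * Q a = Q a := by
    intro a
    have e1 : α (g a.1)⁻¹ (α (g a.1) p) = p := by
      have h5 : (α (g a.1)⁻¹ * α (g a.1)) p = p := by
        rw [← map_mul, inv_mul_cancel, map_one]
        rfl
      exact h5
    show p * α (g a.1)⁻¹ (e a.1 a.2.1) = α (g a.1)⁻¹ (e a.1 a.2.1)
    nth_rewrite 1 [← e1]
    rw [← map_mul, (hs a.1 a.2.1 a.2.2).2.2.2.1]
  have hsQ : ∑ a, T a • Q a = ∑ i, α (g i)⁻¹ (star (w i) * w i) := by
    rw [Fintype.sum_sigma]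
    refine Finset.sum_congr rfl fun i _ => ?_
    rw [hs1 i, map_sum, ← Finset.sum_coe_sort (s i)]
    refine Finset.sum_congr rfl fun t _ => ?_
    show (t : ℝ) • α (g i)⁻¹ (e i t) = α (g i)⁻¹ ((t : ℝ) • e i t)
    have h5 : ∀ (c : ℝ) (x : D), c • x = (c : ℂ) • x := fun c x => (Complex.coe_smul c x).symm
    rw [h5, h5, map_smul]
  have hsQ' : ∑ a, T a • Q' a = ∑ i, w i * star (w i) := by
    rw [Fintype.sum_sigma]
    refine Finset.sum_congr rfl fun i _ => ?_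
    rw [hs2 i, ← Finset.sum_coe_sort (s i)]
  have hmain : ∑ a, T a • Q' a + (1 / 4 : ℝ) • p ≤ ∑ a, T a • Q a := by
    rw [hsQ, hsQ']
    rw [Finset.sum_sub_distrib] at hle
    have h5 := add_le_add_left hle (∑ i, w i * star (w i))
    rw [add_comm] at h5
    refine h5.trans (le_of_eq ?_)
    abel
  obtain ⟨M, hMc⟩ : ∃ M, M = Fintype.card I := ⟨_, rfl⟩
  obtain ⟨N, hN⟩ : ∃ N : ℕ, N = 8 * (M + 1) := ⟨_, rfl⟩
  have hlem := lemR hD hp hQ hQ' hpQ hpQ' hT hT (by norm_num : (0 : ℝ) < 1 / 4) hmain N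
  have hfl : ⌊(N : ℝ) * (1 / 4 / 2)⌋₊ = M + 1 := by
    have h5 : (N : ℝ) * (1 / 4 / 2) = ((M + 1 : ℕ) : ℝ) := by
      rw [hN]
      push_cast
      ring
    rw [h5, Nat.floor_natCast]
  rw [hfl] at hlem
  -- in `W D`
  obtain ⟨z, hz⟩ : ∃ z : W D, z = ∑ a, ⌊(N : ℝ) * T a⌋₊ • cW (Q' a) (hQ' a) := ⟨_, rfl⟩
  obtain ⟨z', hz'⟩ : ∃ z' : W D, z' = ∑ a, ⌈(N : ℝ) * T a⌉₊ • cW (Q a) (hQ a) := ⟨_, rfl⟩
  have hzz : Le (z + (M + 1) • cW p hp) z' := by
    refine Ifc_W h0 ?_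
    have e1 : ((z + (M + 1) • cW p hp : W D) : VA D) =
        ∑ a, ⌊(N : ℝ) * T a⌋₊ • c1 (Q' a) + (M + 1) • c1 p := by
      rw [hz]
      push_cast
      rfl
    have e2 : (z' : VA D) = ∑ a, ⌈(N : ℝ) * T a⌉₊ • c1 (Q a) := by
      rw [hz']
      push_cast
      rfl
    rw [e1, e2]
    exact hlem
  have hR : Refi (W D) := refi_W h0
  -- `z'` is below `z + M [p]`
  have hz1 : LeM (rho α) z' (z + M • cW p hp) := by
    have e1 : LeM (rho α) z' (∑ a, ⌈(N : ℝ) * T a⌉₊ • cW (Q' a) (hQ' a)) := by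
      rw [hz']
      refine LeM.sum _ fun a _ => LeM.nsmul _ ?_
      rw [← Ifc_mvn (hE a) (hQ' a) (hM a)]
      have e2 : cW (Q a) (hQ a) = rho α (g a.1)⁻¹ (cW (E a) (hE a)) := by
        rw [rho_c]
      rw [e2]
      exact LeM.act _ _
    refine LeM.trans hR e1 (LeM.of_le ?_)
    have e2 : Le (∑ a, ⌈(N : ℝ) * T a⌉₊ • cW (Q' a) (hQ' a))
        (∑ a, (⌊(N : ℝ) * T a⌋₊ • cW (Q' a) (hQ' a) + cW p hp)) := by
      refine Ifc_sum _ fun a _ => ?_
      have e3 : ⌈(N : ℝ) * T a⌉₊ ≤ ⌊(N : ℝ) * T a⌋₊ + 1 := Nat.ceil_le_floor_add_one _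
      refine (Gr_smul e3 _).trans ?_
      rw [add_smul, one_smul]
      exact (Le.refl _).add (Ifc_sub hp (hQ' a) (hpQ' a))
    refine e2.trans ?_
    rw [Finset.sum_add_distrib, ← hz, Finset.sum_const, Finset.card_univ, ← hMc]
    exact Le.refl _
  have hz2 : LeM (rho α) ((z + M • cW p hp) + cW p hp) (z + M • cW p hp) := by
    refine LeM.trans hR (LeM.of_le ?_) hz1
    have e1 : z + M • cW p hp + cW p hp = z + (M + 1) • cW p hp := by
      rw [add_assoc, add_smul, one_smul]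
    rw [e1]
    exact hzz
  have hz3 : ∀ K : ℕ, LeM (rho α) ((z + M • cW p hp) + K • cW p hp) (z + M • cW p hp) := by
    intro K
    induction K with
    | zero =>
      rw [zero_smul, add_zero]
      exact LeM.of_le (Le.refl _)
    | succ K ih =>
      have e1 : z + M • cW p hp + (K + 1) • cW p hp =
          z + M • cW p hp + K • cW p hp + cW p hp := by
        rw [add_smul, one_smul, add_assoc (z + M • cW p hp)]
      rw [e1]
      exact LeM.trans hR (ih.add (LeM.of_le (Le.refl (cW p hp)))) hz2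
  refine ⟨(∑ a, ⌊(N : ℝ) * T a⌋₊) + M, fun K => ?_⟩
  refine LeM.trans hR (LeM.of_le ?_) (LeM.trans hR (hz3 K) (LeM.of_le ?_))
  · exact ⟨z + M • cW p hp, add_comm _ _⟩
  · rw [add_smul, Finset.sum_smul, hz]
    refine Le.add (Ifc_sum _ fun a _ => ?_) (Le.refl _)
    exact Gr_nsmul _ (Ifc_sub hp (hQ' a) (hpQ' a))

end Pool.Agent.H.MP_8be301_an.CX
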