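import Pool.Agent.H.MP_8be301_an.DP.Mon

/-!
# Common refinements and the majority lemma  (module Kl)

`refi_fin`: induction on the two index sets (`Fintype` induction or `Fin`), from the 2 x 2 property `Refi`.
`common`: induction on `E`: for `E = 0` the only function gets `x`; step: refine `∑ σ, s σ = ∑ k, c (last) k` by `refi_fin`.
`lemK`: `card κ * d` copies of `x` and a remainder `w` against the `y k`: `refi_fin` (index type `Option (Fin (card κ * d))`) gives
`x = ∑ k, c j k` for every `j`, `∑ j, c j k ≤ y k`. `common`: `x = ∑ σ, s σ`, `c j k = ∑ σ with σ j = k, s σ`. For every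
`σ : Fin (card κ * d) → κ` there is `k σ` with at least `d` values `j` with `σ j = k σ` (pigeonhole,
`Finset.exists_le_card_fiber_of_mul_le_card_of_maps_to` or `Fintype.exists_le_card_fiber_of_mul_le_card`). `z k = ∑ σ with k σ = k, s σ`;
`d • z k ≤ ∑ σ, (number of j with σ j = k) • s σ = ∑ j, c j k`.
-/

set_option autoImplicit false

namespace Pool.Agent.H.MP_8be301_an.CX

open Pool.Agent.H.MP_8be301_an.DP

variable {M : Type*} [AddCommMonoid M]

private theorem Kl_row (hM : Refi M) (n : ℕ) : ∀ (b : Fin (n + 1) → M) (a₁ a₂ : M),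
    a₁ + a₂ = ∑ k, b k → ∃ p q : Fin (n + 1) → M, a₁ = ∑ k, p k ∧ a₂ = ∑ k, q k ∧
      ∀ k, b k = p k + q k := by
  induction n with
  | zero =>
    intro b a₁ a₂ h
    refine ⟨fun _ => a₁, fun _ => a₂, ?_, ?_, fun k => ?_⟩
    · simp
    · simp
    · have hk : k = 0 := Fin.ext (by omega)
      rw [hk, h]
      simp
  | succ n ih =>
    intro b a₁ a₂ h
    rw [Fin.sum_univ_succ] at h
    obtain ⟨p, q, r, s, h1, h2, h3, h4⟩ := hM _ _ _ _ h
    obtain ⟨p', q', h5, h6, h7⟩ := ih (fun k => b k.succ) q s h4.symm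
    refine ⟨Fin.cons p p', Fin.cons r q', ?_, ?_, fun k => ?_⟩
    · rw [Fin.sum_univ_succ, Fin.cons_zero]
      simp only [Fin.cons_succ]
      rw [← h5, h1]
    · rw [Fin.sum_univ_succ, Fin.cons_zero]
      simp only [Fin.cons_succ]
      rw [← h6, h2]
    · refine Fin.cases ?_ (fun i => ?_) k
      · rw [Fin.cons_zero, Fin.cons_zero, h3]
      · rw [Fin.cons_succ, Fin.cons_succ, h7]

private theorem Kl_fin (hM : Refi M) (n m : ℕ) : ∀ (a : Fin (m + 1) → M) (b : Fin (n + 1) → M),
    ∑ i, a i = ∑ k, b k → ∃ c : Fin (m + 1) → Fin (n + 1) → M, (∀ i, a i = ∑ k, c i k) ∧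
      ∀ k, b k = ∑ i, c i k := by
  induction m with
  | zero =>
    intro a b h
    refine ⟨fun _ k => b k, fun i => ?_, fun k => ?_⟩
    · have hi : i = 0 := Fin.ext (by omega)
      rw [hi, ← h]
      simp
    · simp
  | succ m ih =>
    intro a b h
    rw [Fin.sum_univ_succ] at h
    obtain ⟨p, q, h1, h2, h3⟩ := Kl_row hM n b _ _ h
    obtain ⟨c, h4, h5⟩ := ih (fun i => a i.succ) q h2
    refine ⟨Fin.cons p c, fun i => ?_, fun k => ?_⟩
    · refine Fin.cases ?_ (fun j => ?_) i
      · rw [h1]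
        simp
      · rw [h4]
        simp
    · rw [Fin.sum_univ_succ, h3, h5]
      simp

theorem refi_fin (hM : Refi M) {ι κ : Type*} [Fintype ι] [Fintype κ] [Nonempty ι] [Nonempty κ]
    {a : ι → M} {b : κ → M} (h : ∑ i, a i = ∑ k, b k) :
    ∃ c : ι → κ → M, (∀ i, a i = ∑ k, c i k) ∧ ∀ k, b k = ∑ i, c i k := by
  obtain ⟨m, hm⟩ := Nat.exists_eq_succ_of_ne_zero (Fintype.card_pos (α := ι)).ne'
  obtain ⟨n, hn⟩ := Nat.exists_eq_succ_of_ne_zero (Fintype.card_pos (α := κ)).ne'
  let e : ι ≃ Fin (m + 1) := Fintype.equivFinOfCardEq hm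
  let f : κ ≃ Fin (n + 1) := Fintype.equivFinOfCardEq hn
  obtain ⟨c, h1, h2⟩ := Kl_fin hM n m (fun i => a (e.symm i)) (fun k => b (f.symm k)) (by
    rw [Equiv.sum_comp e.symm a, Equiv.sum_comp f.symm b, h])
  refine ⟨fun i k => c (e i) (f k), fun i => ?_, fun k => ?_⟩
  · have h3 := h1 (e i)
    rw [Equiv.symm_apply_apply] at h3
    rw [h3, Equiv.sum_comp f (fun k => c (e i) k)]
  · have h3 := h2 (f k)
    rw [Equiv.symm_apply_apply] at h3
    rw [h3, Equiv.sum_comp e (fun i => c i (f k))]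

private theorem Kl_cons {κ : Type*} [Fintype κ] (E : ℕ) (g : (Fin (E + 1) → κ) → M) :
    ∑ σ, g σ = ∑ k : κ, ∑ σ : Fin E → κ, g (Fin.cons k σ) := by
  rw [← (Fin.consEquiv (fun _ : Fin (E + 1) => κ)).sum_comp g, Fintype.sum_prod_type]
  rfl

theorem common (hM : Refi M) {κ : Type*} [Fintype κ] [Nonempty κ] [DecidableEq κ] (E : ℕ)
    {x : M} (c : Fin E → κ → M) (h : ∀ j, ∑ k, c j k = x) :
    ∃ s : (Fin E → κ) → M, x = ∑ σ, s σ ∧ ∀ j k, c j k = ∑ σ with σ j = k, s σ := by
  induction E with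
  | zero =>
    refine ⟨fun _ => x, ?_, fun j => j.elim0⟩
    simp
  | succ E ih =>
    obtain ⟨s', h1, h2⟩ := ih (fun j => c j.succ) (fun j => h j.succ)
    obtain ⟨t, h3, h4⟩ := refi_fin hM (a := s') (b := c 0) (by rw [← h1, h 0])
    refine ⟨fun σ => t (fun j => σ j.succ) (σ 0), ?_, fun j k => ?_⟩
    · rw [Kl_cons, Finset.sum_comm, h1]
      refine Finset.sum_congr rfl fun σ _ => ?_
      rw [h3]
      refine Finset.sum_congr rfl fun k _ => ?_
      simp only [Fin.cons_succ, Fin.cons_zero]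
    · rw [Finset.sum_filter, Kl_cons]
      refine Fin.cases ?_ (fun j' => ?_) j
      · simp only [Fin.cons_succ, Fin.cons_zero]
        rw [Finset.sum_comm, h4]
        refine Finset.sum_congr rfl fun σ _ => ?_
        rw [Finset.sum_ite_eq' Finset.univ k]
        simp
      · simp only [Fin.cons_succ, Fin.cons_zero]
        rw [Finset.sum_comm, h2, Finset.sum_filter]
        refine Finset.sum_congr rfl fun σ _ => ?_
        split_ifs with h5
        · exact h3 σ
        · simp

private theorem Kl_sum_le {ι : Type*} (s : Finset ι) {f g : ι → M} (h : ∀ i ∈ s, Le (f i) (g i)) :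
    Le (∑ i ∈ s, f i) (∑ i ∈ s, g i) := by
  classical
  induction s using Finset.induction_on with
  | empty =>
    rw [Finset.sum_empty, Finset.sum_empty]
    exact Le.refl 0
  | insert a s ha ih =>
    rw [Finset.sum_insert ha, Finset.sum_insert ha]
    exact (h a (Finset.mem_insert_self a s)).add
      (ih fun i hi => h i (Finset.mem_insert_of_mem hi))

theorem lemK (hM : Refi M) {κ : Type*} [Fintype κ] [Nonempty κ] {y : κ → M} {x : M} {d : ℕ}
    (h : Le ((Fintype.card κ * d) • x) (∑ k, y k)) :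
    ∃ z : κ → M, x = ∑ k, z k ∧ ∀ k, Le (d • z k) (y k) := by
  classical
  obtain ⟨w, hw⟩ := h
  obtain ⟨c, h1, h2⟩ := refi_fin hM (ι := Option (Fin (Fintype.card κ * d)))
    (a := fun i => i.elim w fun _ => x) (b := y) (by
      rw [Fintype.sum_option, ← hw]
      simp [add_comm])
  obtain ⟨s, h3, h4⟩ := common hM (Fintype.card κ * d) (x := x) (fun j k => c (some j) k)
    (fun j => (h1 (some j)).symm)
  have hpig : ∀ σ : Fin (Fintype.card κ * d) → κ, ∃ k, d ≤ (Finset.univ.filter
      fun j => σ j = k).card := by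
    intro σ
    exact Fintype.exists_le_card_fiber_of_mul_le_card σ (by rw [Fintype.card_fin])
  choose kk hkk using hpig
  refine ⟨fun k => ∑ σ with kk σ = k, s σ, ?_, fun k => ?_⟩
  · have e0 : ∑ k, ∑ σ with kk σ = k, s σ = ∑ σ, s σ := by
      simp only [Finset.sum_filter]
      rw [Finset.sum_comm]
      refine Finset.sum_congr rfl fun σ _ => ?_
      rw [Finset.sum_ite_eq Finset.univ (kk σ)]
      simp
    rw [h3, ← e0]
  · have e1 : ∑ j, c (some j) k =
        ∑ σ, (Finset.univ.filter fun j => σ j = k).card • s σ := by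
      calc ∑ j, c (some j) k = ∑ j, ∑ σ with σ j = k, s σ :=
            Finset.sum_congr rfl fun j _ => h4 j k
        _ = ∑ j, ∑ σ, if σ j = k then s σ else 0 :=
            Finset.sum_congr rfl fun j _ => Finset.sum_filter _ _
        _ = ∑ σ, ∑ j, if σ j = k then s σ else 0 := Finset.sum_comm
        _ = ∑ σ, (Finset.univ.filter fun j => σ j = k).card • s σ := by
            refine Finset.sum_congr rfl fun σ _ => ?_
            rw [← Finset.sum_filter, Finset.sum_const]
    have e2 : Le (∑ j, c (some j) k) (y k) := by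
      refine ⟨c none k, ?_⟩
      rw [h2 k, Fintype.sum_option, add_comm]
    refine Le.trans ?_ e2
    rw [e1, ← Finset.sum_filter_add_sum_filter_not Finset.univ (fun σ => kk σ = k), Finset.smul_sum]
    have e3 : Le (∑ σ with kk σ = k, d • s σ)
        (∑ σ with kk σ = k, (Finset.univ.filter fun j => σ j = k).card • s σ) := by
      refine Kl_sum_le _ fun σ hσ => ?_
      rw [Finset.mem_filter] at hσ
      refine Mon_nsmul_le (s σ) ?_
      have h5 := hkk σ
      rwa [hσ.2] at h5
    have e4 := e3.add (Mon_zero (∑ σ with ¬ kk σ = k,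
      (Finset.univ.filter fun j => σ j = k).card • s σ))
    rwa [add_zero] at e4

end Pool.Agent.H.MP_8be301_an.CX
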