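import Pool.Agent.H.MP_8be301_an.DP.VB

/-!
# Ranks of projections in finite dimensional algebras  (module Rk)

`FD n` = direct sum of the matrix algebras of sizes `n 0, .., n (k-1)`. `mp n l` = the matrix unit `e_00` in the block `l`.
`class_rank`: in every block `Q l = ∑ j, λ j • u j (u j)ᴴ` (`Matrix.IsHermitian.spectral_theorem`), `λ j ∈ {0, 1}`; `r l` = the number of `j` with
`λ j = 1` = the trace. The rank one projections `q (l, j) = Pi.single l (u j (u j)ᴴ)` are mutually orthogonal, `φ (q (l, j))` is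
equivalent to `φ (mp n l)` by `φ (Pi.single l (u j e_0ᴴ))`, and `c1_add` (VB) over the finite sum. (`c1 0 = 0`: `cl_zero`.)
`tr_nonneg`: suppose `φ x ≥ 0`. Each block `x l` is positive semidefinite: `x` is self-adjoint (`φ` injective), `x l = ∑ j, μ j • u j (u j)ᴴ`;
with `Q = Pi.single l (u j (u j)ᴴ)`, `φ Q * φ x * φ Q = μ j • φ Q`, which is `≥ 0` with `φ Q ≠ 0` a projection, so `μ j ≥ 0`. The trace is `∑ μ j`.
-/

set_option autoImplicit false

namespace Pool.Agent.H.MP_8be301_an.CX

open Pool.Agent.H.MP_8be301_an.RD Pool.Agent.H.MP_8be301_an.DP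

/-- finite direct sums of matrix algebras -/
abbrev FD {k : ℕ} (n : Fin k → ℕ) := ∀ i, Matrix (Fin (n i)) (Fin (n i)) ℂ

/-- projections of `FD n` -/
def PrF {k : ℕ} {n : Fin k → ℕ} (Q : FD n) : Prop := Q * Q = Q ∧ star Q = Q

/-- the matrix unit `e_00` of the block `l` -/
noncomputable def mp {k : ℕ} (n : Fin k → ℕ) (l : Fin k) : FD n :=
  Pi.single l (Matrix.of fun a b => if (a : ℕ) = 0 ∧ (b : ℕ) = 0 then 1 else 0)

variable {D : Type*} [CStarAlgebra D]

/-- the matrix unit `e_00` -/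
private noncomputable def Rk_e (n : ℕ) : Matrix (Fin n) (Fin n) ℂ :=
  Matrix.of fun a b => if (a : ℕ) = 0 ∧ (b : ℕ) = 0 then 1 else 0

/-- the rank one projections of a self-adjoint matrix -/
private theorem Rk_spec {n : ℕ} {P : Matrix (Fin n) (Fin n) ℂ} (hP : star P = P) :
    ∃ (μ : Fin n → ℝ) (E W : Fin n → Matrix (Fin n) (Fin n) ℂ),
      P = ∑ j, (μ j : ℂ) • E j ∧ (∀ i j, i ≠ j → E i * E j = 0) ∧ (∀ j, E j * E j = E j) ∧
      (∀ j, star (E j) = E j) ∧ (∀ j, E j ≠ 0) ∧ (∀ j, star (W j) * W j = Rk_e n) ∧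
      (∀ j, W j * star (W j) = E j) ∧ P.trace = ∑ j, (μ j : ℂ) ∧
      (∀ _ : Fin n, Rk_e n * Rk_e n = Rk_e n) := by
  have hA : P.IsHermitian := hP
  obtain ⟨U, hU⟩ : ∃ U : Matrix (Fin n) (Fin n) ℂ, U = hA.eigenvectorUnitary := ⟨_, rfl⟩
  have hU1 : star U * U = 1 := by
    rw [hU]
    exact Unitary.coe_star_mul_self _
  have hspec : P = U * Matrix.diagonal (fun j => (hA.eigenvalues j : ℂ)) * star U := by
    have h := hA.spectral_theorem
    rw [Unitary.conjStarAlgAut_apply] at h
    rw [hU]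
    exact h
  have hmul : ∀ X Y : Matrix (Fin n) (Fin n) ℂ,
      U * X * star U * (U * Y * star U) = U * (X * Y) * star U := by
    intro X Y
    calc U * X * star U * (U * Y * star U) = U * X * (star U * U) * Y * star U := by
          simp only [mul_assoc]
      _ = U * (X * Y) * star U := by rw [hU1, mul_one]; simp only [mul_assoc]
  have hstar1 : ∀ i j : Fin n, star (Matrix.single i j (1 : ℂ)) = Matrix.single j i 1 := by
    intro i j
    ext a b
    simp only [Matrix.star_apply, Matrix.single_apply]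
    by_cases h : i = b ∧ j = a
    · rw [if_pos h, if_pos ⟨h.2, h.1⟩, star_one]
    · rw [if_neg h, if_neg (fun h' => h ⟨h'.2, h'.1⟩), star_zero]
  have hRe : ∀ j : Fin n, Matrix.single (⟨0, j.pos⟩ : Fin n) (⟨0, j.pos⟩ : Fin n) (1 : ℂ) =
      Rk_e n := by
    intro j
    ext a b
    rw [Rk_e, Matrix.of_apply, Matrix.single_apply]
    simp only [Fin.ext_iff]
    by_cases h : (0 : ℕ) = a ∧ (0 : ℕ) = b
    · rw [if_pos h, if_pos ⟨h.1.symm, h.2.symm⟩]
    · rw [if_neg h, if_neg (fun h' => h ⟨h'.1.symm, h'.2.symm⟩)]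
  have hE : ∀ i j : Fin n, U * Matrix.single i i (1 : ℂ) * star U *
      (U * Matrix.single j j (1 : ℂ) * star U) =
      if i = j then U * Matrix.single j j (1 : ℂ) * star U else 0 := by
    intro i j
    rw [hmul]
    by_cases h : i = j
    · subst h
      rw [if_pos rfl, Matrix.single_mul_single_same, mul_one]
    · have h0 : Matrix.single i i (1 : ℂ) * Matrix.single j j 1 = 0 := by
        simp [h]
      rw [if_neg h, h0, mul_zero, zero_mul]
  refine ⟨hA.eigenvalues, fun j => U * Matrix.single j j 1 * star U,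
    fun j => U * Matrix.single j (⟨0, j.pos⟩ : Fin n) 1, ?_, ?_, ?_, ?_, ?_, ?_, ?_, ?_, ?_⟩
  · refine hspec.trans ?_
    rw [← Matrix.sum_single_eq_diagonal, Finset.mul_sum, Finset.sum_mul]
    refine Finset.sum_congr rfl fun j _ => ?_
    have h1 : Matrix.single j j (hA.eigenvalues j : ℂ) =
        (hA.eigenvalues j : ℂ) • Matrix.single j j (1 : ℂ) := by
      rw [Matrix.smul_single, smul_eq_mul, mul_one]
    rw [h1, mul_smul_comm, smul_mul_assoc]
  · intro i j h
    show U * Matrix.single i i (1 : ℂ) * star U * (U * Matrix.single j j (1 : ℂ) * star U) = 0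
    rw [hE, if_neg h]
  · intro j
    show U * Matrix.single j j (1 : ℂ) * star U * (U * Matrix.single j j (1 : ℂ) * star U) = _
    rw [hE, if_pos rfl]
  · intro j
    show star (U * Matrix.single j j (1 : ℂ) * star U) = _
    rw [star_mul, star_mul, star_star, hstar1, ← mul_assoc]
  · intro j h
    have h1 : star U * (U * Matrix.single j j (1 : ℂ) * star U) * U = Matrix.single j j 1 := by
      calc star U * (U * Matrix.single j j (1 : ℂ) * star U) * U =
          (star U * U) * Matrix.single j j (1 : ℂ) * (star U * U) := by simp only [mul_assoc]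
        _ = Matrix.single j j 1 := by rw [hU1, one_mul, mul_one]
    have h2 : U * Matrix.single j j (1 : ℂ) * star U = 0 := h
    rw [h2, mul_zero, zero_mul] at h1
    have h3 := congrFun (congrFun h1 j) j
    rw [Matrix.single_apply_same] at h3
    exact one_ne_zero h3.symm
  · intro j
    show star (U * Matrix.single j (⟨0, j.pos⟩ : Fin n) (1 : ℂ)) *
      (U * Matrix.single j (⟨0, j.pos⟩ : Fin n) 1) = _
    rw [star_mul, hstar1, mul_assoc, ← mul_assoc (star U), hU1, one_mul,
      Matrix.single_mul_single_same, mul_one]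
    exact hRe j
  · intro j
    show (U * Matrix.single j (⟨0, j.pos⟩ : Fin n) (1 : ℂ)) *
      star (U * Matrix.single j (⟨0, j.pos⟩ : Fin n) (1 : ℂ)) = U * Matrix.single j j 1 * star U
    rw [star_mul, hstar1]
    calc U * Matrix.single j (⟨0, j.pos⟩ : Fin n) (1 : ℂ) *
          (Matrix.single (⟨0, j.pos⟩ : Fin n) j 1 * star U) =
        U * (Matrix.single j (⟨0, j.pos⟩ : Fin n) (1 : ℂ) *
          Matrix.single (⟨0, j.pos⟩ : Fin n) j 1) * star U := by simp only [mul_assoc]
      _ = _ := by rw [Matrix.single_mul_single_same, mul_one]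
  · exact hA.trace_eq_sum_eigenvalues
  · intro j
    rw [← hRe j, Matrix.single_mul_single_same, mul_one]

private theorem Rk_mvn {p q v : D} (hp : Pj p) (hq : Pj q) (h1 : star v * v = p)
    (h2 : v * star v = q) : c1 p = c1 q := by
  rw [c1_eq hp, c1_eq hq, cl_eq]
  refine ⟨Matrix.of fun _ _ => v, ?_, ?_⟩
  · ext i j
    simp [Matrix.mul_apply, Matrix.conjTranspose_apply, h1]
  · ext i j
    simp [Matrix.mul_apply, Matrix.conjTranspose_apply, h2]

private theorem Rk_zero : c1 (0 : D) = 0 := by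
  rw [c1_eq VB_zero]
  exact cl_zero Unit

private theorem Rk_sumP {ι : Type*} (s : Finset ι) {p : ι → D} (hp : ∀ i ∈ s, Pj (p i))
    (ho : ∀ i ∈ s, ∀ j ∈ s, i ≠ j → p i * p j = 0) :
    Pj (∑ i ∈ s, p i) ∧ c1 (∑ i ∈ s, p i) = ∑ i ∈ s, c1 (p i) := by
  classical
  induction s using Finset.induction_on with
  | empty => exact ⟨VB_zero, Rk_zero⟩
  | insert a s ha ih =>
    obtain ⟨h1, h2⟩ := ih (fun i hi => hp i (Finset.mem_insert_of_mem hi))
      (fun i hi j hj => ho i (Finset.mem_insert_of_mem hi) j (Finset.mem_insert_of_mem hj))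
    have hpa := hp a (Finset.mem_insert_self a s)
    have h3 : p a * ∑ i ∈ s, p i = 0 := by
      rw [Finset.mul_sum]
      refine Finset.sum_eq_zero fun i hi => ?_
      exact ho a (Finset.mem_insert_self a s) i (Finset.mem_insert_of_mem hi)
        (fun h => ha (h ▸ hi))
    have h4 : (∑ i ∈ s, p i) * p a = 0 := by
      have h5 := congrArg star h3
      rwa [star_mul, hpa.2, h1.2, star_zero] at h5
    rw [Finset.sum_insert ha, Finset.sum_insert ha]
    refine ⟨⟨?_, by rw [star_add, hpa.2, h1.2]⟩, ?_⟩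
    · rw [add_mul, mul_add, mul_add, hpa.1, h1.1, h3, h4, add_zero, zero_add]
    · rw [c1_add hpa h1 h3, h2]

/-- one block -/
private theorem Rk_block {k : ℕ} {n : Fin k → ℕ} (φ : FD n →⋆ₐ[ℂ] D) (l : Fin k)
    {P : Matrix (Fin (n l)) (Fin (n l)) ℂ} (h1 : P * P = P) (h2 : star P = P) :
    ∃ r : ℕ, Matrix.trace P = (r : ℂ) ∧ c1 (φ (Pi.single l P)) = r • c1 (φ (mp n l)) := by
  classical
  obtain ⟨μ, E, W, e1, e2, e3, e4, e5, e6, e7, e8, e9⟩ := Rk_spec h2
  have hPE : ∀ j, P * E j = (μ j : ℂ) • E j := by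
    intro j
    conv_lhs => rw [e1]
    rw [Finset.sum_mul, Finset.sum_eq_single j]
    · rw [smul_mul_assoc, e3]
    · intro i _ hij
      rw [smul_mul_assoc, e2 i j hij, smul_zero]
    · intro h
      exact absurd (Finset.mem_univ j) h
  have hμ : ∀ j, μ j = 0 ∨ μ j = 1 := by
    intro j
    have h3 : (μ j : ℂ) • E j = ((μ j : ℂ) * (μ j : ℂ)) • E j := by
      rw [← hPE j]
      conv_lhs => rw [← h1, mul_assoc, hPE j, mul_smul_comm, hPE j, smul_smul]
    have h4 : ((μ j : ℂ) - (μ j : ℂ) * (μ j : ℂ)) • E j = 0 := by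
      rw [sub_smul, ← h3, sub_self]
    rcases smul_eq_zero.1 h4 with h5 | h5
    · have h6 : (μ j : ℝ) - μ j * μ j = 0 := by exact_mod_cast h5
      have h7 : μ j * (1 - μ j) = 0 := by linarith
      rcases mul_eq_zero.1 h7 with h8 | h8
      · exact Or.inl h8
      · exact Or.inr (by linarith)
    · exact absurd h5 (e5 j)
  obtain ⟨J, hJ⟩ : ∃ J : Finset (Fin (n l)), J = Finset.univ.filter (fun j => μ j = 1) := ⟨_, rfl⟩
  have hsum : P = ∑ j ∈ J, E j := by
    rw [e1, hJ, Finset.sum_filter]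
    refine Finset.sum_congr rfl fun j _ => ?_
    rcases hμ j with h | h
    · rw [h, if_neg (by norm_num)]
      simp
    · rw [h, if_pos rfl]
      simp
  refine ⟨J.card, ?_, ?_⟩
  · rw [e8, hJ, Finset.card_filter]
    push_cast
    refine Finset.sum_congr rfl fun j _ => ?_
    rcases hμ j with h | h
    · rw [h, if_neg (by norm_num)]
      simp
    · rw [h, if_pos rfl]
      simp
  · have hEp : ∀ j ∈ J, Pj (φ (Pi.single l (E j))) := by
      intro j _
      refine ⟨?_, ?_⟩
      · rw [← map_mul, ← Pi.single_mul, e3]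
      · rw [← map_star, ← Pi.single_star, e4]
    have hEo : ∀ i ∈ J, ∀ j ∈ J, i ≠ j →
        φ (Pi.single l (E i)) * φ (Pi.single l (E j)) = 0 := by
      intro i _ j _ hij
      rw [← map_mul, ← Pi.single_mul, e2 i j hij, Pi.single_zero, map_zero]
    have hs : φ (Pi.single l P) = ∑ j ∈ J, φ (Pi.single l (E j)) := by
      rw [← map_sum, hsum]
      congr 1
      exact map_sum (AddMonoidHom.single (fun i => Matrix (Fin (n i)) (Fin (n i)) ℂ) l) E J
    rw [hs, (Rk_sumP J hEp hEo).2]
    have hmp : ∀ j ∈ J, c1 (φ (Pi.single l (E j))) = c1 (φ (mp n l)) := by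
      intro j hj
      have h3 : star (φ (Pi.single l (W j))) * φ (Pi.single l (W j)) = φ (mp n l) := by
        rw [← map_star, ← Pi.single_star, ← map_mul, ← Pi.single_mul, e6]
        rfl
      have h4 : φ (Pi.single l (W j)) * star (φ (Pi.single l (W j))) =
          φ (Pi.single l (E j)) := by
        rw [← map_star, ← Pi.single_star, ← map_mul, ← Pi.single_mul, e7]
      have h5 : Pj (φ (mp n l)) := by
        have h6 : Rk_e (n l) * Rk_e (n l) = Rk_e (n l) := e9 j
        have h7 : star (Rk_e (n l)) = Rk_e (n l) := by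
          rw [← e6 j, star_mul, star_star]
        refine ⟨?_, ?_⟩
        · show φ (Pi.single l (Rk_e (n l))) * φ (Pi.single l (Rk_e (n l))) =
            φ (Pi.single l (Rk_e (n l)))
          rw [← map_mul, ← Pi.single_mul, h6]
        · show star (φ (Pi.single l (Rk_e (n l)))) = φ (Pi.single l (Rk_e (n l)))
          rw [← map_star, ← Pi.single_star, h7]
      exact (Rk_mvn h5 (hEp j hj) h3 h4).symm
    rw [Finset.sum_congr rfl hmp, Finset.sum_const]

theorem class_rank {k : ℕ} {n : Fin k → ℕ} (φ : FD n →⋆ₐ[ℂ] D) {Q : FD n} (hQ : PrF Q) :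
    ∃ r : Fin k → ℕ, (∀ l, Matrix.trace (Q l) = (r l : ℂ)) ∧
      c1 (φ Q) = ∑ l, r l • c1 (φ (mp n l)) := by
  classical
  have h1 : ∀ l, Q l * Q l = Q l := fun l => congrFun hQ.1 l
  have h2 : ∀ l, star (Q l) = Q l := fun l => congrFun hQ.2 l
  choose r hr1 hr2 using fun l => Rk_block φ l (h1 l) (h2 l)
  refine ⟨r, hr1, ?_⟩
  have hs : φ Q = ∑ l, φ (Pi.single l (Q l)) := by
    rw [← map_sum]
    congr 1
    exact (Finset.univ_sum_single Q).symm
  have hp : ∀ l ∈ (Finset.univ : Finset (Fin k)), Pj (φ (Pi.single l (Q l))) := by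
    intro l _
    refine ⟨?_, ?_⟩
    · rw [← map_mul, ← Pi.single_mul, h1]
    · rw [← map_star, ← Pi.single_star, h2]
  have ho : ∀ i ∈ (Finset.univ : Finset (Fin k)), ∀ j ∈ (Finset.univ : Finset (Fin k)), i ≠ j →
      φ (Pi.single i (Q i)) * φ (Pi.single j (Q j)) = 0 := by
    intro i _ j _ hij
    rw [← map_mul]
    have h3 : (Pi.single i (Q i) : FD n) * Pi.single j (Q j) = 0 := by
      funext a
      rw [Pi.mul_apply, Pi.zero_apply]
      by_cases ha : a = i
      · have h4 : (Pi.single j (Q j) : FD n) a = 0 :=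
          Pi.single_eq_of_ne (M := fun i => Matrix (Fin (n i)) (Fin (n i)) ℂ)
            (fun h => hij (ha.symm.trans h)) (Q j)
        rw [h4, mul_zero]
      · have h4 : (Pi.single i (Q i) : FD n) a = 0 :=
          Pi.single_eq_of_ne (M := fun i => Matrix (Fin (n i)) (Fin (n i)) ℂ) ha (Q i)
        rw [h4, zero_mul]
    rw [h3, map_zero]
  rw [hs, (Rk_sumP _ hp ho).2]
  exact Finset.sum_congr rfl fun l _ => hr2 l

theorem tr_nonneg [PartialOrder D] [StarOrderedRing D] {k : ℕ} {n : Fin k → ℕ}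
    {φ : FD n →⋆ₐ[ℂ] D} (hφ : Function.Injective φ) {x : FD n} (hx : 0 ≤ φ x) (l : Fin k) :
    0 ≤ (Matrix.trace (x l)).re := by
  classical
  have hsa : star x = x := by
    apply hφ
    rw [map_star]
    exact (IsSelfAdjoint.of_nonneg hx).star_eq
  have hsl : star (x l) = x l := congrFun hsa l
  obtain ⟨μ, E, W, e1, e2, e3, e4, e5, e6, e7, e8, e9⟩ := Rk_spec hsl
  have hPE : ∀ j, x l * E j = (μ j : ℂ) • E j := by
    intro j
    conv_lhs => rw [e1]
    rw [Finset.sum_mul, Finset.sum_eq_single j]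
    · rw [smul_mul_assoc, e3]
    · intro i _ hij
      rw [smul_mul_assoc, e2 i j hij, smul_zero]
    · intro h
      exact absurd (Finset.mem_univ j) h
  have hμ : ∀ j, 0 ≤ μ j := by
    intro j
    by_contra hneg
    push Not at hneg
    obtain ⟨Q, hQ⟩ : ∃ Q : FD n, Q = Pi.single l (E j) := ⟨_, rfl⟩
    have hQQ : Q * Q = Q := by rw [hQ, ← Pi.single_mul, e3]
    have hQs : star Q = Q := by rw [hQ, ← Pi.single_star, e4]
    have hxQ : Q * x * Q = (μ j : ℂ) • Q := by
      rw [hQ, mul_assoc]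
      have h1 : x * (Pi.single l (E j) : FD n) = Pi.single l (x l * E j) :=
        (Pi.single_mul_right (f := x) (i := l) (E j)).symm
      rw [h1, ← Pi.single_mul, hPE j, mul_smul_comm, e3]
      exact Pi.single_smul (f := fun i => Matrix (Fin (n i)) (Fin (n i)) ℂ) l (μ j : ℂ) (E j)
    have h1 : 0 ≤ φ Q * φ x * φ Q := by
      have h2 := star_left_conjugate_nonneg hx (φ Q)
      rwa [← map_star, hQs] at h2
    rw [← map_mul, ← map_mul, hxQ, map_smul] at h1
    have h2 : 0 ≤ φ Q := by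
      have h3 : star (φ Q) * φ Q = φ Q := by rw [← map_star, hQs, ← map_mul, hQQ]
      rw [← h3]
      exact star_mul_self_nonneg _
    have h3 : (μ j : ℂ) • φ Q = μ j • φ Q := by
      rw [Complex.coe_smul]
    rw [h3] at h1
    have h4 : μ j • φ Q ≤ 0 := smul_nonpos_of_nonpos_of_nonneg hneg.le h2
    have h5 : μ j • φ Q = 0 := le_antisymm h4 h1
    rcases smul_eq_zero.1 h5 with h6 | h6
    · exact hneg.ne h6
    · have h7 : Q = 0 := hφ (by rw [h6, map_zero])
      have h8 := congrFun h7 l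
      rw [hQ, Pi.single_eq_same] at h8
      exact e5 j h8
  rw [e8, Complex.re_sum]
  refine Finset.sum_nonneg fun j _ => ?_
  rw [Complex.ofReal_re]
  exact hμ j

end Pool.Agent.H.MP_8be301_an.CX
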