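import Pool.Agent.H.MP_8be301_an.CX.Gr

/-!
# Divisible elements: the type monoid is almost unperforated for every group  (module Wd)
-/

set_option autoImplicit false

namespace Pool.Agent.H.MP_8be301_an.CX

open Pool.Agent.H.MP_8be301_an.DP

variable {V : Type*} [AddCommMonoid V]

/-- every element below `x` is of the form `n a + (n + 1) b` for every `n` -/
def Dvb (x : V) : Prop := ∀ y : V, Le y x → ∀ n : ℕ, ∃ a b : V, y = n • a + (n + 1) • b

theorem Wd_one {ι : Type*} [Fintype ι] (f : ι → V) (i : ι) : Le (f i) (∑ j, f j) := by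
  classical
  have h := Gr_sub (Finset.subset_univ {i}) f
  rwa [Finset.sum_singleton] at h

theorem Dvb.le {x y : V} (hx : Dvb x) (h : Le y x) : Dvb y := fun z hz => hx z (hz.trans h)

/-- sums of divisible pieces -/
theorem Wd_sum {ι : Type*} [Fintype ι] {z : ι → V} {n : ℕ}
    (h : ∀ i, ∃ a b : V, z i = n • a + (n + 1) • b) :
    ∃ a b : V, ∑ i, z i = n • a + (n + 1) • b := by
  choose a b hab using h
  refine ⟨∑ i, a i, ∑ i, b i, ?_⟩
  rw [Finset.smul_sum, Finset.smul_sum, ← Finset.sum_add_distrib]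
  exact Finset.sum_congr rfl fun i _ => hab i

theorem Dvb.sum (hV : Refi V) {ι : Type*} [Fintype ι] [Nonempty ι] {x : ι → V}
    (hx : ∀ i, Dvb (x i)) : Dvb (∑ i, x i) := by
  rintro y ⟨w, hw⟩ n
  obtain ⟨c, h1, h2⟩ := refi_fin hV (ι := Fin 2) (κ := ι) (a := ![y, w]) (b := x) (by
    rw [Fin.sum_univ_two]
    simpa using hw)
  have h3 : y = ∑ k, c 0 k := h1 0
  rw [h3]
  refine Wd_sum fun k => ?_
  have h4 : Le (c 0 k) (x k) := by
    rw [h2 k]
    exact Wd_one (fun i => c i k) 0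
  exact hx k _ h4 n

theorem Dvb.act {Γ : Type*} [Group Γ] (ρ : Ac Γ V) {x : V} (hx : Dvb x) (g : Γ) :
    Dvb (ρ g x) := by
  intro y hy n
  have h1 : Le (ρ g⁻¹ y) x := by
    have h2 := Gr_map (ρ g⁻¹) hy
    rwa [← ρ.mul, inv_mul_cancel, ρ.one] at h2
  obtain ⟨a, b, h3⟩ := hx _ h1 n
  refine ⟨ρ g a, ρ g b, ?_⟩
  have h4 := congrArg (ρ g) h3
  rwa [← ρ.mul, mul_inv_cancel, ρ.one, map_add, map_nsmul, map_nsmul] at h4

theorem Dvb.nsmul (hV : Refi V) {x : V} (hx : Dvb x) (t : ℕ) : Dvb (t • x) := by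
  rcases t with _ | t
  · exact hx.le (by rw [zero_nsmul]; exact Mon_zero x)
  · have h := Dvb.sum hV (ι := Fin (t + 1)) (x := fun _ => x) fun _ => hx
    rwa [Finset.sum_const, Finset.card_univ, Fintype.card_fin] at h

/-- divisibility passes to elements that can be cut and moved below a divisible element -/
theorem Dvb.leM (hV : Refi V) {Γ : Type*} [Group Γ] {ρ : Ac Γ V} {x y : V} (hy : Dvb y)
    (h : LeM ρ x y) : Dvb x := by
  obtain ⟨n, z, g, hx, hz⟩ := h
  rcases isEmpty_or_nonempty (Fin n) with h | h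
  · refine hy.le ?_
    have h0 : x = 0 := by
      rw [hx]
      exact Finset.sum_of_isEmpty _
    rw [h0]
    exact Mon_zero y
  rw [hx]
  refine Dvb.sum hV fun i => ?_
  have h1 : Dvb (ρ (g i) (z i)) := (hy.le hz).le (Wd_one (fun i => ρ (g i) (z i)) i)
  have h2 := h1.act ρ (g i)⁻¹
  rwa [← ρ.mul, inv_mul_cancel, ρ.one] at h2

/-- **The type monoid is almost unperforated** (for an arbitrary group). -/
theorem Wd_main {Γ : Type*} [Group Γ] {ρ : Ac Γ V} (hV : Refi V) (hA : AlmU V) {x y : V}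
    {k : ℕ} (hx : Dvb x) (h : LeM ρ ((k + 1) • x) (k • y)) : LeM ρ x y := by
  obtain ⟨l, z, g, hz, hle⟩ := h.nsmul 3
  have hN : Dvb (∑ i, z i) := by
    rw [← hz]
    exact (hx.nsmul hV _).nsmul hV _
  have hd : ∀ i, ∃ a b : V, z i = (3 * k + 1) • a + (3 * k + 1 + 1) • b := fun i =>
    hN _ (Wd_one z i) _
  choose v w hvw using hd
  obtain ⟨q, hq⟩ : ∃ q, q = ∑ i, (v i + w i) := ⟨_, rfl⟩
  have h1 : Le x q := by
    refine hA (3 * k + 1 + 1) _ _ ?_
    have e : (3 * k + 1 + 1 + 1) • x = ∑ i, z i := by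
      rw [← hz, ← mul_nsmul]
      congr 1
      ring
    rw [e, hq, Finset.smul_sum]
    refine Gr_sum _ fun i _ => ?_
    rw [hvw i, nsmul_add]
    exact (Gr_smul (Nat.le_succ _) _).add (Le.refl _)
  have h2 : Le (∑ i, ρ (g i) (v i + w i)) y := by
    refine hA (3 * k) _ _ ?_
    have h3 : Le ((3 * k + 1) • ∑ i, ρ (g i) (v i + w i)) (∑ i, ρ (g i) (z i)) := by
      rw [Finset.smul_sum]
      refine Gr_sum _ fun i _ => ?_
      rw [← map_nsmul, hvw i, nsmul_add]
      exact Gr_map _ ((Le.refl _).add (Gr_smul (Nat.le_succ _) _))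
    have e : (3 * k) • y = 3 • k • y := by
      rw [← mul_nsmul]
      congr 1
      ring
    rw [e]
    exact h3.trans hle
  exact LeM.trans hV (LeM.of_le h1) ⟨l, fun i => v i + w i, g, hq, h2⟩

/-- numbers -/
theorem Wd_num (n M : ℕ) (h : n * n ≤ M) : ∃ a b : ℕ, M = n * a + (n + 1) * b := by
  rcases Nat.eq_zero_or_pos n with h0 | h0
  · exact ⟨0, M, by rw [h0]; ring⟩
  · have h1 : M % n < n := Nat.mod_lt _ h0
    have h2 : n ≤ M / n := (Nat.le_div_iff_mul_le h0).2 h
    refine ⟨M / n - M % n, M % n, ?_⟩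
    have h3 := Nat.div_add_mod M n
    obtain ⟨c, hc⟩ := Nat.exists_eq_add_of_le (h1.le.trans h2)
    rw [hc, Nat.add_sub_cancel_left]
    rw [hc] at h3
    nlinarith [h3]

/-- a decomposition of an element below a multiple -/
theorem Wd_mul (hV : Refi V) {y t : V} {m : ℕ} (h : Le y (m • t)) :
    ∃ (κ : Type) (_ : Fintype κ) (s : κ → V) (d : κ → ℕ), t = ∑ i, s i ∧
      y = ∑ i, d i • s i := by
  classical
  obtain ⟨u, hu⟩ := h.trans (Gr_smul (Nat.le_succ m) t)
  obtain ⟨c, h1, h2⟩ := refi_fin hV (ι := Fin (m + 1)) (κ := Bool)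
    (a := fun _ => t) (b := fun b => if b then y else u) (by
      rw [Fintype.sum_bool, Finset.sum_const, Finset.card_univ, Fintype.card_fin]
      simp only [if_true, Bool.false_eq_true, if_false]
      exact hu.symm)
  obtain ⟨s, h3, h4⟩ := common hV (m + 1) (x := t) c (fun j => (h1 j).symm)
  refine ⟨Fin (m + 1) → Bool, inferInstance, s,
    fun σ => (Finset.univ.filter fun j => σ j = true).card, h3, ?_⟩
  have h5 : y = ∑ j, c j true := by
    have := h2 true
    simpa using this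
  calc y = ∑ j, ∑ σ with σ j = true, s σ := by
        rw [h5]
        exact Finset.sum_congr rfl fun j _ => h4 j true
    _ = ∑ j, ∑ σ, if σ j = true then s σ else 0 :=
        Finset.sum_congr rfl fun j _ => Finset.sum_filter _ _
    _ = ∑ σ, ∑ j, if σ j = true then s σ else 0 := Finset.sum_comm
    _ = ∑ σ, (Finset.univ.filter fun j => σ j = true).card • s σ := by
        refine Finset.sum_congr rfl fun σ _ => ?_
        rw [← Finset.sum_filter, Finset.sum_const]

/-- the halving condition below `x` -/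
def Hlv (x : V) : Prop := ∀ y : V, Le y x → ∃ (t : V) (m : ℕ), Le (2 • t) y ∧ Le y (m • t)

theorem Hlv.pow {x : V} (h : Hlv x) {y : V} (hy : Le y x) (k : ℕ) :
    ∃ (t : V) (m : ℕ), Le t y ∧ Le (2 ^ k • t) y ∧ Le y (m • t) := by
  induction k with
  | zero =>
    refine ⟨y, 1, Le.refl y, ?_, ?_⟩
    · rw [pow_zero, one_smul]
      exact Le.refl y
    · rw [one_smul]
      exact Le.refl y
  | succ k ih =>
    obtain ⟨t, m, h1, h2, h3⟩ := ih
    obtain ⟨t', m', h4, h5⟩ := h t (h1.trans hy)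
    have h6 : Le t' t := by
      have h7 := Gr_smul one_le_two t'
      rw [one_smul] at h7
      exact h7.trans h4
    refine ⟨t', m * m', h6.trans h1, ?_, ?_⟩
    · have e : 2 ^ (k + 1) • t' = 2 ^ k • 2 • t' := by
        rw [pow_succ, mul_comm, mul_nsmul]
      rw [e]
      exact (Gr_nsmul _ h4).trans h2
    · have e : (m * m') • t' = m • m' • t' := by
        rw [mul_comm, mul_nsmul]
      rw [e]
      exact h3.trans (Gr_nsmul _ h5)

/-- halving gives divisibility -/
theorem Hlv.dvb (hV : Refi V) {x : V} (h : Hlv x) : Dvb x := by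
  classical
  intro y hy n
  obtain ⟨t, m, hty, ht, hm⟩ := h.pow hy (n * n)
  obtain ⟨y', hy'⟩ := (Gr_smul (Nat.lt_two_pow_self (n := n * n)).le t).trans ht
  have hy2 : Le y' y := ⟨(n * n) • t, by rw [add_comm]; exact hy'⟩
  obtain ⟨κ, _, s, d, h3, h4⟩ := Wd_mul hV (hy2.trans hm)
  have h5 : y = ∑ i, (n * n + d i) • s i := by
    rw [← hy', h4]
    conv_lhs => rw [h3]
    rw [Finset.smul_sum, ← Finset.sum_add_distrib]
    exact Finset.sum_congr rfl fun i _ => (add_smul _ _ _).symm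
  rw [h5]
  refine Wd_sum fun i => ?_
  obtain ⟨a, b, hab⟩ := Wd_num n (n * n + d i) (Nat.le_add_right _ _)
  refine ⟨a • s i, b • s i, ?_⟩
  rw [hab, add_smul, mul_comm n a, mul_comm (n + 1) b, mul_nsmul, mul_nsmul]

/-- simple without minimal elements -/
theorem Hlv.simple (hV : Refi V) {x : V} (h1 : ∀ y z : V, Le y x → Le z x → z ≠ 0 →
    ∃ m : ℕ, Le y (m • z)) (h2 : ∀ y : V, Le y x → y ≠ 0 → ∃ a b : V, a ≠ 0 ∧ b ≠ 0 ∧
      y = a + b) : Hlv x := by
  intro t htx
  by_cases ht0 : t = 0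
  · exact ⟨0, 0, by rw [ht0, nsmul_zero]; exact Le.refl 0, by rw [ht0, nsmul_zero]; exact Le.refl 0⟩
  obtain ⟨a, b, ha, hb, hab⟩ := h2 t htx ht0
  have hat : Le a t := ⟨b, hab.symm⟩
  have hbt : Le b t := ⟨a, by rw [add_comm]; exact hab.symm⟩
  obtain ⟨m, hm⟩ := h1 a b (hat.trans htx) (hbt.trans htx) hb
  obtain ⟨κ, _, s, d, h3, h4⟩ := Wd_mul hV hm
  have h5 : ∃ i, d i • s i ≠ 0 := by
    by_contra h6
    push Not at h6
    exact ha (by rw [h4]; exact Finset.sum_eq_zero fun i _ => h6 i)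
  obtain ⟨i, hi⟩ := h5
  have hs0 : s i ≠ 0 := by
    intro h6
    exact hi (by rw [h6, smul_zero])
  have hd0 : 1 ≤ d i := by
    rcases Nat.eq_zero_or_pos (d i) with h6 | h6
    · exact absurd (by rw [h6, zero_smul]) hi
    · exact h6
  have hsa : Le (s i) a := by
    have h6 := Gr_smul hd0 (s i)
    rw [one_smul] at h6
    refine h6.trans ?_
    rw [h4]
    exact Wd_one (fun i => d i • s i) i
  have hsb : Le (s i) b := by
    rw [h3]
    exact Wd_one s i
  have h2s : Le (2 • s i) t := by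
    rw [two_smul, hab]
    exact hsa.add hsb
  obtain ⟨m', hm'⟩ := h1 t (s i) htx (hsa.trans (hat.trans htx)) hs0
  exact ⟨s i, m', h2s, hm'⟩

theorem Wd_two {Γ : Type*} [Group Γ] {ρ : Ac Γ V} (hV : Refi V) (hA : AlmU V) {x : V}
    {k : ℕ} (hx : Dvb x) (h : LeM ρ ((k + 1) • x) (k • x)) : LeM ρ (2 • x) x := by
  refine Wd_main hV hA (k := k) (hx.nsmul hV 2) ?_
  have h1 := Gr_iter hV h (k + 2)
  have e : (k + 1) • 2 • x = (k + (k + 2)) • x := by
    rw [← mul_nsmul]
    congr 1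
    ring
  rw [e]
  exact h1

end Pool.Agent.H.MP_8be301_an.CX
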